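import Pool.Agent.P.MP_cb4022_pr.Defs

open scoped Classical Matrix
open Finset

noncomputable section

namespace Pool.Agent.TAF

theorem slot_zero {n : ℕ} (σ : St n) : slot σ 0 = true := by
  simp [slot]

theorem slot_succ {n : ℕ} (σ : St n) (k : Fin (n + 1)) : slot σ (k.val + 1) = σ k := by
  have := k.2
  rw [slot, dif_pos ⟨by omega, by omega⟩]
  rfl

theorem slot_big {n : ℕ} (σ : St n) {j : ℕ} (h : n + 1 < j) : slot σ j = true := by
  rw [slot, dif_neg (by omega)]

theorem slot_eAll (n j : ℕ) : slot (eAll n) j = true := by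
  unfold slot
  split_ifs <;> rfl

theorem St.ext_slot {n : ℕ} {σ σ' : St n} (h : ∀ j, 1 ≤ j → j ≤ n + 1 → slot σ j = slot σ' j) :
    σ = σ' := by
  funext k
  have := k.2
  rw [← slot_succ σ, ← slot_succ σ']
  exact h _ (by omega) (by omega)

theorem slot_flip {n : ℕ} (j i : ℕ) (σ : St n) :
    slot (flipFrom j σ) i = if j < i ∧ i ≤ n + 1 then !slot σ i else slot σ i := by
  unfold slot flipFrom
  split_ifs <;> first | rfl | omega | (simp only at *; omega)

theorem flipFrom_invol {n : ℕ} (j : ℕ) : Function.Involutive (flipFrom (n := n) j) := by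
  intro σ
  funext k
  unfold flipFrom
  split_ifs <;> simp

theorem flipFrom_comm {n : ℕ} (i j : ℕ) (σ : St n) :
    flipFrom i (flipFrom j σ) = flipFrom j (flipFrom i σ) := by
  funext k
  unfold flipFrom
  split_ifs <;> rfl

theorem cliff_sg_sq (b : Bool) : sg b * sg b = 1 := by
  cases b <;> simp [sg]

theorem cliff_sg_not (b : Bool) : sg (!b) = -sg b := by
  cases b <;> simp [sg]

theorem cliff_Phi_mul {n : ℕ} (j : ℕ) (M : Matrix (St n) (St n) ℝ) (s t : St n) :
    (Phi n j * M) s t = M (flipFrom j s) t := by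
  rw [Matrix.mul_apply, Finset.sum_eq_single (flipFrom j s)]
  · simp [Phi, flipFrom_invol j s]
  · intro u _ hu
    have : s ≠ flipFrom j u := fun h => hu (by rw [h, flipFrom_invol j u])
    simp [Phi, this]
  · simp

theorem sig_mul_self (n j : ℕ) : sig n j * sig n j = 1 := by
  simp only [sig, Matrix.diagonal_mul_diagonal, cliff_sg_sq, Matrix.diagonal_one]

theorem sig_transpose (n j : ℕ) : (sig n j)ᵀ = sig n j := Matrix.diagonal_transpose _

theorem sig_comm (n i j : ℕ) : sig n i * sig n j = sig n j * sig n i := by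
  simp only [sig, Matrix.diagonal_mul_diagonal, mul_comm]

theorem Phi_mul_self (n j : ℕ) : Phi n j * Phi n j = 1 := by
  ext s t
  rw [cliff_Phi_mul, Matrix.one_apply]
  simp only [Phi, Matrix.of_apply, (flipFrom_invol j).injective.eq_iff]

theorem Phi_transpose (n j : ℕ) : (Phi n j)ᵀ = Phi n j := by
  ext s t
  simp only [Phi, Matrix.transpose_apply, Matrix.of_apply]
  exact if_congr ⟨fun h => by rw [h, flipFrom_invol j s], fun h => by rw [h, flipFrom_invol j t]⟩
    rfl rfl

theorem Phi_comm (n i j : ℕ) : Phi n i * Phi n j = Phi n j * Phi n i := by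
  ext s t
  rw [← mul_one (Phi n i * Phi n j), ← mul_one (Phi n j * Phi n i), mul_assoc, mul_assoc,
    cliff_Phi_mul, cliff_Phi_mul, cliff_Phi_mul, cliff_Phi_mul, flipFrom_comm]

theorem Phi_sig (n j i : ℕ) :
    Phi n j * sig n i = (if j < i ∧ i ≤ n + 1 then (-1 : ℝ) else 1) • (sig n i * Phi n j) := by
  ext s t
  rw [sig, Matrix.mul_diagonal, Matrix.smul_apply, Matrix.diagonal_mul, Phi, Matrix.of_apply]
  by_cases h : s = flipFrom j t
  · rw [if_pos h, h, slot_flip]
    split_ifs <;> simp [cliff_sg_not]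
  · simp [h]

theorem mA_apply (n j : ℕ) (σ' σ : St n) :
    mA n j σ' σ = if σ' = flipFrom j σ then sg (slot σ' j) else 0 := by
  simp [mA, sig, Phi, Matrix.diagonal_mul]

theorem mB_apply (n j : ℕ) (σ' σ : St n) :
    mB n j σ' σ = if σ' = flipFrom j σ then sg (slot σ' (j + 1)) else 0 := by
  simp [mB, sig, Phi, Matrix.diagonal_mul]

theorem mA_transpose (n j : ℕ) : (mA n j)ᵀ = mA n j := by
  rw [mA, Matrix.transpose_mul, Phi_transpose, sig_transpose, Phi_sig, if_neg (by omega), one_smul]

theorem mB_transpose {n j : ℕ} (hj : j ≤ n) : (mB n j)ᵀ = -mB n j := by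
  rw [mB, Matrix.transpose_mul, Phi_transpose, sig_transpose, Phi_sig, if_pos (by omega),
    neg_one_smul]

theorem cliff_anti (n a b j k : ℕ) :
    sig n a * Phi n j * (sig n b * Phi n k) + sig n b * Phi n k * (sig n a * Phi n j) =
      ((if j < b ∧ b ≤ n + 1 then (-1 : ℝ) else 1) + if k < a ∧ a ≤ n + 1 then (-1 : ℝ) else 1) •
        (sig n a * sig n b * (Phi n j * Phi n k)) := by
  have key : ∀ a b j k, sig n a * Phi n j * (sig n b * Phi n k) =
      (if j < b ∧ b ≤ n + 1 then (-1 : ℝ) else 1) • (sig n a * sig n b * (Phi n j * Phi n k)) := by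
    intro a b j k
    rw [mul_assoc, ← mul_assoc (Phi n j), Phi_sig]
    simp only [smul_mul_assoc, mul_smul_comm, mul_assoc]
  rw [key, key, sig_comm n b a, Phi_comm n k j, add_smul]

theorem mA_mA {n j k : ℕ} (hj : j ≤ n) (hk : k ≤ n) :
    mA n j * mA n k + mA n k * mA n j = (if j = k then (2 : ℝ) else 0) • 1 := by
  rw [mA, mA, cliff_anti]
  rcases lt_trichotomy j k with h | rfl | h
  · rw [if_pos (by omega), if_neg (by omega), if_neg (by omega)]
    simp
  · rw [if_neg (by omega), if_pos rfl, sig_mul_self, Phi_mul_self]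
    norm_num
  · rw [if_neg (by omega), if_pos (by omega), if_neg (by omega)]
    simp

theorem mB_mB {n j k : ℕ} (hj : j ≤ n) (hk : k ≤ n) :
    mB n j * mB n k + mB n k * mB n j = (if j = k then (-2 : ℝ) else 0) • 1 := by
  rw [mB, mB, cliff_anti]
  rcases lt_trichotomy j k with h | rfl | h
  · rw [if_pos (by omega), if_neg (by omega), if_neg (by omega)]
    simp
  · rw [if_pos (by omega), if_pos rfl, sig_mul_self, Phi_mul_self]
    norm_num
  · rw [if_neg (by omega), if_pos (by omega), if_neg (by omega)]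
    simp

theorem mA_mB {n j k : ℕ} (hj : j ≤ n) (hk : k ≤ n) :
    mA n j * mB n k + mB n k * mA n j = 0 := by
  rw [mA, mB, cliff_anti]
  rcases le_or_gt j k with h | h
  · rw [if_pos (by omega), if_neg (by omega)]
    simp
  · rw [if_neg (by omega), if_pos (by omega)]
    simp

end Pool.Agent.TAF
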