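import Pool.Agent.P.MP_cb4022_pr.Defs

open scoped Classical Matrix
open Finset

noncomputable section

namespace Pool.Agent.TAF

set_option linter.unusedSectionVars false

variable {S : Type} [Fintype S] [DecidableEq S] {C : Type}

theorem nrm_eq_norm (w : S → ℝ) : nrm w = ‖(WithLp.toLp 2 w : EuclideanSpace ℝ S)‖ := by
  rw [EuclideanSpace.norm_eq, nrm, dotProduct]
  simp only [Real.norm_eq_abs, sq, abs_mul_abs_self]

theorem nrm_dot_nonneg (w : S → ℝ) : 0 ≤ w ⬝ᵥ w := Finset.sum_nonneg fun _ _ => mul_self_nonneg _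

theorem nrm_nonneg (w : S → ℝ) : 0 ≤ nrm w := Real.sqrt_nonneg _

theorem nrm_sq (w : S → ℝ) : nrm w ^ 2 = w ⬝ᵥ w := Real.sq_sqrt (nrm_dot_nonneg w)

theorem nrm_zero : nrm (0 : S → ℝ) = 0 := by simp [nrm]

theorem nrm_add_le (w w' : S → ℝ) : nrm (w + w') ≤ nrm w + nrm w' := by
  simp only [nrm_eq_norm, WithLp.toLp_add]
  exact norm_add_le _ _

theorem nrm_sub_le (w w' : S → ℝ) : nrm (w - w') ≤ nrm w + nrm w' := by
  simp only [nrm_eq_norm, WithLp.toLp_sub]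
  exact norm_sub_le _ _

theorem nrm_smul (c : ℝ) (w : S → ℝ) : nrm (c • w) = |c| * nrm w := by
  simp only [nrm_eq_norm, WithLp.toLp_smul, norm_smul, Real.norm_eq_abs]

theorem nrm_neg (w : S → ℝ) : nrm (-w) = nrm w := by simp [nrm]

theorem nrm_abs (w : S → ℝ) : nrm (fun i => |w i|) = nrm w := by
  simp only [nrm, dotProduct, abs_mul_abs_self]

theorem nrm_mono {w w' : S → ℝ} (h : ∀ i, |w i| ≤ w' i) : nrm w ≤ nrm w' := by
  refine Real.sqrt_le_sqrt (Finset.sum_le_sum fun i _ => ?_)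
  rw [← abs_mul_abs_self]
  exact mul_self_le_mul_self (abs_nonneg _) (h i)

theorem abs_dot_le (w w' : S → ℝ) : |w ⬝ᵥ w'| ≤ nrm w * nrm w' := by
  refine abs_le_of_sq_le_sq' ?_ (mul_nonneg (nrm_nonneg _) (nrm_nonneg _)) |> abs_le.2
  rw [mul_pow, nrm_sq, nrm_sq]
  simpa only [dotProduct, sq] using Finset.sum_mul_sq_le_sq_mul_sq Finset.univ w w'

theorem nrm_eq_one {w : S → ℝ} (h : w ⬝ᵥ w = 1) : nrm w = 1 := by
  rw [nrm, h, Real.sqrt_one]

theorem nrm_le_sum (w : S → ℝ) : nrm w ≤ ∑ i, |w i| := by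
  refine Real.sqrt_le_iff.2 ⟨Finset.sum_nonneg fun _ _ => abs_nonneg _, ?_⟩
  rw [sq, Finset.sum_mul, dotProduct]
  refine Finset.sum_le_sum fun i _ => ?_
  rw [← abs_mul_abs_self]
  exact mul_le_mul_of_nonneg_left
    (Finset.single_le_sum (f := fun i => |w i|) (fun _ _ => abs_nonneg _) (Finset.mem_univ i))
    (abs_nonneg _)

theorem nrm_transpose_le {E : Matrix S S ℝ} {r : ℝ} (hr : 0 ≤ r)
    (h : ∀ w, nrm (E *ᵥ w) ≤ r * nrm w) (w : S → ℝ) : nrm (Eᵀ *ᵥ w) ≤ r * nrm w := by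
  rcases (nrm_nonneg (Eᵀ *ᵥ w)).eq_or_lt with h0 | h0
  · rw [← h0]
    exact mul_nonneg hr (nrm_nonneg _)
  refine le_of_mul_le_mul_right ?_ h0
  have e : (Eᵀ *ᵥ w) ⬝ᵥ (Eᵀ *ᵥ w) = w ⬝ᵥ (E *ᵥ (Eᵀ *ᵥ w)) := by
    rw [Matrix.dotProduct_mulVec w E, Matrix.mulVec_transpose]
  calc nrm (Eᵀ *ᵥ w) * nrm (Eᵀ *ᵥ w) = w ⬝ᵥ (E *ᵥ (Eᵀ *ᵥ w)) := by rw [← sq, nrm_sq, e]
    _ ≤ nrm w * nrm (E *ᵥ (Eᵀ *ᵥ w)) := (le_abs_self _).trans (abs_dot_le _ _)
    _ ≤ nrm w * (r * nrm (Eᵀ *ᵥ w)) := mul_le_mul_of_nonneg_left (h _) (nrm_nonneg _)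
    _ = r * nrm w * nrm (Eᵀ *ᵥ w) := by ring

theorem Dom.op {E : Matrix S S ℝ} {r : ℝ} (h : Dom E r) (w : S → ℝ) :
    nrm (E *ᵥ w) ≤ r * nrm w := by
  obtain ⟨E', h1, h2⟩ := h
  rw [← nrm_abs w]
  refine (nrm_mono fun i => ?_).trans (h2 _)
  refine (Finset.abs_sum_le_sum_abs _ _).trans (Finset.sum_le_sum fun j _ => ?_)
  rw [abs_mul]
  exact mul_le_mul_of_nonneg_right (h1 i j) (abs_nonneg _)

theorem Dom.mono {E : Matrix S S ℝ} {r r' : ℝ} (h : Dom E r) (hr : r ≤ r') : Dom E r' := by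
  obtain ⟨E', h1, h2⟩ := h
  exact ⟨E', h1, fun w => (h2 w).trans (mul_le_mul_of_nonneg_right hr (nrm_nonneg _))⟩

theorem Dom.add {E F : Matrix S S ℝ} {r r' : ℝ} (h : Dom E r) (h' : Dom F r') :
    Dom (E + F) (r + r') := by
  obtain ⟨E', h1, h2⟩ := h
  obtain ⟨F', h3, h4⟩ := h'
  refine ⟨E' + F', fun i j => (abs_add_le _ _).trans (add_le_add (h1 i j) (h3 i j)), fun w => ?_⟩
  rw [Matrix.add_mulVec, add_mul]
  exact (nrm_add_le _ _).trans (add_le_add (h2 w) (h4 w))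

theorem Dom.neg {E : Matrix S S ℝ} {r : ℝ} (h : Dom E r) : Dom (-E) r := by
  obtain ⟨E', h1, h2⟩ := h
  exact ⟨E', fun i j => (abs_neg (E i j)).trans_le (h1 i j), h2⟩

theorem Dom.smul {E : Matrix S S ℝ} {r : ℝ} (h : Dom E r) (c : ℝ) : Dom (c • E) (|c| * r) := by
  obtain ⟨E', h1, h2⟩ := h
  refine ⟨|c| • E', fun i j => ?_, fun w => ?_⟩
  · rw [Matrix.smul_apply, Matrix.smul_apply, smul_eq_mul, smul_eq_mul, abs_mul]
    exact mul_le_mul_of_nonneg_left (h1 i j) (abs_nonneg _)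
  · rw [Matrix.smul_mulVec, nrm_smul, abs_abs, mul_assoc]
    exact mul_le_mul_of_nonneg_left (h2 w) (abs_nonneg _)

theorem Dom.mul {E F : Matrix S S ℝ} {r r' : ℝ} (h : Dom E r) (h' : Dom F r') (hr : 0 ≤ r) :
    Dom (E * F) (r * r') := by
  obtain ⟨E', h1, h2⟩ := h
  obtain ⟨F', h3, h4⟩ := h'
  refine ⟨E' * F', fun i j => ?_, fun w => ?_⟩
  · rw [Matrix.mul_apply, Matrix.mul_apply]
    refine (Finset.abs_sum_le_sum_abs _ _).trans (Finset.sum_le_sum fun k _ => ?_)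
    rw [abs_mul]
    exact mul_le_mul (h1 i k) (h3 k j) (abs_nonneg _) ((abs_nonneg _).trans (h1 i k))
  · rw [← Matrix.mulVec_mulVec, mul_assoc]
    exact (h2 _).trans (mul_le_mul_of_nonneg_left (h4 w) hr)

theorem Dom.sum {ι : Type} (s : Finset ι) {E : ι → Matrix S S ℝ} {r : ι → ℝ}
    (h : ∀ i ∈ s, Dom (E i) (r i)) : Dom (∑ i ∈ s, E i) (∑ i ∈ s, r i) := by
  induction s using Finset.induction_on with
  | empty => exact ⟨0, fun i j => by simp, fun w => by simp [nrm_zero]⟩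
  | insert a s ha ih =>
    rw [Finset.sum_insert ha, Finset.sum_insert ha]
    exact (h a (Finset.mem_insert_self a s)).add (ih fun i hi => h i (Finset.mem_insert_of_mem hi))

theorem Dom.of_nonneg {E : Matrix S S ℝ} {r : ℝ} (h0 : ∀ i j, 0 ≤ E i j)
    (h : ∀ w, nrm (E *ᵥ w) ≤ r * nrm w) : Dom E r :=
  ⟨E, fun i j => (abs_of_nonneg (h0 i j)).le, h⟩

theorem Dom.of_le {E F : Matrix S S ℝ} {r : ℝ} (h : Dom F r) (hle : ∀ i j, |E i j| ≤ |F i j|) :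
    Dom E r := by
  obtain ⟨F', h1, h2⟩ := h
  exact ⟨F', fun i j => (hle i j).trans (h1 i j), h2⟩

theorem dom_perm {E : Matrix S S ℝ} (π : S → S) (hπ : Function.Involutive π)
    (h : ∀ i j, |E i j| ≤ if i = π j then 1 else 0) : Dom E 1 := by
  refine ⟨Matrix.of fun i j => if i = π j then 1 else 0, h, fun w => ?_⟩
  have e : (Matrix.of fun i j => if i = π j then (1 : ℝ) else 0) *ᵥ w = fun i => w (π i) := by
    funext i
    rw [Matrix.mulVec, dotProduct, Finset.sum_eq_single (π i)]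
    · simp [hπ i]
    · intro j _ hj
      have h1 : i ≠ π j := fun h2 => hj (by rw [h2, hπ j])
      simp [h1]
    · simp
  rw [e, one_mul, nrm, nrm, dotProduct, dotProduct,
    hπ.bijective.sum_comp fun i => w i * w i]

end Pool.Agent.TAF
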