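import Pool.Agent.P.MP_cb4022_pr.Defs
import Pool.Agent.P.MP_cb4022_pr.Nrm
import Pool.Agent.P.MP_cb4022_pr.Cliff

open scoped Classical Matrix
open Finset

noncomputable section

namespace Pool.Agent.TAF

theorem gam_add (n : ℕ) (u v u' v' : ℕ → ℝ) :
    gam n (u + u') (v + v') = gam n u v + gam n u' v' := by
  simp only [gam, Pi.add_apply, add_smul, ← sum_add_distrib]
  exact sum_congr rfl fun j _ => by abel

theorem gam_smul (n : ℕ) (c : ℝ) (u v : ℕ → ℝ) : gam n (c • u) (c • v) = c • gam n u v := by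
  simp only [gam, Pi.smul_apply, smul_eq_mul, smul_sum, smul_add, mul_smul]

theorem gam_sub (n : ℕ) (u v u' v' : ℕ → ℝ) :
    gam n (u - u') (v - v') = gam n u v - gam n u' v' := by
  simp only [gam, Pi.sub_apply, sub_smul, ← sum_sub_distrib]
  exact sum_congr rfl fun j _ => by abel

theorem gam_split (n : ℕ) (u v : ℕ → ℝ) : gam n u v = gam n u 0 + gam n 0 v := by
  rw [← gam_add, add_zero, zero_add]

theorem gam_sum {ι : Type} (n : ℕ) (s : Finset ι) (c : ι → ℝ) (u v : ι → ℕ → ℝ) :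
    gam n (∑ k ∈ s, c k • u k) (∑ k ∈ s, c k • v k) = ∑ k ∈ s, c k • gam n (u k) (v k) := by
  induction s using Finset.induction_on with
  | empty => simp [gam]
  | insert a s ha ih => rw [sum_insert ha, sum_insert ha, sum_insert ha, gam_add, gam_smul, ih]

theorem gam_congr {n : ℕ} {u v u' v' : ℕ → ℝ} (hu : ∀ j ≤ n, u j = u' j)
    (hv : ∀ j ≤ n, v j = v' j) : gam n u v = gam n u' v' := by
  refine sum_congr rfl fun j hj => ?_
  rw [hu j (Nat.lt_succ_iff.1 (mem_range.1 hj)), hv j (Nat.lt_succ_iff.1 (mem_range.1 hj))]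

theorem gam_transpose (n : ℕ) (u v : ℕ → ℝ) : (gam n u v)ᵀ = gam n u (-v) := by
  rw [gam, gam, Matrix.transpose_sum]
  refine sum_congr rfl fun j hj => ?_
  rw [Matrix.transpose_add, Matrix.transpose_smul, Matrix.transpose_smul, mA_transpose,
    mB_transpose (Nat.lt_succ_iff.1 (mem_range.1 hj)), Pi.neg_apply, neg_smul, smul_neg]

theorem gam_anti (n : ℕ) (u v u' v' : ℕ → ℝ) :
    gam n u v * gam n u' v' + gam n u' v' * gam n u v =
      (2 * (ip n u u' - ip n v v')) • (1 : Matrix (St n) (St n) ℝ) := by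
  rw [gam, gam, sum_mul_sum, sum_mul_sum, sum_comm (s := range (n + 1)) (t := range (n + 1))
    (f := fun i j => (u' i • mA n i + v' i • mB n i) * (u j • mA n j + v j • mB n j)),
    ← sum_add_distrib, ip, ip, ← sum_sub_distrib, mul_sum, sum_smul]
  refine sum_congr rfl fun j hj => ?_
  have hj' := Nat.lt_succ_iff.1 (mem_range.1 hj)
  have h : ∀ k ∈ range (n + 1),
      (u j • mA n j + v j • mB n j) * (u' k • mA n k + v' k • mB n k) +
        (u' k • mA n k + v' k • mB n k) * (u j • mA n j + v j • mB n j) =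
      (if j = k then 2 * (u j * u' k - v j * v' k) else 0) • (1 : Matrix (St n) (St n) ℝ) := by
    intro k hk
    have hk' := Nat.lt_succ_iff.1 (mem_range.1 hk)
    have e : (u j • mA n j + v j • mB n j) * (u' k • mA n k + v' k • mB n k) +
        (u' k • mA n k + v' k • mB n k) * (u j • mA n j + v j • mB n j) =
        (u j * u' k) • (mA n j * mA n k + mA n k * mA n j) +
        (v j * v' k) • (mB n j * mB n k + mB n k * mB n j) +
        (u j * v' k) • (mA n j * mB n k + mB n k * mA n j) +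
        (v j * u' k) • (mA n k * mB n j + mB n j * mA n k) := by
      simp only [mul_add, add_mul, smul_mul_assoc, mul_smul_comm]
      module
    rw [e, mA_mA hj' hk', mB_mB hj' hk', mA_mB hj' hk', mA_mB hk' hj']
    split_ifs <;> module
  rw [← sum_add_distrib, sum_congr rfl h, ← sum_smul, sum_ite_eq, if_pos hj]

theorem gam_inj {n : ℕ} {u v u' v' : ℕ → ℝ} (h : gam n u v = gam n u' v') :
    ∀ j ≤ n, u j = u' j ∧ v j = v' j := by
  have h0 : gam n (u - u') (v - v') = 0 := by rw [gam_sub, h, sub_self]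
  have h1 := gam_anti n (u - u') (v - v') (u - u') (-(v - v'))
  rw [h0, zero_mul, mul_zero, add_zero] at h1
  have h2 := congrFun (congrFun h1 (eAll n)) (eAll n)
  simp only [Matrix.zero_apply, Matrix.smul_apply, Matrix.one_apply_eq, smul_eq_mul, mul_one, ip,
    Pi.neg_apply, mul_neg, sum_neg_distrib, sub_neg_eq_add] at h2
  have h3 : 0 ≤ ∑ j ∈ range (n + 1), (u - u') j * (u - u') j :=
    sum_nonneg fun j _ => mul_self_nonneg _
  have h4 : 0 ≤ ∑ j ∈ range (n + 1), (v - v') j * (v - v') j :=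
    sum_nonneg fun j _ => mul_self_nonneg _
  intro j hj
  have h5 := (sum_eq_zero_iff_of_nonneg fun j _ => mul_self_nonneg ((u - u') j)).1
    (le_antisymm (by linarith) h3) j (mem_range.2 (Nat.lt_succ_iff.2 hj))
  have h6 := (sum_eq_zero_iff_of_nonneg fun j _ => mul_self_nonneg ((v - v') j)).1
    (le_antisymm (by linarith) h4) j (mem_range.2 (Nat.lt_succ_iff.2 hj))
  exact ⟨sub_eq_zero.1 (mul_self_eq_zero.1 h5), sub_eq_zero.1 (mul_self_eq_zero.1 h6)⟩

theorem ip_self (n : ℕ) (u : ℕ → ℝ) : ip n u u = ss n u := by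
  simp only [ip, ss, sq]

theorem ss_nonneg (n : ℕ) (u : ℕ → ℝ) : 0 ≤ ss n u :=
  sum_nonneg fun _ _ => sq_nonneg _

theorem ip_sq_le (n : ℕ) (u v : ℕ → ℝ) : ip n u v ^ 2 ≤ ss n u * ss n v :=
  sum_mul_sq_le_sq_mul_sq _ u v

theorem gamA_orth (n : ℕ) (u : ℕ → ℝ) : (gam n u 0)ᵀ * gam n u 0 = ss n u • 1 := by
  have h := gam_anti n u 0 u 0
  have h0 : ip n 0 0 = 0 := by simp [ip]
  rw [h0, sub_zero, ip_self, ← two_smul ℝ, mul_smul] at h
  rw [gam_transpose, neg_zero]
  exact smul_right_injective _ two_ne_zero h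

theorem gamB_orth (n : ℕ) (v : ℕ → ℝ) : (gam n 0 v)ᵀ * gam n 0 v = ss n v • 1 := by
  have h := gam_anti n 0 v 0 v
  have h0 : ip n 0 0 = 0 := by simp [ip]
  rw [h0, zero_sub, ip_self, ← two_smul ℝ, mul_smul] at h
  have h1 := smul_right_injective _ two_ne_zero h
  have h2 : gam n 0 (-v) = -gam n 0 v := by
    rw [← neg_one_smul ℝ (gam n 0 v), ← gam_smul, smul_zero, neg_one_smul]
  rw [gam_transpose, h2, neg_mul, h1, neg_smul, neg_neg]

theorem gam_nrm_of_orth {n : ℕ} {g : Matrix (St n) (St n) ℝ} {c : ℝ} (hc : 0 ≤ c)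
    (h : gᵀ * g = c • 1) (w : St n → ℝ) : nrm (g *ᵥ w) = √c * nrm w := by
  rw [nrm, nrm, ← Real.sqrt_mul hc, Matrix.dotProduct_mulVec, Matrix.vecMul_mulVec, h,
    Matrix.vecMul_smul, Matrix.vecMul_one, smul_dotProduct, smul_eq_mul]

theorem nrm_gam_le (n : ℕ) (u v : ℕ → ℝ) (w : St n → ℝ) :
    nrm (gam n u v *ᵥ w) ≤ (√(ss n u) + √(ss n v)) * nrm w := by
  rw [gam_split, Matrix.add_mulVec, add_mul, ← gam_nrm_of_orth (ss_nonneg n u) (gamA_orth n u),
    ← gam_nrm_of_orth (ss_nonneg n v) (gamB_orth n v)]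
  exact nrm_add_le _ _

theorem dom_gam (n : ℕ) (u v : ℕ → ℝ) : Dom (gam n u v) (l1 n u + l1 n v) := by
  have hs : ∀ b, |sg b| = 1 := fun b => by cases b <;> simp [sg]
  rw [gam, l1, l1, ← sum_add_distrib]
  refine Dom.sum _ fun j _ => ?_
  have hA : Dom (mA n j) 1 := dom_perm (flipFrom j) (flipFrom_invol j) fun σ' σ => by
    rw [mA_apply]
    split_ifs <;> simp [hs]
  have hB : Dom (mB n j) 1 := dom_perm (flipFrom j) (flipFrom_invol j) fun σ' σ => by
    rw [mB_apply]
    split_ifs <;> simp [hs]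
  simpa only [mul_one] using (hA.smul (u j)).add (hB.smul (v j))

theorem gam_par (n : ℕ) (u v : ℕ → ℝ) (σ' σ : St n) (h : par σ' = par σ) :
    gam n u v σ' σ = 0 := by
  rw [gam, Matrix.sum_apply]
  refine sum_eq_zero fun j hj => ?_
  have h1 : σ' ≠ flipFrom j σ := by
    rintro rfl
    rw [par, par, slot_flip, if_pos ⟨mem_range.1 hj, le_rfl⟩] at h
    simp at h
  simp [mA_apply, mB_apply, h1]

theorem gam_ne_zero {n : ℕ} {u v : ℕ → ℝ} {σ' σ : St n} (h : gam n u v σ' σ ≠ 0) :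
    ∃ j ≤ n, (u j ≠ 0 ∨ v j ≠ 0) ∧ σ' = flipFrom j σ := by
  rw [gam, Matrix.sum_apply] at h
  obtain ⟨j, hj, h1⟩ := exists_ne_zero_of_sum_ne_zero h
  refine ⟨j, Nat.lt_succ_iff.1 (mem_range.1 hj), ?_, ?_⟩
  · by_contra h2
    rw [not_or, not_not, not_not] at h2
    simp [h2.1, h2.2] at h1
  · by_contra h2
    simp [mA_apply, mB_apply, h2] at h1

theorem sig_gam {n i : ℕ} (hi : i ≤ n + 1) (u v : ℕ → ℝ) :
    sig n i * gam n u v =
      gam n (fun j => if j < i then -u j else u j) (fun j => if j < i then -v j else v j) *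
        sig n i := by
  have h : ∀ k j, sig n k * Phi n j * sig n i =
      (if j < i then (-1 : ℝ) else 1) • (sig n i * (sig n k * Phi n j)) := fun k j => by
    rw [mul_assoc, Phi_sig, mul_smul_comm, ← mul_assoc, sig_comm n k i, mul_assoc]
    simp only [hi, and_true]
  rw [gam, gam, mul_sum, sum_mul]
  refine sum_congr rfl fun j _ => ?_
  simp only [mul_add, add_mul, smul_mul_assoc, mul_smul_comm, mA, mB, h]
  split_ifs <;> module

theorem nrm_sig (n i : ℕ) (w : St n → ℝ) : nrm (sig n i *ᵥ w) = nrm w := by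
  have h := gam_nrm_of_orth (g := sig n i) zero_le_one
    (by rw [sig_transpose, sig_mul_self, one_smul]) w
  rwa [Real.sqrt_one, one_mul] at h

end Pool.Agent.TAF
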