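import Pool.Agent.P.MP_cb4022_pr.Defs
import Pool.Agent.P.MP_cb4022_pr.Gam

open scoped Classical Matrix
open Finset

noncomputable section

namespace Pool.Agent.TAF

theorem agmon_comm (n : ℕ) (u v : ℕ → ℝ) : ip n u v = ip n v u :=
  Finset.sum_congr rfl fun _ _ => mul_comm _ _

theorem agmon_add_r (n : ℕ) (u v w : ℕ → ℝ) : ip n u (v + w) = ip n u v + ip n u w := by
  simp only [ip, Pi.add_apply, mul_add, Finset.sum_add_distrib]

theorem agmon_sub_r (n : ℕ) (u v w : ℕ → ℝ) : ip n u (v - w) = ip n u v - ip n u w := by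
  simp only [ip, Pi.sub_apply, mul_sub, Finset.sum_sub_distrib]

theorem agmon_add_l (n : ℕ) (u v w : ℕ → ℝ) : ip n (u + v) w = ip n u w + ip n v w := by
  simp only [ip, Pi.add_apply, add_mul, Finset.sum_add_distrib]

theorem agmon_sub_l (n : ℕ) (u v w : ℕ → ℝ) : ip n (u - v) w = ip n u w - ip n v w := by
  simp only [ip, Pi.sub_apply, sub_mul, Finset.sum_sub_distrib]

theorem agmon_ss_sub (n : ℕ) (u v : ℕ → ℝ) : ss n (u - v) = ss n u - 2 * ip n u v + ss n v := by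
  rw [← ip_self, agmon_sub_l, agmon_sub_r, agmon_sub_r, ip_self, ip_self, agmon_comm n v u]
  ring

theorem agmon_ss_add (n : ℕ) (u v : ℕ → ℝ) : ss n (u + v) = ss n u + 2 * ip n u v + ss n v := by
  rw [← ip_self, agmon_add_l, agmon_add_r, agmon_add_r, ip_self, ip_self, agmon_comm n v u]
  ring

theorem agmon_ss_add_le (n : ℕ) (u v : ℕ → ℝ) : ss n (u + v) ≤ 2 * ss n u + 2 * ss n v := by
  have := ss_nonneg n (u - v)
  rw [agmon_ss_sub] at this
  rw [agmon_ss_add]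
  linarith

theorem agmon_congr {n : ℕ} {u v : ℕ → ℝ} (h : ∀ j ≤ n, u j = v j) : ss n u = ss n v :=
  Finset.sum_congr rfl fun j hj => by rw [h j (Nat.lt_succ_iff.1 (Finset.mem_range.1 hj))]

theorem agmon_mul_le (n : ℕ) (w f : ℕ → ℝ) : ss n (w * f) ≤ ss n w * ss n f := by
  rw [ss, show ss n f = ∑ j ∈ range (n + 1), f j ^ 2 from rfl, Finset.mul_sum]
  refine Finset.sum_le_sum fun j hj => ?_
  rw [Pi.mul_apply, mul_pow]
  exact mul_le_mul_of_nonneg_right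
    (Finset.single_le_sum (f := fun j => w j ^ 2) (fun _ _ => sq_nonneg _) hj) (sq_nonneg _)

theorem agmon_half {t : ℝ} (ht : 0 < t) {n : ℕ} (Z : (ℕ → ℝ) →ₗ[ℝ] (ℕ → ℝ)) {W a a' s : ℕ → ℝ}
    (hc : ∀ v, ss n (W * Z v - Z (W * v)) ≤ t / 100 * ss n (W * v))
    (he : ∀ j ≤ n, a j - a' j = Z s j) :
    ss n ((W - 1) * a - (W - 1) * a' - Z ((W - 1) * s)) ≤
      t / 50 * (ss n ((W - 1) * s) + ss n s) := by
  have e : ss n ((W - 1) * a - (W - 1) * a' - Z ((W - 1) * s)) = ss n (W * Z s - Z (W * s)) := by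
    refine agmon_congr fun j hj => ?_
    rw [sub_mul W 1 s, one_mul, map_sub]
    simp only [Pi.sub_apply, Pi.mul_apply, Pi.one_apply, ← he j hj]
    ring
  have e2 : W * s = (W - 1) * s + s := by ring
  have h1 := agmon_ss_add_le n ((W - 1) * s) s
  rw [← e2] at h1
  rw [e]
  refine (hc s).trans ?_
  nlinarith

theorem agmon_g {n : ℕ} {Z : (ℕ → ℝ) →ₗ[ℝ] (ℕ → ℝ)} (hZ : ∀ v, ss n (Z v) ≤ ss n v)
    (a b : ℕ → ℝ) : ip n a (Z b) ^ 2 ≤ ss n a * ss n b :=
  (ip_sq_le n a (Z b)).trans (mul_le_mul_of_nonneg_left (hZ b) (ss_nonneg n a))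

theorem agmon {t ϑ : ℝ} (ht : 0 < t) (ht1 : t ≤ 1) (hϑ0 : 0 ≤ ϑ) (hϑ : ϑ < 1) : ∃ K : ℝ, 0 < K ∧
    ∀ (n : ℕ) (Z Z' : (ℕ → ℝ) →ₗ[ℝ] (ℕ → ℝ)) (uL vR W : ℕ → ℝ) (fa fb : ℕ → ℕ → ℝ),
      (∀ u v, ip n u (Z v) = ip n (Z' u) v) → (∀ v, ss n (Z v) ≤ ss n v) →
      (∀ v, t * ss n v ≤ ss n (Z v) + ip n v vR ^ 2) →
      (∀ u, t * ss n u ≤ ss n (Z' u) + ip n u uL ^ 2) → (∀ j, 1 ≤ W j) →
      (∀ v, ss n (W * Z v - Z (W * v)) ≤ t / 100 * ss n (W * v)) →
      (∀ u, ss n (W * Z' u - Z' (W * u)) ≤ t / 100 * ss n (W * u)) →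
      (∀ m, ∀ j ≤ n, fa m j - fa (m + 1) j = Z (fb m + fb (m + 1)) j) →
      (∀ m, ∀ j ≤ n, fb m j - fb (m + 1) j = Z' (fa m + fa (m + 1)) j) →
      (∀ m, ss n (fa m) + ss n (fb m) ≤ ϑ ^ m) →
      (∀ m, ip n ((W - 1) * (fb m + fb (m + 1))) vR ^ 2 ≤
        ss n (fa m + fa (m + 1)) + ss n (fb m + fb (m + 1))) →
      (∀ m, ip n ((W - 1) * (fa m + fa (m + 1))) uL ^ 2 ≤
        ss n (fa m + fa (m + 1)) + ss n (fb m + fb (m + 1))) →
      (ss n ((W - 1) * fa 0) ≤ 1 ∨ ss n ((W - 1) * fb 0) ≤ 1) →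
      ∀ m, ss n ((W - 1) * fa m) + ss n ((W - 1) * fb m) ≤ K := by
  have h1ϑ : 0 < 1 - ϑ := sub_pos.2 hϑ
  refine ⟨(16 / t + 2 * (12 / (1 - ϑ))) / t, by positivity, ?_⟩
  intro n Z Z' uL vR W fa fb hadj hZ hlR hlL _ hcZ hcZ' hea heb hdec hvR huL h0
  set N : ℕ → ℝ := fun m => ss n ((W - 1) * fa m) + ss n ((W - 1) * fb m) with hN
  set g : ℕ → ℝ := fun m => ip n ((W - 1) * fa m) (Z ((W - 1) * fb m)) with hg
  set h : ℕ → ℝ := fun m => 4 * g m + 12 / (1 - ϑ) * ϑ ^ m with hh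
  have hN0 : ∀ m, 0 ≤ N m := fun m => add_nonneg (ss_nonneg _ _) (ss_nonneg _ _)
  have step : ∀ m, t * (N m + N (m + 1)) ≤ h m - h (m + 1) := fun m => by
    have e1 := agmon_half ht Z hcZ (hea m)
    have e2 := agmon_half ht Z' hcZ' (heb m)
    have l1 := hlR ((W - 1) * (fb m + fb (m + 1)))
    have l2 := hlL ((W - 1) * (fa m + fa (m + 1)))
    have l3 := hvR m
    have l4 := huL m
    have f1 := agmon_ss_add_le n (fa m) (fa (m + 1))
    have f2 := agmon_ss_add_le n (fb m) (fb (m + 1))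
    have f3 := hdec m
    have f4 := hdec (m + 1)
    have f5 : ϑ ^ (m + 1) ≤ ϑ ^ m := pow_le_pow_of_le_one hϑ0 hϑ.le (Nat.le_succ m)
    have f6 : h m - h (m + 1) = 4 * (g m - g (m + 1)) + 12 * ϑ ^ m := by
      simp only [hh]
      field_simp
      ring
    have p1 := ss_nonneg n (fa m + fa (m + 1))
    have p2 := ss_nonneg n (fb m + fb (m + 1))
    rw [agmon_ss_sub] at e1 e2
    rw [agmon_comm, ← hadj] at e2
    simp only [mul_add] at e1 e2 l1 l2 l3 l4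
    rw [f6]
    simp only [hN, hg]
    generalize (W - 1) * fa m = a0 at *
    generalize (W - 1) * fa (m + 1) = a1 at *
    generalize (W - 1) * fb m = b0 at *
    generalize (W - 1) * fb (m + 1) = b1 at *
    have c1 : ip n (a0 - a1) (Z (b0 + b1)) + ip n (a0 + a1) (Z (b0 - b1)) =
        2 * (ip n a0 (Z b0) - ip n a1 (Z b1)) := by
      simp only [map_add, map_sub, agmon_add_l, agmon_sub_l, agmon_add_r, agmon_sub_r]
      ring
    have c2 : ss n (a0 - a1) + ss n (a0 + a1) = 2 * ss n a0 + 2 * ss n a1 := by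
      rw [agmon_ss_add, agmon_ss_sub]
      ring
    have c3 : ss n (b0 - b1) + ss n (b0 + b1) = 2 * ss n b0 + 2 * ss n b1 := by
      rw [agmon_ss_add, agmon_ss_sub]
      ring
    have q1 := mul_le_mul_of_nonneg_right ht1 (ss_nonneg n (a0 - a1))
    have q2 := mul_le_mul_of_nonneg_right ht1 (ss_nonneg n (b0 - b1))
    have q3 := mul_nonneg ht.le (ss_nonneg n (a0 + a1))
    have q4 := mul_nonneg ht.le (ss_nonneg n (b0 + b1))
    have q5 := mul_le_mul_of_nonneg_right ht1 p1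
    have q6 := mul_le_mul_of_nonneg_right ht1 p2
    have q7 := ss_nonneg n (a0 - a1)
    have q8 := ss_nonneg n (b0 - b1)
    have c4 : t * (ss n a0 + ss n b0 + (ss n a1 + ss n b1)) = t * ss n (a0 - a1) / 2 +
        t * ss n (a0 + a1) / 2 + t * ss n (b0 - b1) / 2 + t * ss n (b0 + b1) / 2 := by
      linear_combination (-t / 2) * c2 + (-t / 2) * c3
    rw [c4]
    linarith
  have hanti : Antitone h := antitone_nat_of_succ_le fun m => by
    have := mul_nonneg ht.le (add_nonneg (hN0 m) (hN0 (m + 1)))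
    linarith [step m]
  have hpow := tendsto_pow_atTop_nhds_zero_of_lt_one hϑ0 hϑ
  have hgt : Filter.Tendsto g Filter.atTop (nhds 0) := by
    have h1 := hpow.const_mul (ss n (W - 1))
    rw [mul_zero] at h1
    refine squeeze_zero_norm (fun m => ?_) h1
    have h2 : g m ^ 2 ≤ N m ^ 2 := by
      refine (agmon_g hZ _ _).trans ?_
      simp only [hN]
      nlinarith [mul_nonneg (ss_nonneg n ((W - 1) * fa m)) (ss_nonneg n ((W - 1) * fb m)),
        sq_nonneg (ss n ((W - 1) * fa m)), sq_nonneg (ss n ((W - 1) * fb m))]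
    refine (abs_le_of_sq_le_sq' h2 (hN0 m) |> abs_le.2).trans ?_
    refine (add_le_add (agmon_mul_le n _ _) (agmon_mul_le n _ _)).trans ?_
    rw [← mul_add]
    exact mul_le_mul_of_nonneg_left (hdec m) (ss_nonneg _ _)
  have hht : Filter.Tendsto h Filter.atTop (nhds 0) := by
    simpa using (hgt.const_mul 4).add (hpow.const_mul (12 / (1 - ϑ)))
  have hb : ∀ m, t * N m ≤ h 0 := fun m => by
    have h1 := hanti.le_of_tendsto hht (m + 1)
    have h2 := hanti (Nat.zero_le m)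
    have h3 := mul_nonneg ht.le (hN0 (m + 1))
    linarith [step m]
  have hg0 : g 0 ^ 2 ≤ N 0 := by
    refine (agmon_g hZ _ _).trans ?_
    have p1 := ss_nonneg n ((W - 1) * fa 0)
    have p2 := ss_nonneg n ((W - 1) * fb 0)
    simp only [hN]
    rcases h0 with h0 | h0 <;> nlinarith
  have hg1 : 4 * g 0 ≤ t * N 0 / 2 + 8 / t := by
    have h1 : 0 ≤ (t * g 0 - 4) ^ 2 / (2 * t) := by positivity
    have h2 : (t * g 0 - 4) ^ 2 / (2 * t) = t * g 0 ^ 2 / 2 - 4 * g 0 + 8 / t := by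
      field_simp
      ring
    have h3 := mul_le_mul_of_nonneg_left hg0 ht.le
    linarith
  intro m
  have h1 := hb m
  have h2 := hb 0
  have h3 : h 0 = 4 * g 0 + 12 / (1 - ϑ) := by simp [hh]
  have h4 : 16 / t = 2 * (8 / t) := by ring
  rw [le_div_iff₀ ht, mul_comm]
  change t * N m ≤ _
  linarith

end Pool.Agent.TAF
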