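import Pool.Agent.P.MP_cb4022_pr.State

open scoped Classical Matrix
open Finset

noncomputable section

namespace Pool.Agent.TAF

theorem exists_rho {y θ : ℝ} (hy : 1 < y) (hθ0 : 0 < θ) (hθ : θ < 1) :
    ∃ ρ : ℕ, (2 * θ / (1 + θ)) ^ ρ * (4 * y ^ 12) ≤ 1 / 2 := by
  have h0 : 0 < 4 * y ^ 12 := by positivity
  obtain ⟨ρ, hρ⟩ := exists_pow_lt_of_lt_one (x := 1 / 2 / (4 * y ^ 12)) (y := 2 * θ / (1 + θ))
    (by positivity) (by rw [div_lt_one (by linarith)]; linarith)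
  exact ⟨ρ, ((lt_div_iff₀ h0).1 hρ).le⟩

theorem chain_window {S : Type} [Fintype S] [DecidableEq S] {C : Type} (T : ℕ → Matrix S S ℝ)
    (lab : S → C) (k₁ k₂ k₃ b : ℕ) (f : List C → ℝ) :
    chain T lab (k₁ + k₂ + k₃) b (fun l => f ((l.drop k₁).take k₂)) =
      prodT T k₃ (b + k₁ + k₂) * chain T lab k₂ (b + k₁) f * prodT T k₁ b := by
  have h1 := chain_append T lab k₁ (k₂ + k₃) b (fun _ => 1) (fun l => f (l.take k₂))
  have h2 := chain_append T lab k₂ k₃ (b + k₁) f (fun _ => 1)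
  simp only [one_mul, mul_one, chain_const, one_smul] at h1 h2
  rw [add_assoc, h1, h2]

theorem chain_two {S : Type} [Fintype S] [DecidableEq S] {C : Type} (T : ℕ → Matrix S S ℝ)
    (lab : S → C) (k₁ k₂ k₃ b : ℕ) (f g : List C → ℝ) :
    chain T lab (k₁ + k₂ + k₃) b (fun l => f (l.take k₁) * g (l.drop (k₁ + k₂))) =
      chain T lab k₃ (b + k₁ + k₂) g * prodT T k₂ (b + k₁) * chain T lab k₁ b f := by
  have h1 := chain_append T lab k₁ (k₂ + k₃) b f (fun l => g (l.drop k₂))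
  have h2 := chain_append T lab k₂ k₃ (b + k₁) (fun _ => 1) g
  simp only [one_mul, chain_const, one_smul, List.drop_drop] at h1 h2
  rw [add_assoc, h1, h2]

section
variable {n : ℕ} {y θ K q : ℝ} {L₀ : ℕ} {lam : ℝ} {Ωp Ωm : St n → ℝ} {lp lm : ℝ}

theorem State.lp_pos (h : State n y θ K q L₀ lam Ωp Ωm lp lm) :
    (1 + θ) / 2 * lam ≤ lp := by
  have h1 := h.pack.lp1
  have h2 := h.small
  have h3 := h.one
  nlinarith

theorem State.lp_pow (h : State n y θ K q L₀ lam Ωp Ωm lp lm) (hθ0 : 0 < θ) (m : ℕ) :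
    (1 - m * (K * q ^ n)) * lam ^ m ≤ lp ^ m := by
  have h1 := h.pack.lp1
  have h2 := h.small
  have h3 := h.one
  have h4 : 0 ≤ 1 - K * q ^ n := by linarith
  have h5 := one_add_mul_le_pow (a := -(K * q ^ n)) (by linarith) m
  calc (1 - m * (K * q ^ n)) * lam ^ m ≤ (1 - K * q ^ n) ^ m * lam ^ m := by
        refine mul_le_mul_of_nonneg_right ?_ (by positivity)
        rw [sub_eq_add_neg, sub_eq_add_neg, ← mul_neg]
        exact h5
    _ = ((1 - K * q ^ n) * lam) ^ m := (mul_pow _ _ _).symm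
    _ ≤ lp ^ m := pow_le_pow_left₀ (by positivity) h1 m

theorem State.pow_vec (h : State n y θ K q L₀ lam Ωp Ωm lp lm) (m : ℕ) :
    (TT n y ^ m) *ᵥ Ωp = lp ^ m • Ωp := by
  induction m with
  | zero => simp
  | succ m ih =>
    rw [pow_succ, ← Matrix.mulVec_mulVec, h.pack.ep, Matrix.mulVec_smul, ih, smul_smul, pow_succ']

theorem State.op (h : State n y θ K q L₀ lam Ωp Ωm lp lm) (m b : ℕ) (w : St n → ℝ) :
    nrm (prodT (Tk n y) (2 * m) b *ᵥ w) ≤ lam ^ m * nrm w := by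
  have hlam : 0 ≤ lam := by linarith [h.one]
  have := prodT_op (Real.sqrt_nonneg lam) (Tk_op hlam h.form) (2 * m) b w
  rwa [pow_mul, Real.sq_sqrt hlam] at this

theorem State.chain_op (hy : 1 < y) (h : State n y θ K q L₀ lam Ωp Ωm lp lm) {C : Type}
    (lab : St n → C) (m b : ℕ) {f : List C → ℝ} (hf : ∀ l, |f l| ≤ 1) (w : St n → ℝ) :
    nrm (chain (Tk n y) lab (2 * m) b f *ᵥ w) ≤ lam ^ m * nrm w := by
  have hlam : 0 ≤ lam := by linarith [h.one]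
  have := Pool.Agent.TAF.chain_op (Tk_nonneg n hy) (Real.sqrt_nonneg lam) (Tk_op hlam h.form) lab
    (2 * m) b hf w
  rwa [pow_mul, Real.sq_sqrt hlam] at this

theorem State.bottom (hy : 1 < y) (h : State n y θ K q L₀ lam Ωp Ωm lp lm) (hθ0 : 0 < θ)
    (hθ : θ < 1) {ρ : ℕ} (hρ : (2 * θ / (1 + θ)) ^ ρ * (4 * y ^ 12) ≤ 1 / 2) {w : St n → ℝ}
    (hw0 : ∀ σ, 0 ≤ w σ) (hw : ∀ σ, par σ = false → w σ = 0) (hne : w ≠ 0) {a : ℕ}
    (ha : ρ * (n + 1) ≤ a) :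
    ∃ c > (0 : ℝ), ∃ e, nrm e ≤ (1 / 2) ^ (n + 1) ∧ (TT n y ^ a) *ᵥ w = c • (Ωp + e) := by
  have hlam : 0 < lam := by linarith [h.one]
  have hlp := h.lp_pos
  have hlp0 : 0 < lp := lt_of_lt_of_le (by positivity) hlp
  have h1 := h.pack.pow (TT_transpose n y) (by positivity) w hw a
  have h2 := h.pack.lower hy hw0 hw
  have h3 : 0 < nrm w := by
    refine lt_of_le_of_ne (nrm_nonneg w) fun h0 => hne (dotProduct_self_eq_zero.1 ?_)
    rw [← nrm_sq, ← h0]; ring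
  have h4 : 0 < Ωp ⬝ᵥ w := (mul_pos_iff_of_pos_left hlam).1 (h3.trans_le h2)
  set c := lp ^ a * (Ωp ⬝ᵥ w) with hc
  have hc0 : 0 < c := by positivity
  refine ⟨c, hc0, c⁻¹ • ((TT n y ^ a) *ᵥ w - c • Ωp), ?_, ?_⟩
  · rw [nrm_smul, abs_of_pos (inv_pos.2 hc0), inv_mul_le_iff₀ hc0]
    refine h1.trans ?_
    set t := 2 * θ / (1 + θ) with ht
    have ht0 : 0 < t := by positivity
    have ht1 : t ≤ 1 := by rw [ht, div_le_one (by linarith)]; linarith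
    have e1 : θ * lam ≤ t * lp := by
      have : θ * lam = t * ((1 + θ) / 2 * lam) := by rw [ht]; field_simp
      rw [this]; gcongr
    have e2 : t ^ a * lam ≤ (1 / 2) ^ (n + 1) :=
      calc t ^ a * lam ≤ t ^ (ρ * (n + 1)) * (4 * y ^ 12) ^ (n + 1) :=
            mul_le_mul (pow_le_pow_of_le_one ht0.le ht1 ha) h.le hlam.le (by positivity)
        _ = (t ^ ρ * (4 * y ^ 12)) ^ (n + 1) := by rw [pow_mul, ← mul_pow]
        _ ≤ (1 / 2) ^ (n + 1) := by gcongr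
    calc (θ * lam) ^ a * nrm w ≤ (t * lp) ^ a * (lam * (Ωp ⬝ᵥ w)) := by gcongr
      _ = c * (t ^ a * lam) := by rw [hc, mul_pow]; ring
      _ ≤ c * (1 / 2) ^ (n + 1) := by gcongr
  · rw [smul_add, smul_smul, mul_inv_cancel₀ hc0.ne', one_smul]; abel

theorem State.bottom' (hy : 1 < y) (h : State n y θ K q L₀ lam Ωp Ωm lp lm) (hθ0 : 0 < θ)
    (hθ : θ < 1) {ρ : ℕ} (hρ : (2 * θ / (1 + θ)) ^ ρ * (4 * y ^ 12) ≤ 1 / 2) {s k : ℕ}
    (hev : Even (s + k)) (hk : 2 * (ρ * (n + 1)) ≤ k) :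
    ∃ c > (0 : ℝ), ∃ e, nrm e ≤ (1 / 2) ^ (n + 1) ∧
      prodT (Tk n y) k s *ᵥ Pi.single (eAll n) 1 = c • (Ωp + e) := by
  have hpe : par (eAll n) = true := slot_eAll n _
  rcases Nat.even_or_odd' k with ⟨a, rfl | rfl⟩
  · have hs : Even s := (Nat.even_add.1 hev).2 (even_two_mul a)
    rw [prodT_even n y a hs]
    refine h.bottom hy hθ0 hθ hρ (fun σ => ?_) (fun σ hσ => ?_) (fun h0 => ?_) (by omega)
    · rw [Pi.single_apply]; split_ifs <;> norm_num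
    · rw [Pi.single_apply, if_neg]
      rintro rfl
      simp [hpe] at hσ
    · simpa using congrFun h0 (eAll n)
  · have hs : Even (s + 1) := by
      obtain ⟨t, ht⟩ := hev
      exact ⟨t - a, by omega⟩
    rw [prodT, prodT_even n y a hs, ← Matrix.mulVec_mulVec]
    refine h.bottom hy hθ0 hθ hρ (fun σ => ?_) (fun σ hσ => ?_) (fun h0 => ?_) (by omega)
    · rw [Matrix.mulVec_single_one]
      exact Tk_nonneg n hy _ _ _
    · rw [Matrix.mulVec_single_one]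
      exact Tk_par n y _ _ _ (by rw [hσ, hpe]; simp)
    · have h1 := congrFun h0 (eAll n)
      rw [Matrix.mulVec_single_one] at h1
      have h2 := T1_ge n hy (σ' := eAll n) (σ := eAll n) rfl
      have h3 : Tk n y s (eAll n) (eAll n) = T1 n y (eAll n) (eAll n) := by
        unfold Tk; split_ifs <;> rfl
      change Tk n y s (eAll n) (eAll n) = 0 at h1
      linarith

theorem State.bulk (hy : 1 < y) (h : State n y θ K q L₀ lam Ωp Ωm lp lm) (hθ0 : 0 < θ)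
    (hθ : θ < 1) {ρ : ℕ} (hρ : (2 * θ / (1 + θ)) ^ ρ * (4 * y ^ 12) ≤ 1 / 2) {s k₁ m k₃ : ℕ}
    (hev : Even (s + k₁)) (h₁ : 2 * (ρ * (n + 1)) ≤ k₁) (h₃ : 2 * (ρ * (n + 1)) ≤ k₃) {ε : ℝ}
    (hε1 : (1 / 2) ^ (n + 1) ≤ ε) (hε2 : m * (K * q ^ n) ≤ ε) (hε : ε ≤ 1 / 10) :
    0 < prodT (Tk n y) (k₁ + 2 * m + k₃) s (eAll n) (eAll n) ∧
    ∀ G : Matrix (St n) (St n) ℝ, (∀ w, nrm (G *ᵥ w) ≤ lam ^ m * nrm w) →
      |(prodT (Tk n y) k₃ (s + k₁ + 2 * m) * G * prodT (Tk n y) k₁ s) (eAll n) (eAll n) /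
        prodT (Tk n y) (k₁ + 2 * m + k₃) s (eAll n) (eAll n) - Ωp ⬝ᵥ (G *ᵥ Ωp) / lam ^ m| ≤
        20 * ε := by
  have hlam : 0 < lam := by linarith [h.one]
  obtain ⟨c₁, hc₁, e₁, he₁, hb⟩ := h.bottom' hy hθ0 hθ hρ hev h₁
  obtain ⟨c₃, hc₃, e₃, he₃, ht⟩ := h.bottom' hy hθ0 hθ hρ (s := s + k₁ + 2 * m + k₃) (k := k₃)
    (by obtain ⟨t, ht⟩ := hev; exact ⟨t + m + k₃, by omega⟩) h₃
  have key : ∀ G : Matrix (St n) (St n) ℝ,
      (prodT (Tk n y) k₃ (s + k₁ + 2 * m) * G * prodT (Tk n y) k₁ s) (eAll n) (eAll n) =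
        c₃ * c₁ * ((Ωp + e₃) ⬝ᵥ (G *ᵥ (Ωp + e₁))) := by
    intro G
    have e : ∀ X : Matrix (St n) (St n) ℝ, X (eAll n) (eAll n) =
        Pi.single (eAll n) 1 ⬝ᵥ (X *ᵥ Pi.single (eAll n) 1) := fun X => by simp
    refine (e _).trans ?_
    rw [← Matrix.mulVec_mulVec, ← Matrix.mulVec_mulVec, hb, Matrix.dotProduct_mulVec,
      ← Matrix.mulVec_transpose, prodT_transpose, ht, Matrix.mulVec_smul, smul_dotProduct,
      dotProduct_smul, smul_eq_mul, smul_eq_mul, mul_assoc]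
  have hden : prodT (Tk n y) (k₁ + 2 * m + k₃) s =
      prodT (Tk n y) k₃ (s + k₁ + 2 * m) * prodT (Tk n y) (2 * m) (s + k₁) *
        prodT (Tk n y) k₁ s := by
    rw [prodT_add, prodT_add, mul_assoc, add_assoc]
  have hlow : (1 - ε) * lam ^ m ≤ Ωp ⬝ᵥ (prodT (Tk n y) (2 * m) (s + k₁) *ᵥ Ωp) := by
    rw [prodT_even n y m hev, h.pow_vec, dotProduct_smul, h.pack.np, smul_eq_mul, mul_one]
    refine le_trans ?_ (h.lp_pow hθ0 m)
    gcongr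
  have hN : 0 < lam ^ m := by positivity
  rw [hden, key]
  constructor
  · have := (ratio_near hN h.pack.np (h.op m (s + k₁)) (h.op m (s + k₁)) hlow (he₃.trans hε1)
      (he₁.trans hε1) hε).1
    positivity
  · intro G hG
    have := (ratio_near hN h.pack.np hG (h.op m (s + k₁)) hlow (he₃.trans hε1)
      (he₁.trans hε1) hε).2
    rwa [key, mul_div_mul_left _ _ (by positivity)]

theorem State.mix (h : State n y θ K q L₀ lam Ωp Ωm lp lm) (hθ0 : 0 < θ)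
    {G₁ G₂ : Matrix (St n) (St n) ℝ} {N₁ N₂ : ℝ} (hN₂ : 0 ≤ N₂)
    (h₁ : ∀ w, nrm (G₁ *ᵥ w) ≤ N₁ * nrm w)
    (h₂ : ∀ w, nrm (G₂ *ᵥ w) ≤ N₂ * nrm w) (hp : ∀ i j, par i ≠ par j → G₁ i j = 0) (a : ℕ) :
    |Ωp ⬝ᵥ ((G₂ * TT n y ^ a * G₁) *ᵥ Ωp) - lp ^ a * (Ωp ⬝ᵥ (G₁ *ᵥ Ωp)) * (Ωp ⬝ᵥ (G₂ *ᵥ Ωp))| ≤
      N₂ * ((θ * lam) ^ a * N₁) := by
  have hlam : 0 < lam := by linarith [h.one]
  have hw : ∀ i, par i = false → (G₁ *ᵥ Ωp) i = 0 := fun i hi => by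
    refine sum_eq_zero fun j _ => ?_
    by_cases hj : par j = false
    · simp [h.pack.sp j hj]
    · simp [hp i j (by rw [hi]; exact fun h => hj h.symm)]
  have h3 := h.pack.pow (TT_transpose n y) (by positivity) _ hw a
  have h4 := h₁ Ωp
  rw [nrm_eq_one h.pack.np, mul_one] at h4
  have e : Ωp ⬝ᵥ ((G₂ * TT n y ^ a * G₁) *ᵥ Ωp) -
      lp ^ a * (Ωp ⬝ᵥ (G₁ *ᵥ Ωp)) * (Ωp ⬝ᵥ (G₂ *ᵥ Ωp)) =
      Ωp ⬝ᵥ (G₂ *ᵥ ((TT n y ^ a) *ᵥ (G₁ *ᵥ Ωp) - (lp ^ a * (Ωp ⬝ᵥ (G₁ *ᵥ Ωp))) • Ωp)) := by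
    rw [← Matrix.mulVec_mulVec, ← Matrix.mulVec_mulVec, Matrix.mulVec_sub, dotProduct_sub,
      Matrix.mulVec_smul, dotProduct_smul, smul_eq_mul]
  rw [e]
  refine (abs_dot_le _ _).trans ?_
  rw [nrm_eq_one h.pack.np, one_mul]
  refine (h₂ _).trans (mul_le_mul_of_nonneg_left (h3.trans ?_) hN₂)
  gcongr

theorem State.mono (hy : 1 < y) (h : State n y θ K q L₀ lam Ωp Ωm lp lm) {C : Type}
    (lab : St n → C) (k b : ℕ) {f g : List C → ℝ} (hfg : ∀ l, f l ≤ g l) :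
    Ωp ⬝ᵥ (chain (Tk n y) lab k b f *ᵥ Ωp) ≤ Ωp ⬝ᵥ (chain (Tk n y) lab k b g *ᵥ Ωp) := by
  refine sum_le_sum fun i _ => mul_le_mul_of_nonneg_left (sum_le_sum fun j _ => ?_) (h.pack.pos i)
  exact mul_le_mul_of_nonneg_right (chain_mono (Tk_nonneg n hy) lab k b hfg i j) (h.pack.pos j)

theorem State.half (hy : 1 < y) (h : State n y θ K q L₀ lam Ωp Ωm lp lm) (hθ0 : 0 < θ)
    {i₀ i₁ d m b : ℕ} (h₀ : d ≤ i₀) (h₁ : i₁ + d ≤ n) (hb : Even b) (E : List (ℕ → Bool) → Prop)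
    (hE : ∀ l, E l ∨ E (l.map (negW i₀ i₁))) :
    (1 - m * (K * q ^ n) - K * (m + 1) * q ^ d) / 2 * lam ^ m ≤
      Ωp ⬝ᵥ (chain (Tk n y) (labW i₀ i₁) (2 * m) b (fun l => if E l then 1 else 0) *ᵥ Ωp) := by
  have s1 := h.sym i₀ i₁ d m b (fun l => if E l then 1 else 0) h₀ h₁ hb
    (fun l => by split_ifs <;> simp)
  have s2 := h.mono hy (labW i₀ i₁) (2 * m) b (f := fun _ => 1)
    (g := fun l => (if E l then 1 else 0) + if E (l.map (negW i₀ i₁)) then 1 else 0)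
    (fun l => by
      rcases hE l with h | h
      · rw [if_pos h]; split_ifs <;> norm_num
      · rw [if_pos h]; split_ifs <;> norm_num)
  rw [chain_add, Matrix.add_mulVec, dotProduct_add, chain_const, one_smul, prodT_even n y m hb,
    h.pow_vec, dotProduct_smul, h.pack.np, smul_eq_mul, mul_one] at s2
  have s3 := h.lp_pow hθ0 m
  rw [abs_le] at s1
  linarith [s1.1]

end

end Pool.Agent.TAF
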