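import Pool.Agent.P.MP_cb4022_pr.Defs

open scoped Classical Matrix
open Finset

noncomputable section

namespace Pool.Agent.TAF

variable {S : Type} [Fintype S] [DecidableEq S] {C : Type}

theorem car_step {m : ℕ} (c : Fin m → Matrix S S ℝ)
    (h2 : ∀ k l, c k * (c l)ᵀ + (c l)ᵀ * c k = (if k = l then (2 : ℝ) else 0) • 1)
    (s : Finset (Fin m)) :
    2 ^ s.card * Module.finrank ℝ
      (⨅ k ∈ s, LinearMap.ker (Matrix.mulVecLin (c k)) : Submodule ℝ (S → ℝ))
      ≤ Fintype.card S := by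
  have hmem : ∀ (s : Finset (Fin m)) (w : S → ℝ),
      w ∈ (⨅ k ∈ s, LinearMap.ker (Matrix.mulVecLin (c k)) : Submodule ℝ (S → ℝ)) ↔
        ∀ k ∈ s, c k *ᵥ w = 0 := by
    intro s w
    simp only [Submodule.mem_iInf, LinearMap.mem_ker, Matrix.mulVecLin_apply]
  have hcc : ∀ k l (w : S → ℝ), c k *ᵥ w = 0 →
      c k *ᵥ ((c l)ᵀ *ᵥ w) = (if k = l then (2 : ℝ) else 0) • w := by
    intro k l w hw
    have h3 := congrArg (fun M : Matrix S S ℝ => M *ᵥ w) (h2 k l)
    simp only [Matrix.add_mulVec, ← Matrix.mulVec_mulVec, hw, Matrix.mulVec_zero, add_zero,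
      Matrix.smul_mulVec, Matrix.one_mulVec] at h3
    exact h3
  induction s using Finset.induction_on with
  | empty =>
    rw [Finset.card_empty, pow_zero, one_mul]
    refine (Submodule.finrank_le _).trans ?_
    rw [Module.finrank_fintype_fun_eq_card]
  | insert k s hk ih =>
    set K : Submodule ℝ (S → ℝ) := ⨅ l ∈ s, LinearMap.ker (Matrix.mulVecLin (c l)) with hK
    set K' : Submodule ℝ (S → ℝ) :=
      ⨅ l ∈ insert k s, LinearMap.ker (Matrix.mulVecLin (c l)) with hK'
    have hin : ∀ x : K' × K',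
        (K'.subtype.coprod ((Matrix.mulVecLin (c k)ᵀ).comp K'.subtype)) x ∈ K := by
      rintro ⟨w, w'⟩
      refine (hmem s _).2 fun l hl => ?_
      have h4 := (hmem _ _).1 w.2 l (Finset.mem_insert_of_mem hl)
      have h5 := (hmem _ _).1 w'.2 l (Finset.mem_insert_of_mem hl)
      have hlk : l ≠ k := fun e => hk (e ▸ hl)
      change c l *ᵥ ((w : S → ℝ) + (c k)ᵀ *ᵥ (w' : S → ℝ)) = 0
      rw [Matrix.mulVec_add, h4, hcc l k _ h5, if_neg hlk, zero_smul, add_zero]
    have hinj : Function.Injective (LinearMap.codRestrict K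
        (K'.subtype.coprod ((Matrix.mulVecLin (c k)ᵀ).comp K'.subtype)) hin) := by
      rw [injective_iff_map_eq_zero]
      rintro ⟨w, w'⟩ h0
      have h3 : (w : S → ℝ) + (c k)ᵀ *ᵥ (w' : S → ℝ) = 0 := congrArg Subtype.val h0
      have h4 := (hmem _ _).1 w.2 k (Finset.mem_insert_self _ _)
      have h5 := (hmem _ _).1 w'.2 k (Finset.mem_insert_self _ _)
      have h6 := congrArg (fun x => c k *ᵥ x) h3
      simp only [Matrix.mulVec_add, h4, hcc k k _ h5, if_true, zero_add, Matrix.mulVec_zero,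
        smul_eq_zero, OfNat.ofNat_ne_zero, false_or] at h6
      rw [h6, Matrix.mulVec_zero, add_zero] at h3
      exact Prod.ext (Subtype.ext h3) (Subtype.ext h6)
    have h7 := LinearMap.finrank_le_finrank_of_injective hinj
    rw [Module.finrank_prod] at h7
    rw [Finset.card_insert_of_notMem hk, pow_succ, mul_assoc]
    exact (Nat.mul_le_mul_left _ (by omega)).trans ih

theorem car_dim {m : ℕ} (c : Fin m → Matrix S S ℝ) (h1 : ∀ k l, c k * c l + c l * c k = 0)
    (h2 : ∀ k l, c k * (c l)ᵀ + (c l)ᵀ * c k = (if k = l then (2 : ℝ) else 0) • 1) :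
    2 ^ m * Module.finrank ℝ (⨅ k, LinearMap.ker (Matrix.mulVecLin (c k)) : Submodule ℝ (S → ℝ))
      ≤ Fintype.card S := by
  have h := car_step c h2 Finset.univ
  have e : (⨅ k ∈ (Finset.univ : Finset (Fin m)), LinearMap.ker (Matrix.mulVecLin (c k)) :
      Submodule ℝ (S → ℝ)) = ⨅ k, LinearMap.ker (Matrix.mulVecLin (c k)) := by
    simp only [Finset.mem_univ, iInf_true]
  rw [e, Finset.card_univ, Fintype.card_fin] at h
  exact h

end Pool.Agent.TAF
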