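import Pool.Agent.P.MP_cb4022_pr.Defs
import Pool.Agent.P.MP_cb4022_pr.Nrm

open scoped Classical Matrix
open Finset

noncomputable section

namespace Pool.Agent.TAF

variable {S : Type} [Fintype S] [DecidableEq S] {C : Type}


theorem prodT_add (T : ℕ → Matrix S S ℝ) (k₁ k₂ b : ℕ) :
    prodT T (k₁ + k₂) b = prodT T k₂ (b + k₁) * prodT T k₁ b := by
  induction k₁ generalizing b with
  | zero => simp [prodT]
  | succ k ih =>
    rw [Nat.add_right_comm, prodT, prodT, ih, Matrix.mul_assoc, add_assoc, add_comm 1 k]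

theorem prodT_nonneg {T : ℕ → Matrix S S ℝ} (hT : ∀ b i j, 0 ≤ T b i j) (k b : ℕ) (i j : S) :
    0 ≤ prodT T k b i j := by
  induction k generalizing b i j with
  | zero =>
    rw [prodT, Matrix.one_apply]
    split_ifs <;> norm_num
  | succ k ih =>
    rw [prodT, Matrix.mul_apply]
    exact sum_nonneg fun t _ => mul_nonneg (ih _ _ _) (hT _ _ _)

theorem prodT_op {T : ℕ → Matrix S S ℝ} {Λ : ℝ} (hΛ : 0 ≤ Λ)
    (hop : ∀ b w, nrm (T b *ᵥ w) ≤ Λ * nrm w) (k b : ℕ) (w : S → ℝ) :
    nrm (prodT T k b *ᵥ w) ≤ Λ ^ k * nrm w := by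
  induction k generalizing b w with
  | zero => simp [prodT]
  | succ k ih =>
    rw [prodT, ← Matrix.mulVec_mulVec, pow_succ, mul_assoc]
    exact (ih _ _).trans (mul_le_mul_of_nonneg_left (hop _ _) (pow_nonneg hΛ k))

theorem chain_succ (T : ℕ → Matrix S S ℝ) (lab : S → C) (k b : ℕ) (f : List C → ℝ) (i j : S) :
    chain T lab (k + 1) b f i j = (chain T lab k (b + 1) (fun l => f (lab j :: l)) * T b) i j :=
  rfl

theorem chain_smul (T : ℕ → Matrix S S ℝ) (lab : S → C) (k b : ℕ) (c : ℝ) (f : List C → ℝ) :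
    chain T lab k b (fun l => c * f l) = c • chain T lab k b f := by
  induction k generalizing b f with
  | zero => simp only [chain, smul_smul]
  | succ k ih =>
    ext i j
    rw [Matrix.smul_apply, chain_succ, chain_succ, ih, Matrix.smul_mul, Matrix.smul_apply]

theorem chain_const (T : ℕ → Matrix S S ℝ) (lab : S → C) (k b : ℕ) (c : ℝ) :
    chain T lab k b (fun _ => c) = c • prodT T k b := by
  induction k generalizing b with
  | zero => rfl
  | succ k ih =>
    ext i j
    rw [chain_succ, ih, prodT, Matrix.smul_mul]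

theorem chain_congr (T : ℕ → Matrix S S ℝ) (lab : S → C) (k b : ℕ) {f g : List C → ℝ}
    (h : ∀ l : List S, l.length = k → f (l.map lab) = g (l.map lab)) :
    chain T lab k b f = chain T lab k b g := by
  induction k generalizing b f g with
  | zero => rw [chain, chain, show f [] = g [] from h [] rfl]
  | succ k ih =>
    ext i j
    rw [chain_succ, chain_succ, ih (b + 1) (g := fun l => g (lab j :: l))
      fun l hl => h (j :: l) (by simp [hl])]

theorem chain_map (T : ℕ → Matrix S S ℝ) (lab : S → C) (k b : ℕ) (f : List C → ℝ) :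
    chain T lab k b f = chain T id k b (fun l => f (l.map lab)) := by
  induction k generalizing b f with
  | zero => rfl
  | succ k ih =>
    ext i j
    rw [chain_succ, chain_succ, ih]
    rfl

theorem chain_add (T : ℕ → Matrix S S ℝ) (lab : S → C) (k b : ℕ) (f g : List C → ℝ) :
    chain T lab k b (fun l => f l + g l) = chain T lab k b f + chain T lab k b g := by
  induction k generalizing b f g with
  | zero => simp only [chain, add_smul]
  | succ k ih =>
    ext i j
    rw [Matrix.add_apply, chain_succ, chain_succ, chain_succ, ih, Matrix.add_mul, Matrix.add_apply]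

theorem chain_append (T : ℕ → Matrix S S ℝ) (lab : S → C) (k₁ k₂ b : ℕ) (f g : List C → ℝ) :
    chain T lab (k₁ + k₂) b (fun l => f (l.take k₁) * g (l.drop k₁)) =
      chain T lab k₂ (b + k₁) g * chain T lab k₁ b f := by
  induction k₁ generalizing b f with
  | zero =>
    simp only [zero_add, add_zero, List.take_zero, List.drop_zero, chain_smul, chain,
      Matrix.mul_smul, Matrix.mul_one]
  | succ k ih =>
    ext i j
    rw [Nat.add_right_comm, chain_succ]
    simp only [List.take_succ_cons, List.drop_succ_cons]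
    rw [ih (b + 1) (fun l => f (lab j :: l)), Matrix.mul_assoc, add_assoc, add_comm 1 k]
    rfl

theorem chain_head (T : ℕ → Matrix S S ℝ) (lab : S → C) (k b : ℕ) (g : C → ℝ) (d : C) :
    chain T lab (k + 1) b (fun l => g (l.headD d)) =
      prodT T (k + 1) b * Matrix.diagonal fun σ => g (lab σ) := by
  ext i j
  rw [chain_succ, Matrix.mul_diagonal]
  simp only [List.headD_cons]
  rw [chain_const, prodT, Matrix.smul_mul, Matrix.smul_apply, smul_eq_mul, mul_comm]

theorem chain_mono {T : ℕ → Matrix S S ℝ} (hT : ∀ b i j, 0 ≤ T b i j) (lab : S → C) (k b : ℕ)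
    {f g : List C → ℝ} (h : ∀ l, f l ≤ g l) (i j : S) :
    chain T lab k b f i j ≤ chain T lab k b g i j := by
  induction k generalizing b f g i j with
  | zero =>
    simp only [chain, Matrix.smul_apply, smul_eq_mul]
    exact mul_le_mul_of_nonneg_right (h _) (prodT_nonneg hT 0 b i j)
  | succ k ih =>
    rw [chain_succ, chain_succ, Matrix.mul_apply, Matrix.mul_apply]
    exact sum_le_sum fun t _ => mul_le_mul_of_nonneg_right (ih _ (fun l => h _) _ _) (hT _ _ _)

theorem chain_abs_le {T : ℕ → Matrix S S ℝ} (hT : ∀ b i j, 0 ≤ T b i j) (lab : S → C) (k b : ℕ)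
    {f : List C → ℝ} (h : ∀ l, |f l| ≤ 1) (i j : S) :
    |chain T lab k b f i j| ≤ prodT T k b i j := by
  have h1 := chain_mono hT lab k b (fun l => (abs_le.mp (h l)).1) i j
  have h2 := chain_mono hT lab k b (fun l => (abs_le.mp (h l)).2) i j
  rw [chain_const, Matrix.smul_apply, smul_eq_mul] at h1 h2
  exact abs_le.mpr ⟨by linarith, by linarith⟩

theorem chain_op {T : ℕ → Matrix S S ℝ} (hT : ∀ b i j, 0 ≤ T b i j) {Λ : ℝ} (hΛ : 0 ≤ Λ)
    (hop : ∀ b w, nrm (T b *ᵥ w) ≤ Λ * nrm w) (lab : S → C) (k b : ℕ) {f : List C → ℝ}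
    (h : ∀ l, |f l| ≤ 1) (w : S → ℝ) : nrm (chain T lab k b f *ᵥ w) ≤ Λ ^ k * nrm w :=
  Dom.op ⟨prodT T k b, chain_abs_le hT lab k b h, prodT_op hΛ hop k b⟩ w

theorem chain_par {T : ℕ → Matrix S S ℝ} {pr : S → Bool}
    (hT : ∀ b i j, pr i ≠ pr j → T b i j = 0) (lab : S → C) (k b : ℕ) (f : List C → ℝ) (i j : S)
    (h : pr i ≠ pr j) : chain T lab k b f i j = 0 := by
  induction k generalizing b f i j with
  | zero =>
    have : i ≠ j := fun e => h (e ▸ rfl)
    simp [chain, this]
  | succ k ih =>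
    rw [chain_succ, Matrix.mul_apply]
    refine sum_eq_zero fun t _ => ?_
    by_cases e : pr i = pr t
    · rw [hT b t j (e ▸ h), mul_zero]
    · rw [ih _ _ _ _ e, zero_mul]

end Pool.Agent.TAF
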