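import Pool.Agent.P.MP_cb4022_pr.Defs
import Pool.Agent.P.MP_cb4022_pr.Chain

open scoped Classical Matrix
open Finset

noncomputable section

namespace Pool.Agent.TAF

variable {S : Type} [Fintype S] [DecidableEq S] {C : Type}


theorem chaindom_sum {a a' c c' : S → ℝ} (ha : ∀ t, |a t| ≤ a' t) (hc : ∀ t, |c t| ≤ c' t) :
    |∑ t, a t * c t| ≤ ∑ t, a' t * c' t := by
  refine (Finset.abs_sum_le_sum_abs _ _).trans (Finset.sum_le_sum fun t _ => ?_)
  rw [abs_mul]
  exact mul_le_mul (ha t) (hc t) (abs_nonneg _) ((abs_nonneg _).trans (ha t))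

theorem chaindom_mul {A A' B B' : Matrix S S ℝ} (ha : ∀ i j, |A i j| ≤ A' i j)
    (hb : ∀ i j, |B i j| ≤ B' i j) (i j : S) : |(A * B) i j| ≤ (A' * B') i j := by
  rw [Matrix.mul_apply, Matrix.mul_apply]
  exact chaindom_sum (ha i) fun t => hb t j

theorem chaindom_aux {T : ℕ → Matrix S S ℝ} (hT : ∀ b i j, 0 ≤ T b i j) {Λ : ℝ} (hΛ : 0 ≤ Λ)
    (hop : ∀ b w, nrm (T b *ᵥ w) ≤ Λ * nrm w) (lab : S → C) (ι : C → C)
    (χ χf : ℕ → Matrix S S ℝ) {δ η : ℝ} (hδ : 0 ≤ δ) (hη : 0 ≤ η) (hf : ∀ b, Dom (χf b) η)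
    (hn : ∀ b i j, (χ b - χf b) i j ≠ 0 → lab i = ι (lab j))
    (hE : ∀ b, Dom (T b * χ b - χ (b + 1) * T b) (δ * Λ)) (k : ℕ) :
    ∀ b, ∃ DD : Matrix S S ℝ, (∀ w, nrm (DD *ᵥ w) ≤ k * (δ + 2 * η) * Λ ^ k * nrm w) ∧
      ∀ f : List C → ℝ, (∀ l, |f l| ≤ 1) → ∀ i j,
        |(chain T lab k b f * χ b - χ (b + k) * chain T lab k b (fun l => f (l.map ι))) i j| ≤
          DD i j := by
  induction k with
  | zero =>
    intro b
    refine ⟨0, fun w => ?_, fun f _ i j => ?_⟩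
    · rw [Matrix.zero_mulVec, nrm_zero]
      simp
    · simp [chain]
  | succ k ih =>
    intro b
    obtain ⟨DD, hD1, hD2⟩ := ih (b + 1)
    obtain ⟨E', hE1, hE2⟩ := hE b
    obtain ⟨F', hF1, hF2⟩ := hf b
    have hTa : ∀ i j, |T b i j| ≤ T b i j := fun i j => (abs_of_nonneg (hT b i j)).le
    refine ⟨DD * T b + prodT T k (b + 1) * E' + (prodT T (k + 1) b * F' + prodT T (k + 1) b * F'),
      fun w => ?_, fun f hf1 r s => ?_⟩
    · have hk : (0 : ℝ) ≤ k * (δ + 2 * η) * Λ ^ k := by positivity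
      have h1 : nrm ((DD * T b) *ᵥ w) ≤ k * (δ + 2 * η) * Λ ^ k * (Λ * nrm w) := by
        rw [← Matrix.mulVec_mulVec]
        exact (hD1 _).trans (mul_le_mul_of_nonneg_left (hop b w) hk)
      have h2 : nrm ((prodT T k (b + 1) * E') *ᵥ w) ≤ Λ ^ k * (δ * Λ * nrm w) := by
        rw [← Matrix.mulVec_mulVec]
        exact (prodT_op hΛ hop _ _ _).trans (mul_le_mul_of_nonneg_left (hE2 w) (pow_nonneg hΛ _))
      have h3 : nrm ((prodT T (k + 1) b * F') *ᵥ w) ≤ Λ ^ (k + 1) * (η * nrm w) := by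
        rw [← Matrix.mulVec_mulVec]
        exact (prodT_op hΛ hop _ _ _).trans (mul_le_mul_of_nonneg_left (hF2 w) (pow_nonneg hΛ _))
      rw [Matrix.add_mulVec, Matrix.add_mulVec, Matrix.add_mulVec]
      refine (nrm_add_le _ _).trans ((add_le_add ((nrm_add_le _ _).trans (add_le_add h1 h2))
        ((nrm_add_le _ _).trans (add_le_add h3 h3))).trans (le_of_eq ?_))
      push_cast
      ring
    · let X : C → Matrix S S ℝ := fun c => chain T lab k (b + 1) fun l => f (c :: l)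
      have hX : ∀ c i j, |X c i j| ≤ prodT T k (b + 1) i j := fun c =>
        chain_abs_le hT lab k (b + 1) fun l => hf1 _
      have hXT : ∀ c i j, |(X c * T b) i j| ≤ prodT T (k + 1) b i j := fun c =>
        chaindom_mul (hX c) hTa
      let Z : Matrix S S ℝ := chain T lab k (b + 1) fun l => f (ι (lab s) :: l.map ι)
      have e1 : (chain T lab (k + 1) b f * χ b) r s = ∑ t, (X (lab t) * T b) r t * χ b t s := by
        rw [Matrix.mul_apply]
        rfl
      have e2 : (χ (b + (k + 1)) * chain T lab (k + 1) b (fun l => f (l.map ι))) r s =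
          (χ (b + 1 + k) * (Z * T b)) r s := by
        rw [Matrix.mul_apply, Matrix.mul_apply, show b + (k + 1) = b + 1 + k by ring]
        rfl
      have e3 : (X (ι (lab s)) * T b * (χ b - χf b)) r s =
          ∑ t, (X (lab t) * T b) r t * χ b t s - ∑ t, (X (lab t) * T b) r t * χf b t s := by
        rw [Matrix.mul_apply, ← Finset.sum_sub_distrib]
        refine Finset.sum_congr rfl fun t _ => ?_
        rw [← mul_sub, ← Matrix.sub_apply]
        by_cases h0 : (χ b - χf b) t s = 0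
        · rw [h0, mul_zero, mul_zero]
        · rw [hn b t s h0]
      have e4 : X (ι (lab s)) * T b * (χ b - χf b) - χ (b + 1 + k) * (Z * T b) =
          (X (ι (lab s)) * χ (b + 1) - χ (b + 1 + k) * Z) * T b +
            X (ι (lab s)) * (T b * χ b - χ (b + 1) * T b) - X (ι (lab s)) * T b * χf b := by
        noncomm_ring
      have e5 := congrFun (congrFun e4 r) s
      rw [Matrix.sub_apply, e3, Matrix.sub_apply, Matrix.add_apply] at e5
      have b1 := chaindom_mul (hD2 (fun l => f (ι (lab s) :: l)) fun l => hf1 _) hTa r s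
      have b2 := chaindom_mul (hX (ι (lab s))) hE1 r s
      have b3 := chaindom_mul (hXT (ι (lab s))) hF1 r s
      have b4 : |∑ t, (X (lab t) * T b) r t * χf b t s| ≤ (prodT T (k + 1) b * F') r s := by
        rw [Matrix.mul_apply]
        exact chaindom_sum (fun t => hXT (lab t) r t) fun t => hF1 t s
      rw [Matrix.sub_apply, e1, e2, Matrix.add_apply, Matrix.add_apply, Matrix.add_apply]
      have b1' : |((X (ι (lab s)) * χ (b + 1) - χ (b + 1 + k) * Z) * T b) r s| ≤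
          (DD * T b) r s := b1
      rw [abs_le] at b1' b2 b3 b4 ⊢
      constructor <;> linarith [b1'.1, b1'.2, b2.1, b2.2, b3.1, b3.2, b4.1, b4.2]

theorem chain_itw {T : ℕ → Matrix S S ℝ} (hT : ∀ b i j, 0 ≤ T b i j) {Λ : ℝ} (hΛ : 0 ≤ Λ)
    (hop : ∀ b w, nrm (T b *ᵥ w) ≤ Λ * nrm w) (lab : S → C) (ι : C → C)
    (χ χf : ℕ → Matrix S S ℝ) {δ η : ℝ} (hδ : 0 ≤ δ) (hη : 0 ≤ η) (hf : ∀ b, Dom (χf b) η)
    (hn : ∀ b i j, (χ b - χf b) i j ≠ 0 → lab i = ι (lab j))
    (hE : ∀ b, Dom (T b * χ b - χ (b + 1) * T b) (δ * Λ)) (k b : ℕ) (f : List C → ℝ)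
    (hf1 : ∀ l, |f l| ≤ 1) (w : S → ℝ) :
    nrm ((chain T lab k b f * χ b - χ (b + k) * chain T lab k b (fun l => f (l.map ι))) *ᵥ w) ≤
      k * (δ + 2 * η) * Λ ^ k * nrm w := by
  obtain ⟨DD, h1, h2⟩ := chaindom_aux hT hΛ hop lab ι χ χf hδ hη hf hn hE k b
  exact Dom.op ⟨DD, h2 f hf1, h1⟩ w

end Pool.Agent.TAF
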