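import Pool.Agent.P.MP_cb4022_pr.Defs
import Pool.Agent.P.MP_cb4022_pr.Cliff
import Pool.Agent.P.MP_cb4022_pr.Nrm
import Pool.Agent.P.MP_cb4022_pr.Chain

open scoped Classical Matrix
open Finset

noncomputable section

namespace Pool.Agent.TAF

private theorem wt_ge {t : ℝ} (ht : 1 ≤ t) (a b : Bool) : 1 ≤ wt t a b := by
  unfold wt; split_ifs
  · exact le_rfl
  · exact ht

private theorem wt_le {t : ℝ} (ht : 1 ≤ t) (a b : Bool) : wt t a b ≤ t := by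
  unfold wt; split_ifs
  · exact ht
  · exact le_rfl

private theorem prod_wt_ge {t : ℝ} (ht : 1 ≤ t) (m : ℕ) (a b : ℕ → Bool) :
    1 ≤ ∏ j ∈ range m, wt t (a j) (b j) :=
  Finset.prod_induction _ (fun x => 1 ≤ x) (fun _ _ => one_le_mul_of_one_le_of_one_le) le_rfl
    fun _ _ => wt_ge ht _ _

private theorem prod_wt_le {t : ℝ} (ht : 1 ≤ t) (m : ℕ) (a b : ℕ → Bool) :
    ∏ j ∈ range m, wt t (a j) (b j) ≤ t ^ m := by
  calc ∏ j ∈ range m, wt t (a j) (b j) ≤ ∏ _j ∈ range m, t :=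
        Finset.prod_le_prod (fun j _ => zero_le_one.trans (wt_ge ht _ _)) fun j _ => wt_le ht _ _
    _ = t ^ m := by rw [Finset.prod_const, Finset.card_range]

private theorem hrow_ge {n : ℕ} {t : ℝ} (ht : 1 ≤ t) (σ : St n) : 1 ≤ hrow t σ :=
  prod_wt_ge ht _ _ _

private theorem hrow_le {n : ℕ} {t : ℝ} (ht : 1 ≤ t) (σ : St n) : hrow t σ ≤ t ^ (n + 1) :=
  prod_wt_le ht _ _ _

private theorem sweep_ge {n : ℕ} {t : ℝ} (ht : 1 ≤ t) {σ' σ : St n} (h : par σ' = par σ) :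
    1 ≤ sweep t σ' σ := by
  rw [sweep, if_pos h]
  exact one_le_mul_of_one_le_of_one_le (prod_wt_ge ht _ _ _) (prod_wt_ge ht _ _ _)

private theorem sweep_nonneg {n : ℕ} {t : ℝ} (ht : 1 ≤ t) (σ' σ : St n) : 0 ≤ sweep t σ' σ := by
  by_cases h : par σ' = par σ
  · exact zero_le_one.trans (sweep_ge ht h)
  · rw [sweep, if_neg h]

private theorem sweep_le {n : ℕ} {t : ℝ} (ht : 1 ≤ t) (σ' σ : St n) :
    sweep t σ' σ ≤ t ^ n * t ^ (n + 1) := by
  have h0 : 0 ≤ t := zero_le_one.trans ht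
  by_cases h : par σ' = par σ
  · rw [sweep, if_pos h]
    exact mul_le_mul (prod_wt_le ht _ _ _) (prod_wt_le ht _ _ _)
      (zero_le_one.trans (prod_wt_ge ht _ _ _)) (by positivity)
  · rw [sweep, if_neg h]
    positivity

private theorem T1_apply (n : ℕ) (y : ℝ) (σ' σ : St n) :
    T1 n y σ' σ = hrow y σ' * sweep (y ^ 2) σ' σ * hrow y σ := rfl

private theorem TT_apply (n : ℕ) (y : ℝ) (σ' σ : St n) :
    TT n y σ' σ = ∑ τ, T1 n y τ σ' * T1 n y τ σ := rfl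

private theorem TT_form (n : ℕ) (y : ℝ) (w : St n → ℝ) :
    w ⬝ᵥ (TT n y *ᵥ w) = ∑ τ, (T1 n y *ᵥ w) τ ^ 2 := by
  rw [TT, ← Matrix.mulVec_mulVec, Matrix.dotProduct_mulVec, Matrix.vecMul_transpose, dotProduct]
  exact Finset.sum_congr rfl fun τ _ => (sq _).symm

private theorem Tk_parity (n : ℕ) (y : ℝ) {b b' : ℕ} (h : Even b ↔ Even b') :
    Tk n y b = Tk n y b' := by
  unfold Tk
  by_cases hb : Even b
  · rw [if_pos hb, if_pos (h.1 hb)]
  · rw [if_neg hb, if_neg fun h' => hb (h.2 h')]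

private theorem Tk_transpose (n : ℕ) (y : ℝ) (b : ℕ) : (Tk n y b)ᵀ = Tk n y (b + 1) := by
  unfold Tk
  by_cases hb : Even b
  · rw [if_pos hb, if_neg (Nat.even_add_one.not.2 (not_not.2 hb))]
  · rw [if_neg hb, if_pos (Nat.even_add_one.2 hb), Matrix.transpose_transpose]

theorem T1_nonneg (n : ℕ) {y : ℝ} (hy : 1 < y) (σ' σ : St n) : 0 ≤ T1 n y σ' σ := by
  rw [T1_apply]
  exact mul_nonneg (mul_nonneg (zero_le_one.trans (hrow_ge hy.le _))
    (sweep_nonneg (one_le_pow₀ hy.le) _ _)) (zero_le_one.trans (hrow_ge hy.le _))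

theorem T1_par (n : ℕ) (y : ℝ) {σ' σ : St n} (h : par σ' ≠ par σ) : T1 n y σ' σ = 0 := by
  rw [T1_apply, sweep, if_neg h, mul_zero, zero_mul]

theorem T1_ge (n : ℕ) {y : ℝ} (hy : 1 < y) {σ' σ : St n} (h : par σ' = par σ) :
    1 ≤ T1 n y σ' σ := by
  rw [T1_apply]
  exact one_le_mul_of_one_le_of_one_le (one_le_mul_of_one_le_of_one_le (hrow_ge hy.le _)
    (sweep_ge (one_le_pow₀ hy.le) h)) (hrow_ge hy.le _)

theorem T1_le (n : ℕ) {y : ℝ} (hy : 1 < y) (σ' σ : St n) : T1 n y σ' σ ≤ y ^ (6 * (n + 1)) := by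
  have h0 : 0 ≤ y := zero_le_one.trans hy.le
  have h2 : 1 ≤ y ^ 2 := one_le_pow₀ hy.le
  rw [T1_apply]
  calc hrow y σ' * sweep (y ^ 2) σ' σ * hrow y σ
      ≤ y ^ (n + 1) * ((y ^ 2) ^ n * (y ^ 2) ^ (n + 1)) * y ^ (n + 1) :=
        mul_le_mul (mul_le_mul (hrow_le hy.le _) (sweep_le h2 _ _) (sweep_nonneg h2 _ _)
          (by positivity)) (hrow_le hy.le _) (zero_le_one.trans (hrow_ge hy.le _)) (by positivity)
    _ = y ^ (6 * n + 4) := by ring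
    _ ≤ y ^ (6 * (n + 1)) := pow_le_pow_right₀ hy.le (by omega)

theorem Tk_nonneg (n : ℕ) {y : ℝ} (hy : 1 < y) (b : ℕ) (σ' σ : St n) : 0 ≤ Tk n y b σ' σ := by
  unfold Tk
  split_ifs
  · exact T1_nonneg n hy _ _
  · exact T1_nonneg n hy _ _

theorem Tk_par (n : ℕ) (y : ℝ) (b : ℕ) (σ' σ : St n) (h : par σ' ≠ par σ) :
    Tk n y b σ' σ = 0 := by
  unfold Tk
  split_ifs
  · exact T1_par n y h
  · exact T1_par n y h.symm

theorem TT_transpose (n : ℕ) (y : ℝ) : (TT n y)ᵀ = TT n y := by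
  rw [TT, Matrix.transpose_mul, Matrix.transpose_transpose]

theorem TT_nonneg (n : ℕ) {y : ℝ} (hy : 1 < y) (σ' σ : St n) : 0 ≤ TT n y σ' σ := by
  rw [TT_apply]
  exact Finset.sum_nonneg fun τ _ => mul_nonneg (T1_nonneg n hy _ _) (T1_nonneg n hy _ _)

theorem TT_par (n : ℕ) (y : ℝ) (σ' σ : St n) (h : par σ' ≠ par σ) : TT n y σ' σ = 0 := by
  rw [TT_apply]
  refine Finset.sum_eq_zero fun τ _ => ?_
  by_cases h1 : par τ = par σ'
  · rw [T1_par n y (σ := σ) (h1 ▸ h), mul_zero]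
  · rw [T1_par n y h1, zero_mul]

theorem TT_ge (n : ℕ) {y : ℝ} (hy : 1 < y) {σ' σ : St n} (h : par σ' = par σ) :
    1 ≤ TT n y σ' σ := by
  rw [TT_apply]
  refine le_trans ?_ (Finset.single_le_sum (f := fun τ => T1 n y τ σ' * T1 n y τ σ)
    (fun τ _ => mul_nonneg (T1_nonneg n hy _ _) (T1_nonneg n hy _ _)) (Finset.mem_univ σ))
  exact one_le_mul_of_one_le_of_one_le (T1_ge n hy h.symm) (T1_ge n hy rfl)

theorem TT_psd (n : ℕ) (y : ℝ) (w : St n → ℝ) : 0 ≤ w ⬝ᵥ (TT n y *ᵥ w) := by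
  rw [TT_form]
  exact Finset.sum_nonneg fun τ _ => sq_nonneg _

theorem TT_le (n : ℕ) {y : ℝ} (hy : 1 < y) (w : St n → ℝ) :
    w ⬝ᵥ (TT n y *ᵥ w) ≤ (4 * y ^ 12) ^ (n + 1) * (w ⬝ᵥ w) := by
  have hc : (Fintype.card (St n) : ℝ) = 2 ^ (n + 1) := by simp
  have hw : w ⬝ᵥ w = ∑ σ, w σ ^ 2 := Finset.sum_congr rfl fun σ _ => (sq _).symm
  have hw0 : 0 ≤ ∑ σ, w σ ^ 2 := Finset.sum_nonneg fun τ _ => sq_nonneg _
  rw [TT_form, hw]
  calc ∑ τ, (T1 n y *ᵥ w) τ ^ 2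
      ≤ ∑ _τ : St n, (2 ^ (n + 1) * (y ^ (6 * (n + 1))) ^ 2) * ∑ σ, w σ ^ 2 := by
        refine Finset.sum_le_sum fun τ _ => ?_
        refine (Finset.sum_mul_sq_le_sq_mul_sq Finset.univ (fun σ => T1 n y τ σ) w).trans ?_
        refine mul_le_mul_of_nonneg_right ?_ hw0
        calc ∑ σ, T1 n y τ σ ^ 2 ≤ ∑ _σ : St n, (y ^ (6 * (n + 1))) ^ 2 :=
              Finset.sum_le_sum fun σ _ =>
                pow_le_pow_left₀ (T1_nonneg n hy _ _) (T1_le n hy _ _) 2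
          _ = _ := by rw [Finset.sum_const, Finset.card_univ, nsmul_eq_mul, hc]
    _ = (4 * y ^ 12) ^ (n + 1) * ∑ σ, w σ ^ 2 := by
        rw [Finset.sum_const, Finset.card_univ, nsmul_eq_mul, hc, mul_pow,
          show (4 : ℝ) = 2 * 2 by norm_num, mul_pow]
        ring

theorem prodT_even (n : ℕ) (y : ℝ) (a : ℕ) {b : ℕ} (hb : Even b) :
    prodT (Tk n y) (2 * a) b = TT n y ^ a := by
  induction a generalizing b with
  | zero => simp [prodT]
  | succ a ih =>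
    have h1 : Tk n y b = T1 n y := if_pos hb
    have h2 : Tk n y (b + 1) = (T1 n y)ᵀ := by rw [← Tk_transpose, h1]
    rw [show 2 * (a + 1) = 2 * a + 1 + 1 by ring, prodT, prodT, ih (b := b + 1 + 1) (hb.add even_two), h1, h2,
      pow_succ, Matrix.mul_assoc, TT]

theorem prodT_parity (n : ℕ) (y : ℝ) (k : ℕ) {b b' : ℕ} (h : Even b ↔ Even b') :
    prodT (Tk n y) k b = prodT (Tk n y) k b' := by
  induction k generalizing b b' with
  | zero => rfl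
  | succ k ih =>
    rw [prodT, prodT, Tk_parity n y h, ih (b := b + 1) (b' := b' + 1)]
    rw [Nat.even_add_one, Nat.even_add_one, h]

theorem prodT_transpose (n : ℕ) (y : ℝ) (k b : ℕ) :
    (prodT (Tk n y) k b)ᵀ = prodT (Tk n y) k (b + k) := by
  induction k generalizing b with
  | zero => simp [prodT]
  | succ k ih =>
    rw [prodT_add _ k 1 (b + (k + 1)), prodT, Matrix.transpose_mul, ih, Tk_transpose, prodT, prodT,
      Matrix.one_mul, show b + 1 + k = b + (k + 1) by ring,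
      Tk_parity n y (b := b + 1) (b' := b + (k + 1) + k)]
    rw [show b + (k + 1) + k = b + 1 + 2 * k by ring, Nat.even_add (m := b + 1)]
    simp

theorem Pack.lower {n : ℕ} {y : ℝ} (hy : 1 < y) {lam θ δ : ℝ} {Ωp Ωm : St n → ℝ} {lp lm : ℝ}
    (h : Pack (TT n y) par lam θ δ Ωp Ωm lp lm) {w : St n → ℝ} (hw0 : ∀ σ, 0 ≤ w σ)
    (hw : ∀ σ, par σ = false → w σ = 0) : nrm w ≤ lam * (Ωp ⬝ᵥ w) := by
  have h1 : ∀ σ, par σ = true → 1 ≤ lam * Ωp σ := by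
    intro σ hσ
    have h2 : ∑ τ, TT n y σ τ * Ωp τ = lp * Ωp σ := congrFun h.ep σ
    calc 1 = nrm Ωp := (nrm_eq_one h.np).symm
      _ ≤ ∑ τ, |Ωp τ| := nrm_le_sum Ωp
      _ ≤ ∑ τ, TT n y σ τ * Ωp τ := by
          refine Finset.sum_le_sum fun τ _ => ?_
          rw [abs_of_nonneg (h.pos τ)]
          cases hτ : par τ
          · rw [h.sp τ hτ, mul_zero]
          · exact le_mul_of_one_le_left (h.pos τ) (TT_ge n hy (hσ.trans hτ.symm))
      _ = lp * Ωp σ := h2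
      _ ≤ lam * Ωp σ := mul_le_mul_of_nonneg_right h.lp2 (h.pos σ)
  refine (nrm_le_sum w).trans ?_
  rw [dotProduct, Finset.mul_sum]
  refine Finset.sum_le_sum fun σ _ => ?_
  rw [abs_of_nonneg (hw0 σ), ← mul_assoc]
  cases hσ : par σ
  · rw [hw σ hσ, mul_zero]
  · exact le_mul_of_one_le_left (hw0 σ) (h1 σ hσ)

end Pool.Agent.TAF
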