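import Pool.Agent.P.MP_cb4022_pr.Defs
import Pool.Agent.P.MP_cb4022_pr.Cliff
import Pool.Agent.P.MP_cb4022_pr.Chain
import Pool.Agent.P.MP_cb4022_pr.T1b

open scoped Classical Matrix
open Finset

noncomputable section

namespace Pool.Agent.TAF

theorem rev_rev {n : ℕ} (σ : St n) : rev (rev σ) = σ := by
  funext k
  unfold rev
  by_cases h : k.val < n
  · rw [dif_pos h, dif_pos (show n - 1 - k.val < n by omega)]
    exact congrArg σ (Fin.ext (show n - 1 - (n - 1 - k.val) = k.val by omega))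
  · rw [dif_neg h, dif_neg h]

theorem slot_rev {n : ℕ} {σ : St n} (h : par σ = true) {j : ℕ} (hj : j ≤ n + 1) :
    slot (rev σ) j = slot σ (n + 1 - j) := by
  rcases Nat.eq_zero_or_pos j with rfl | h0
  · rw [slot_zero]
    exact h.symm
  rcases hj.eq_or_lt with rfl | h1
  · rw [Nat.sub_self, slot_zero, ← h]
    simp [par, slot, rev]
  unfold slot rev
  rw [dif_pos ⟨h0, hj⟩, dif_pos (show j - 1 < n by omega),
    dif_pos (show 1 ≤ n + 1 - j ∧ n + 1 - j ≤ n + 1 by omega)]
  exact congrArg σ (Fin.ext (show n - 1 - (j - 1) = n + 1 - j - 1 by omega))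

theorem par_rev_Glide {n : ℕ} (σ : St n) : par (rev σ) = par σ := by
  simp [par, slot, rev]

theorem wt_comm_Glide (t : ℝ) (a b : Bool) : wt t a b = wt t b a := by
  simp only [wt, eq_comm]

theorem hrow_rev_Glide {n : ℕ} (t : ℝ) {σ : St n} (h : par σ = true) :
    hrow t (rev σ) = hrow t σ := by
  unfold hrow
  rw [← prod_range_reflect]
  refine prod_congr rfl fun j hj => ?_
  have hj' := mem_range.1 hj
  rw [slot_rev h (by omega), slot_rev h (by omega), wt_comm_Glide,
    show n + 1 - (n + 1 - 1 - j + 1) = j by omega, show n + 1 - (n + 1 - 1 - j) = j + 1 by omega]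

theorem T1_rev (n : ℕ) (y : ℝ) {σ' σ : St n} (h' : par σ' = true) (h : par σ = true) :
    T1 n y (rev σ') (rev σ) = T1 n y σ σ' := by
  have e : sweep (y ^ 2) (rev σ') (rev σ) = sweep (y ^ 2) σ σ' := by
    unfold sweep
    rw [par_rev_Glide, par_rev_Glide, h, h', if_pos rfl, if_pos rfl, ← prod_range_reflect,
      ← prod_range_reflect _ (n + 1)]
    refine congrArg₂ (· * ·) (prod_congr rfl fun j hj => ?_) (prod_congr rfl fun j hj => ?_)
    · have hj' := mem_range.1 hj
      rw [slot_rev h (by omega), slot_rev h' (by omega), wt_comm_Glide,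
        show n + 1 - (n - 1 - j + 1) = j + 1 by omega]
    · have hj' := mem_range.1 hj
      rw [slot_rev h (by omega), slot_rev h' (by omega), wt_comm_Glide,
        show n + 1 - (n + 1 - 1 - j + 1) = j by omega, show n + 1 - (n + 1 - 1 - j) = j + 1 by omega]
  unfold T1
  rw [Matrix.of_apply, Matrix.of_apply, e, hrow_rev_Glide y h, hrow_rev_Glide y h']
  ring

/-- The two matrices correspond under the reversal, in the sector `true`. -/
def Gl_Glide {n : ℕ} (A B : Matrix (St n) (St n) ℝ) : Prop :=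
  ∀ σ' σ, par σ = true → A (rev σ') (rev σ) = B σ' σ ∧ (par σ' = false → B σ' σ = 0)

theorem mul_Glide {n : ℕ} {A B A' B' : Matrix (St n) (St n) ℝ} (h : Gl_Glide A B)
    (h' : Gl_Glide A' B') : Gl_Glide (A * A') (B * B') := fun σ' σ hσ => by
  constructor
  · rw [Matrix.mul_apply, Matrix.mul_apply,
      ← Equiv.sum_comp (Function.Involutive.toPerm rev rev_rev)]
    refine sum_congr rfl fun τ _ => ?_
    change A (rev σ') (rev τ) * A' (rev τ) (rev σ) = _
    rw [(h' τ σ hσ).1]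
    cases hτ : par τ
    · rw [(h' τ σ hσ).2 hτ, mul_zero, mul_zero]
    · rw [(h σ' τ hτ).1]
  · intro h0
    rw [Matrix.mul_apply]
    refine sum_eq_zero fun τ _ => ?_
    cases hτ : par τ
    · rw [(h' τ σ hσ).2 hτ, mul_zero]
    · rw [(h σ' τ hτ).2 h0, zero_mul]

theorem diag_Glide {n : ℕ} {f g : St n → ℝ} (h : ∀ σ, par σ = true → f (rev σ) = g σ) :
    Gl_Glide (Matrix.diagonal f) (Matrix.diagonal g) := fun σ' σ hσ => by
  by_cases e : σ' = σ
  · subst e
    rw [Matrix.diagonal_apply_eq, Matrix.diagonal_apply_eq]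
    exact ⟨h _ hσ, fun h0 => absurd (hσ.symm.trans h0) (by decide)⟩
  · rw [Matrix.diagonal_apply_ne _ e, Matrix.diagonal_apply_ne _
      fun e' => e ((Function.Involutive.injective rev_rev) e')]
    exact ⟨rfl, fun _ => rfl⟩

theorem sig_Glide {n j : ℕ} (hj : j ≤ n + 1) : Gl_Glide (sig n j) (sig n (n + 1 - j)) :=
  diag_Glide fun _ h => congrArg sg (slot_rev h hj)

theorem Tk_Glide (n : ℕ) (y : ℝ) (b : ℕ) : Gl_Glide (Tk n y b) (Tk n y (b + 1)) := fun σ' σ hσ => by
  cases h : par σ'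
  · have h1 : par σ' ≠ par σ := by rw [h, hσ]; decide
    rw [Tk_par n y _ _ _ h1, Tk_par n y _ _ _ (by rwa [par_rev_Glide, par_rev_Glide])]
    exact ⟨rfl, fun _ => rfl⟩
  · refine ⟨?_, fun h0 => absurd h0 (by decide)⟩
    unfold Tk
    by_cases hb : Even b
    · rw [if_pos hb, if_neg (by simpa [Nat.even_add_one] using hb)]
      exact T1_rev n y h hσ
    · rw [if_neg hb, if_pos (Nat.even_add_one.2 hb)]
      exact T1_rev n y hσ h

theorem prodT_Glide (n : ℕ) (y : ℝ) (k : ℕ) :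
    ∀ b, Gl_Glide (prodT (Tk n y) k b) (prodT (Tk n y) k (b + 1)) := by
  induction k with
  | zero => exact fun _ => diag_Glide fun _ _ => rfl
  | succ k ih => exact fun b => mul_Glide (ih (b + 1)) (Tk_Glide n y b)

theorem eAll_Glide {n : ℕ} {A B : Matrix (St n) (St n) ℝ} (h : Gl_Glide A B) :
    A (eAll n) (eAll n) = B (eAll n) (eAll n) := by
  have e : rev (eAll n) = eAll n := funext fun k => by simp [rev, eAll]
  have := (h (eAll n) (eAll n) (slot_eAll n _)).1
  rwa [e] at this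

theorem glide (n : ℕ) (y : ℝ) (k₁ k₂ k₃ b₁ b₂ b₃ : ℕ) {i j : ℕ} (hi : i ≤ n + 1) (hj : j ≤ n + 1) :
    (prodT (Tk n y) k₃ b₃ * sig n j * prodT (Tk n y) k₂ b₂ * sig n i * prodT (Tk n y) k₁ b₁)
        (eAll n) (eAll n) =
      (prodT (Tk n y) k₃ (b₃ + 1) * sig n (n + 1 - j) * prodT (Tk n y) k₂ (b₂ + 1) *
        sig n (n + 1 - i) * prodT (Tk n y) k₁ (b₁ + 1)) (eAll n) (eAll n) :=
  eAll_Glide (mul_Glide (mul_Glide (mul_Glide (mul_Glide (prodT_Glide n y k₃ b₃) (sig_Glide hj))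
    (prodT_Glide n y k₂ b₂)) (sig_Glide hi)) (prodT_Glide n y k₁ b₁))

theorem glide_one (n : ℕ) (y : ℝ) (k b : ℕ) :
    prodT (Tk n y) k b (eAll n) (eAll n) = prodT (Tk n y) k (b + 1) (eAll n) (eAll n) :=
  eAll_Glide (prodT_Glide n y k b)

end Pool.Agent.TAF
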