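import Pool.Agent.P.MP_cb4022_pr.Loops
import Pool.Agent.P.MP_cb4022_pr.Glide

open scoped Classical Matrix
open Finset

noncomputable section

namespace Pool.Agent.TAF

section
variable {S : Type} [Fintype S] [DecidableEq S] {C : Type}

theorem chain_mul_const (T : ℕ → Matrix S S ℝ) (lab : S → C) (k : ℕ) :
    ∀ (b : ℕ) (f : List C → ℝ) (c : ℝ),
      chain T lab k b (fun l => f l * c) = c • chain T lab k b f := by
  induction k with
  | zero => intro b f c; simp only [chain, smul_smul, mul_comm]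
  | succ k ih =>
    intro b f c
    ext i j
    simp only [chain, Matrix.of_apply, ih, Matrix.smul_mul, Matrix.smul_apply]

theorem chain_mul_head (T : ℕ → Matrix S S ℝ) (lab : S → C) (k b : ℕ) (f : List C → ℝ)
    (g : C → ℝ) (d : C) : chain T lab (k + 1) b (fun l => f l * g (l.headD d)) =
      chain T lab (k + 1) b f * Matrix.diagonal fun σ => g (lab σ) := by
  ext i j
  rw [Matrix.mul_diagonal]
  simp only [chain, Matrix.of_apply, List.headD_cons, chain_mul_const, Matrix.smul_mul,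
    Matrix.smul_apply, smul_eq_mul]
  exact mul_comm _ _

theorem chain_two_pt (T : ℕ → Matrix S S ℝ) (k₁ k₂ k₃ b : ℕ) (g₁ g₂ : S → ℝ) (d : S) :
    chain T id (k₁ + k₂ + (k₃ + 1)) b (fun l => g₁ (l.getD k₁ d) * g₂ (l.getD (k₁ + k₂) d)) =
      prodT T (k₃ + 1) (b + k₁ + k₂) * Matrix.diagonal g₂ * prodT T k₂ (b + k₁) *
        Matrix.diagonal g₁ * prodT T k₁ b := by
  have hd : ∀ (l : List S) (k : ℕ), (l.drop k).headD d = l.getD k d := fun l k => by
    rw [List.headD_eq_head?_getD, List.head?_drop, List.getD_eq_getElem?_getD]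
  have h1 := chain_append T id k₁ (k₂ + k₃ + 1) b (fun _ => 1)
    (fun l => g₂ ((l.drop k₂).headD d) * g₁ (l.headD d))
  have h2 := chain_append T id k₂ (k₃ + 1) (b + k₁) (fun _ => 1) (fun l => g₂ (l.headD d))
  rw [chain_mul_head] at h1
  rw [chain_head] at h2
  simp only [one_mul, chain_const, one_smul, List.drop_drop, id] at h1 h2
  rw [← add_assoc] at h2
  rw [h2] at h1
  simp only [hd] at h1
  rw [← h1, show k₁ + k₂ + (k₃ + 1) = k₁ + (k₂ + k₃ + 1) by ring]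
  simp only [mul_comm]

end

section
variable {n : ℕ} {y θ K q : ℝ} {L₀ : ℕ} {lam : ℝ} {Ωp Ωm : St n → ℝ} {lp lm : ℝ}

theorem State.magn (h : State n y θ K q L₀ lam Ωp Ωm lp lm) (hθ0 : 0 < θ) {i d : ℕ} (h₀ : d ≤ i)
    (h₁ : i + d ≤ n) : |Ωp ⬝ᵥ (sig n i *ᵥ Ωp)| ≤ 2 * K * q ^ d := by
  have hlam : 0 < lam := by linarith [h.one]
  have s := h.sym i i d 1 0 (fun l => sg (l.headD (fun _ => true) i)) h₀ h₁ (by simp)
    (fun l => by unfold sg; split_ifs <;> simp)
  have e1 := chain_head (Tk n y) (labW i i) 1 0 (fun c => sg (c i)) (fun _ => true)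
  have e2 := chain_head (Tk n y) (labW i i) 1 0 (fun c => -sg (c i)) (fun _ => true)
  have e3 : chain (Tk n y) (labW i i) (2 * 1) 0
      (fun l => sg ((l.map (negW i i)).headD (fun _ => true) i)) =
      chain (Tk n y) (labW i i) (1 + 1) 0 (fun l => -sg (l.headD (fun _ => true) i)) := by
    refine chain_congr _ _ _ _ fun l hl => ?_
    cases l with
    | nil => simp at hl
    | cons a l =>
      simp only [List.map_cons, List.headD_cons, negW, le_refl, and_self, if_true]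
      cases labW i i a i <;> simp [sg]
  have e4 : (Matrix.diagonal fun σ : St n => sg (labW i i σ i)) = sig n i := by
    simp [sig, labW]
  have e5 : (Matrix.diagonal fun σ : St n => -sg (labW i i σ i)) = -sig n i := by
    rw [← e4, Matrix.diagonal_neg]
  have e6 : prodT (Tk n y) (1 + 1) 0 = TT n y := by simpa using prodT_even n y 1 (b := 0) (by simp)
  have e7 : Ωp ⬝ᵥ ((TT n y * sig n i) *ᵥ Ωp) = lp * (Ωp ⬝ᵥ (sig n i *ᵥ Ωp)) := by
    rw [← Matrix.mulVec_mulVec, Matrix.dotProduct_mulVec, ← Matrix.mulVec_transpose, TT_transpose,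
      h.pack.ep, smul_dotProduct, smul_eq_mul]
  rw [e3, e2, show 2 * 1 = 1 + 1 from rfl, e1, e4, e5, e6, mul_neg, Matrix.neg_mulVec,
    dotProduct_neg, e7, sub_neg_eq_add, ← two_mul, abs_mul, abs_mul, abs_two] at s
  have hlp := h.lp_pos
  have hlp2 : lam / 2 ≤ lp := by nlinarith
  rw [abs_of_pos (by linarith : 0 < lp)] at s
  have h3 : lam / 2 * |Ωp ⬝ᵥ (sig n i *ᵥ Ωp)| ≤ lp * |Ωp ⬝ᵥ (sig n i *ᵥ Ωp)| := by gcongr
  refine le_of_mul_le_mul_left ?_ hlam
  push_cast at s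
  linarith

theorem State.op2 (h : State n y θ K q L₀ lam Ωp Ωm lp lm) {k₁ k₂ m : ℕ} (hk : k₂ + k₁ = 2 * m)
    (b₁ b₂ j : ℕ) (w : St n → ℝ) :
    nrm ((prodT (Tk n y) k₂ b₂ * sig n j * prodT (Tk n y) k₁ b₁) *ᵥ w) ≤ lam ^ m * nrm w := by
  have hlam : 0 ≤ lam := by linarith [h.one]
  have p := prodT_op (Real.sqrt_nonneg lam) (Tk_op hlam h.form)
  rw [← Matrix.mulVec_mulVec, ← Matrix.mulVec_mulVec]
  refine (p _ _ _).trans ?_
  rw [nrm_sig]
  refine (mul_le_mul_of_nonneg_left (p _ _ _) (by positivity)).trans (le_of_eq ?_)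
  rw [← mul_assoc, ← pow_add, hk, pow_mul, Real.sq_sqrt hlam]

theorem State.two_pt (h : State n y θ K q L₀ lam Ωp Ωm lp lm) (hθ0 : 0 < θ) (hK : 0 < K)
    (hq : 0 < q) {i j D m l b : ℕ} (hD : L₀ ≤ D) (h₀ : 2 * D ≤ i) (h₁ : i + 2 * D ≤ n)
    (hj : j ≤ n + 1) (hb : Even b) (hl : l ≤ 2 * m)
    (hc : 2 * D ≤ l ∨ j + D ≤ i ∨ i + D + 1 ≤ j) :
    |Ωp ⬝ᵥ ((prodT (Tk n y) (2 * m - l) (b + l) * sig n j * prodT (Tk n y) l b * sig n i) *ᵥ Ωp)|
      ≤ (2 * K * q ^ D + θ ^ D) * lam ^ m := by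
  have hlam : 0 < lam := by linarith [h.one]
  rcases hc with hc | hc
  · obtain ⟨l', rfl⟩ : ∃ l', l = 2 * D + l' := ⟨l - 2 * D, by omega⟩
    obtain ⟨m', rfl⟩ : ∃ m', m = D + m' := ⟨m - D, by omega⟩
    rw [prodT_add, prodT_even n y D hb, ← mul_assoc]
    have o2 := h.op2 (k₁ := l') (k₂ := 2 * (D + m') - (2 * D + l')) (m := m') (by omega)
      (b + 2 * D) (b + (2 * D + l')) j
    have m1 := h.mix hθ0 (G₁ := sig n i) (N₁ := 1) (by positivity) (fun w => by rw [nrm_sig n i, one_mul]) o2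
      (fun a b hab => Matrix.diagonal_apply_ne _ fun e => hab (by rw [e])) D
    have m2 := h.magn hθ0 (i := i) (d := D) (by omega) (by omega)
    have m3 := (abs_dot_le Ωp _).trans (mul_le_mul_of_nonneg_left (o2 Ωp) (nrm_nonneg Ωp))
    rw [nrm_eq_one h.pack.np, one_mul, mul_one] at m3
    have hlp0 : 0 ≤ lp := le_trans (by positivity) h.lp_pos
    have m4 : lp ^ D ≤ lam ^ D := pow_le_pow_left₀ hlp0 h.pack.lp2 D
    have m5 := mul_le_mul (mul_le_mul m4 m2 (abs_nonneg _) (by positivity)) m3 (abs_nonneg _)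
      (by positivity)
    rw [← abs_of_nonneg (pow_nonneg hlp0 D), ← abs_mul, ← abs_mul] at m5
    rw [mul_pow] at m1
    rw [pow_add, abs_le] at *
    constructor <;> linarith [m1.1, m1.2, m5.1, m5.2]
  · have r := h.row i j D m (2 * m - l) (b + 2 * m) hD h₀ h₁ hj hc (hb.add (even_two_mul m))
      (by omega)
    have e : (prodT (Tk n y) (2 * m - l) (b + l) * sig n j * prodT (Tk n y) l b * sig n i)ᵀ =
        sig n i * prodT (Tk n y) (2 * m - (2 * m - l)) (b + 2 * m + (2 * m - l)) * sig n j *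
          prodT (Tk n y) (2 * m - l) (b + 2 * m) := by
      simp only [Matrix.transpose_mul, sig_transpose, prodT_transpose, ← mul_assoc]
      rw [show 2 * m - (2 * m - l) = l by omega, show b + l + (2 * m - l) = b + 2 * m by omega,
        prodT_parity n y l (b := b + l) (b' := b + 2 * m + (2 * m - l))
          (by rw [Nat.even_iff, Nat.even_iff]; omega)]
    rw [← e, Matrix.mulVec_transpose, dotProduct_comm, ← Matrix.dotProduct_mulVec] at r
    refine r.trans (mul_le_mul_of_nonneg_right ?_ (by positivity))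
    have : 0 < K * q ^ D := by positivity
    have : 0 < θ ^ D := by positivity
    linarith

end

theorem decay_core {y : ℝ} (hy : 1 < y) : ∃ (ρ D₀ : ℕ) (C t : ℝ), 0 < C ∧ 0 < t ∧ t < 1 ∧
    ∀ n s k₁ l k₃ i j D : ℕ, D₀ ≤ D → Even (s + k₁) → ρ * (n + 1) ≤ k₁ → ρ * (n + 1) + 1 ≤ k₃ →
      l ≤ n → 2 * D ≤ i → i + 2 * D ≤ n → j ≤ n + 1 → (2 * D ≤ l ∨ j + D ≤ i ∨ i + D + 1 ≤ j) →
      |(prodT (Tk n y) k₃ (s + k₁ + l) * sig n j * prodT (Tk n y) l (s + k₁) * sig n i *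
          prodT (Tk n y) k₁ s) (eAll n) (eAll n) /
        prodT (Tk n y) (k₁ + l + k₃) s (eAll n) (eAll n)| ≤ C * t ^ D := by
  obtain ⟨θ, K, q, L₀, n₀, hθ0, hθ, hK, hq0, hq, hst⟩ := exists_state hy
  obtain ⟨ρ, hρ⟩ := exists_rho hy hθ0 hθ
  obtain ⟨K', q', hK', hqq, hq', hg⟩ := edge_geom hq0 hq
  set t := max q' (max θ (1 / 2)) with ht
  have ht1 : t < 1 := max_lt hq' (max_lt hθ (by norm_num))
  have t1 : q' ≤ t := le_max_left _ _
  have t2 : θ ≤ t := (le_max_left _ _).trans (le_max_right _ _)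
  have t3 : 1 / 2 ≤ t := (le_max_right _ _).trans (le_max_right _ _)
  have ht0 : 0 < t := by linarith
  obtain ⟨D₁, hD₁⟩ := exists_pow_lt_of_lt_one (x := 1 / 10 / (1 + K * K')) (by positivity) ht1
  refine ⟨2 * ρ, L₀ + n₀ + D₁ + 1, 2 * K + 1 + 20 * (1 + K * K'), t, by positivity, ht0, ht1,
    fun n s k₁ l k₃ i j D hD hev h₁ h₃ hl hi hi' hj hc => ?_⟩
  obtain ⟨lam, Ωp, Ωm, lp, lm, h⟩ := hst n (by omega)
  have hlam : 0 < lam := by linarith [h.one]
  obtain ⟨m, hm1, hm2⟩ : ∃ m, l ≤ 2 * m ∧ 2 * m ≤ l + 1 := ⟨(l + 1) / 2, by omega, by omega⟩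
  obtain ⟨k, rfl⟩ : ∃ k, k₃ = (2 * m - l) + k := ⟨k₃ - (2 * m - l), by omega⟩
  rw [mul_assoc 2] at h₁ h₃
  have htD : 0 < t ^ D := by positivity
  have hKK : 0 < K * K' * t ^ D := by positivity
  have a1 : (1 / 2 : ℝ) ^ (n + 1) ≤ t ^ D := pow_le_of (by norm_num) t3 ht1 (by omega)
  have a2 : m * (K * q ^ n) ≤ K * K' * t ^ D := by
    have e1 : (m : ℝ) ≤ n + 1 := by exact_mod_cast (by omega : m ≤ n + 1)
    have e2 : q' ^ n ≤ t ^ D := pow_le_of (by linarith) t1 ht1 (by omega)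
    calc m * (K * q ^ n) ≤ (n + 1) * (K * q ^ n) := by gcongr
      _ = K * ((n + 1) * q ^ n) := by ring
      _ ≤ K * (K' * t ^ D) := by
          have : (n + 1) * q ^ n ≤ K' * t ^ D := (hg n).trans (by gcongr)
          gcongr
      _ = _ := by ring
  have a3 : (1 + K * K') * t ^ D ≤ 1 / 10 := by
    have e1 : t ^ D ≤ t ^ D₁ := pow_le_pow_of_le_one ht0.le ht1.le (by omega)
    rw [lt_div_iff₀ (by positivity)] at hD₁
    have : (1 + K * K') * t ^ D ≤ (1 + K * K') * t ^ D₁ := by gcongr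
    linarith
  obtain ⟨-, hbulk⟩ := h.bulk hy hθ0 hθ hρ (m := m) (k₃ := k) hev h₁ (by omega)
    (ε := (1 + K * K') * t ^ D) (by linarith) (by linarith) a3
  have b1 := hbulk (prodT (Tk n y) (2 * m - l) (s + k₁ + l) * sig n j * prodT (Tk n y) l (s + k₁) *
    sig n i) fun w => by
      rw [← Matrix.mulVec_mulVec, ← nrm_sig n i w]
      exact h.op2 (by omega) _ _ _ _
  have b2 := h.two_pt hθ0 hK hq0 (D := D) (by omega) hi hi' hj hev hm1 hc
  rw [← div_le_iff₀ (by positivity), ← abs_of_pos (show 0 < lam ^ m by positivity), ← abs_div] at b2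
  have b3 : q ^ D ≤ t ^ D := pow_le_of hq0 (by linarith) ht1 le_rfl
  have b4 : θ ^ D ≤ t ^ D := pow_le_of hθ0 t2 ht1 le_rfl
  have b5 : K * q ^ D ≤ K * t ^ D := by gcongr
  rw [prodT_add _ (2 * m - l) k, show s + k₁ + l + (2 * m - l) = s + k₁ + 2 * m by omega,
    show k₁ + l + (2 * m - l + k) = k₁ + 2 * m + k by omega]
  simp only [mul_assoc] at b1 b2 ⊢
  rw [abs_le] at *
  constructor <;> linarith [b1.1, b1.2, b2.1, b2.2]

end Pool.Agent.TAF
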