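import Pool.Agent.P.MP_cb4022_pr.Decay

open scoped Classical Matrix
open Finset

noncomputable section

namespace Pool.Agent.TAF

theorem abs_expect_le (β : ℝ) (D : Finset (ℤ × ℤ)) {F : Finset (ℤ × ℤ) → ℝ} (h : ∀ S, |F S| ≤ 1) :
    |expect β D F| ≤ 1 := by
  unfold expect
  have h0 : 0 ≤ ∑ S ∈ D.powerset, Real.exp (-β * energy D S) := by positivity
  rw [abs_div, abs_of_nonneg h0]
  refine div_le_one_of_le₀ ((abs_sum_le_sum_abs _ _).trans (sum_le_sum fun S _ => ?_)) h0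
  rw [abs_mul, abs_of_pos (Real.exp_pos _)]
  exact mul_le_of_le_one_right (Real.exp_pos _).le (h S)

theorem spinAt_toSet {n M : ℕ} (l : List (St n)) {p : ℤ × ℤ} (hp : p ∈ dom n M) {b i : ℕ}
    (hb : p.2 = b) (hi : p.1 + (p.2 + 1) / 2 = i) :
    spinAt (toSet n M l) p = sg (slot (l.getD b (eAll n)) i) := by
  unfold spinAt toSet sg
  simp only [mem_filter, hp, true_and, hi]
  simp only [hb, Int.toNat_natCast]
  cases slot (l.getD b (eAll n)) i <;> simp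

theorem decay_int {β : ℝ} (hβ : 0 < β) : ∃ (ρ D₀ : ℕ) (C t : ℝ), 0 < C ∧ 0 < t ∧ t < 1 ∧
    ∀ (n M D : ℕ) (u v : ℤ × ℤ), D₀ ≤ D → u.2 ≤ v.2 → v.2 ≤ u.2 + n → (ρ * n : ℤ) ≤ u.2 →
      v.2 + ρ * n ≤ M → 8 * D ≤ 2 * u.1 + u.2 → 2 * u.1 + u.2 + 8 * D ≤ 2 * n →
      8 * D ≤ 2 * v.1 + v.2 → 2 * v.1 + v.2 + 8 * D ≤ 2 * n →
      16 * (D : ℤ) ^ 2 ≤ (v.1 - u.1) ^ 2 + (v.1 - u.1) * (v.2 - u.2) + (v.2 - u.2) ^ 2 →
      |expect β (dom n M) fun S => spinAt S u * spinAt S v| ≤ C * t ^ D := by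
  set y := Real.exp (β / 2) with hy'
  have hy : 1 < y := Real.one_lt_exp_iff.2 (by linarith)
  obtain ⟨ρ, D₀, C, t, hC, ht0, ht, h⟩ := decay_core hy
  refine ⟨2 * ρ + 1, D₀ + 1, C, t, hC, ht0, ht,
    fun n M D u v hD huv hl hu hv u1 u2 v1 v2 hd => ?_⟩
  have g6 : ρ * (n + 1) ≤ 2 * (ρ * n) := by
    have : ρ * 1 ≤ ρ * n := Nat.mul_le_mul_left ρ (by omega)
    rw [mul_add]; omega
  have hu' : (2 * (ρ * n : ℕ) + n : ℤ) ≤ u.2 := by push_cast at hu ⊢; linarith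
  have hv' : v.2 + (2 * (ρ * n : ℕ) + n : ℤ) ≤ M := by push_cast at hv ⊢; linarith
  obtain ⟨b, hb⟩ : ∃ b : ℕ, u.2 = b := ⟨u.2.toNat, by omega⟩
  obtain ⟨l, hl'⟩ : ∃ l : ℕ, v.2 = (b + l : ℕ) := ⟨(v.2 - u.2).toNat, by omega⟩
  obtain ⟨k, hk⟩ : ∃ k : ℕ, M = b + l + (k + 1) := ⟨M - (b + l + 1), by omega⟩
  obtain ⟨i, hi⟩ : ∃ i : ℕ, u.1 + (u.2 + 1) / 2 = i := ⟨(u.1 + (u.2 + 1) / 2).toNat, by omega⟩
  obtain ⟨j, hj⟩ : ∃ j : ℕ, v.1 + (v.2 + 1) / 2 = j := ⟨(v.1 + (v.2 + 1) / 2).toNat, by omega⟩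
  have hc : 2 * D ≤ l ∨ j + D + 1 ≤ i ∨ i + D + 1 ≤ j := by
    by_contra hc
    have c1 : 2 * (v.1 - u.1) + (v.2 - u.2) ≤ 2 * D + 2 := by omega
    have c2 : -(2 * D + 2) ≤ 2 * (v.1 - u.1) + (v.2 - u.2) := by omega
    have c3 : v.2 - u.2 ≤ 2 * D := by omega
    have c4 : 0 ≤ v.2 - u.2 := by omega
    have c5 : (1 : ℤ) ≤ D := by omega
    have c6 := sq_le_sq' c2 c1
    have c7 := pow_le_pow_left₀ c4 c3 2
    nlinarith
  rw [expect_eq (by omega), ← hy']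
  have hud : u ∈ dom n M := mem_dom.2 (by omega)
  have hvd : v ∈ dom n M := mem_dom.2 (by omega)
  simp only [spinAt_toSet _ hud hb hi, spinAt_toSet _ hvd hl' hj]
  have e := chain_two_pt (Tk n y) b l k 0 (fun σ => sg (slot σ i)) (fun σ => sg (slot σ j)) (eAll n)
  rw [hk, e]
  change |(prodT (Tk n y) (k + 1) (0 + b + l) * sig n j * prodT (Tk n y) l (0 + b) * sig n i *
    prodT (Tk n y) b 0) (eAll n) (eAll n) / _| ≤ _
  rcases Nat.even_or_odd b with hb2 | hb2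
  · exact h n 0 b l (k + 1) i j D (by omega) (by simpa using hb2) (by omega) (by omega) (by omega)
      (by omega) (by omega) (by omega) (by omega)
  · have := h n 1 b l (k + 1) (n + 1 - i) (n + 1 - j) D (by omega) (odd_one.add_odd hb2) (by omega)
      (by omega) (by omega) (by omega) (by omega) (by omega) (by omega)
    rw [glide n y _ _ _ _ _ _ (by omega) (by omega), glide_one,
      show 0 + b + l + 1 = 1 + b + l by omega, show 0 + b + 1 = 1 + b by omega]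
    exact this

theorem exp_decay {β : ℝ} (hβ : 0 < β) : ∃ (ρ : ℕ) (C c : ℝ), 0 < c ∧
    ∀ (n M : ℕ) (u v : ℤ × ℤ), (∀ p, p = u ∨ p = v → (ρ * n : ℤ) ≤ p.2 ∧ p.2 + ρ * n ≤ M ∧
        dist (pos u) (pos v) ≤ (pos p).re ∧ (pos p).re ≤ n - dist (pos u) (pos v)) →
      |expect β (dom n M) fun S => spinAt S u * spinAt S v| ≤
        C * Real.exp (-c * dist (pos u) (pos v)) := by
  obtain ⟨ρ, D₀, C, t, hC, ht0, ht, h⟩ := decay_int hβ
  have hlog : Real.log t < 0 := Real.log_neg ht0 ht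
  refine ⟨ρ, (C + (t ^ D₀)⁻¹) * t⁻¹, -Real.log t / 4, by linarith, ?_⟩
  suffices H : ∀ (n M : ℕ) (u v : ℤ × ℤ), u.2 ≤ v.2 →
      (∀ p, p = u ∨ p = v → (ρ * n : ℤ) ≤ p.2 ∧ p.2 + ρ * n ≤ M ∧
        dist (pos u) (pos v) ≤ (pos p).re ∧ (pos p).re ≤ n - dist (pos u) (pos v)) →
      |expect β (dom n M) fun S => spinAt S u * spinAt S v| ≤
        (C + (t ^ D₀)⁻¹) * t⁻¹ * Real.exp (-(-Real.log t / 4) * dist (pos u) (pos v)) by
    intro n M u v hp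
    rcases le_total u.2 v.2 with h1 | h1
    · exact H n M u v h1 hp
    · have := H n M v u h1 fun p hp' => dist_comm (pos u) (pos v) ▸ hp p hp'.symm
      rw [dist_comm]
      simpa only [mul_comm (spinAt _ v)] using this
  intro n M u v huv hp
  obtain ⟨u1, -, u3, u4⟩ := hp u (Or.inl rfl)
  obtain ⟨-, v2, v3, v4⟩ := hp v (Or.inr rfl)
  set L := dist (pos u) (pos v) with hL
  have hL0 : 0 ≤ L := dist_nonneg
  set D := ⌊L / 4⌋₊ with hD
  have D1 : (D : ℝ) ≤ L / 4 := Nat.floor_le (by positivity)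
  have D2 : L / 4 < D + 1 := Nat.lt_floor_add_one _
  have key : |expect β (dom n M) fun S => spinAt S u * spinAt S v| ≤ (C + (t ^ D₀)⁻¹) * t ^ D := by
    have p1 : 0 < C * t ^ D := by positivity
    have p2 : 0 < (t ^ D₀)⁻¹ * t ^ D := by positivity
    rcases le_or_gt D₀ D with hDD | hDD
    · have hsq : L ^ 2 = (((v.1 - u.1) ^ 2 + (v.1 - u.1) * (v.2 - u.2) + (v.2 - u.2) ^ 2 : ℤ) : ℝ) := by
        have e : pos v - pos u = ⟨((v.1 - u.1 : ℤ) : ℝ) + ((v.2 - u.2 : ℤ) : ℝ) / 2,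
            √3 / 2 * ((v.2 - u.2 : ℤ) : ℝ)⟩ := by
          apply Complex.ext <;> simp [pos] <;> ring
        rw [hL, dist_comm, dist_eq_norm, e, dist_sq_aux]
        push_cast; ring
      simp only [pos] at u3 u4 v3 v4
      have := h n M D u v hDD huv ?_ u1 v2 ?_ ?_ ?_ ?_ ?_
      · linarith
      · have a1 : (2 * L) ^ 2 ≤ (n : ℝ) ^ 2 := pow_le_pow_left₀ (by positivity) (by linarith) 2
        rw [mul_pow, hsq] at a1
        have a2 : 2 ^ 2 * ((v.1 - u.1) ^ 2 + (v.1 - u.1) * (v.2 - u.2) + (v.2 - u.2) ^ 2) ≤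
            (n : ℤ) ^ 2 := by exact_mod_cast a1
        have a3 : (v.2 - u.2) ^ 2 ≤ (n : ℤ) ^ 2 := by
          nlinarith [sq_nonneg (2 * (v.1 - u.1) + (v.2 - u.2)), sq_nonneg (v.2 - u.2)]
        have := abs_le_of_sq_le_sq a3 (by positivity)
        rw [abs_le] at this
        omega
      · exact_mod_cast (by linarith : (8 * D : ℝ) ≤ 2 * u.1 + u.2)
      · exact_mod_cast (by linarith : (2 * u.1 + u.2 + 8 * D : ℝ) ≤ 2 * n)
      · exact_mod_cast (by linarith : (8 * D : ℝ) ≤ 2 * v.1 + v.2)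
      · exact_mod_cast (by linarith : (2 * v.1 + v.2 + 8 * D : ℝ) ≤ 2 * n)
      · have a1 : (4 * D : ℝ) ^ 2 ≤ L ^ 2 := pow_le_pow_left₀ (by positivity) (by linarith) 2
        rw [hsq, mul_pow] at a1
        exact_mod_cast a1
    · have a1 := abs_expect_le β (dom n M) (F := fun S => spinAt S u * spinAt S v) fun S => by
        unfold spinAt; split_ifs <;> simp
      have a2 : t ^ D₀ ≤ t ^ D := pow_le_pow_of_le_one ht0.le ht.le hDD.le
      have a3 : 1 ≤ (t ^ D₀)⁻¹ * t ^ D := by rw [le_inv_mul_iff₀ (by positivity)]; linarith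
      linarith
  refine key.trans ?_
  rw [mul_assoc]
  refine mul_le_mul_of_nonneg_left ?_ (by positivity)
  rw [le_inv_mul_iff₀ ht0, ← pow_succ', ← Real.exp_log (show 0 < t ^ (D + 1) by positivity),
    Real.log_pow, Real.exp_le_exp]
  push_cast
  nlinarith

end Pool.Agent.TAF
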