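import Pool.Agent.P.MP_cb4022_pr.Model

/-! Internal definitions: transfer matrices, Majorana operators, path sums, crossings. -/

open scoped Classical Matrix
open Finset

noncomputable section

namespace Pool.Agent.TAF

/-- A row: the spins in the slots `1, …, n` and the right wall spin in slot `n + 1`. -/
abbrev St (n : ℕ) := Fin (n + 1) → Bool

/-- The spin in slot `j`; slot `0` is the left wall, always `true`. -/
def slot {n : ℕ} (σ : St n) (j : ℕ) : Bool :=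
  if h : 1 ≤ j ∧ j ≤ n + 1 then σ ⟨j - 1, by omega⟩ else true

def sg (b : Bool) : ℝ := if b then 1 else -1

/-- Flip the slots `j + 1, …, n + 1`. -/
def flipFrom {n : ℕ} (j : ℕ) (σ : St n) : St n := fun k => if j ≤ k.val then !σ k else σ k

def eAll (n : ℕ) : St n := fun _ => true

/-- The sector: the right wall spin. -/
def par {n : ℕ} (σ : St n) : Bool := slot σ (n + 1)

def sig (n j : ℕ) : Matrix (St n) (St n) ℝ := Matrix.diagonal fun σ => sg (slot σ j)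

def Phi (n j : ℕ) : Matrix (St n) (St n) ℝ :=
  Matrix.of fun σ' σ => if σ' = flipFrom j σ then 1 else 0

def mA (n j : ℕ) : Matrix (St n) (St n) ℝ := sig n j * Phi n j

def mB (n j : ℕ) : Matrix (St n) (St n) ℝ := sig n (j + 1) * Phi n j

def gam (n : ℕ) (u v : ℕ → ℝ) : Matrix (St n) (St n) ℝ :=
  ∑ j ∈ range (n + 1), (u j • mA n j + v j • mB n j)

def wt (t : ℝ) (a b : Bool) : ℝ := if a = b then 1 else t

def hrow {n : ℕ} (t : ℝ) (σ : St n) : ℝ :=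
  ∏ j ∈ range (n + 1), wt t (slot σ j) (slot σ (j + 1))

def sweep {n : ℕ} (x : ℝ) (σ' σ : St n) : ℝ :=
  if par σ' = par σ then
    (∏ i ∈ range n, wt x (slot σ (i + 1)) (slot σ' (i + 1))) *
      ∏ j ∈ range (n + 1), wt x (slot σ j) (slot σ' (j + 1))
  else 0

/-- Transfer matrix from an even row `σ` to the next odd row `σ'`; `y ^ 2 = exp β`. -/
def T1 (n : ℕ) (y : ℝ) : Matrix (St n) (St n) ℝ :=
  Matrix.of fun σ' σ => hrow y σ' * sweep (y ^ 2) σ' σ * hrow y σ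

/-- Transfer matrix from row `b` to row `b + 1`. -/
def Tk (n : ℕ) (y : ℝ) (b : ℕ) : Matrix (St n) (St n) ℝ :=
  if Even b then T1 n y else (T1 n y)ᵀ

/-- Two-row transfer matrix. -/
def TT (n : ℕ) (y : ℝ) : Matrix (St n) (St n) ℝ := (T1 n y)ᵀ * T1 n y

/-- Gates. -/
def gV (n : ℕ) (t : ℝ) (j : ℕ) : Matrix (St n) (St n) ℝ :=
  Matrix.diagonal fun σ => wt t (slot σ j) (slot σ (j + 1))

def gU (n : ℕ) (x : ℝ) (i : ℕ) : Matrix (St n) (St n) ℝ :=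
  1 + x • (Phi n i * Phi n (i + 1))

def gH (n : ℕ) (t : ℝ) : Matrix (St n) (St n) ℝ := Matrix.diagonal fun σ => hrow t σ

/-- `Sw n x m = V (n-m) * U (n-m) * V (n-m+1) * ⋯ * U (n-1) * V n`, where `U i` acts on slot
`i + 1`. -/
def Sw (n : ℕ) (x : ℝ) : ℕ → Matrix (St n) (St n) ℝ
  | 0 => gV n x n
  | m + 1 => gV n x (n - m - 1) * gU n x (n - m - 1) * Sw n x m

def ip (n : ℕ) (u v : ℕ → ℝ) : ℝ := ∑ j ∈ range (n + 1), u j * v j

def ss (n : ℕ) (u : ℕ → ℝ) : ℝ := ∑ j ∈ range (n + 1), u j ^ 2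

def l1 (n : ℕ) (u : ℕ → ℝ) : ℝ := ∑ j ∈ range (n + 1), |u j|

def Itw (n : ℕ) (y : ℝ) (u v u' v' : ℕ → ℝ) : Prop :=
  T1 n y * gam n u v = gam n u' v' * T1 n y

def cc (y : ℝ) : ℝ := (y ^ 4 + 1) / (2 * y ^ 2)
def sc (y : ℝ) : ℝ := (y ^ 4 - 1) / (2 * y ^ 2)
def ch (y : ℝ) : ℝ := (y ^ 2 + 1) / (2 * y)
def sh (y : ℝ) : ℝ := (y ^ 2 - 1) / (2 * y)
def tau (y : ℝ) : ℝ := (y ^ 2 - 1) / (y ^ 2 + 1)
def alp (y : ℝ) : ℝ := (y ^ 2 - 1) * (y ^ 4 + 1) / ((y ^ 2 + 1) * y ^ 4)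
def kap (y : ℝ) : ℝ := 2 + (y ^ 4 + 1) ^ 2 / (y ^ 4 * (y ^ 4 - 1))

def inn (y : ℝ) (u v : ℕ → ℝ) (j : ℕ) : ℝ := ch y * u j - sh y * v j
def out (y : ℝ) (u v : ℕ → ℝ) (j : ℕ) : ℝ := ch y * u j + sh y * v j

/-- The banded relations of the sweep between input `(a, b)` and output `(a', b')`. -/
structure Rel0 (c s : ℝ) (n : ℕ) (a b a' b' : ℕ → ℝ) : Prop where
  one : ∀ i < n, s * (a' (i + 1) - b' (i + 1)) = b i - a (i + 1)
  two : ∀ i < n, s * (b' i + b' (i + 1)) = a (i + 1) - s ^ 2 * a i - c ^ 2 * b i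
  left : c * a' 0 = a 0 - s * b' 0
  right : c * b n = b' n + s * a n

/-- The banded relations of `T1`. -/
def Rel (y : ℝ) (n : ℕ) (u v u' v' : ℕ → ℝ) : Prop :=
  Rel0 (cc y) (sc y) n (inn y u v) (inn y v u) (out y u' v') (out y v' u')

/-- One-particle index set, with the two coordinate sequences and the form `J`. -/
abbrev OI (n : ℕ) := Fin (n + 1) ⊕ Fin (n + 1)

def ea {n : ℕ} (ξ : OI n → ℝ) (j : ℕ) : ℝ := if h : j < n + 1 then ξ (Sum.inl ⟨j, h⟩) else 0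
def eb {n : ℕ} (ξ : OI n → ℝ) (j : ℕ) : ℝ := if h : j < n + 1 then ξ (Sum.inr ⟨j, h⟩) else 0
def JJ (n : ℕ) : Matrix (OI n) (OI n) ℝ := Matrix.diagonal (Sum.elim (fun _ => 1) fun _ => -1)

/-- `n` raising modes with eigenvalues at least `κ`. -/
structure Modes (n : ℕ) (y κ : ℝ) (a b : Fin n → ℕ → ℝ) (z : Fin n → ℝ) : Prop where
  ge : ∀ k, κ ≤ z k
  oa : ∀ k l, ip n (a k) (a l) = if k = l then 1 / 2 else 0
  ob : ∀ k l, ip n (b k) (b l) = if k = l then 1 / 2 else 0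
  eig : ∀ k, TT n y * gam n (a k) (b k) = z k • (gam n (a k) (b k) * TT n y)
  nb : ∀ v u' v', Itw n y 0 v u' v' → (κ + κ⁻¹ - 2) * ∑ k, ip n (b k) v ^ 2 ≤ 2 * ss n u'
  na : ∀ u u' v', Itw n y u 0 u' v' → (κ + κ⁻¹ - 2) * ∑ k, ip n (a k) u ^ 2 ≤ 2 * ss n v'
  kb : ∀ k, ∃ v', Itw n y (-((z k - 1) / (z k + 1)) • a k) (b k) 0 v'
  ka : ∀ k, ∃ u', Itw n y (a k) (-((z k - 1) / (z k + 1)) • b k) u' 0

section abstract

variable {S : Type} [Fintype S] [DecidableEq S] {C : Type}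

def nrm (w : S → ℝ) : ℝ := √(w ⬝ᵥ w)

/-- `E` is dominated entrywise by a matrix of operator norm at most `r`. -/
def Dom (E : Matrix S S ℝ) (r : ℝ) : Prop :=
  ∃ E' : Matrix S S ℝ, (∀ i j, |E i j| ≤ E' i j) ∧ ∀ w, nrm (E' *ᵥ w) ≤ r * nrm w

def prodT (T : ℕ → Matrix S S ℝ) : ℕ → ℕ → Matrix S S ℝ
  | 0, _ => 1
  | k + 1, b => prodT T k (b + 1) * T b

/-- Path sum over `k` steps from row `b`, weighted by a function of the list of the labels of the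
rows `b, …, b + k - 1`. -/
def chain (T : ℕ → Matrix S S ℝ) (lab : S → C) : ℕ → ℕ → (List C → ℝ) → Matrix S S ℝ
  | 0, _, f => f [] • (1 : Matrix S S ℝ)
  | k + 1, b, f => Matrix.of fun σ'' σ =>
      (chain T lab k (b + 1) (fun l => f (lab σ :: l)) * T b) σ'' σ

/-- The two top eigenvectors, one in each sector, and the gap below them. -/
structure Pack (T : Matrix S S ℝ) (pr : S → Bool) (lam θ δ : ℝ) (Ωp Ωm : S → ℝ) (lp lm : ℝ) :
    Prop where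
  np : Ωp ⬝ᵥ Ωp = 1
  nm : Ωm ⬝ᵥ Ωm = 1
  sp : ∀ i, pr i = false → Ωp i = 0
  sm : ∀ i, pr i = true → Ωm i = 0
  ep : T *ᵥ Ωp = lp • Ωp
  em : T *ᵥ Ωm = lm • Ωm
  lp1 : (1 - δ) * lam ≤ lp
  lp2 : lp ≤ lam
  lm1 : (1 - δ) * lam ≤ lm
  lm2 : lm ≤ lam
  pos : ∀ i, 0 ≤ Ωp i
  gap : ∀ w, w ⬝ᵥ Ωp = 0 → w ⬝ᵥ Ωm = 0 → nrm (T *ᵥ w) ≤ θ * lam * nrm w

end abstract

/-- The colouring attached to a list of rows starting at row `0`. -/
def toSet (n M : ℕ) (l : List (St n)) : Finset (ℤ × ℤ) :=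
  (dom n M).filter fun p =>
    slot (l.getD p.2.toNat (eAll n)) (p.1 + (p.2 + 1) / 2).toNat = false

/-- Row `b` of the colouring `S`. -/
def rowOf (n M : ℕ) (S : Finset (ℤ × ℤ)) (b : ℕ) : St n := fun k =>
  decide ((((k.val + 1 : ℕ) : ℤ) - ((b : ℤ) + 1) / 2, (b : ℤ)) ∉ S ∩ dom n M)

/-- Number of bichromatic edges. -/
def nWalls (S : Finset (ℤ × ℤ)) : ℕ := {e | IsWall S e}.ncard

/-- Reversal of the slots `1, …, n`. -/
def rev {n : ℕ} (σ : St n) : St n := fun k =>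
  if h : k.val < n then σ ⟨n - 1 - k.val, by omega⟩ else σ k

def InBox (a₀ a₁ b₀ b₁ : ℤ) (p : ℤ × ℤ) : Prop := a₀ ≤ p.1 ∧ p.1 ≤ a₁ ∧ b₀ ≤ p.2 ∧ p.2 ≤ b₁

def InRh (z : ℤ × ℤ) (s : ℕ) (p : ℤ × ℤ) : Prop := InBox z.1 (z.1 + s) z.2 (z.2 + s) p

/-- A path of colour `c` joins two opposite sides of the rhombus of corner `z` and side `s`. -/
def Cross (col : ℤ × ℤ → Bool) (c : Bool) (z : ℤ × ℤ) (s : ℕ) : Prop :=
  ∃ u v, InRh z s u ∧ col u = c ∧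
    Relation.ReflTransGen (fun p q => tri.Adj p q ∧ InRh z s q ∧ col q = c) u v ∧
    ((u.1 = z.1 ∧ v.1 = z.1 + s) ∨ (u.2 = z.2 ∧ v.2 = z.2 + s))

/-- Two bichromatic sides of a triangle inside the region `Q`. -/
def Step (Q : ℤ × ℤ → Prop) (X : ℤ × ℤ → Bool) (e e' : Sym2 (ℤ × ℤ)) : Prop :=
  ∃ a b c, Q a ∧ Q b ∧ Q c ∧ tri.Adj a b ∧ tri.Adj a c ∧ tri.Adj b c ∧ X a ≠ X b ∧ X a ≠ X c ∧
    e = s(a, b) ∧ e' = s(a, c)

/-- The decaying field of annihilators attached to a vortex at bond `i`. -/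
structure Vortex (n : ℕ) (y : ℝ) (Ω : St n → ℝ) (i L : ℕ) (ε : ℝ) (fa fb : ℕ → ℕ → ℝ) :
    Prop where
  one : ss n (fa 0) + ss n (fb 0) = 1
  step : ∀ m, TT n y * gam n (fa (m + 1)) (fb (m + 1)) = gam n (fa m) (fb m) * TT n y
  kill : ∀ m, gam n (fa m) (fb m) *ᵥ Ω = 0
  la : ss n (fun j => if j < i then fa 0 j else 0) ≤ ε ^ 2
  rb : ss n (fun j => if i ≤ j then fb 0 j else 0) ≤ ε ^ 2
  ta : ∀ m, ss n (fun j => if j + L ≤ i ∨ i + L ≤ j then fa m j else 0) ≤ ε ^ 2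
  tb : ∀ m, ss n (fun j => if j + L ≤ i ∨ i + L ≤ j then fb m j else 0) ≤ ε ^ 2

end Pool.Agent.TAF
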