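import Pool.Agent.P.MP_cb4022_pr.Defs

open scoped Classical Matrix
open Finset

noncomputable section

namespace Pool.Agent.TAF

theorem reld_x {y : ℝ} (hy : 1 < y) : 0 < y ^ 2 - 1 := by nlinarith

theorem reld_d {y : ℝ} (hy : 1 < y) : 0 < y ^ 4 - y ^ 2 + 1 := by nlinarith [sq_nonneg (y ^ 2 - 1)]

theorem reld_one {y : ℝ} (hy : 1 < y) {n : ℕ} {u v u' v' : ℕ → ℝ} (h : Rel y n u v u' v')
    {i : ℕ} (hi : i < n) : (y ^ 4 - 1) * (u' (i + 1) - v' (i + 1)) =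
      y ^ 2 * ((y ^ 2 + 1) * v i - (y ^ 2 - 1) * u i -
        ((y ^ 2 + 1) * u (i + 1) - (y ^ 2 - 1) * v (i + 1))) := by
  have h1 := h.one i hi
  have : y ≠ 0 := by positivity
  simp only [inn, out, ch, sh, sc] at h1
  field_simp at h1
  linear_combination h1 / 2

theorem reld_two {y : ℝ} (hy : 1 < y) {n : ℕ} {u v u' v' : ℕ → ℝ} (h : Rel y n u v u' v')
    {i : ℕ} (hi : i < n) : 2 * y ^ 2 * (y ^ 4 - 1) * ((y ^ 2 + 1) * v' i + (y ^ 2 - 1) * u' i +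
        ((y ^ 2 + 1) * v' (i + 1) + (y ^ 2 - 1) * u' (i + 1))) =
      4 * y ^ 4 * ((y ^ 2 + 1) * u (i + 1) - (y ^ 2 - 1) * v (i + 1)) -
        (y ^ 4 - 1) ^ 2 * ((y ^ 2 + 1) * u i - (y ^ 2 - 1) * v i) -
        (y ^ 4 + 1) ^ 2 * ((y ^ 2 + 1) * v i - (y ^ 2 - 1) * u i) := by
  have h1 := h.two i hi
  have : y ≠ 0 := by positivity
  simp only [inn, out, ch, sh, sc, cc] at h1
  field_simp at h1
  linear_combination h1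

theorem reld_left {y : ℝ} (hy : 1 < y) {n : ℕ} {u v u' v' : ℕ → ℝ} (h : Rel y n u v u' v') :
    (y ^ 4 + 1) * ((y ^ 2 + 1) * u' 0 + (y ^ 2 - 1) * v' 0) =
      2 * y ^ 2 * ((y ^ 2 + 1) * u 0 - (y ^ 2 - 1) * v 0) -
        (y ^ 4 - 1) * ((y ^ 2 + 1) * v' 0 + (y ^ 2 - 1) * u' 0) := by
  have h1 := h.left
  have : y ≠ 0 := by positivity
  simp only [inn, out, ch, sh, sc, cc] at h1
  field_simp at h1
  linear_combination h1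

theorem reld_right {y : ℝ} (hy : 1 < y) {n : ℕ} {u v u' v' : ℕ → ℝ} (h : Rel y n u v u' v') :
    (y ^ 4 + 1) * ((y ^ 2 + 1) * v n - (y ^ 2 - 1) * u n) =
      2 * y ^ 2 * ((y ^ 2 + 1) * v' n + (y ^ 2 - 1) * u' n) +
        (y ^ 4 - 1) * ((y ^ 2 + 1) * u n - (y ^ 2 - 1) * v n) := by
  have h1 := h.right
  have : y ≠ 0 := by positivity
  simp only [inn, out, ch, sh, sc, cc] at h1
  field_simp at h1
  linear_combination h1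

theorem reld_step {c a K r s : ℝ} (hK : 0 ≤ K) (hs : 0 ≤ s) (h : |r| ≤ K * s) :
    |c * a + r| ≤ (|c| + K) * (|a| + s) := by
  have := abs_add_le (c * a) r
  rw [abs_mul] at this
  nlinarith [mul_nonneg hK (abs_nonneg a), mul_nonneg (abs_nonneg c) hs]

theorem reld_bd (c₀ c₁ c₂ c₃ c₄ c₅ : ℝ) : ∃ K : ℝ, 0 ≤ K ∧ ∀ r a₀ a₁ a₂ a₃ a₄ a₅ : ℝ,
    r = c₀ * a₀ + c₁ * a₁ + c₂ * a₂ + c₃ * a₃ + c₄ * a₄ + c₅ * a₅ →
      |r| ≤ K * (|a₀| + |a₁| + |a₂| + |a₃| + |a₄| + |a₅|) := by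
  refine ⟨|c₀| + (|c₁| + (|c₂| + (|c₃| + (|c₄| + |c₅|)))), by positivity, ?_⟩
  rintro _ a₀ a₁ a₂ a₃ a₄ a₅ rfl
  simp only [add_assoc]
  iterate 5 refine reld_step (by positivity) (by positivity) ?_
  exact (abs_mul _ _).le

theorem tau_pos {y : ℝ} (hy : 1 < y) : 0 < tau y := div_pos (reld_x hy) (by positivity)

theorem tau_lt_one {y : ℝ} (hy : 1 < y) : tau y < 1 :=
  (div_lt_one (by positivity)).2 (by linarith)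

theorem alp_pos {y : ℝ} (hy : 1 < y) : 0 < alp y := by
  have := reld_x hy
  unfold alp
  positivity

theorem alp_lt {y : ℝ} (hy : 1 < y) : alp y < 1 + tau y ^ 2 := by
  have e : 1 + tau y ^ 2 - alp y = (y ^ 4 + 1) ^ 2 / ((y ^ 2 + 1) ^ 2 * y ^ 4) := by
    unfold tau alp
    field_simp
    ring
  rw [← sub_pos, e]
  positivity

theorem kap_gt {y : ℝ} (hy : 1 < y) : 2 < kap y := by
  have : 0 < y ^ 4 - 1 := by nlinarith [reld_x hy]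
  exact lt_add_of_pos_right _ (by positivity)

theorem Rel.bulkB {y : ℝ} (hy : 1 < y) {n : ℕ} {u v u' v' : ℕ → ℝ} (h : Rel y n u v u' v')
    {i : ℕ} (hi : i + 2 ≤ n) :
    v i + alp y * v (i + 1) + tau y ^ 2 * v (i + 2) =
      2 * tau y * (u' (i + 1) + u' (i + 2)) + tau y * (u i + kap y * u (i + 1) + u (i + 2)) := by
  have h1 := reld_one hy h (i := i) (by omega)
  have h2 := reld_one hy h (i := i + 1) hi
  have h3 := reld_two hy h (i := i + 1) hi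
  have := (reld_x hy).ne'
  have e : y ^ 4 - 1 = (y ^ 2 - 1) * (y ^ 2 + 1) := by ring
  unfold alp tau kap
  rw [e]
  field_simp
  linear_combination (-y ^ 2 * (y ^ 2 + 1)) * h1 - y ^ 2 * (y ^ 2 + 1) * h2 - h3 / 2

theorem Rel.bulkA {y : ℝ} (hy : 1 < y) {n : ℕ} {u v u' v' : ℕ → ℝ} (h : Rel y n u v u' v')
    {i : ℕ} (hi : i + 2 ≤ n) :
    tau y ^ 2 * u i + alp y * u (i + 1) + u (i + 2) =
      2 * tau y * (v' (i + 1) + v' (i + 2)) + tau y * (v i + kap y * v (i + 1) + v (i + 2)) := by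
  have h1 := reld_one hy h (i := i) (by omega)
  have h2 := reld_one hy h (i := i + 1) hi
  have h3 := reld_two hy h (i := i + 1) hi
  have := (reld_x hy).ne'
  have e : y ^ 4 - 1 = (y ^ 2 - 1) * (y ^ 2 + 1) := by ring
  unfold alp tau kap
  rw [e]
  field_simp
  linear_combination (y ^ 2 * (y ^ 2 - 1)) * h1 + y ^ 2 * (y ^ 2 - 1) * h2 - h3 / 2

theorem exists_rightB {y : ℝ} (hy : 1 < y) : ∃ αR κR : ℝ, tau y < κR ∧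
    ∀ (m : ℕ) (u v u' v' : ℕ → ℝ), Rel y (m + 1) u v u' v' →
      v m + αR * v (m + 1) = 2 * tau y * u' (m + 1) + tau y * u m + κR * u (m + 1) := by
  have := reld_d hy
  refine ⟨(y ^ 6 + y ^ 4 + 1) * (y ^ 2 - 1) / (y ^ 4 * (y ^ 2 + 1)),
    tau y + (y ^ 4 + 1) * (y ^ 4 - y ^ 2 + 1) / (y ^ 4 * (y ^ 2 + 1)),
    lt_add_of_pos_right _ (by positivity), fun m u v u' v' h => ?_⟩
  have h1 := reld_one hy h m.lt_succ_self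
  have h2 := reld_right hy h
  unfold tau
  field_simp
  linear_combination (-y ^ 2) * h1 + (y ^ 2 - 1) / 2 * h2

theorem exists_leftB {y : ℝ} (hy : 1 < y) : ∃ ν lamL κL : ℝ, tau y < κL ∧
    ∀ (m : ℕ) (u v u' v' : ℕ → ℝ), Rel y (m + 1) u v u' v' →
      ν * v 0 + tau y ^ 2 * v 1 = 2 * tau y * u' 1 - lamL * u' 0 + tau y * u 1 + κL * u 0 := by
  refine ⟨(y ^ 6 + 2 * y ^ 4 + y ^ 2 + 1) * (y ^ 2 - 1) / (y ^ 4 * (y ^ 2 + 1) * (y ^ 4 + y ^ 2 + 1)),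
    2 * (y ^ 4 + 1) / ((y ^ 2 + 1) * (y ^ 4 + y ^ 2 + 1)),
    tau y + (y ^ 8 + y ^ 4 + y ^ 2 + 1) * (y ^ 4 + 1) / (y ^ 4 * (y ^ 2 + 1) ^ 2 * (y ^ 4 + y ^ 2 + 1)),
    lt_add_of_pos_right _ (by positivity), fun m u v u' v' h => ?_⟩
  have h1 := reld_one hy h m.succ_pos
  have h2 := reld_two hy h m.succ_pos
  have h3 := reld_left hy h
  unfold tau
  field_simp
  linear_combination (-y ^ 2 * (y ^ 2 + 1) * (y ^ 4 + y ^ 2 + 1)) * h1 - (y ^ 4 + y ^ 2 + 1) / 2 * h2 +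
    y ^ 2 * (y ^ 2 + 1) ^ 2 / 2 * h3

theorem exists_leftA {y : ℝ} (hy : 1 < y) : ∃ αL lam0 κ2 : ℝ, 0 < lam0 ∧
    ∀ (m : ℕ) (u v u' v' : ℕ → ℝ), Rel y (m + 1) u v u' v' →
      u 1 + αL * u 0 = lam0 * v' 0 + 2 * tau y * v' 1 + tau y * v 1 + κ2 * v 0 := by
  have := reld_x hy
  have := reld_d hy
  refine ⟨(1 - y ^ 2 + 2 * y ^ 4 - y ^ 6) * (y ^ 2 - 1) / (y ^ 4 * (y ^ 2 + 1) * (y ^ 4 - y ^ 2 + 1)),
    2 * (y ^ 2 - 1) * (y ^ 4 + 1) / ((y ^ 2 + 1) ^ 2 * (y ^ 4 - y ^ 2 + 1)),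
    (2 * y ^ 12 - y ^ 10 + 2 * y ^ 8 + y ^ 4 - y ^ 2 + 1) /
      (y ^ 4 * (y ^ 2 + 1) ^ 2 * (y ^ 4 - y ^ 2 + 1)), by positivity, fun m u v u' v' h => ?_⟩
  have h1 := reld_one hy h m.succ_pos
  have h2 := reld_two hy h m.succ_pos
  have h3 := reld_left hy h
  unfold tau
  field_simp
  linear_combination (y ^ 2 * (y ^ 2 - 1) * (y ^ 4 - y ^ 2 + 1)) * h1 - (y ^ 4 - y ^ 2 + 1) / 2 * h2 +
    y ^ 2 * (y ^ 2 - 1) ^ 2 / 2 * h3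

theorem exists_rightA {y : ℝ} (hy : 1 < y) : ∃ K : ℝ, 0 ≤ K ∧
    ∀ (m : ℕ) (u v u' v' : ℕ → ℝ), Rel y (m + 1) u v u' v' →
      |v' (m + 1)| ≤ K * (|u m| + |u (m + 1)| + |v m| + |v (m + 1)|) := by
  obtain ⟨K, hK, H⟩ := reld_bd ((y ^ 2 - 1) / (2 * (y ^ 2 + 1))) ((1 + y ^ 4 - y ^ 6) / (2 * y ^ 4))
    (-1 / 2) ((y ^ 8 + y ^ 4 + y ^ 2 + 1) / (2 * y ^ 4 * (y ^ 2 + 1))) 0 0
  refine ⟨K, hK, fun m u v u' v' h => ?_⟩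
  have h1 := reld_one hy h m.lt_succ_self
  have h2 := reld_right hy h
  simpa using H (v' (m + 1)) (u m) (u (m + 1)) (v m) (v (m + 1)) 0 0 (by
    field_simp
    linear_combination (-y ^ 2) * h1 - (y ^ 2 + 1) / 2 * h2)

theorem exists_diff {y : ℝ} (hy : 1 < y) : ∃ K : ℝ, 0 ≤ K ∧
    ∀ (n : ℕ) (u v u' v' : ℕ → ℝ), Rel y n u v u' v' → ∀ i < n,
      |u' (i + 1) - v' (i + 1)| ≤ K * (|u i| + |u (i + 1)| + |v i| + |v (i + 1)|) := by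
  obtain ⟨K, hK, H⟩ := reld_bd (-y ^ 2 / (y ^ 2 + 1)) (-y ^ 2 / (y ^ 2 - 1)) (y ^ 2 / (y ^ 2 - 1))
    (y ^ 2 / (y ^ 2 + 1)) 0 0
  refine ⟨K, hK, fun n u v u' v' h i hi => ?_⟩
  have h1 := reld_one hy h hi
  have := (reld_x hy).ne'
  simpa using H (u' (i + 1) - v' (i + 1)) (u i) (u (i + 1)) (v i) (v (i + 1)) 0 0 (by
    field_simp
    linear_combination h1)

theorem exists_zero {y : ℝ} (hy : 1 < y) : ∃ K : ℝ, 0 ≤ K ∧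
    ∀ (m : ℕ) (u v u' v' : ℕ → ℝ), Rel y (m + 1) u v u' v' →
      |u' 0| + |v' 0| ≤ K * (|u 0| + |u 1| + |v 0| + |v 1| + |u' 1| + |v' 1|) := by
  obtain ⟨K, hK, H⟩ := reld_bd ((y ^ 8 + y ^ 4 + y ^ 2 + 1) / (2 * y ^ 4 * (y ^ 2 + 1)))
    (-(y ^ 4 + y ^ 2 + 1) / (y ^ 4 + 1)) ((y ^ 6 + y ^ 4 + 1) / (2 * y ^ 4))
    ((y ^ 2 - 1) * (y ^ 4 + y ^ 2 + 1) / ((y ^ 2 + 1) * (y ^ 4 + 1)))
    ((y ^ 2 - 1) ^ 2 * (y ^ 4 + y ^ 2 + 1) / (2 * y ^ 2 * (y ^ 4 + 1)))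
    ((y ^ 2 - 1) * (y ^ 2 + 1) * (y ^ 4 + y ^ 2 + 1) / (2 * y ^ 2 * (y ^ 4 + 1)))
  obtain ⟨K', hK', H'⟩ := reld_bd ((1 + y ^ 4 - y ^ 6) / (2 * y ^ 4))
    ((y ^ 2 + 1) * (y ^ 4 - y ^ 2 + 1) / ((y ^ 2 - 1) * (y ^ 4 + 1)))
    ((y ^ 2 - 1 - y ^ 4 - y ^ 8) / (2 * y ^ 4 * (y ^ 2 - 1))) (-(y ^ 4 - y ^ 2 + 1) / (y ^ 4 + 1))
    (-(y ^ 2 - 1) * (y ^ 2 + 1) * (y ^ 4 - y ^ 2 + 1) / (2 * y ^ 2 * (y ^ 4 + 1)))
    (-(y ^ 2 + 1) ^ 2 * (y ^ 4 - y ^ 2 + 1) / (2 * y ^ 2 * (y ^ 4 + 1)))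
  refine ⟨K + K', by positivity, fun m u v u' v' h => ?_⟩
  have h1 := reld_two hy h m.succ_pos
  have h2 := reld_left hy h
  have := (reld_x hy).ne'
  rw [add_mul]
  refine add_le_add (H _ _ _ _ _ _ _ ?_) (H' _ _ _ _ _ _ _ ?_)
  · field_simp
    linear_combination (-(y ^ 4 + y ^ 2 + 1) / 2) * h1 + y ^ 2 * (y ^ 2 + 1) ^ 2 / 2 * h2
  · field_simp
    linear_combination ((y ^ 4 - y ^ 2 + 1) / 2) * h1 - y ^ 2 * (y ^ 2 - 1) ^ 2 / 2 * h2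

end Pool.Agent.TAF
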