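import Pool.Agent.P.MP_cb4022_pr.Defs

open scoped Classical Matrix
open Finset

noncomputable section

namespace Pool.Agent.TAF

theorem toep_roots {α p : ℝ} (h0 : 0 ≤ α) (h1 : α < 1 + p) (hp0 : 0 ≤ p) (hp : p < 1) :
    ∃ r₁ r₂ : ℂ, ‖r₁‖ < 1 ∧ ‖r₂‖ < 1 ∧ r₁ + r₂ = -(α : ℂ) ∧ r₁ * r₂ = p := by
  rcases lt_or_ge (α ^ 2) (4 * p) with h | h
  · obtain ⟨d, hd⟩ : ∃ d : ℝ, d ^ 2 = p - α ^ 2 / 4 :=
      ⟨Real.sqrt (p - α ^ 2 / 4), Real.sq_sqrt (by linarith)⟩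
    have key : ∀ e : ℝ, e ^ 2 = p - α ^ 2 / 4 → ‖(⟨-α / 2, e⟩ : ℂ)‖ < 1 := by
      intro e he
      have h2 : ‖(⟨-α / 2, e⟩ : ℂ)‖ ^ 2 = p := by
        rw [Complex.sq_norm, Complex.normSq_mk]
        nlinarith
      nlinarith [norm_nonneg (⟨-α / 2, e⟩ : ℂ)]
    refine ⟨⟨-α / 2, d⟩, ⟨-α / 2, -d⟩, key d hd, key (-d) (by rw [neg_sq, hd]), ?_, ?_⟩
    · apply Complex.ext
      · simp
      · simp
    · apply Complex.ext
      · simp only [Complex.mul_re, Complex.ofReal_re]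
        nlinarith
      · simp only [Complex.mul_im, Complex.ofReal_im]
        ring
  · obtain ⟨s, hs0, hs⟩ : ∃ s : ℝ, 0 ≤ s ∧ s ^ 2 = α ^ 2 - 4 * p :=
      ⟨Real.sqrt (α ^ 2 - 4 * p), Real.sqrt_nonneg _, Real.sq_sqrt (by linarith)⟩
    have h2 : s < 2 - α := by
      by_contra h3
      push Not at h3
      nlinarith
    refine ⟨((-α + s) / 2 : ℝ), ((-α - s) / 2 : ℝ), ?_, ?_, ?_, ?_⟩
    · rw [Complex.norm_real, Real.norm_eq_abs, abs_lt]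
      constructor <;> linarith
    · rw [Complex.norm_real, Real.norm_eq_abs, abs_lt]
      constructor <;> linarith
    · push_cast
      ring
    · rw [← Complex.ofReal_mul]
      congr 1
      nlinarith

theorem toep_step {r : ℂ} (hr : ‖r‖ < 1) (N : ℕ) (g : ℕ → ℂ) (hg : g N = 0) :
    (1 - ‖r‖) ^ 2 * ∑ i ∈ range N, ‖g i‖ ^ 2 ≤ ∑ i ∈ range N, ‖g i - r * g (i + 1)‖ ^ 2 := by
  have hρ := norm_nonneg r
  have h1 : ∀ i, (1 - ‖r‖) * ‖g i‖ ^ 2 - ‖r‖ * (1 - ‖r‖) * ‖g (i + 1)‖ ^ 2 ≤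
      ‖g i - r * g (i + 1)‖ ^ 2 := by
    intro i
    have h2 := abs_norm_sub_norm_le (g i) (r * g (i + 1))
    rw [norm_mul] at h2
    have h3 : (‖g i‖ - ‖r‖ * ‖g (i + 1)‖) ^ 2 ≤ ‖g i - r * g (i + 1)‖ ^ 2 := by
      rw [← sq_abs]
      exact pow_le_pow_left₀ (abs_nonneg _) h2 2
    nlinarith [mul_nonneg hρ (sq_nonneg (‖g i‖ - ‖g (i + 1)‖))]
  have h4 : ∑ i ∈ range N, ‖g (i + 1)‖ ^ 2 ≤ ∑ i ∈ range N, ‖g i‖ ^ 2 := by
    have h5 := Finset.sum_range_succ' (fun i => ‖g i‖ ^ 2) N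
    rw [Finset.sum_range_succ, hg] at h5
    simp only [norm_zero, ne_eq, OfNat.ofNat_ne_zero, not_false_eq_true, zero_pow,
      add_zero] at h5
    nlinarith [sq_nonneg ‖g 0‖]
  have h6 := Finset.sum_le_sum (s := range N) fun i _ => h1 i
  rw [Finset.sum_sub_distrib, ← Finset.mul_sum, ← Finset.mul_sum] at h6
  have h7 := mul_le_mul_of_nonneg_left h4 (mul_nonneg hρ (sub_pos.2 hr).le)
  nlinarith

theorem toep_low {α p : ℝ} (h0 : 0 ≤ α) (h1 : α < 1 + p) (hp0 : 0 ≤ p) (hp : p < 1) :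
    ∃ c > 0, ∀ (N : ℕ) (w : ℕ → ℝ), w N = 0 → w (N + 1) = 0 →
      c * ∑ i ∈ range N, w i ^ 2 ≤ ∑ i ∈ range N, (w i + α * w (i + 1) + p * w (i + 2)) ^ 2 := by
  obtain ⟨r₁, r₂, hr1, hr2, hs, hm⟩ := toep_roots h0 h1 hp0 hp
  refine ⟨(1 - ‖r₁‖) ^ 2 * (1 - ‖r₂‖) ^ 2,
    mul_pos (pow_pos (sub_pos.2 hr1) 2) (pow_pos (sub_pos.2 hr2) 2), fun N w hN hN1 => ?_⟩
  have h2 := toep_step hr2 N (fun i => (w i : ℂ)) (by simp [hN])
  have h3 := toep_step hr1 N (fun i => (w i : ℂ) - r₂ * (w (i + 1) : ℂ)) (by simp [hN, hN1])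
  have h4 : ∀ i, ‖((w i : ℂ) - r₂ * (w (i + 1) : ℂ)) -
      r₁ * ((w (i + 1) : ℂ) - r₂ * (w (i + 1 + 1) : ℂ))‖ ^ 2 =
      (w i + α * w (i + 1) + p * w (i + 2)) ^ 2 := by
    intro i
    have h5 : ((w i : ℂ) - r₂ * (w (i + 1) : ℂ)) -
        r₁ * ((w (i + 1) : ℂ) - r₂ * (w (i + 1 + 1) : ℂ)) =
        ((w i + α * w (i + 1) + p * w (i + 2) : ℝ) : ℂ) := by
      push_cast
      linear_combination (-(w (i + 1) : ℂ)) * hs + (w (i + 2) : ℂ) * hm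
    rw [h5, Complex.norm_real, Real.norm_eq_abs, sq_abs]
  simp only [h4] at h3
  simp only [Complex.norm_real, Real.norm_eq_abs, sq_abs] at h2
  have h6 := mul_le_mul_of_nonneg_left h2 (sq_nonneg (1 - ‖r₁‖))
  rw [mul_assoc]
  exact h6.trans h3

theorem toep_decay {α p : ℝ} (h0 : 0 ≤ α) (h1 : α < 1 + p) (hp0 : 0 ≤ p) (hp : p < 1) :
    ∃ K q : ℝ, 0 < K ∧ 0 < q ∧ q < 1 ∧ ∀ w : ℕ → ℝ,
      (∀ k, w (k + 2) + α * w (k + 1) + p * w k = 0) →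
      ∀ k, |w k| ≤ K * q ^ k * (|w 0| + |w 1|) := by
  obtain ⟨r₁, r₂, hr1, hr2, hs, hm⟩ := toep_roots h0 h1 hp0 hp
  obtain ⟨q₀, hq1, hq2, hq3⟩ : ∃ q₀ : ℝ, ‖r₁‖ ≤ q₀ ∧ ‖r₂‖ ≤ q₀ ∧ q₀ < 1 :=
    ⟨max ‖r₁‖ ‖r₂‖, le_max_left _ _, le_max_right _ _, max_lt hr1 hr2⟩
  have hq0 : 0 ≤ q₀ := (norm_nonneg _).trans hq1
  have hd : 0 < 1 - q₀ := sub_pos.2 hq3
  obtain ⟨K, hK⟩ : ∃ K : ℝ, K * (1 - q₀) = 2 := ⟨2 / (1 - q₀), by field_simp⟩
  have hK1 : 1 ≤ K := by nlinarith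
  refine ⟨K, (1 + q₀) / 2, by linarith, by linarith, by linarith, fun w hw => ?_⟩
  set q : ℝ := (1 + q₀) / 2 with hq
  set M : ℝ := |w 0| + |w 1| with hM
  have hM0 : 0 ≤ M := add_nonneg (abs_nonneg _) (abs_nonneg _)
  have hqq : q₀ ≤ q := by rw [hq]; linarith
  have hqp : 0 ≤ q := hq0.trans hqq
  have hg : ∀ k, ‖(w (k + 1) : ℂ) - r₁ * (w k : ℂ)‖ ≤ q ^ k * M := by
    intro k
    induction k with
    | zero =>
      refine (norm_sub_le _ _).trans ?_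
      rw [norm_mul, Complex.norm_real, Complex.norm_real, Real.norm_eq_abs, Real.norm_eq_abs,
        pow_zero, one_mul, hM, zero_add]
      nlinarith [abs_nonneg (w 0), norm_nonneg r₁]
    | succ k ih =>
      have h2 : (w (k + 1 + 1) : ℂ) - r₁ * (w (k + 1) : ℂ) =
          r₂ * ((w (k + 1) : ℂ) - r₁ * (w k : ℂ)) := by
        have h3 : ((w (k + 2) + α * w (k + 1) + p * w k : ℝ) : ℂ) = 0 := by
          rw [hw k, Complex.ofReal_zero]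
        push_cast at h3
        linear_combination h3 - (w (k + 1) : ℂ) * hs + (w k : ℂ) * hm
      rw [h2, norm_mul, pow_succ, mul_comm (q ^ k) q, mul_assoc]
      exact mul_le_mul (hq2.trans hqq) ih (norm_nonneg _) hqp
  intro k
  induction k with
  | zero =>
    rw [pow_zero, mul_one]
    have : |w 0| ≤ M := by rw [hM]; linarith [abs_nonneg (w 1)]
    nlinarith
  | succ k ih =>
    have h2 : |w (k + 1)| ≤ q ^ k * M + q₀ * |w k| := by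
      have h3 := norm_add_le ((w (k + 1) : ℂ) - r₁ * (w k : ℂ)) (r₁ * (w k : ℂ))
      rw [sub_add_cancel, norm_mul, Complex.norm_real, Complex.norm_real, Real.norm_eq_abs,
        Real.norm_eq_abs] at h3
      have h4 := mul_le_mul_of_nonneg_right hq1 (abs_nonneg (w k))
      linarith [hg k]
    have h5 := mul_le_mul_of_nonneg_left ih hq0
    have h6 : K * q = q₀ * K + 1 := by rw [hq]; linarith
    have h7 : K * q ^ (k + 1) * M = q ^ k * M + q₀ * (K * q ^ k * M) := by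
      rw [pow_succ]
      linear_combination (q ^ k * M) * h6
    linarith

end Pool.Agent.TAF
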