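import Pool.Agent.P.MP_cb4022_pr.Defs
import Pool.Agent.P.MP_cb4022_pr.RelD
import Pool.Agent.P.MP_cb4022_pr.Toep

open scoped Classical Matrix
open Finset

noncomputable section

namespace Pool.Agent.TAF

theorem model_seq (a b c : ℝ) : ∃ w : ℕ → ℝ, w 0 = 1 ∧ w 1 = c ∧
    ∀ k, w (k + 2) + a * w (k + 1) + b * w k = 0 := by
  let f : ℕ → ℝ × ℝ := fun k => Nat.rec (1, c) (fun _ z => (z.2, -(a * z.2) - b * z.1)) k
  refine ⟨fun k => (f k).1, rfl, rfl, fun k => ?_⟩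
  change -(a * (f k).2) - b * (f k).1 + a * (f k).2 + b * (f k).1 = 0
  ring

theorem modeL {y : ℝ} (hy : 1 < y) : ∃ K q : ℝ, 0 < K ∧ 0 < q ∧ q < 1 ∧ ∀ n, 1 ≤ n →
    ∃ u : ℕ → ℝ, u 0 = 1 ∧ (∀ j ≤ n, |u j| ≤ K * q ^ j) ∧
      ∀ u' v', Rel y n u 0 u' v' → ∀ j ≤ n, |u' j| ≤ K * q ^ j ∧ |v' j| ≤ K * q ^ n := by
  have ht := tau_pos hy
  obtain ⟨K0, q, hK0, hq, hq1, dec⟩ := toep_decay (alp_pos hy).le (alp_lt hy) (sq_nonneg _)
    (pow_lt_one₀ ht.le (tau_lt_one hy) two_ne_zero)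
  obtain ⟨αL, l0, κ2, hl, left⟩ := exists_leftA hy
  obtain ⟨KR, hKR, right⟩ := exists_rightA hy
  obtain ⟨KD, hKD, diff⟩ := exists_diff hy
  obtain ⟨KZ, hKZ, zer⟩ := exists_zero hy
  obtain ⟨w, w0, w1, wr⟩ := model_seq (alp y) (tau y ^ 2) (-αL)
  obtain ⟨M, hM, hw⟩ : ∃ M : ℝ, 0 < M ∧ ∀ k, |w k| ≤ M * q ^ k :=
    ⟨K0 * (|w 0| + |w 1|), by rw [w0, abs_one]; positivity,
      fun k => (dec w wr k).trans (le_of_eq (by ring))⟩
  obtain ⟨N, hN, hw2⟩ : ∃ N : ℝ, 0 ≤ N ∧ ∀ k, |w k| + |w (k + 1)| ≤ N * q ^ (k + 1) := by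
    refine ⟨M / q + M, by positivity, fun k => (add_le_add (hw k) (hw _)).trans (le_of_eq ?_)⟩
    field_simp
    ring
  have mono : ∀ {x A K : ℝ} {j : ℕ}, x ≤ A * q ^ j → A ≤ K → x ≤ K * q ^ j := fun h h' =>
    h.trans (mul_le_mul_of_nonneg_right h' (by positivity))
  have one : ∀ {x A : ℝ} {j k : ℕ}, x ≤ A * q ^ j → 0 ≤ A → k ≤ j → x ≤ A * q ^ k := fun h h' e =>
    h.trans (mul_le_mul_of_nonneg_left (pow_le_pow_of_le_one hq.le hq1.le e) h')
  have p1 : 0 ≤ KR * N := by positivity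
  have p2 : 0 ≤ KD * N := by positivity
  have p3 : 0 ≤ 2 * tau y / l0 * (KR * N) := by positivity
  have p4 : 0 ≤ KZ * (N + (KR * N + KD * N) + KR * N) := by positivity
  refine ⟨M + (KR * N + KD * N) + 2 * tau y / l0 * (KR * N) +
    KZ * (N + (KR * N + KD * N) + KR * N), q, by positivity, hq, hq1, fun n hn =>
      ⟨w, w0, fun j _ => mono (hw j) (by linarith), fun u' v' h => ?_⟩⟩
  obtain ⟨m, rfl⟩ : ∃ m, n = m + 1 := ⟨n - 1, by omega⟩
  have a1 : ∀ d i, i + d = m → |v' (i + 1)| ≤ KR * N * q ^ (m + 1) := by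
    intro d
    induction d with
    | zero =>
      rintro i rfl
      have := right _ _ _ _ _ h
      simp only [Pi.zero_apply, abs_zero, add_zero] at this ⊢
      exact this.trans ((mul_le_mul_of_nonneg_left (hw2 i) hKR).trans (le_of_eq (by ring)))
    | succ d ih =>
      intro i hi
      have b1 := h.bulkA hy (i := i) (by omega)
      simp only [Pi.zero_apply, mul_zero, add_zero] at b1
      have b2 : v' (i + 1) = -v' (i + 2) :=
        mul_left_cancel₀ ht.ne' (by linear_combination (wr i - b1) / 2)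
      rw [b2, abs_neg]
      exact ih (i + 1) (by omega)
  have a2 : ∀ i ≤ m, |v' (i + 1)| ≤ KR * N * q ^ (m + 1) := fun i hi => a1 (m - i) i (by omega)
  have a3 : ∀ i ≤ m, |u' (i + 1)| ≤ (KR * N + KD * N) * q ^ (i + 1) := fun i hi => by
    have b1 := diff _ _ _ _ _ h i (by omega)
    simp only [Pi.zero_apply, abs_zero, add_zero] at b1
    have b2 := mul_le_mul_of_nonneg_left (hw2 i) hKD
    have b3 := one (a2 i hi) p1 (by omega : i + 1 ≤ m + 1)
    have b4 := abs_sub_abs_le_abs_sub (u' (i + 1)) (v' (i + 1))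
    linarith
  rintro (_ | j) hj
  · constructor
    · have b1 := zer _ _ _ _ _ h
      simp only [Pi.zero_apply, abs_zero, add_zero] at b1
      have b2 := one (hw2 0) hN (Nat.zero_le _)
      have b3 := one (a3 0 m.zero_le) (add_nonneg p1 p2) (Nat.zero_le _)
      have b4 := one (a2 0 m.zero_le) p1 (Nat.zero_le _)
      simp only [zero_add, pow_zero, mul_one] at b2 b3 b4 ⊢
      have b5 := mul_le_mul_of_nonneg_left (add_le_add (add_le_add b2 b3) b4) hKZ
      linarith [abs_nonneg (v' 0)]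
    · have b1 := left _ _ _ _ _ h
      simp only [Pi.zero_apply, mul_zero, add_zero, w0, w1] at b1
      have b2 : v' 0 = -(2 * tau y / l0 * v' 1) := by
        field_simp
        linear_combination -b1
      have b3 := mul_le_mul_of_nonneg_left (a2 0 m.zero_le) (by positivity : 0 ≤ 2 * tau y / l0)
      rw [b2, abs_neg, abs_mul, abs_of_nonneg (by positivity : 0 ≤ 2 * tau y / l0)]
      rw [← mul_assoc] at b3
      exact mono b3 (by linarith)
  · exact ⟨mono (a3 j (by omega)) (by linarith), mono (a2 j (by omega)) (by linarith)⟩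

end Pool.Agent.TAF
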