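import Pool.Agent.P.MP_cb4022_pr.Defs
import Pool.Agent.P.MP_cb4022_pr.RelD
import Pool.Agent.P.MP_cb4022_pr.Toep

open scoped Classical Matrix
open Finset

noncomputable section

namespace Pool.Agent.TAF

/-- The solution of the bulk recursion with given initial slope. -/
def moderW (α p a : ℝ) : ℕ → ℝ
  | 0 => 1
  | 1 => a
  | k + 2 => -(α * moderW α p a (k + 1)) - p * moderW α p a k

theorem moder_rec (α p a : ℝ) (k : ℕ) :
    moderW α p a (k + 2) + α * moderW α p a (k + 1) + p * moderW α p a k = 0 := by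
  rw [moderW]; ring

theorem modeR {y : ℝ} (hy : 1 < y) : ∃ K q : ℝ, 0 < K ∧ 0 < q ∧ q < 1 ∧ ∀ n, 1 ≤ n →
    ∃ v : ℕ → ℝ, v n = 1 ∧ (∀ j ≤ n, |v j| ≤ K * q ^ (n - j)) ∧
      ∀ u' v', Rel y n 0 v u' v' →
        ∀ j ≤ n, |v' j| ≤ K * q ^ (n - j) ∧ |u' j| ≤ K * q ^ n := by
  obtain ⟨αR, κR, -, hR⟩ := exists_rightB hy
  obtain ⟨Kd, hKd, hd⟩ := exists_diff hy
  obtain ⟨Kz, hKz, hz⟩ := exists_zero hy
  have hτ := tau_pos hy
  have hτ1 := tau_lt_one hy
  obtain ⟨K0, q, hK0, hq, hq1, H⟩ := toep_decay (alp_pos hy).le (alp_lt hy) (sq_nonneg _)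
    (pow_lt_one₀ hτ.le hτ1 two_ne_zero)
  obtain ⟨w, hw0, hw1, hw⟩ : ∃ w : ℕ → ℝ, w 0 = 1 ∧ w 1 = -αR ∧
      ∀ k, w (k + 2) + alp y * w (k + 1) + tau y ^ 2 * w k = 0 :=
    ⟨moderW (alp y) (tau y ^ 2) (-αR), rfl, rfl, moder_rec _ _ _⟩
  obtain ⟨K1, hK1, hb⟩ : ∃ K1 : ℝ, 0 < K1 ∧ ∀ k, |w k| ≤ K1 * q ^ k := by
    refine ⟨K0 * (|w 0| + |w 1|), ?_, fun k => (H w hw k).trans_eq (by ring)⟩
    rw [hw0, abs_one]
    positivity
  have hA : 0 ≤ 2 * Kd * K1 := by positivity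
  have hB : 0 ≤ Kz * (K1 * (2 + 2 * Kd)) / q := by positivity
  obtain ⟨K, hK⟩ : ∃ K, K = K1 + 2 * Kd * K1 + Kz * (K1 * (2 + 2 * Kd)) / q := ⟨_, rfl⟩
  have hKp : 0 < K := by linarith
  have hq' : ∀ k, q ^ (k + 1) ≤ q ^ k := fun k => pow_le_pow_of_le_one hq.le hq1.le k.le_succ
  refine ⟨K, q, hKp, hq, hq1, fun n hn => ⟨fun j => w (n - j), by simpa using hw0,
    fun j _ => (hb _).trans (mul_le_mul_of_nonneg_right (by linarith) (by positivity)),
    fun u' v' h => ?_⟩⟩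
  obtain ⟨m, rfl⟩ : ∃ m, n = m + 1 := ⟨n - 1, by omega⟩
  have h2τ : 2 * tau y ≠ 0 := by positivity
  have hu : ∀ k i, i + k = m → u' (i + 1) = 0 := by
    intro k
    induction k with
    | zero =>
      rintro i rfl
      have := hR _ _ _ _ _ h
      simp only [add_zero, Nat.add_sub_cancel_left, Nat.sub_self, hw0, hw1, Pi.zero_apply,
        mul_zero, mul_one, neg_add_cancel] at this
      exact (mul_eq_zero.1 this.symm).resolve_left h2τ
    | succ k ih =>
      rintro i rfl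
      have h1 := h.bulkB hy (i := i) (by omega)
      have e0 : i + (k + 1) + 1 - i = k + 2 := by omega
      have e1 : i + (k + 1) + 1 - (i + 1) = k + 1 := by omega
      have e2 : i + (k + 1) + 1 - (i + 2) = k := by omega
      simp only [e0, e1, e2, hw, Pi.zero_apply, mul_zero, add_zero] at h1
      have h2 := ih (i + 1) (by omega)
      rw [show i + 2 = i + 1 + 1 from rfl, h2, add_zero] at h1
      exact (mul_eq_zero.1 h1.symm).resolve_left h2τ
  have hv : ∀ i ≤ m, |v' (i + 1)| ≤ 2 * Kd * K1 * q ^ (m - i) := by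
    intro i hi
    have h1 := hd _ _ _ _ _ h i (by omega)
    have e0 : m + 1 - i = m - i + 1 := by omega
    have e1 : m + 1 - (i + 1) = m - i := by omega
    simp only [hu (m - i) i (by omega), zero_sub, abs_neg, Pi.zero_apply, abs_zero, zero_add,
      e0, e1] at h1
    have h2 := (hb (m - i + 1)).trans (mul_le_mul_of_nonneg_left (hq' _) hK1.le)
    have h3 := mul_le_mul_of_nonneg_left (add_le_add h2 (hb (m - i))) hKd
    linarith
  have h0 : |u' 0| + |v' 0| ≤ K * q ^ (m + 1) := by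
    have h1 := hz _ _ _ _ _ h
    simp only [Pi.zero_apply, abs_zero, zero_add, Nat.sub_zero, Nat.add_sub_cancel, add_zero,
      hu m 0 (zero_add m)] at h1
    have h2 := (hb (m + 1)).trans (mul_le_mul_of_nonneg_left (hq' _) hK1.le)
    have h3 := hv 0 (Nat.zero_le m)
    rw [Nat.sub_zero, zero_add] at h3
    have h4 := mul_le_mul_of_nonneg_left (add_le_add (add_le_add h2 (hb m)) h3) hKz
    have h5 : Kz * (K1 * q ^ m + K1 * q ^ m + 2 * Kd * K1 * q ^ m) =
        Kz * (K1 * (2 + 2 * Kd)) / q * q ^ (m + 1) := by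
      field_simp
      ring
    have h6 : Kz * (K1 * (2 + 2 * Kd)) / q * q ^ (m + 1) ≤ K * q ^ (m + 1) :=
      mul_le_mul_of_nonneg_right (by linarith) (by positivity)
    linarith
  intro j hj
  rcases j with _ | i
  · rw [Nat.sub_zero]
    exact ⟨by linarith [abs_nonneg (u' 0)], by linarith [abs_nonneg (v' 0)]⟩
  · rw [Nat.add_sub_add_right, hu (m - i) i (by omega), abs_zero]
    exact ⟨(hv i (by omega)).trans (mul_le_mul_of_nonneg_right (by linarith) (by positivity)),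
      by positivity⟩

end Pool.Agent.TAF
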