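import Pool.Agent.P.MP_cb4022_pr.Defs
import Pool.Agent.P.MP_cb4022_pr.Nrm

open scoped Classical Matrix
open Finset

noncomputable section

namespace Pool.Agent.TAF

variable {S : Type} [Fintype S] [DecidableEq S] {C : Type}

theorem pkg2_symm {T : Matrix S S ℝ} (hT : Tᵀ = T) (v w : S → ℝ) :
    v ⬝ᵥ (T *ᵥ w) = (T *ᵥ v) ⬝ᵥ w := by
  rw [Matrix.dotProduct_mulVec, ← Matrix.mulVec_transpose, hT]

theorem pkg2_self_nonneg (w : S → ℝ) : 0 ≤ w ⬝ᵥ w :=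
  Finset.sum_nonneg fun i _ => mul_self_nonneg (w i)

theorem pkg2_disj {pr : S → Bool} {v w : S → ℝ} (hv : ∀ i, pr i = false → v i = 0)
    (hw : ∀ i, pr i = true → w i = 0) : v ⬝ᵥ w = 0 := by
  refine Finset.sum_eq_zero fun i _ => ?_
  cases hi : pr i
  · rw [hv i hi, zero_mul]
  · rw [hw i hi, mul_zero]

theorem pkg2_quad {a b : ℝ} (hb : 0 ≤ b) (h : ∀ t : ℝ, 0 ≤ 2 * t * a + t ^ 2 * b) : a = 0 := by
  have h1 := h (-a / (b + 1))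
  have hb1 : 0 < b + 1 := by linarith
  have h2 : 2 * (-a / (b + 1)) * a + (-a / (b + 1)) ^ 2 * b =
      -(a ^ 2 * (b + 2)) / (b + 1) ^ 2 := by
    field_simp
    ring
  rw [h2, le_div_iff₀ (by positivity), zero_mul] at h1
  have h3 : a ^ 2 ≤ 0 := by nlinarith [sq_nonneg a]
  exact pow_eq_zero_iff (two_ne_zero) |>.1 (le_antisymm h3 (sq_nonneg a))

theorem pkg2_bil {G : Matrix S S ℝ} {N : ℝ} (hG : ∀ w, nrm (G *ᵥ w) ≤ N * nrm w) (u v : S → ℝ) :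
    |u ⬝ᵥ (G *ᵥ v)| ≤ nrm u * (N * nrm v) :=
  (abs_dot_le _ _).trans (mul_le_mul_of_nonneg_left (hG v) (nrm_nonneg u))

theorem pkg2_pert {G : Matrix S S ℝ} {Ω et eb' : S → ℝ} {N ε : ℝ} (hN : 0 < N)
    (hΩ : Ω ⬝ᵥ Ω = 1) (hG : ∀ w, nrm (G *ᵥ w) ≤ N * nrm w)
    (het : nrm et ≤ ε) (heb : nrm eb' ≤ ε) (hε : ε ≤ 1 / 10) :
    |(Ω + et) ⬝ᵥ (G *ᵥ (Ω + eb')) - Ω ⬝ᵥ (G *ᵥ Ω)| ≤ 21 / 10 * ε * N := by
  have h1 := nrm_eq_one hΩ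
  have hε0 : 0 ≤ ε := (nrm_nonneg _).trans het
  have e : (Ω + et) ⬝ᵥ (G *ᵥ (Ω + eb')) - Ω ⬝ᵥ (G *ᵥ Ω) =
      Ω ⬝ᵥ (G *ᵥ eb') + et ⬝ᵥ (G *ᵥ Ω) + et ⬝ᵥ (G *ᵥ eb') := by
    rw [Matrix.mulVec_add, add_dotProduct, dotProduct_add, dotProduct_add]
    ring
  have a1 := pkg2_bil hG Ω eb'
  have a2 := pkg2_bil hG et Ω
  have a3 := pkg2_bil hG et eb'
  rw [h1] at a1 a2
  have b1 : 1 * (N * nrm eb') ≤ ε * N := by nlinarith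
  have b2 : nrm et * (N * 1) ≤ ε * N := by nlinarith
  have b3 : nrm et * (N * nrm eb') ≤ ε * (N * ε) :=
    mul_le_mul het (mul_le_mul_of_nonneg_left heb hN.le)
      (mul_nonneg hN.le (nrm_nonneg _)) hε0
  have b4 : ε * (N * ε) ≤ 1 / 10 * ε * N := by
    have := mul_le_mul_of_nonneg_left hε (mul_nonneg hε0 hN.le)
    nlinarith
  rw [e]
  have t1 := abs_add_le (Ω ⬝ᵥ (G *ᵥ eb') + et ⬝ᵥ (G *ᵥ Ω)) (et ⬝ᵥ (G *ᵥ eb'))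
  have t2 := abs_add_le (Ω ⬝ᵥ (G *ᵥ eb')) (et ⬝ᵥ (G *ᵥ Ω))
  linarith

theorem exists_lam [Nonempty S] (T : Matrix S S ℝ) (hT : Tᵀ = T) :
    ∃ lam : ℝ, (∃ w, w ≠ 0 ∧ T *ᵥ w = lam • w) ∧ ∀ w, w ⬝ᵥ (T *ᵥ w) ≤ lam * (w ⬝ᵥ w) := by
  have hc : IsCompact {w : S → ℝ | w ⬝ᵥ w = 1} := by
    refine Metric.isCompact_of_isClosed_isBounded ?_ ?_
    · exact isClosed_eq (continuous_id.dotProduct continuous_id) continuous_const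
    · refine (Metric.isBounded_closedBall (x := (0 : S → ℝ)) (r := 1)).subset fun w hw => ?_
      rw [mem_closedBall_zero_iff, pi_norm_le_iff_of_nonneg zero_le_one]
      intro i
      have h1 : w i * w i ≤ w ⬝ᵥ w :=
        Finset.single_le_sum (f := fun j => w j * w j) (fun j _ => mul_self_nonneg (w j))
          (Finset.mem_univ i)
      have h2 : w ⬝ᵥ w = 1 := hw
      rw [Real.norm_eq_abs, abs_le]
      constructor <;> nlinarith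
  have hne : ({w : S → ℝ | w ⬝ᵥ w = 1}).Nonempty := by
    obtain ⟨i⟩ := ‹Nonempty S›
    exact ⟨Pi.single i 1, by simp⟩
  have hcont : Continuous fun w : S → ℝ => w ⬝ᵥ (T *ᵥ w) :=
    continuous_id.dotProduct (continuous_const.matrix_mulVec continuous_id)
  obtain ⟨w₀, hw₀, hmax⟩ := hc.exists_isMaxOn hne hcont.continuousOn
  have hw1 : w₀ ⬝ᵥ w₀ = 1 := hw₀
  have hle : ∀ w, w ⬝ᵥ (T *ᵥ w) ≤ (w₀ ⬝ᵥ (T *ᵥ w₀)) * (w ⬝ᵥ w) := by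
    intro w
    rcases (pkg2_self_nonneg w).eq_or_lt with h0 | h0
    · have hw : w = 0 := dotProduct_self_eq_zero.1 h0.symm
      simp [hw]
    · have hs : 0 < √(w ⬝ᵥ w) := Real.sqrt_pos.2 h0
      have hss : √(w ⬝ᵥ w) * √(w ⬝ᵥ w) = w ⬝ᵥ w := Real.mul_self_sqrt h0.le
      have hm : ((√(w ⬝ᵥ w))⁻¹ • w) ∈ {w : S → ℝ | w ⬝ᵥ w = 1} := by
        show ((√(w ⬝ᵥ w))⁻¹ • w) ⬝ᵥ ((√(w ⬝ᵥ w))⁻¹ • w) = 1
        rw [smul_dotProduct, dotProduct_smul, smul_eq_mul, smul_eq_mul]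
        field_simp
        nlinarith
      have h1 : ((√(w ⬝ᵥ w))⁻¹ • w) ⬝ᵥ (T *ᵥ ((√(w ⬝ᵥ w))⁻¹ • w)) ≤ w₀ ⬝ᵥ (T *ᵥ w₀) := hmax hm
      rw [Matrix.mulVec_smul, smul_dotProduct, dotProduct_smul, smul_eq_mul, smul_eq_mul,
        ← mul_assoc, ← mul_inv, hss, inv_mul_le_iff₀ h0] at h1
      linarith
  refine ⟨w₀ ⬝ᵥ (T *ᵥ w₀), ⟨w₀, ?_, ?_⟩, hle⟩
  · rintro rfl
    simp at hw1
  · have key : ∀ v : S → ℝ, (w₀ ⬝ᵥ (T *ᵥ w₀)) * (v ⬝ᵥ w₀) - v ⬝ᵥ (T *ᵥ w₀) = 0 := by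
      intro v
      refine pkg2_quad (b := (w₀ ⬝ᵥ (T *ᵥ w₀)) * (v ⬝ᵥ v) - v ⬝ᵥ (T *ᵥ v))
        (sub_nonneg.2 (hle v)) fun t => ?_
      have h1 := hle (w₀ + t • v)
      have h2 : w₀ ⬝ᵥ (T *ᵥ v) = v ⬝ᵥ (T *ᵥ w₀) := by
        rw [pkg2_symm hT, dotProduct_comm]
      have h3 : w₀ ⬝ᵥ v = v ⬝ᵥ w₀ := dotProduct_comm _ _
      simp only [Matrix.mulVec_add, Matrix.mulVec_smul, add_dotProduct, dotProduct_add,
        smul_dotProduct, dotProduct_smul, smul_eq_mul, hw1, h2, h3] at h1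
      nlinarith
    have h2 := key ((w₀ ⬝ᵥ (T *ᵥ w₀)) • w₀ - T *ᵥ w₀)
    have h3 : ((w₀ ⬝ᵥ (T *ᵥ w₀)) • w₀ - T *ᵥ w₀) ⬝ᵥ ((w₀ ⬝ᵥ (T *ᵥ w₀)) • w₀ - T *ᵥ w₀) = 0 := by
      rw [dotProduct_sub, dotProduct_smul, smul_eq_mul]
      exact h2
    exact (sub_eq_zero.1 (dotProduct_self_eq_zero.1 h3)).symm

theorem op_of_form (A : Matrix S S ℝ) {lam : ℝ} (hlam : 0 ≤ lam)
    (hle : ∀ w, w ⬝ᵥ ((Aᵀ * A) *ᵥ w) ≤ lam * (w ⬝ᵥ w)) (w : S → ℝ) :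
    nrm (A *ᵥ w) ≤ √lam * nrm w ∧ nrm (Aᵀ *ᵥ w) ≤ √lam * nrm w := by
  have h1 : ∀ v, nrm (A *ᵥ v) ≤ √lam * nrm v := by
    intro v
    have h2 : (A *ᵥ v) ⬝ᵥ (A *ᵥ v) = v ⬝ᵥ ((Aᵀ * A) *ᵥ v) := by
      rw [← Matrix.mulVec_mulVec, Matrix.dotProduct_mulVec v, Matrix.vecMul_transpose]
    unfold nrm
    rw [← Real.sqrt_mul hlam, h2]
    exact Real.sqrt_le_sqrt (hle v)
  exact ⟨h1 w, nrm_transpose_le (Real.sqrt_nonneg _) h1 w⟩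

theorem Pack.swap {T : Matrix S S ℝ} {pr : S → Bool} {lam θ δ : ℝ} {Ωp Ωm : S → ℝ} {lp lm : ℝ}
    (h : Pack T pr lam θ δ Ωp Ωm lp lm) (hT : Tᵀ = T) (hlam : 0 < lam) (hθ : θ < 1)
    (hδ : δ ≤ (1 - θ) / 2) (χ : Matrix S S ℝ) (hχ : χᵀ * χ = 1)
    (hχp : ∀ i j, pr i = pr j → χ i j = 0) {δ' : ℝ} (hδ' : 0 ≤ δ')
    (hc : ∀ w, nrm ((T * χ - χ * T) *ᵥ w) ≤ δ' * lam * nrm w) :
    ∃ ε : ℝ, (ε = 1 ∨ ε = -1) ∧ nrm (χ *ᵥ Ωp - ε • Ωm) ≤ 4 * δ' / (1 - θ) := by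
  obtain ⟨φ, hφ⟩ : ∃ φ, φ = χ *ᵥ Ωp := ⟨_, rfl⟩
  rw [← hφ]
  have hφ1 : φ ⬝ᵥ φ = 1 := by
    rw [hφ, Matrix.dotProduct_mulVec, Matrix.vecMul_mulVec, hχ, Matrix.vecMul_one, h.np]
  have hφs : ∀ i, pr i = true → φ i = 0 := by
    intro i hi
    rw [hφ]
    refine Finset.sum_eq_zero fun j _ => ?_
    show χ i j * Ωp j = 0
    cases hj : pr j
    · rw [h.sp j hj, mul_zero]
    · rw [hχp i j (hi.trans hj.symm), zero_mul]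
  have hr : nrm (T *ᵥ φ - lp • φ) ≤ δ' * lam := by
    have h1 := hc Ωp
    rw [nrm_eq_one h.np, mul_one, Matrix.sub_mulVec, ← Matrix.mulVec_mulVec,
      ← Matrix.mulVec_mulVec, h.ep, Matrix.mulVec_smul, ← hφ] at h1
    exact h1
  obtain ⟨s, hs⟩ : ∃ s, s = φ ⬝ᵥ Ωm := ⟨_, rfl⟩
  obtain ⟨w, hw⟩ : ∃ w, w = φ - s • Ωm := ⟨_, rfl⟩
  have hφw : φ = w + s • Ωm := by rw [hw]; abel
  have hwm : w ⬝ᵥ Ωm = 0 := by
    rw [hw, sub_dotProduct, smul_dotProduct, h.nm, ← hs, smul_eq_mul, mul_one, sub_self]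
  have hwp : w ⬝ᵥ Ωp = 0 := by
    rw [hw, sub_dotProduct, smul_dotProduct, dotProduct_comm φ, pkg2_disj h.sp hφs,
      dotProduct_comm Ωm, pkg2_disj h.sp h.sm, smul_zero, sub_zero]
  have hgap := h.gap w hwp hwm
  have hkey : w ⬝ᵥ (T *ᵥ φ - lp • φ) = w ⬝ᵥ (T *ᵥ w) - lp * (w ⬝ᵥ w) := by
    rw [hφw]
    simp only [Matrix.mulVec_add, Matrix.mulVec_smul, h.em, dotProduct_add, dotProduct_sub,
      dotProduct_smul, smul_add, hwm, smul_eq_mul, mul_zero, add_zero]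
  have hn0 := nrm_nonneg w
  have a1 : |w ⬝ᵥ (T *ᵥ φ - lp • φ)| ≤ nrm w * (δ' * lam) :=
    (abs_dot_le _ _).trans (mul_le_mul_of_nonneg_left hr hn0)
  have a2 : |w ⬝ᵥ (T *ᵥ w)| ≤ nrm w * (θ * lam * nrm w) :=
    (abs_dot_le _ _).trans (mul_le_mul_of_nonneg_left hgap hn0)
  have hsq := nrm_sq w
  have hlp : (1 + θ) / 2 * lam ≤ lp := by
    have := h.lp1
    nlinarith
  have h1θ : 0 < 1 - θ := by linarith
  have hwle : nrm w ≤ 2 * δ' / (1 - θ) := by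
    rw [le_div_iff₀ h1θ]
    rcases hn0.eq_or_lt with h0 | h0
    · rw [← h0]; linarith
    · rw [hkey, ← hsq] at a1
      have b1 := (abs_le.1 a1).1
      have b2 := (abs_le.1 a2).2
      have b3 : (1 + θ) / 2 * lam * nrm w ^ 2 ≤ lp * nrm w ^ 2 :=
        mul_le_mul_of_nonneg_right hlp (sq_nonneg _)
      have b4 : (lam * nrm w) * (nrm w * (1 - θ)) ≤ (lam * nrm w) * (2 * δ') := by nlinarith
      exact le_of_mul_le_mul_left b4 (mul_pos hlam h0)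
  have hpy : s ^ 2 + nrm w ^ 2 = 1 := by
    rw [hsq, ← hφ1, hφw]
    simp only [add_dotProduct, dotProduct_add, smul_dotProduct, dotProduct_smul, hwm,
      dotProduct_comm Ωm w, h.nm, smul_eq_mul]
    ring
  have fin : ∀ ε : ℝ, |s - ε| ≤ nrm w → nrm (φ - ε • Ωm) ≤ 4 * δ' / (1 - θ) := by
    intro ε hε
    have e : φ - ε • Ωm = w + (s - ε) • Ωm := by
      rw [hφw, sub_smul]; abel
    have h1 := nrm_add_le w ((s - ε) • Ωm)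
    rw [nrm_smul, nrm_eq_one h.nm, mul_one] at h1
    have h2 : 4 * δ' / (1 - θ) = 2 * (2 * δ' / (1 - θ)) := by ring
    rw [e, h2]
    linarith
  rcases le_total 0 s with hs0 | hs0
  · refine ⟨1, Or.inl rfl, fin 1 (abs_le.2 ⟨?_, ?_⟩)⟩ <;> nlinarith
  · refine ⟨-1, Or.inr rfl, fin (-1) (abs_le.2 ⟨?_, ?_⟩)⟩ <;> nlinarith

theorem Pack.pow {T : Matrix S S ℝ} {pr : S → Bool} {lam θ δ : ℝ} {Ωp Ωm : S → ℝ} {lp lm : ℝ}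
    (h : Pack T pr lam θ δ Ωp Ωm lp lm) (hT : Tᵀ = T) (hθ : 0 ≤ θ * lam) (w : S → ℝ)
    (hw : ∀ i, pr i = false → w i = 0) (a : ℕ) :
    nrm ((T ^ a) *ᵥ w - (lp ^ a * (Ωp ⬝ᵥ w)) • Ωp) ≤ (θ * lam) ^ a * nrm w := by
  obtain ⟨c, hc⟩ : ∃ c, c = Ωp ⬝ᵥ w := ⟨_, rfl⟩
  rw [← hc]
  obtain ⟨v, hv⟩ : ∃ v, v = w - c • Ωp := ⟨_, rfl⟩
  have hwv : w = v + c • Ωp := by rw [hv]; abel
  have hvp : v ⬝ᵥ Ωp = 0 := by
    rw [hv, sub_dotProduct, smul_dotProduct, h.np, dotProduct_comm w, ← hc, smul_eq_mul, mul_one,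
      sub_self]
  have hvm : v ⬝ᵥ Ωm = 0 := by
    rw [hv, sub_dotProduct, smul_dotProduct, pkg2_disj hw h.sm, pkg2_disj h.sp h.sm, smul_zero,
      sub_zero]
  have hn : nrm v ≤ nrm w := by
    unfold nrm
    refine Real.sqrt_le_sqrt ?_
    rw [hwv]
    simp only [add_dotProduct, dotProduct_add, smul_dotProduct, dotProduct_smul, hvp,
      dotProduct_comm Ωp v, h.np, smul_eq_mul]
    nlinarith [mul_self_nonneg c]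
  have hpw : ∀ b : ℕ, (T ^ b) *ᵥ Ωp = lp ^ b • Ωp := by
    intro b
    induction b with
    | zero => simp
    | succ b ih =>
      rw [pow_succ', ← Matrix.mulVec_mulVec, ih, Matrix.mulVec_smul, h.ep, smul_smul, pow_succ]
  have hind : ∀ b : ℕ, ((T ^ b) *ᵥ v) ⬝ᵥ Ωp = 0 ∧ ((T ^ b) *ᵥ v) ⬝ᵥ Ωm = 0 ∧
      nrm ((T ^ b) *ᵥ v) ≤ (θ * lam) ^ b * nrm v := by
    intro b
    induction b with
    | zero => simp [hvp, hvm]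
    | succ b ih =>
      obtain ⟨i1, i2, i3⟩ := ih
      rw [pow_succ', ← Matrix.mulVec_mulVec]
      refine ⟨?_, ?_, ?_⟩
      · rw [← pkg2_symm hT, h.ep, dotProduct_smul, i1, smul_zero]
      · rw [← pkg2_symm hT, h.em, dotProduct_smul, i2, smul_zero]
      · refine (h.gap _ i1 i2).trans ?_
        rw [pow_succ', mul_assoc (θ * lam)]
        exact mul_le_mul_of_nonneg_left i3 hθ
  have e : (T ^ a) *ᵥ w - (lp ^ a * c) • Ωp = (T ^ a) *ᵥ v := by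
    rw [hwv, Matrix.mulVec_add, Matrix.mulVec_smul, hpw, smul_smul, mul_comm c]
    abel
  rw [e]
  exact (hind a).2.2.trans (mul_le_mul_of_nonneg_left hn (pow_nonneg hθ a))

theorem ratio_near {G G₀ : Matrix S S ℝ} {Ω et eb' : S → ℝ} {N ε : ℝ} (hN : 0 < N)
    (hΩ : Ω ⬝ᵥ Ω = 1) (hG : ∀ w, nrm (G *ᵥ w) ≤ N * nrm w)
    (hG₀ : ∀ w, nrm (G₀ *ᵥ w) ≤ N * nrm w) (hlow : (1 - ε) * N ≤ Ω ⬝ᵥ (G₀ *ᵥ Ω))
    (het : nrm et ≤ ε) (heb : nrm eb' ≤ ε) (hε : ε ≤ 1 / 10) :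
    0 < (Ω + et) ⬝ᵥ (G₀ *ᵥ (Ω + eb')) ∧
      |((Ω + et) ⬝ᵥ (G *ᵥ (Ω + eb'))) / ((Ω + et) ⬝ᵥ (G₀ *ᵥ (Ω + eb'))) -
        (Ω ⬝ᵥ (G *ᵥ Ω)) / N| ≤ 20 * ε := by
  have h1 := nrm_eq_one hΩ
  have hε0 : 0 ≤ ε := (nrm_nonneg _).trans het
  have a1 := pkg2_pert hN hΩ hG het heb hε
  have a2 := pkg2_pert hN hΩ hG₀ het heb hε
  have a3 := pkg2_bil hG Ω Ω
  have a4 := pkg2_bil hG₀ Ω Ω
  rw [h1, one_mul, mul_one] at a3 a4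
  generalize (Ω + et) ⬝ᵥ (G *ᵥ (Ω + eb')) = X at *
  generalize (Ω + et) ⬝ᵥ (G₀ *ᵥ (Ω + eb')) = D at *
  generalize Ω ⬝ᵥ (G *ᵥ Ω) = Y at *
  generalize Ω ⬝ᵥ (G₀ *ᵥ Ω) = Z at *
  have hεN : 0 ≤ ε * N := mul_nonneg hε0 hN.le
  have hεN' : ε * N ≤ 1 / 10 * N := mul_le_mul_of_nonneg_right hε hN.le
  obtain ⟨b1, b2⟩ := abs_le.1 a2
  obtain ⟨b3, b4⟩ := abs_le.1 a4
  have hD : N / 2 ≤ D := by nlinarith
  have hD0 : 0 < D := by linarith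
  refine ⟨hD0, ?_⟩
  have hND : |N - D| ≤ 4 * (ε * N) := abs_le.2 ⟨by nlinarith, by nlinarith⟩
  have e : X / D - Y / N = ((X - Y) * N + Y * (N - D)) / (D * N) := by
    field_simp
    ring
  rw [e, abs_div, abs_of_pos (mul_pos hD0 hN), div_le_iff₀ (mul_pos hD0 hN)]
  have c1 : |(X - Y) * N| ≤ 21 / 10 * ε * N * N := by
    rw [abs_mul, abs_of_pos hN]
    exact mul_le_mul_of_nonneg_right a1 hN.le
  have c2 : |Y * (N - D)| ≤ N * (4 * (ε * N)) := by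
    rw [abs_mul]
    exact mul_le_mul a3 hND (abs_nonneg _) hN.le
  have c3 := abs_add_le ((X - Y) * N) (Y * (N - D))
  have c4 : ε * N * (N / 2) ≤ ε * N * D := mul_le_mul_of_nonneg_left hD hεN
  have c5 : 0 ≤ ε * N * N := mul_nonneg hεN hN.le
  nlinarith

end Pool.Agent.TAF
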