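import Pool.Agent.P.MP_cb4022_pr.Itw
import Pool.Agent.P.MP_cb4022_pr.ModeR
import Pool.Agent.P.MP_cb4022_pr.ModeL
import Pool.Agent.P.MP_cb4022_pr.ChainDom
import Pool.Agent.P.MP_cb4022_pr.Pkg2
import Pool.Agent.P.MP_cb4022_pr.T1b

open scoped Classical Matrix
open Finset

noncomputable section

namespace Pool.Agent.TAF

/-- An approximate zero mode: `χ₀ = gam p₀ r₀` on even rows, `χ₁ = gam p₁ r₁` on odd rows. -/
structure EdgeMode (n : ℕ) (y : ℝ) (p₀ r₀ p₁ r₁ pe re : ℕ → ℝ) : Prop where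
  orth : (gam n p₀ r₀)ᵀ * gam n p₀ r₀ = 1
  up : T1 n y * gam n p₀ r₀ - gam n p₁ r₁ * T1 n y = gam n pe re * T1 n y
  down : (T1 n y)ᵀ * gam n p₁ r₁ - gam n p₀ r₀ * (T1 n y)ᵀ = (T1 n y)ᵀ * gam n pe re

def cutLt (i : ℕ) (u : ℕ → ℝ) : ℕ → ℝ := fun j => if j < i then u j else 0
def cutGe (i : ℕ) (u : ℕ → ℝ) : ℕ → ℝ := fun j => if i ≤ j then u j else 0

theorem edge_geom {q : ℝ} (hq0 : 0 < q) (hq : q < 1) :
    ∃ K q' : ℝ, 0 < K ∧ q ≤ q' ∧ q' < 1 ∧ ∀ n : ℕ, (n + 1 : ℝ) * q ^ n ≤ K * q' ^ n := by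
  set q' := (1 + q) / 2 with hq'
  have hq'0 : 0 < q' := by positivity
  have hr0 : 0 < q / q' := by positivity
  have hr : q / q' < 1 := by rw [div_lt_one hq'0]; linarith
  have ht := tendsto_self_mul_const_pow_of_lt_one hr0.le hr
  obtain ⟨B, hB⟩ := ht.bddAbove_range
  refine ⟨B + 1, q', ?_, by linarith, by linarith, fun n => ?_⟩
  · have := hB ⟨0, rfl⟩
    simp at this
    linarith
  · have h1 : (n : ℝ) * (q / q') ^ n ≤ B := hB ⟨n, rfl⟩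
    have h2 : (q / q') ^ n ≤ 1 := pow_le_one₀ hr0.le hr.le
    have h3 : q ^ n = (q / q') ^ n * q' ^ n := by rw [← mul_pow]; congr 1; field_simp
    rw [h3]
    have h4 : 0 < q' ^ n := by positivity
    nlinarith

theorem l1_nonneg (n : ℕ) (u : ℕ → ℝ) : 0 ≤ l1 n u := sum_nonneg fun _ _ => abs_nonneg _

theorem l1_zero (n : ℕ) : l1 n 0 = 0 := by simp [l1]

theorem l1_le_const {n : ℕ} {u : ℕ → ℝ} {B : ℝ} (h : ∀ j ≤ n, |u j| ≤ B) :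
    l1 n u ≤ (n + 1) * B := by
  have : l1 n u ≤ ∑ _j ∈ range (n + 1), B :=
    sum_le_sum fun j hj => h j (by simpa [Nat.lt_succ_iff] using hj)
  simpa using this

theorem geom_le {q : ℝ} (hq0 : 0 < q) (hq : q < 1) (N : ℕ) :
    ∑ j ∈ range N, q ^ j ≤ (1 - q)⁻¹ := by
  rw [← tsum_geometric_of_lt_one hq0.le hq]
  exact (summable_geometric_of_lt_one hq0.le hq).sum_le_tsum _ fun _ _ => by positivity

theorem l1_cutGe {n i : ℕ} {u : ℕ → ℝ} {K q : ℝ} (hK : 0 < K) (hq0 : 0 < q) (hq : q < 1)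
    (h : ∀ j ≤ n, |u j| ≤ K * q ^ j) : l1 n (cutGe i u) ≤ K * (1 - q)⁻¹ * q ^ i := by
  have h1 : l1 n (cutGe i u) ≤ ∑ j ∈ range (n + 1), if i ≤ j then K * q ^ j else 0 := by
    refine sum_le_sum fun j hj => ?_
    unfold cutGe
    split_ifs
    · exact h j (by simpa [Nat.lt_succ_iff] using hj)
    · simp
  refine h1.trans ?_
  rw [← sum_filter]
  have h2 : (range (n + 1)).filter (fun j => i ≤ j) = Ico i (n + 1) := by
    ext j; simp; omega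
  rw [h2, sum_Ico_eq_sum_range]
  have h3 : ∑ k ∈ range (n + 1 - i), K * q ^ (i + k) =
      K * q ^ i * ∑ k ∈ range (n + 1 - i), q ^ k := by
    rw [mul_sum]; refine sum_congr rfl fun k _ => ?_; rw [pow_add]; ring
  rw [h3]
  have := geom_le hq0 hq (n + 1 - i)
  have h4 : 0 < K * q ^ i := by positivity
  nlinarith

theorem l1_cutLt {n i : ℕ} (hi : i ≤ n) {u : ℕ → ℝ} {K q : ℝ} (hK : 0 < K) (hq0 : 0 < q)
    (hq : q < 1) (h : ∀ j ≤ n, |u j| ≤ K * q ^ (n - j)) :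
    l1 n (cutLt i u) ≤ K * (1 - q)⁻¹ * q ^ (n - i) := by
  have h0 : l1 n (cutLt i u) ≤ l1 n (cutGe (n - i) fun j => u (n - j)) := by
    unfold l1
    rw [← sum_range_reflect]
    refine sum_le_sum fun j hj => ?_
    have hj' : j ≤ n := by simpa [Nat.lt_succ_iff] using hj
    unfold cutLt cutGe
    have e : n + 1 - 1 - j = n - j := by omega
    rw [e]
    split_ifs with h1 h2
    · exact le_rfl
    · omega
    · simp
    · simp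
  refine h0.trans (l1_cutGe hK hq0 hq fun j hj => ?_)
  have := h (n - j) (by omega)
  rwa [show n - (n - j) = j by omega] at this

theorem one_le_ss {n i : ℕ} (hi : i ≤ n) {u : ℕ → ℝ} (h : u i = 1) : 1 ≤ ss n u := by
  have : u i ^ 2 ≤ ss n u :=
    single_le_sum (f := fun j => u j ^ 2) (fun _ _ => sq_nonneg _) (by simp; omega)
  simpa [h] using this

theorem abs_scale {N x B : ℝ} (hN : 1 ≤ N) (h : |x| ≤ B) : |N⁻¹ * x| ≤ B := by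
  have h0 : 0 < N := by linarith
  rw [abs_mul, abs_of_pos (inv_pos.2 h0)]
  have : N⁻¹ ≤ 1 := inv_le_one_of_one_le₀ hN
  have h2 := abs_nonneg x
  nlinarith

theorem exists_edgeR {y : ℝ} (hy : 1 < y) : ∃ K q : ℝ, 0 < K ∧ 0 < q ∧ q < 1 ∧ ∀ n, 1 ≤ n →
    ∃ p₀ r₀ p₁ r₁ pe re, EdgeMode n y p₀ r₀ p₁ r₁ pe re ∧ l1 n pe + l1 n re ≤ K * q ^ n ∧
      ∀ i ≤ n, l1 n (cutLt i p₀) + l1 n (cutLt i r₀) ≤ K * q ^ (n - i) ∧
        l1 n (cutLt i p₁) + l1 n (cutLt i r₁) ≤ K * q ^ (n - i) := by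
  obtain ⟨K, q, hK, hq0, hq, h⟩ := modeR hy
  obtain ⟨K', q', hK', hqq, hq', hg⟩ := edge_geom hq0 hq
  have hiq : 0 < (1 - q)⁻¹ := inv_pos.2 (by linarith)
  refine ⟨K * K' + K * (1 - q)⁻¹, q', by positivity, by linarith, hq', fun n hn => ?_⟩
  obtain ⟨v, hv1, hv, hrel⟩ := h n hn
  obtain ⟨u', v', hi, hr⟩ := exists_itw (n := n) hy 0 v
  have hb := hrel u' v' hr
  have hs := one_le_ss le_rfl hv1
  set N := √(ss n v) with hN
  have hN1 : 1 ≤ N := by rw [hN]; exact Real.one_le_sqrt.2 hs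
  have hN2 : N * N = ss n v := Real.mul_self_sqrt (by linarith)
  have e0 : (0 : ℕ → ℝ) = N⁻¹ • (0 : ℕ → ℝ) := by simp
  have hq'0 : 0 < q' := by linarith
  have cut0 : ∀ i, cutLt i 0 = 0 := fun i => by funext j; simp [cutLt]
  have hcut : ∀ i ≤ n, ∀ w : ℕ → ℝ, (∀ j ≤ n, |w j| ≤ K * q ^ (n - j)) →
      l1 n (cutLt i 0) + l1 n (cutLt i (N⁻¹ • w)) ≤ (K * K' + K * (1 - q)⁻¹) * q' ^ (n - i) := by
    intro i hi w hw
    rw [cut0, l1_zero, zero_add]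
    have h1 := l1_cutLt hi hK hq0 hq (u := N⁻¹ • w) fun j hj => abs_scale hN1 (hw j hj)
    have h2 : q ^ (n - i) ≤ q' ^ (n - i) := pow_le_pow_left₀ hq0.le hqq _
    have h3 : 0 < K * K' * q' ^ (n - i) := by positivity
    have h4 : 0 < K * (1 - q)⁻¹ := by positivity
    nlinarith
  refine ⟨0, N⁻¹ • v, 0, N⁻¹ • v', N⁻¹ • u', 0, ⟨?_, ?_, ?_⟩, ?_, fun i hi =>
    ⟨hcut i hi v hv, hcut i hi v' fun j hj => (hb j hj).1⟩⟩
  · rw [e0, gam_smul, Matrix.transpose_smul, smul_mul_smul_comm, gamB_orth, smul_smul, ← hN2]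
    have : N⁻¹ * N⁻¹ * (N * N) = 1 := by field_simp
    rw [this, one_smul]
  · have := hi.smul N⁻¹
    unfold Itw at this
    rw [← e0, gam_split n (N⁻¹ • u')] at this
    rw [this, add_mul]; abel
  · have := (hi.smul N⁻¹).tr
    rw [← e0, gam_split n (N⁻¹ • u')] at this
    have g1 : ∀ w : ℕ → ℝ, gam n 0 (-w) = -gam n 0 w := fun w => by
      have := gam_smul n (-1) 0 w
      simpa using this
    rw [g1, g1, mul_add, mul_neg, neg_mul] at this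
    rw [sub_eq_iff_eq_add, ← neg_neg (gam n 0 (N⁻¹ • v) * (T1 n y)ᵀ), ← this]; abel
  · rw [l1_zero, add_zero]
    have h1 : l1 n (N⁻¹ • u') ≤ (n + 1) * (K * q ^ n) :=
      l1_le_const fun j hj => abs_scale hN1 (hb j hj).2
    have h2 := hg n
    have h3 : 0 < K * (1 - q)⁻¹ * q' ^ n := by positivity
    nlinarith

theorem exists_edgeL {y : ℝ} (hy : 1 < y) : ∃ K q : ℝ, 0 < K ∧ 0 < q ∧ q < 1 ∧ ∀ n, 1 ≤ n →
    ∃ p₀ r₀ p₁ r₁ pe re, EdgeMode n y p₀ r₀ p₁ r₁ pe re ∧ l1 n pe + l1 n re ≤ K * q ^ n ∧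
      ∀ i, l1 n (cutGe i p₀) + l1 n (cutGe i r₀) ≤ K * q ^ i ∧
        l1 n (cutGe i p₁) + l1 n (cutGe i r₁) ≤ K * q ^ i := by
  obtain ⟨K, q, hK, hq0, hq, h⟩ := modeL hy
  obtain ⟨K', q', hK', hqq, hq', hg⟩ := edge_geom hq0 hq
  have hiq : 0 < (1 - q)⁻¹ := inv_pos.2 (by linarith)
  refine ⟨K * K' + K * (1 - q)⁻¹, q', by positivity, by linarith, hq', fun n hn => ?_⟩
  obtain ⟨u, hu1, hu, hrel⟩ := h n hn
  obtain ⟨u', v', hi, hr⟩ := exists_itw (n := n) hy u 0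
  have hb := hrel u' v' hr
  have hs := one_le_ss (Nat.zero_le n) hu1
  set N := √(ss n u) with hN
  have hN1 : 1 ≤ N := by rw [hN]; exact Real.one_le_sqrt.2 hs
  have hN2 : N * N = ss n u := Real.mul_self_sqrt (by linarith)
  have e0 : (0 : ℕ → ℝ) = N⁻¹ • (0 : ℕ → ℝ) := by simp
  have hq'0 : 0 < q' := by linarith
  have cut0 : ∀ i, cutGe i 0 = 0 := fun i => by funext j; simp [cutGe]
  have hcut : ∀ i, ∀ w : ℕ → ℝ, (∀ j ≤ n, |w j| ≤ K * q ^ j) →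
      l1 n (cutGe i (N⁻¹ • w)) + l1 n (cutGe i 0) ≤ (K * K' + K * (1 - q)⁻¹) * q' ^ i := by
    intro i w hw
    rw [cut0, l1_zero, add_zero]
    have h1 := l1_cutGe (i := i) hK hq0 hq (u := N⁻¹ • w) fun j hj => abs_scale hN1 (hw j hj)
    have h2 : q ^ i ≤ q' ^ i := pow_le_pow_left₀ hq0.le hqq _
    have h3 : 0 < K * K' * q' ^ i := by positivity
    have h4 : 0 < K * (1 - q)⁻¹ := by positivity
    nlinarith
  refine ⟨N⁻¹ • u, 0, N⁻¹ • u', 0, 0, N⁻¹ • v', ⟨?_, ?_, ?_⟩, ?_, fun i =>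
    ⟨hcut i u hu, hcut i u' fun j hj => (hb j hj).1⟩⟩
  · rw [e0, gam_smul, Matrix.transpose_smul, smul_mul_smul_comm, gamA_orth, smul_smul, ← hN2]
    have : N⁻¹ * N⁻¹ * (N * N) = 1 := by field_simp
    rw [this, one_smul]
  · have := hi.smul N⁻¹
    unfold Itw at this
    rw [← e0, gam_split n (N⁻¹ • u') (N⁻¹ • v')] at this
    rw [this, add_mul]; abel
  · have := (hi.smul N⁻¹).tr
    rw [← e0, gam_split n (N⁻¹ • u') (-(N⁻¹ • v')), neg_zero] at this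
    have g1 : ∀ w : ℕ → ℝ, gam n 0 (-w) = -gam n 0 w := fun w => by
      have := gam_smul n (-1) 0 w
      simpa using this
    rw [g1, mul_add, mul_neg] at this
    rw [← this]; abel
  · rw [l1_zero, zero_add]
    have h1 : l1 n (N⁻¹ • v') ≤ (n + 1) * (K * q ^ n) :=
      l1_le_const fun j hj => abs_scale hN1 (hb j hj).2
    have h2 := hg n
    have h3 : 0 < K * (1 - q)⁻¹ * q' ^ n := by positivity
    nlinarith

section
variable {n : ℕ} {y lam : ℝ} {p₀ r₀ p₁ r₁ pe re : ℕ → ℝ}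

theorem Tk_op (hlam : 0 ≤ lam) (hle : ∀ w, w ⬝ᵥ (TT n y *ᵥ w) ≤ lam * (w ⬝ᵥ w)) (b : ℕ)
    (w : St n → ℝ) : nrm (Tk n y b *ᵥ w) ≤ √lam * nrm w := by
  unfold Tk
  split_ifs
  · exact (op_of_form _ hlam hle w).1
  · exact (op_of_form _ hlam hle w).2

theorem EdgeMode.domUp (hy : 1 < y) (h : EdgeMode n y p₀ r₀ p₁ r₁ pe re) (hlam : 0 ≤ lam)
    (hle : ∀ w, w ⬝ᵥ (TT n y *ᵥ w) ≤ lam * (w ⬝ᵥ w)) {δ : ℝ} (hδ : l1 n pe + l1 n re ≤ δ) :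
    Dom (T1 n y * gam n p₀ r₀ - gam n p₁ r₁ * T1 n y) (δ * √lam) := by
  rw [h.up]
  have h0 : 0 ≤ δ := le_trans (add_nonneg (l1_nonneg _ _) (l1_nonneg _ _)) hδ
  exact ((dom_gam n pe re).mono hδ).mul
    (Dom.of_nonneg (T1_nonneg n hy) fun w => (op_of_form _ hlam hle w).1) h0

theorem EdgeMode.domDown (hy : 1 < y) (h : EdgeMode n y p₀ r₀ p₁ r₁ pe re) (hlam : 0 ≤ lam)
    (hle : ∀ w, w ⬝ᵥ (TT n y *ᵥ w) ≤ lam * (w ⬝ᵥ w)) {δ : ℝ} (hδ : l1 n pe + l1 n re ≤ δ) :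
    Dom ((T1 n y)ᵀ * gam n p₁ r₁ - gam n p₀ r₀ * (T1 n y)ᵀ) (δ * √lam) := by
  rw [h.down, mul_comm δ]
  exact (Dom.of_nonneg (E := (T1 n y)ᵀ) (fun i j => T1_nonneg n hy j i)
    fun w => (op_of_form _ hlam hle w).2).mul ((dom_gam n pe re).mono hδ) (Real.sqrt_nonneg _)

theorem EdgeMode.comm (hy : 1 < y) (h : EdgeMode n y p₀ r₀ p₁ r₁ pe re) (hlam : 0 ≤ lam)
    (hle : ∀ w, w ⬝ᵥ (TT n y *ᵥ w) ≤ lam * (w ⬝ᵥ w)) {δ : ℝ} (hδ : l1 n pe + l1 n re ≤ δ)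
    (w : St n → ℝ) :
    nrm ((TT n y * gam n p₀ r₀ - gam n p₀ r₀ * TT n y) *ᵥ w) ≤ 2 * δ * lam * nrm w := by
  have h0 : 0 ≤ δ := le_trans (add_nonneg (l1_nonneg _ _) (l1_nonneg _ _)) hδ
  have d1 : Dom (T1 n y) √lam := Dom.of_nonneg (T1_nonneg n hy) fun w => (op_of_form _ hlam hle w).1
  have d2 : Dom (T1 n y)ᵀ √lam :=
    Dom.of_nonneg (fun i j => T1_nonneg n hy j i) fun w => (op_of_form _ hlam hle w).2
  have e : TT n y * gam n p₀ r₀ - gam n p₀ r₀ * TT n y =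
      (T1 n y)ᵀ * (T1 n y * gam n p₀ r₀ - gam n p₁ r₁ * T1 n y) +
        ((T1 n y)ᵀ * gam n p₁ r₁ - gam n p₀ r₀ * (T1 n y)ᵀ) * T1 n y := by
    unfold TT; noncomm_ring
  have := ((d2.mul (h.domUp hy hlam hle hδ) (Real.sqrt_nonneg _)).add
    ((h.domDown hy hlam hle hδ).mul d1 (by positivity))).op w
  rw [e]
  refine this.trans (le_of_eq ?_)
  have hs : √lam * √lam = lam := Real.mul_self_sqrt hlam
  have : √lam * (δ * √lam) + δ * √lam * √lam = 2 * δ * (√lam * √lam) := by ring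
  rw [this, hs]

theorem EdgeMode.swap {C : Type} (hy : 1 < y) (h : EdgeMode n y p₀ r₀ p₁ r₁ pe re)
    (hlam : 0 < lam) (hle : ∀ w, w ⬝ᵥ (TT n y *ᵥ w) ≤ lam * (w ⬝ᵥ w)) {δ : ℝ}
    (hδ : l1 n pe + l1 n re ≤ δ) {θ δ₀ lp lm : ℝ} {Ωp Ωm : St n → ℝ}
    (hP : Pack (TT n y) par lam θ δ₀ Ωp Ωm lp lm) (hθ : θ < 1) (hδ₀ : δ₀ ≤ (1 - θ) / 2)
    (lab : St n → C) (ι : C → C) (cut : (ℕ → ℝ) → ℕ → ℝ) (near : ℕ → Prop)
    (hcut : ∀ u j, (u - cut u) j ≠ 0 → near j)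
    (hnear : ∀ j σ, near j → lab (flipFrom j σ) = ι (lab σ)) {η : ℝ}
    (h0 : l1 n (cut p₀) + l1 n (cut r₀) ≤ η) (h1 : l1 n (cut p₁) + l1 n (cut r₁) ≤ η)
    (m b : ℕ) (hb : Even b) (f : List C → ℝ) (hf : ∀ l, |f l| ≤ 1) :
    |Ωm ⬝ᵥ (chain (Tk n y) lab (2 * m) b f *ᵥ Ωm) -
        Ωp ⬝ᵥ (chain (Tk n y) lab (2 * m) b (fun l => f (l.map ι)) *ᵥ Ωp)| ≤
      (2 * m * (δ + 2 * η) + 16 * δ / (1 - θ)) * lam ^ m := by
  have hδ0 : 0 ≤ δ := le_trans (add_nonneg (l1_nonneg _ _) (l1_nonneg _ _)) hδ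
  have hη0 : 0 ≤ η := le_trans (add_nonneg (l1_nonneg _ _) (l1_nonneg _ _)) h0
  set χ : ℕ → Matrix (St n) (St n) ℝ := fun b => if Even b then gam n p₀ r₀ else gam n p₁ r₁
    with hχ
  set χf : ℕ → Matrix (St n) (St n) ℝ := fun b =>
    if Even b then gam n (cut p₀) (cut r₀) else gam n (cut p₁) (cut r₁) with hχf
  have hpow : √lam ^ (2 * m) = lam ^ m := by rw [pow_mul, Real.sq_sqrt hlam.le]
  have key := chain_itw (T := Tk n y) (Tk_nonneg n hy) (Real.sqrt_nonneg lam)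
    (Tk_op hlam.le hle) lab ι χ χf hδ0 hη0 ?_ ?_ ?_ (2 * m) b f hf Ωp
  rotate_left
  · intro b
    simp only [hχf]
    split_ifs
    · exact (dom_gam n _ _).mono h0
    · exact (dom_gam n _ _).mono h1
  · intro b i j hij
    have aux : ∀ p r : ℕ → ℝ, (gam n p r - gam n (cut p) (cut r)) i j ≠ 0 → lab i = ι (lab j) := by
      intro p r hne
      rw [← gam_sub] at hne
      obtain ⟨k, -, hk, rfl⟩ := gam_ne_zero hne
      exact hnear k j (hk.elim (hcut _ _) (hcut _ _))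
    simp only [hχ, hχf] at hij
    split_ifs at hij
    · exact aux _ _ hij
    · exact aux _ _ hij
  · intro b
    simp only [hχ, Tk, Nat.even_add_one]
    by_cases hb : Even b
    · simp only [hb, if_true, not_true, if_false]
      exact h.domUp hy hlam.le hle hδ
    · simp only [hb, if_false, not_false_iff, if_true]
      exact h.domDown hy hlam.le hle hδ
  have hb2 : Even (b + 2 * m) := hb.add (even_two_mul m)
  simp only [hχ, hb, hb2, if_true] at key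
  rw [hpow, nrm_eq_one hP.np, mul_one] at key
  obtain ⟨ε, hε, hs⟩ := hP.swap (TT_transpose n y) hlam hθ hδ₀ (gam n p₀ r₀) h.orth
    (fun i j hij => gam_par n _ _ i j hij) (δ' := 2 * δ) (by positivity)
    (h.comm hy hlam.le hle hδ)
  set G := chain (Tk n y) lab (2 * m) b f with hG
  set G' := chain (Tk n y) lab (2 * m) b (fun l => f (l.map ι)) with hG'
  set c := gam n p₀ r₀ with hc
  set φ := c *ᵥ Ωp with hφ
  have hGop : ∀ w, nrm (G *ᵥ w) ≤ lam ^ m * nrm w := fun w => by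
    rw [← hpow]
    exact chain_op (Tk_nonneg n hy) (Real.sqrt_nonneg lam) (Tk_op hlam.le hle) lab _ _ hf w
  have hcw : ∀ w, φ ⬝ᵥ (c *ᵥ w) = Ωp ⬝ᵥ w := fun w => by
    rw [hφ, Matrix.dotProduct_mulVec, Matrix.vecMul_mulVec, h.orth, Matrix.vecMul_one]
  have hφ1 : nrm φ = 1 := nrm_eq_one (by rw [hφ] at hcw ⊢; rw [hcw, hP.np])
  have hε2 : ε * ε = 1 := by rcases hε with rfl | rfl <;> norm_num
  have hεa : |ε| = 1 := by rcases hε with rfl | rfl <;> norm_num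
  have hm1 : nrm (ε • Ωm) = 1 := by rw [nrm_smul, hεa, nrm_eq_one hP.nm, one_mul]
  have e1 : Ωm ⬝ᵥ (G *ᵥ Ωm) = (ε • Ωm) ⬝ᵥ (G *ᵥ (ε • Ωm)) := by
    rw [Matrix.mulVec_smul, smul_dotProduct, dotProduct_smul, smul_eq_mul, smul_eq_mul,
      ← mul_assoc, hε2, one_mul]
  have e2 : Ωm ⬝ᵥ (G *ᵥ Ωm) - Ωp ⬝ᵥ (G' *ᵥ Ωp) =
      φ ⬝ᵥ ((G * c - c * G') *ᵥ Ωp) - (φ - ε • Ωm) ⬝ᵥ (G *ᵥ φ) -
        (ε • Ωm) ⬝ᵥ (G *ᵥ (φ - ε • Ωm)) := by
    rw [e1, Matrix.sub_mulVec, dotProduct_sub, ← Matrix.mulVec_mulVec, ← Matrix.mulVec_mulVec,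
      hcw, ← hφ, Matrix.mulVec_sub, dotProduct_sub, sub_dotProduct]
    ring
  have b1 := abs_dot_le φ ((G * c - c * G') *ᵥ Ωp)
  have b2 := abs_dot_le (φ - ε • Ωm) (G *ᵥ φ)
  have b3 := abs_dot_le (ε • Ωm) (G *ᵥ (φ - ε • Ωm))
  have b4 := hGop φ
  have b5 := hGop (φ - ε • Ωm)
  rw [hφ1] at b1 b4
  rw [hm1] at b3
  have hL : 0 < lam ^ m := by positivity
  have hn0 := nrm_nonneg (φ - ε • Ωm)
  have hρ : 4 * (2 * δ) / (1 - θ) = 8 * δ / (1 - θ) := by ring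
  have hρ2 : 16 * δ / (1 - θ) = 2 * (8 * δ / (1 - θ)) := by ring
  rw [hρ] at hs
  rw [e2, hρ2]
  have c2 : |(φ - ε • Ωm) ⬝ᵥ (G *ᵥ φ)| ≤ 8 * δ / (1 - θ) * lam ^ m := by
    refine b2.trans ?_
    exact mul_le_mul hs (by linarith) (nrm_nonneg _) (hn0.trans hs)
  have c3 : |(ε • Ωm) ⬝ᵥ (G *ᵥ (φ - ε • Ωm))| ≤ 8 * δ / (1 - θ) * lam ^ m := by
    refine b3.trans ?_
    nlinarith
  have c1 : |φ ⬝ᵥ ((G * c - c * G') *ᵥ Ωp)| ≤ 2 * m * (δ + 2 * η) * lam ^ m := by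
    refine b1.trans ?_
    push_cast at key
    linarith
  have t1 := abs_sub (φ ⬝ᵥ ((G * c - c * G') *ᵥ Ωp) - (φ - ε • Ωm) ⬝ᵥ (G *ᵥ φ))
    ((ε • Ωm) ⬝ᵥ (G *ᵥ (φ - ε • Ωm)))
  have t2 := abs_sub (φ ⬝ᵥ ((G * c - c * G') *ᵥ Ωp)) ((φ - ε • Ωm) ⬝ᵥ (G *ᵥ φ))
  nlinarith

end

end Pool.Agent.TAF
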