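import Pool.Agent.P.MP_cb4022_pr.Defs
import Pool.Agent.P.MP_cb4022_pr.Gam

open scoped Classical Matrix
open Finset

noncomputable section

namespace Pool.Agent.TAF

namespace GatesAux

theorem gate {A : Type} [Ring A] [Algebra ℝ A] {m m' G : A} {e : ℝ} (h1 : m * m = e • (1 : A))
    (h2 : m' * m' = (-e) • (1 : A)) (h3 : m * m' + m' * m = 0) (hG : G * m + m * G = 0)
    (hG' : G * m' + m' * G = 0) {a b p q p' q' : ℝ} (hp : a * p - e * b * q = a * p' + e * b * q')
    (hq : a * q - e * b * p = a * q' + e * b * p') :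
    (a • (1 : A) + b • (m * m')) * (G + p • m + q • m') =
      (G + p' • m + q' • m') * (a • (1 : A) + b • (m * m')) := by
  have k3 : m' * m = -(m * m') := eq_neg_of_add_eq_zero_right h3
  have kG : m * G = -(G * m) := eq_neg_of_add_eq_zero_right hG
  have kG' : m' * G = -(G * m') := eq_neg_of_add_eq_zero_right hG'
  have e1 : m * m' * G = G * (m * m') := by
    rw [mul_assoc, kG', mul_neg, ← mul_assoc, kG, neg_mul, neg_neg, mul_assoc]
  have e2 : m * m' * m = (-e) • m' := by
    rw [mul_assoc, k3, mul_neg, ← mul_assoc, h1, smul_mul_assoc, one_mul, neg_smul]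
  have e3 : m * m' * m' = (-e) • m := by
    rw [mul_assoc, h2, mul_smul_comm, mul_one]
  have e4 : m * (m * m') = e • m' := by
    rw [← mul_assoc, h1, smul_mul_assoc, one_mul]
  have e5 : m' * (m * m') = e • m := by
    rw [← mul_assoc, k3, neg_mul, e3, neg_smul, neg_neg]
  simp only [add_mul, mul_add, smul_mul_assoc, mul_smul_comm, one_mul, mul_one, e1, e2, e3, e4, e5]
  linear_combination (norm := module) hp • m + hq • m'

theorem gam_mA {n j : ℕ} (hj : j ≤ n) (u v : ℕ → ℝ) (h : u j = 0) :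
    gam n u v * mA n j + mA n j * gam n u v = 0 := by
  rw [gam, sum_mul, mul_sum, ← sum_add_distrib]
  refine sum_eq_zero fun k hk => ?_
  have hk' : k ≤ n := Nat.lt_succ_iff.1 (mem_range.1 hk)
  have e1 := mA_mA hk' hj
  have e2 := mA_mB hj hk'
  have e3 : u k • (mA n k * mA n j + mA n j * mA n k) = 0 := by
    rw [e1]
    by_cases e : k = j
    · rw [e, h, zero_smul]
    · rw [if_neg e, zero_smul, smul_zero]
  simp only [add_mul, mul_add, smul_mul_assoc, mul_smul_comm]
  linear_combination (norm := module) e3 + v k • e2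

theorem gam_mB {n j : ℕ} (hj : j ≤ n) (u v : ℕ → ℝ) (h : v j = 0) :
    gam n u v * mB n j + mB n j * gam n u v = 0 := by
  rw [gam, sum_mul, mul_sum, ← sum_add_distrib]
  refine sum_eq_zero fun k hk => ?_
  have hk' : k ≤ n := Nat.lt_succ_iff.1 (mem_range.1 hk)
  have e1 := mB_mB hk' hj
  have e2 := mA_mB hk' hj
  have e3 : v k • (mB n k * mB n j + mB n j * mB n k) = 0 := by
    rw [e1]
    by_cases e : k = j
    · rw [e, h, zero_smul]
    · rw [if_neg e, zero_smul, smul_zero]
  simp only [add_mul, mul_add, smul_mul_assoc, mul_smul_comm]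
  linear_combination (norm := module) e3 + u k • e2

theorem gam_upd {n i j : ℕ} (hi : i ≤ n) (hj : j ≤ n) (u v : ℕ → ℝ) (p q : ℝ) :
    gam n (Function.update u i p) (Function.update v j q) =
      gam n (Function.update u i 0) (Function.update v j 0) + p • mA n i + q • mB n j := by
  have e1 : p • mA n i = ∑ k ∈ range (n + 1), if k = i then p • mA n i else 0 := by
    rw [sum_ite_eq', if_pos (mem_range.2 (Nat.lt_succ_iff.2 hi))]
  have e2 : q • mB n j = ∑ k ∈ range (n + 1), if k = j then q • mB n j else 0 := by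
    rw [sum_ite_eq', if_pos (mem_range.2 (Nat.lt_succ_iff.2 hj))]
  rw [e1, e2, gam, gam, ← sum_add_distrib, ← sum_add_distrib]
  refine sum_congr rfl fun k _ => ?_
  have e3 : Function.update u i p k • mA n k =
      Function.update u i 0 k • mA n k + if k = i then p • mA n i else 0 := by
    by_cases e : k = i
    · rw [e, if_pos rfl, Function.update_self, Function.update_self, zero_smul, zero_add]
    · rw [if_neg e, Function.update_of_ne e, Function.update_of_ne e, add_zero]
  have e4 : Function.update v j q k • mB n k =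
      Function.update v j 0 k • mB n k + if k = j then q • mB n j else 0 := by
    by_cases e : k = j
    · rw [e, if_pos rfl, Function.update_self, Function.update_self, zero_smul, zero_add]
    · rw [if_neg e, Function.update_of_ne e, Function.update_of_ne e, add_zero]
  rw [e3, e4]
  abel

theorem gam_cut {n i j : ℕ} (hi : i ≤ n) (hj : j ≤ n) (u v : ℕ → ℝ) : gam n u v =
    gam n (Function.update u i 0) (Function.update v j 0) + u i • mA n i + v j • mB n j := by
  rw [← gam_upd hi hj, Function.update_eq_self, Function.update_eq_self]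

theorem mA_sq {n j : ℕ} (hj : j ≤ n) : mA n j * mA n j = (1 : ℝ) • 1 := by
  have e := mA_mA hj hj
  rw [if_pos rfl] at e
  linear_combination (norm := module) (1 / 2 : ℝ) • e

theorem mB_sq {n j : ℕ} (hj : j ≤ n) : mB n j * mB n j = (-1 : ℝ) • 1 := by
  have e := mB_mB hj hj
  rw [if_pos rfl] at e
  linear_combination (norm := module) (1 / 2 : ℝ) • e

theorem wt_ne {t : ℝ} (ht : t ≠ 0) (a b : Bool) : wt t a b ≠ 0 := by
  unfold wt
  split_ifs
  · exact one_ne_zero
  · exact ht

theorem diag_unit {n : ℕ} {d : St n → ℝ} (h : ∀ σ, d σ ≠ 0) : IsUnit (Matrix.diagonal d) := by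
  rw [Matrix.isUnit_iff_isUnit_det, Matrix.det_diagonal]
  exact (prod_ne_zero_iff.2 fun σ _ => h σ).isUnit

end GatesAux

open GatesAux

theorem gV_eq {n j : ℕ} (hj : j ≤ n) (t : ℝ) :
    gV n t j = ((t + 1) / 2) • (1 : Matrix (St n) (St n) ℝ) + ((t - 1) / 2) • (mA n j * mB n j) := by
  have e : mA n j * mB n j = -(sig n j * sig n (j + 1)) := by
    rw [mA, mB, Matrix.mul_assoc, ← Matrix.mul_assoc (Phi n j), Phi_sig,
      if_pos ⟨Nat.lt_succ_self j, Nat.succ_le_succ hj⟩, smul_mul_assoc, Matrix.mul_assoc,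
      Phi_mul_self, Matrix.mul_one, neg_one_smul, mul_neg]
  rw [e, sig, sig, Matrix.diagonal_mul_diagonal, gV]
  ext σ' σ
  by_cases h : σ' = σ
  · subst h
    simp only [Matrix.diagonal_apply_eq, Matrix.add_apply, Matrix.smul_apply, Matrix.neg_apply,
      Matrix.one_apply_eq, smul_eq_mul]
    cases slot σ' j <;> cases slot σ' (j + 1) <;> simp [wt, sg] <;> ring
  · simp [h]

theorem gU_eq {n i : ℕ} (hi : i < n) (x : ℝ) : gU n x i = 1 - x • (mB n i * mA n (i + 1)) := by
  have e : mB n i * mA n (i + 1) = -(Phi n i * Phi n (i + 1)) := by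
    rw [mA, mB, Matrix.mul_assoc, ← Matrix.mul_assoc (Phi n i), Phi_sig,
      if_pos ⟨Nat.lt_succ_self i, Nat.succ_le_succ hi.le⟩, smul_mul_assoc, neg_one_smul, mul_neg,
      Matrix.mul_assoc, ← Matrix.mul_assoc (sig n (i + 1)), sig_mul_self, Matrix.one_mul]
  rw [e, gU, smul_neg, sub_neg_eq_add]

theorem gV_gam {n j : ℕ} (hj : j ≤ n) {t : ℝ} (ht : t ≠ 0) (u v : ℕ → ℝ) :
    gV n t j * gam n u v =
      gam n (Function.update u j ((t ^ 2 + 1) / (2 * t) * u j - (t ^ 2 - 1) / (2 * t) * v j))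
        (Function.update v j ((t ^ 2 + 1) / (2 * t) * v j - (t ^ 2 - 1) / (2 * t) * u j)) *
        gV n t j := by
  rw [gam_upd hj hj, gam_cut hj hj u v, gV_eq hj]
  refine gate (e := 1) (mA_sq hj) (mB_sq hj) (mA_mB hj hj)
    (gam_mA hj _ _ (Function.update_self _ _ _)) (gam_mB hj _ _ (Function.update_self _ _ _)) ?_ ?_
  · field_simp
    ring
  · field_simp
    ring

theorem gU_gam {n i : ℕ} (hi : i < n) {x : ℝ} (hx : x ^ 2 ≠ 1) (u v : ℕ → ℝ) :
    gU n x i * gam n u v =
      gam n (Function.update u (i + 1) ((-(x ^ 2 + 1) * u (i + 1) + 2 * x * v i) / (x ^ 2 - 1)))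
        (Function.update v i ((-(x ^ 2 + 1) * v i + 2 * x * u (i + 1)) / (x ^ 2 - 1))) *
        gU n x i := by
  have h0 : x ^ 2 - 1 ≠ 0 := sub_ne_zero.2 hx
  have e : gU n x i = (1 : ℝ) • 1 + (-x) • (mB n i * mA n (i + 1)) := by
    rw [gU_eq hi, one_smul, neg_smul, sub_eq_add_neg]
  rw [gam_upd hi hi.le, gam_cut hi hi.le u v, e, add_right_comm _ (u (i + 1) • mA n (i + 1)),
    add_right_comm _ (_ • mA n (i + 1)) (_ • mB n i)]
  refine gate (e := -1) (mB_sq hi.le) (by rw [neg_neg]; exact mA_sq hi)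
    ((add_comm _ _).trans (mA_mB hi hi.le)) (gam_mB hi.le _ _ (Function.update_self _ _ _))
    (gam_mA hi _ _ (Function.update_self _ _ _)) ?_ ?_
  · field_simp
    ring
  · field_simp
    ring

theorem gH_gam (n : ℕ) {y : ℝ} (hy : y ≠ 0) (u v : ℕ → ℝ) :
    gH n y * gam n u v = gam n (inn y u v) (inn y v u) * gH n y := by
  have key : ∀ m ≤ n + 1,
      (Matrix.diagonal fun σ : St n => ∏ j ∈ range m, wt y (slot σ j) (slot σ (j + 1))) *
        gam n u v = gam n (fun j => if j < m then inn y u v j else u j)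
          (fun j => if j < m then inn y v u j else v j) *
        Matrix.diagonal fun σ : St n => ∏ j ∈ range m, wt y (slot σ j) (slot σ (j + 1)) := by
    intro m
    induction m with
    | zero => simp
    | succ m ih =>
      intro hm
      have hm' : m ≤ n := Nat.succ_le_succ_iff.1 hm
      have e : (Matrix.diagonal fun σ : St n =>
          ∏ j ∈ range (m + 1), wt y (slot σ j) (slot σ (j + 1))) = gV n y m *
          Matrix.diagonal fun σ : St n => ∏ j ∈ range m, wt y (slot σ j) (slot σ (j + 1)) := by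
        rw [gV, Matrix.diagonal_mul_diagonal]
        simp only [prod_range_succ, mul_comm]
      rw [e, Matrix.mul_assoc, ih (Nat.le_of_succ_le hm), ← Matrix.mul_assoc, gV_gam hm' hy,
        Matrix.mul_assoc]
      refine congrArg (· * _) (gam_congr (fun j _ => ?_) fun j _ => ?_)
      · by_cases h : j = m
        · simp [h, inn, ch, sh]
        · simp [h, le_iff_lt_or_eq]
      · by_cases h : j = m
        · simp [h, inn, ch, sh]
        · simp [h, le_iff_lt_or_eq]
  refine (key (n + 1) le_rfl).trans (congrArg (· * _) (gam_congr (fun j hj => ?_) fun j hj => ?_))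
  · exact if_pos (Nat.lt_succ_iff.2 hj)
  · exact if_pos (Nat.lt_succ_iff.2 hj)

theorem gV_unit (n j : ℕ) {t : ℝ} (ht : t ≠ 0) : IsUnit (gV n t j) := 
  diag_unit fun _ => wt_ne ht _ _

theorem gH_unit (n : ℕ) {t : ℝ} (ht : t ≠ 0) : IsUnit (gH n t) := 
  diag_unit fun _ => prod_ne_zero_iff.2 fun _ _ => wt_ne ht _ _

theorem gU_unit (n i : ℕ) {x : ℝ} (hx : x ^ 2 ≠ 1) : IsUnit (gU n x i) := by
  have h0 : 1 - x ^ 2 ≠ 0 := sub_ne_zero.2 hx.symm
  have e : Phi n i * Phi n (i + 1) * (Phi n i * Phi n (i + 1)) = 1 := by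
    rw [Phi_comm n i, Matrix.mul_assoc, ← Matrix.mul_assoc (Phi n i), Phi_comm n i,
      Matrix.mul_assoc, Phi_mul_self, Matrix.mul_one, Phi_mul_self]
  refine IsUnit.of_mul_eq_one ((1 - x ^ 2)⁻¹ • (1 - x • (Phi n i * Phi n (i + 1)))) ?_
  have e1 : gU n x i * (1 - x • (Phi n i * Phi n (i + 1))) = (1 - x ^ 2) • 1 := by
    simp only [gU, add_mul, mul_sub, smul_mul_assoc, mul_smul_comm, one_mul, mul_one, e]
    module
  rw [mul_smul_comm, e1, smul_smul, inv_mul_cancel₀ h0, one_smul]

end Pool.Agent.TAF
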