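import Pool.Agent.P.MP_cb4022_pr.Defs
import Pool.Agent.P.MP_cb4022_pr.Cliff

open scoped Classical Matrix
open Finset

noncomputable section

namespace Pool.Agent.TAF

theorem sweep_Phi_mul {n : ℕ} (j : ℕ) (M : Matrix (St n) (St n) ℝ) (s t : St n) :
    (Phi n j * M) s t = M (flipFrom j s) t := by
  rw [Matrix.mul_apply, Finset.sum_eq_single (flipFrom j s)]
  · simp [Phi, flipFrom_invol j s]
  · intro u _ hu
    have : s ≠ flipFrom j u := fun h => hu (by rw [h, flipFrom_invol j u])
    simp [Phi, this]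
  · simp

theorem sweep_slot {n i : ℕ} (hi : i < n) (s : St n) (j : ℕ) :
    slot (flipFrom (i + 1) (flipFrom i s)) j = if j = i + 1 then !slot s j else slot s j := by
  rw [slot_flip, slot_flip]
  split_ifs <;> first | omega | simp

theorem sweep_gU_mul {n : ℕ} (x : ℝ) (i : ℕ) (M : Matrix (St n) (St n) ℝ) (s t : St n) :
    (gU n x i * M) s t = M s t + x * M (flipFrom (i + 1) (flipFrom i s)) t := by
  rw [gU, add_mul, one_mul, smul_mul_assoc, mul_assoc, Matrix.add_apply, Matrix.smul_apply,
    sweep_Phi_mul, sweep_Phi_mul, smul_eq_mul]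

theorem PhiPhi_apply {n i : ℕ} (hi : i < n) (σ' σ : St n) :
    (Phi n i * Phi n (i + 1)) σ' σ =
      if (∀ j, j ≠ i + 1 → slot σ' j = slot σ j) ∧ slot σ' (i + 1) ≠ slot σ (i + 1) then 1
      else 0 := by
  rw [← mul_one (Phi n (i + 1)), sweep_Phi_mul, sweep_Phi_mul, Matrix.one_apply]
  refine if_congr ⟨fun h => ?_, fun h => St.ext_slot fun j _ _ => ?_⟩ rfl rfl
  · rw [← h]
    exact ⟨fun j hj => by rw [sweep_slot hi, if_neg hj], by rw [sweep_slot hi, if_pos rfl]; simp⟩
  · rw [sweep_slot hi]
    split_ifs with hj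
    · have := h.2
      rw [hj]
      revert this
      cases slot σ' (i + 1) <;> cases slot σ (i + 1) <;> simp
    · exact h.1 j hj

theorem Sw_apply {n m : ℕ} (hm : m ≤ n) (x : ℝ) (σ' σ : St n) :
    Sw n x m σ' σ =
      if (∀ j, j ≤ n - m ∨ j = n + 1 → slot σ' j = slot σ j) then
        (∏ i ∈ Ico (n - m) n, wt x (slot σ (i + 1)) (slot σ' (i + 1))) *
          ∏ j ∈ Ico (n - m) (n + 1), wt x (slot σ j) (slot σ' (j + 1))
      else 0 := by
  induction m generalizing σ' with
  | zero =>
    rw [Sw, gV, Matrix.diagonal_apply]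
    by_cases h : σ' = σ
    · subst h
      simp
    · rw [if_neg h, if_neg fun h' => h (St.ext_slot fun j _ _ => h' j (by omega))]
  | succ m ih =>
    obtain ⟨k, hk⟩ : ∃ k, n = k + 1 + m := ⟨n - m - 1, by omega⟩
    have e1 : n - m = k + 1 := by omega
    have e2 : n - (m + 1) = k := by omega
    have hkn : k < n := by omega
    rw [Sw, mul_assoc, gV, Matrix.diagonal_mul, sweep_gU_mul, ih (by omega), ih (by omega), e1, e2,
      Nat.add_sub_cancel]
    have p1 : ∏ i ∈ Ico (k + 1) n, wt x (slot σ (i + 1))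
        (slot (flipFrom (k + 1) (flipFrom k σ')) (i + 1)) =
        ∏ i ∈ Ico (k + 1) n, wt x (slot σ (i + 1)) (slot σ' (i + 1)) :=
      prod_congr rfl fun i hi => by
        rw [sweep_slot hkn, if_neg (by have := (mem_Ico.1 hi).1; omega)]
    have p2 : ∏ i ∈ Ico (k + 1) (n + 1), wt x (slot σ i)
        (slot (flipFrom (k + 1) (flipFrom k σ')) (i + 1)) =
        ∏ i ∈ Ico (k + 1) (n + 1), wt x (slot σ i) (slot σ' (i + 1)) :=
      prod_congr rfl fun i hi => by
        rw [sweep_slot hkn, if_neg (by have := (mem_Ico.1 hi).1; omega)]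
    rw [p1, p2, prod_eq_prod_Ico_succ_bot hkn, prod_eq_prod_Ico_succ_bot (by omega : k < n + 1)]
    by_cases h : ∀ j, j ≤ k ∨ j = n + 1 → slot σ' j = slot σ j
    · rw [if_pos h, h k (Or.inl le_rfl)]
      by_cases h1 : slot σ' (k + 1) = slot σ (k + 1)
      · rw [if_pos, if_neg]
        · rw [h1]
          simp only [wt, if_true]
          ring
        · intro h2
          have := h2 (k + 1) (Or.inl le_rfl)
          rw [sweep_slot hkn, if_pos rfl, h1] at this
          simp at this
        · intro j hj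
          by_cases hj' : j = k + 1
          · rw [hj', h1]
          · exact h j (by omega)
      · rw [if_neg fun h2 => h1 (h2 (k + 1) (Or.inl le_rfl)), if_pos]
        · have : wt x (slot σ (k + 1)) (slot σ' (k + 1)) = x := if_neg (Ne.symm h1)
          rw [this]
          ring
        · intro j hj
          rw [sweep_slot hkn]
          split_ifs with hj'
          · rw [hj']
            revert h1
            cases slot σ' (k + 1) <;> cases slot σ (k + 1) <;> simp
          · exact h j (by omega)
    · rw [if_neg h, if_neg fun h2 => h fun j hj => h2 j (by omega), if_neg]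
      · simp
      · refine fun h2 => h fun j hj => ?_
        have := h2 j (by omega)
        rwa [sweep_slot hkn, if_neg (by omega)] at this

theorem T1_eq (n : ℕ) (y : ℝ) : T1 n y = gH n y * Sw n (y ^ 2) n * gH n y := by
  ext σ' σ
  rw [gH, Matrix.mul_diagonal, Matrix.diagonal_mul, Sw_apply le_rfl, T1, Matrix.of_apply, sweep,
    Nat.sub_self, ← range_eq_Ico, ← range_eq_Ico]
  congr 2
  refine if_congr ⟨fun h j hj => ?_, fun h => h _ (Or.inr rfl)⟩ rfl rfl
  rcases hj with hj | rfl
  · rw [Nat.le_zero.1 hj, slot_zero, slot_zero]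
  · exact h

end Pool.Agent.TAF
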