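import Pool.Agent.P.MP_cb4022_pr.Defs
import Pool.Agent.P.MP_cb4022_pr.Sweep
import Pool.Agent.P.MP_cb4022_pr.Gates

open scoped Classical Matrix
open Finset

noncomputable section

namespace Pool.Agent.TAF

theorem itw_sw {n : ℕ} {x : ℝ} (hx : 1 < x) (a b : ℕ → ℝ) {c s : ℝ} (hc : c = (x ^ 2 + 1) / (2 * x))
    (hs : s = (x ^ 2 - 1) / (2 * x)) (m : ℕ) : ∀ k, k + m = n → ∃ a' b',
    Sw n x m * gam n a b = gam n a' b' * Sw n x m ∧ (∀ j < k, a' j = a j ∧ b' j = b j) ∧
      c * a' k = a k - s * b' k ∧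
      (∀ i, k ≤ i → i < n → s * (a' (i + 1) - b' (i + 1)) = b i - a (i + 1)) ∧
      (∀ i, k ≤ i → i < n → s * (b' i + b' (i + 1)) = a (i + 1) - s ^ 2 * a i - c ^ 2 * b i) ∧
      c * b n = b' n + s * a n := by
  have h0 : x ≠ 0 := by linarith
  have h1 : x ^ 2 - 1 ≠ 0 := by nlinarith
  have hcs : c ^ 2 - s ^ 2 = 1 := by
    rw [hc, hs]
    field_simp
    ring
  have hA : ∀ t β : ℝ, s * ((-(x ^ 2 + 1) * t + 2 * x * β) / (x ^ 2 - 1)) = -c * t + β := by
    intro t β
    rw [hc, hs]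
    field_simp
  induction m with
  | zero =>
    rintro k rfl
    refine ⟨_, _, gV_gam le_rfl h0 a b, fun j hj => ?_, ?_, fun i h h' => by omega,
      fun i h h' => by omega, ?_⟩
    · rw [Function.update_of_ne (by omega), Function.update_of_ne (by omega)]
      exact ⟨rfl, rfl⟩
    · simp only [add_zero, Function.update_self, ← hc, ← hs]
      linear_combination a k * hcs
    · simp only [add_zero, Function.update_self, ← hc, ← hs]
      ring
  | succ m ih =>
    intro k hk
    obtain ⟨a1, b1, e, low, car, one, two, rt⟩ := ih (k + 1) (by omega)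
    obtain ⟨la, lb⟩ := low k (by omega)
    have e1 := gU_gam (n := n) (i := k) (by omega) (sub_ne_zero.1 h1) a1 b1
    have q1 := hA (a1 (k + 1)) (b1 k)
    have q2 := hA (b1 k) (a1 (k + 1))
    generalize (-(x ^ 2 + 1) * a1 (k + 1) + 2 * x * b1 k) / (x ^ 2 - 1) = A at e1 q1
    generalize (-(x ^ 2 + 1) * b1 k + 2 * x * a1 (k + 1)) / (x ^ 2 - 1) = p at e1 q2
    have e2 := gV_gam (n := n) (j := k) (by omega) h0 (Function.update a1 (k + 1) A)
      (Function.update b1 k p)
    rw [← hc, ← hs, Function.update_idem, Function.update_self,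
      Function.update_of_ne (by omega : k ≠ k + 1)] at e2
    refine ⟨Function.update (Function.update a1 (k + 1) A) k (c * a1 k - s * p),
      Function.update b1 k (c * p - s * a1 k), ?_, fun j hj => ?_, ?_, fun i h h' => ?_,
      fun i h h' => ?_, ?_⟩
    · rw [Sw, show n - m - 1 = k by omega, mul_assoc, e, mul_assoc, ← mul_assoc (gU n x k), e1,
        ← mul_assoc, ← mul_assoc, e2]
      simp only [mul_assoc]
    · rw [Function.update_of_ne (by omega), Function.update_of_ne (by omega),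
        Function.update_of_ne (by omega)]
      exact low j (by omega)
    · rw [Function.update_self, Function.update_self]
      linear_combination a1 k * hcs + la
    · rw [Function.update_of_ne (by omega), Function.update_of_ne (by omega : i + 1 ≠ k)]
      obtain rfl | h2 := h.eq_or_lt
      · rw [Function.update_self]
        linear_combination q1 - car + lb
      · rw [Function.update_of_ne (by omega)]
        exact one i h2 h'
    · rw [Function.update_of_ne (by omega : i + 1 ≠ k)]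
      obtain rfl | h2 := h.eq_or_lt
      · rw [Function.update_self]
        linear_combination c * q2 + car - s ^ 2 * la - c ^ 2 * lb
      · rw [Function.update_of_ne (by omega)]
        exact two i h2 h'
    · rw [Function.update_of_ne (by omega)]
      exact rt

theorem Sw_gam {n : ℕ} {x : ℝ} (hx : 1 < x) (a b : ℕ → ℝ) :
    ∃ a' b', Sw n x n * gam n a b = gam n a' b' * Sw n x n ∧
      Rel0 ((x ^ 2 + 1) / (2 * x)) ((x ^ 2 - 1) / (2 * x)) n a b a' b' := by
  obtain ⟨a', b', e, -, car, one, two, rt⟩ := itw_sw hx a b rfl rfl n 0 (zero_add n)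
  exact ⟨a', b', e, fun i => one i (Nat.zero_le i), fun i => two i (Nat.zero_le i), car, rt⟩

theorem exists_itw {n : ℕ} {y : ℝ} (hy : 1 < y) (u v : ℕ → ℝ) :
    ∃ u' v', Itw n y u v u' v' ∧ Rel y n u v u' v' := by
  have h0 : y ≠ 0 := by linarith
  obtain ⟨a', b', e, r⟩ := Sw_gam (n := n) (x := y ^ 2) (by nlinarith) (inn y u v) (inn y v u)
  have ho : ∀ a b : ℕ → ℝ, out y (inn y a b) (inn y b a) = a := fun a b => funext fun j => by
    simp only [out, inn, ch, sh]
    field_simp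
    ring
  refine ⟨inn y a' b', inn y b' a', ?_, ?_⟩
  · rw [Itw, T1_eq, mul_assoc, gH_gam n h0, ← mul_assoc, mul_assoc (gH n y), e, ← mul_assoc,
      gH_gam n h0]
    simp only [mul_assoc]
  · rw [Rel, ho, ho, cc, sc, show y ^ 4 = (y ^ 2) ^ 2 by ring]
    exact r

theorem T1_unit (n : ℕ) {y : ℝ} (hy : 1 < y) : IsUnit (T1 n y) := by
  have h0 : y ≠ 0 := by linarith
  have h1 : y ^ 2 ≠ 0 := pow_ne_zero 2 h0
  have h2 : (y ^ 2) ^ 2 ≠ 1 := (one_lt_pow₀ (one_lt_pow₀ hy two_ne_zero) two_ne_zero).ne'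
  have h : ∀ m, IsUnit (Sw n (y ^ 2) m) := fun m => by
    induction m with
    | zero => exact gV_unit n n h1
    | succ m ih => exact ((gV_unit n _ h1).mul (gU_unit n _ h2)).mul ih
  rw [T1_eq]
  exact ((gH_unit n h0).mul (h n)).mul (gH_unit n h0)

theorem Itw.unique {n : ℕ} {y : ℝ} (hy : 1 < y) {u v u' v' u'' v'' : ℕ → ℝ}
    (h : Itw n y u v u' v') (h' : Itw n y u v u'' v'') : ∀ j ≤ n, u' j = u'' j ∧ v' j = v'' j :=
  gam_inj ((T1_unit n hy).mul_right_cancel (h.symm.trans h'))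

theorem Itw.rel {n : ℕ} {y : ℝ} (hy : 1 < y) {u v u' v' : ℕ → ℝ} (h : Itw n y u v u' v') :
    Rel y n u v u' v' := by
  obtain ⟨a, b, e, r⟩ := exists_itw (n := n) hy u v
  have k := h.unique hy e
  have k1 : ∀ j ≤ n, out y u' v' j = out y a b j := fun j hj => by
    rw [out, out, (k j hj).1, (k j hj).2]
  have k2 : ∀ j ≤ n, out y v' u' j = out y b a j := fun j hj => by
    rw [out, out, (k j hj).1, (k j hj).2]
  refine ⟨fun i hi => ?_, fun i hi => ?_, ?_, ?_⟩
  · rw [k1 _ hi, k2 _ hi]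
    exact r.one i hi
  · rw [k2 _ hi, k2 _ hi.le]
    exact r.two i hi
  · rw [k1 _ n.zero_le, k2 _ n.zero_le]
    exact r.left
  · rw [k2 _ le_rfl]
    exact r.right

theorem Itw.form {n : ℕ} {y : ℝ} (hy : 1 < y) {u v u' v' a b a' b' : ℕ → ℝ}
    (h : Itw n y u v u' v') (h' : Itw n y a b a' b') :
    ip n u a - ip n v b = ip n u' a' - ip n v' b' := by
  have e : T1 n y * (gam n u v * gam n a b + gam n a b * gam n u v) =
      (gam n u' v' * gam n a' b' + gam n a' b' * gam n u' v') * T1 n y := by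
    rw [Itw] at h h'
    rw [mul_add, add_mul, ← mul_assoc, ← mul_assoc, h, h', mul_assoc, mul_assoc, h, h', mul_assoc,
      mul_assoc]
  rw [gam_anti, gam_anti, mul_smul_comm, mul_one, smul_mul_assoc, one_mul] at e
  exact mul_left_cancel₀ two_ne_zero (smul_left_injective ℝ (T1_unit n hy).ne_zero e)

theorem Itw.add {n : ℕ} {y : ℝ} {u v u' v' a b a' b' : ℕ → ℝ}
    (h : Itw n y u v u' v') (h' : Itw n y a b a' b') :
    Itw n y (u + a) (v + b) (u' + a') (v' + b') := by
  rw [Itw] at h h' ⊢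
  rw [gam_add, gam_add, mul_add, add_mul, h, h']

theorem Itw.smul {n : ℕ} {y : ℝ} {u v u' v' : ℕ → ℝ} (h : Itw n y u v u' v') (c : ℝ) :
    Itw n y (c • u) (c • v) (c • u') (c • v') := by
  rw [Itw] at h ⊢
  rw [gam_smul, gam_smul, mul_smul_comm, smul_mul_assoc, h]

theorem Itw.sub {n : ℕ} {y : ℝ} {u v u' v' a b a' b' : ℕ → ℝ}
    (h : Itw n y u v u' v') (h' : Itw n y a b a' b') :
    Itw n y (u - a) (v - b) (u' - a') (v' - b') := by
  rw [Itw] at h h' ⊢
  rw [gam_sub, gam_sub, mul_sub, sub_mul, h, h']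

theorem Itw.congr {n : ℕ} {y : ℝ} {u v u' v' a b a' b' : ℕ → ℝ} (h : Itw n y u v u' v')
    (h1 : ∀ j ≤ n, u j = a j) (h2 : ∀ j ≤ n, v j = b j) (h3 : ∀ j ≤ n, u' j = a' j)
    (h4 : ∀ j ≤ n, v' j = b' j) : Itw n y a b a' b' := by
  rw [Itw, ← gam_congr h1 h2, ← gam_congr h3 h4]
  exact h

theorem Itw.tr {n : ℕ} {y : ℝ} {u v u' v' : ℕ → ℝ} (h : Itw n y u v u' v') :
    (T1 n y)ᵀ * gam n u' (-v') = gam n u (-v) * (T1 n y)ᵀ := by
  rw [← gam_transpose, ← gam_transpose, ← Matrix.transpose_mul, ← Matrix.transpose_mul]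
  exact congrArg Matrix.transpose h.symm

theorem Itw.of_tr {n : ℕ} {y : ℝ} {u v u' v' : ℕ → ℝ}
    (h : (T1 n y)ᵀ * gam n u' v' = gam n u v * (T1 n y)ᵀ) : Itw n y u (-v) u' (-v') := by
  have k := congrArg Matrix.transpose h
  rw [Matrix.transpose_mul, Matrix.transpose_mul, Matrix.transpose_transpose, gam_transpose,
    gam_transpose] at k
  exact k.symm

end Pool.Agent.TAF
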