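import Pool.Agent.P.MP_cb4022_pr.Defs
import Pool.Agent.P.MP_cb4022_pr.RelD

open scoped Classical Matrix
open Finset

noncomputable section

namespace Pool.Agent.TAF

theorem odd_four {x K a b c d : ℝ} (h : |x| ≤ K * (|a| + |b| + |c| + |d|)) :
    x ^ 2 ≤ 4 * K ^ 2 * (a ^ 2 + b ^ 2 + c ^ 2 + d ^ 2) := by
  have h1 := pow_le_pow_left₀ (abs_nonneg x) h 2
  have h2 : (|a| + |b| + |c| + |d|) ^ 2 ≤ 4 * (|a| ^ 2 + |b| ^ 2 + |c| ^ 2 + |d| ^ 2) := by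
    nlinarith [sq_nonneg (|a| - |b|), sq_nonneg (|a| - |c|), sq_nonneg (|a| - |d|),
      sq_nonneg (|b| - |c|), sq_nonneg (|b| - |d|), sq_nonneg (|c| - |d|)]
  have h3 := mul_le_mul_of_nonneg_left h2 (sq_nonneg K)
  simp only [sq_abs, mul_pow] at h1 h3
  linarith

theorem odd_six {x x' K a b c d e f : ℝ}
    (h : |x| + |x'| ≤ K * (|a| + |b| + |c| + |d| + |e| + |f|)) :
    x ^ 2 + x' ^ 2 ≤ 8 * K ^ 2 * (a ^ 2 + b ^ 2 + c ^ 2 + d ^ 2 + (e ^ 2 + f ^ 2)) := by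
  have h1 := pow_le_pow_left₀ (by positivity) h 2
  have h2 : (|a| + |b| + |c| + |d|) ^ 2 ≤ 4 * (|a| ^ 2 + |b| ^ 2 + |c| ^ 2 + |d| ^ 2) := by
    nlinarith [sq_nonneg (|a| - |b|), sq_nonneg (|a| - |c|), sq_nonneg (|a| - |d|),
      sq_nonneg (|b| - |c|), sq_nonneg (|b| - |d|), sq_nonneg (|c| - |d|)]
  have h3 : (|a| + |b| + |c| + |d| + |e| + |f|) ^ 2 ≤
      8 * (|a| ^ 2 + |b| ^ 2 + |c| ^ 2 + |d| ^ 2 + (|e| ^ 2 + |f| ^ 2)) := by
    nlinarith [sq_nonneg (|a| + |b| + |c| + |d| - (|e| + |f|)), sq_nonneg (|e| - |f|),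
      sq_nonneg |e|, sq_nonneg |f|]
  have h4 := mul_le_mul_of_nonneg_left h3 (sq_nonneg K)
  have h5 : |x| ^ 2 + |x'| ^ 2 ≤ (|x| + |x'|) ^ 2 := by
    nlinarith [mul_nonneg (abs_nonneg x) (abs_nonneg x')]
  simp only [sq_abs, mul_pow] at h1 h4 h5
  linarith

theorem odd_sum {n : ℕ} (hn : 1 ≤ n) {H G : ℕ → ℝ} {C : ℝ} (hC : 0 ≤ C) (hG : ∀ k, 0 ≤ G k)
    (h0 : H 0 ≤ C * (G 0 + G 1)) (h1 : ∀ i < n, H (i + 1) ≤ C * (G i + G (i + 1))) :
    ∑ j ∈ range (n + 1), H j ≤ (3 * C + 1) * ∑ j ∈ range (n + 1), G j := by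
  have a1 : ∑ i ∈ range n, H (i + 1) ≤ C * (∑ i ∈ range n, G i + ∑ i ∈ range n, G (i + 1)) := by
    rw [← sum_add_distrib, mul_sum]
    exact sum_le_sum fun i hi => h1 i (mem_range.1 hi)
  have a2 := sum_range_succ' G n
  have a3 := sum_range_succ G n
  have a4 : G 1 ≤ ∑ j ∈ range (n + 1), G j :=
    single_le_sum (fun k _ => hG k) (mem_range.2 (by omega))
  have a5 : ∑ i ∈ range n, G i + ∑ i ∈ range n, G (i + 1) + (G 0 + G 1) ≤
      3 * ∑ j ∈ range (n + 1), G j := by linarith [hG n]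
  have a6 := mul_le_mul_of_nonneg_left a5 hC
  rw [sum_range_succ' H n]
  linarith [hG 1]

theorem odd_local {y : ℝ} (hy : 1 < y) : ∃ K : ℝ, 0 < K ∧
    ∀ (n : ℕ) (u v u₂ v₂ p r : ℕ → ℝ), 1 ≤ n → Rel y n u v p r → Rel y n u₂ (-v₂) p (-r) →
      ∀ (P Q : ℕ → Prop), (∀ j k, P j → k ≤ j + 1 → j ≤ k + 1 → Q k) →
        ss n (fun j => if P j then p j else 0) + ss n (fun j => if P j then r j else 0) ≤
          K * (ss n (fun j => if Q j then u j else 0) + ss n (fun j => if Q j then v j else 0) +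
            ss n (fun j => if Q j then u₂ j else 0) + ss n (fun j => if Q j then v₂ j else 0)) := by
  obtain ⟨K₁, -, hd⟩ := exists_diff hy
  obtain ⟨K₂, -, hz⟩ := exists_zero hy
  obtain ⟨C, hC⟩ : ∃ C, C = 2 * K₁ ^ 2 + 8 * K₂ ^ 2 * (1 + 2 * K₁ ^ 2) := ⟨_, rfl⟩
  have C0 : 0 ≤ C := by
    rw [hC]
    positivity
  refine ⟨3 * C + 1, by positivity, fun n u v u₂ v₂ p r hn h h' P Q hPQ => ?_⟩
  obtain ⟨F, hF⟩ : ∃ F : ℕ → ℝ, ∀ k, F k = u k ^ 2 + v k ^ 2 + u₂ k ^ 2 + v₂ k ^ 2 :=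
    ⟨_, fun _ => rfl⟩
  have F0 : ∀ k, 0 ≤ F k := fun k => by
    rw [hF]
    positivity
  have b1 : ∀ i < n, p (i + 1) ^ 2 + r (i + 1) ^ 2 ≤ 2 * K₁ ^ 2 * (F i + F (i + 1)) := by
    intro i hi
    have c1 := odd_four (hd n _ _ _ _ h i hi)
    have c2 := odd_four (hd n _ _ _ _ h' i hi)
    simp only [Pi.neg_apply, neg_sq] at c2
    rw [hF, hF]
    linarith
  have b2 : p 0 ^ 2 + r 0 ^ 2 ≤ 8 * K₂ ^ 2 * (1 + 2 * K₁ ^ 2) * (F 0 + F 1) := by
    obtain ⟨m, rfl⟩ : ∃ m, n = m + 1 := ⟨n - 1, by omega⟩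
    have c1 := odd_six (hz m _ _ _ _ h)
    have c2 := b1 0 (by omega)
    have c3 : u 0 ^ 2 + u 1 ^ 2 + v 0 ^ 2 + v 1 ^ 2 ≤ F 0 + F 1 := by
      rw [hF, hF]
      linarith [sq_nonneg (u₂ 0), sq_nonneg (u₂ 1), sq_nonneg (v₂ 0), sq_nonneg (v₂ 1)]
    have c4 := mul_le_mul_of_nonneg_left (add_le_add c3 c2) (by positivity : 0 ≤ 8 * K₂ ^ 2)
    rw [zero_add] at c4
    linarith
  have G0 : ∀ k, 0 ≤ (if Q k then F k else 0) := fun k => by
    split_ifs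
    · exact F0 k
    · exact le_rfl
  have key := odd_sum hn (H := fun j => if P j then p j ^ 2 + r j ^ 2 else 0)
    (G := fun k => if Q k then F k else 0) C0 G0 (by
      by_cases hP : P 0
      · rw [if_pos hP, if_pos (hPQ 0 0 hP (by omega) (by omega)),
          if_pos (hPQ 0 1 hP (by omega) (by omega))]
        refine b2.trans (mul_le_mul_of_nonneg_right ?_ (add_nonneg (F0 _) (F0 _)))
        rw [hC]
        exact le_add_of_nonneg_left (by positivity)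
      · rw [if_neg hP]
        exact mul_nonneg C0 (add_nonneg (G0 _) (G0 _))) fun i hi => by
      by_cases hP : P (i + 1)
      · rw [if_pos hP, if_pos (hPQ _ i hP (by omega) (by omega)),
          if_pos (hPQ _ (i + 1) hP (by omega) (by omega))]
        refine (b1 i hi).trans (mul_le_mul_of_nonneg_right ?_ (add_nonneg (F0 _) (F0 _)))
        rw [hC]
        exact le_add_of_nonneg_right (by positivity)
      · rw [if_neg hP]
        exact mul_nonneg C0 (add_nonneg (G0 _) (G0 _))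
  refine le_of_eq_of_le ?_ (key.trans_eq (congrArg _ ?_))
  · simp only [ss, ← sum_add_distrib]
    refine sum_congr rfl fun j _ => ?_
    split_ifs <;> simp
  · simp only [ss, ← sum_add_distrib]
    refine sum_congr rfl fun j _ => ?_
    split_ifs <;> simp [hF]

end Pool.Agent.TAF
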