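import Pool.Agent.P.MP_cb4022_pr.Defs
import Pool.Agent.P.MP_cb4022_pr.Itw
import Pool.Agent.P.MP_cb4022_pr.Odd
import Pool.Agent.P.MP_cb4022_pr.T1b
import Pool.Agent.P.MP_cb4022_pr.Pkg2

open scoped Classical Matrix
open Finset

noncomputable section

namespace Pool.Agent.TAF

theorem lemb_mono (n : ℕ) (u : ℕ → ℝ) (P Q : ℕ → Prop) [DecidablePred P] [DecidablePred Q]
    (h : ∀ k, P k → Q k) :
    ss n (fun k => if P k then u k else 0) ≤ ss n (fun k => if Q k then u k else 0) := by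
  refine sum_le_sum fun k _ => ?_
  by_cases hp : P k
  · simp only [if_pos hp, if_pos (h k hp), le_refl]
  · simp only [if_neg hp]
    rw [zero_pow two_ne_zero]
    exact sq_nonneg _

theorem lemb_sqrt {x B ε : ℝ} (hB : 1 ≤ B) (hε : 0 ≤ ε) (h : x ≤ B * ε ^ 2) : √x ≤ B * ε := by
  refine Real.sqrt_le_iff.2 ⟨by positivity, h.trans ?_⟩
  have := mul_le_mul_of_nonneg_right hB (show 0 ≤ B * ε ^ 2 by positivity)
  nlinarith

theorem lemb_comm {n i L : ℕ} {y ε : ℝ} {Ω : St n → ℝ} {fa fb : ℕ → ℕ → ℝ}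
    (hv : Vortex n y Ω i L ε fa fb) (s k : ℕ) :
    gam n (fa s) (fb s) * TT n y ^ k = TT n y ^ k * gam n (fa (s + k)) (fb (s + k)) := by
  induction k with
  | zero => rw [pow_zero, mul_one, one_mul, add_zero]
  | succ k ih =>
    rw [pow_succ, ← mul_assoc, ih, mul_assoc, ← hv.step, mul_assoc, add_assoc]

theorem lemb_kill {n i L : ℕ} {y ε : ℝ} {Ω : St n → ℝ} {fa fb : ℕ → ℕ → ℝ}
    (hv : Vortex n y Ω i L ε fa fb) (s k : ℕ) :
    (gam n (fa s) (fb s) * TT n y ^ k) *ᵥ Ω = 0 := by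
  rw [lemb_comm hv, ← Matrix.mulVec_mulVec, hv.kill, Matrix.mulVec_zero]

theorem lemb_tail {n j : ℕ} (hj : j ≤ n + 1) (p r : ℕ → ℝ) (w : St n → ℝ)
    (h0 : gam n p r *ᵥ w = 0) (P : ℕ → Prop) [DecidablePred P]
    (hP : (∀ k, P k ↔ j ≤ k) ∨ ∀ k, P k ↔ k < j) :
    nrm ((gam n p r * sig n j) *ᵥ w) ≤
      2 * ((√(ss n fun k => if P k then p k else 0) + √(ss n fun k => if P k then r k else 0)) *
        nrm w) := by
  obtain ⟨α, β, hβ, key⟩ : ∃ α β : ℝ, |β| = 2 ∧ ∀ u : ℕ → ℝ,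
      (fun k => if k < j then -u k else u k) = α • u + β • fun k => if P k then u k else 0 := by
    rcases hP with hP | hP
    · refine ⟨-1, 2, abs_two, fun u => funext fun k => ?_⟩
      simp only [Pi.add_apply, Pi.smul_apply, smul_eq_mul]
      by_cases h : k < j
      · rw [if_pos h, if_neg fun a => absurd ((hP k).1 a) (not_le.2 h)]
        ring
      · rw [if_neg h, if_pos ((hP k).2 (not_lt.1 h))]
        ring
    · refine ⟨1, -2, by rw [abs_neg, abs_two], fun u => funext fun k => ?_⟩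
      simp only [Pi.add_apply, Pi.smul_apply, smul_eq_mul]
      by_cases h : k < j
      · rw [if_pos h, if_pos ((hP k).2 h)]
        ring
      · rw [if_neg h, if_neg fun a => h ((hP k).1 a)]
        ring
  have e := sig_gam hj p r
  rw [key p, key r, gam_add, gam_smul, gam_smul] at e
  have e2 : gam n p r * sig n j = sig n j * (α • gam n p r +
      β • gam n (fun k => if P k then p k else 0) fun k => if P k then r k else 0) := by
    calc gam n p r * sig n j = sig n j * (sig n j * gam n p r * sig n j) := by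
          rw [← mul_assoc, ← mul_assoc, sig_mul_self, one_mul]
      _ = _ := by rw [e, mul_assoc _ (sig n j), sig_mul_self, mul_one]
  rw [e2, ← Matrix.mulVec_mulVec, nrm_sig, Matrix.add_mulVec, Matrix.smul_mulVec,
    Matrix.smul_mulVec, h0, smul_zero, zero_add, nrm_smul, hβ]
  exact mul_le_mul_of_nonneg_left (nrm_gam_le _ _ _ _) zero_le_two

theorem lemb_mid {y : ℝ} (hy : 1 < y) : ∃ B : ℝ, 1 ≤ B ∧
    ∀ (n i L m l b : ℕ) (Ω : St n → ℝ) (ε : ℝ) (fa fb : ℕ → ℕ → ℝ), 1 ≤ n →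
      Vortex n y Ω i L ε fa fb → Even b → l ≤ 2 * m → ∃ p r : ℕ → ℝ,
      gam n (fa 0) (fb 0) * prodT (Tk n y) (2 * m - l) (b + l) =
        prodT (Tk n y) (2 * m - l) (b + l) * gam n p r ∧
      gam n p r *ᵥ (prodT (Tk n y) l b *ᵥ Ω) = 0 ∧
      ∀ P : ℕ → Prop, (∀ j k, P j → k ≤ j + 1 → j ≤ k + 1 → k + L ≤ i ∨ i + L ≤ k) →
        ss n (fun j => if P j then p j else 0) ≤ B * ε ^ 2 ∧
        ss n (fun j => if P j then r j else 0) ≤ B * ε ^ 2 := by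
  obtain ⟨K, hK, hodd⟩ := odd_local hy
  refine ⟨1 + 4 * K, by linarith, fun n i L m l b Ω ε fa fb hn hv hb hl => ?_⟩
  have hε := sq_nonneg ε
  have hKε := mul_nonneg hK.le hε
  rcases Nat.even_or_odd' l with ⟨m1, rfl | rfl⟩
  · obtain ⟨m', rfl⟩ : ∃ m', m = m1 + m' := ⟨m - m1, by omega⟩
    rw [show 2 * (m1 + m') - 2 * m1 = 2 * m' by omega, prodT_even n y m1 hb,
      prodT_even n y m' (hb.add (even_two_mul m1))]
    refine ⟨fa (0 + m'), fb (0 + m'), lemb_comm hv 0 m', ?_, fun P hP => ⟨?_, ?_⟩⟩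
    · rw [Matrix.mulVec_mulVec, lemb_kill hv]
    · refine (lemb_mono n _ _ _ fun k hk => hP k k hk k.le_succ k.le_succ).trans
        ((hv.ta _).trans ?_)
      linarith
    · refine (lemb_mono n _ _ _ fun k hk => hP k k hk k.le_succ k.le_succ).trans
        ((hv.tb _).trans ?_)
      linarith
  · obtain ⟨m', rfl⟩ : ∃ m', m = m1 + m' + 1 := ⟨m - m1 - 1, by omega⟩
    have o1 : ¬Even (b + (2 * m1 + 1)) := by
      rw [← add_assoc, Nat.even_add_one, not_not]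
      exact hb.add (even_two_mul m1)
    have e2 : prodT (Tk n y) (2 * (m1 + m' + 1) - (2 * m1 + 1)) (b + (2 * m1 + 1)) =
        TT n y ^ m' * (T1 n y)ᵀ := by
      rw [show 2 * (m1 + m' + 1) - (2 * m1 + 1) = 2 * m' + 1 by omega, prodT,
        prodT_even n y m' (Nat.even_add_one.2 o1), Tk, if_neg o1]
    have e1 : prodT (Tk n y) (2 * m1 + 1) b = T1 n y * TT n y ^ m1 := by
      rw [prodT_add, prodT_even n y m1 hb, prodT, prodT, one_mul, Tk,
        if_pos (hb.add (even_two_mul m1))]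
    obtain ⟨p, r, hi, hr⟩ := exists_itw (n := n) hy (fa (m' + 1)) (fb (m' + 1))
    have ht : (T1 n y)ᵀ * gam n p r = gam n (fa m') (fb m') * (T1 n y)ᵀ := by
      refine (T1_unit n hy).mul_right_cancel ?_
      have h1 := hv.step m'
      rw [TT, mul_assoc, hi] at h1
      rw [mul_assoc, h1, mul_assoc]
    rw [e1, e2]
    refine ⟨p, r, ?_, ?_, fun P hP => ?_⟩
    · rw [← mul_assoc, lemb_comm hv, zero_add, mul_assoc, ← ht, mul_assoc]
    · rw [Matrix.mulVec_mulVec, ← mul_assoc, ← hi, mul_assoc, ← Matrix.mulVec_mulVec,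
        lemb_kill hv, Matrix.mulVec_zero]
    · have h := hodd n _ _ _ _ p r hn hr ((Itw.of_tr ht).rel hy) P _ hP
      have h2 := h.trans (mul_le_mul_of_nonneg_left (add_le_add (add_le_add (add_le_add
        ((@lemb_mono n _ _ _ (_) _ fun k hk => hk).trans (hv.ta (m' + 1)))
        ((@lemb_mono n _ _ _ (_) _ fun k hk => hk).trans (hv.tb (m' + 1))))
        ((@lemb_mono n _ _ _ (_) _ fun k hk => hk).trans (hv.ta m')))
        ((@lemb_mono n _ _ _ (_) _ fun k hk => hk).trans (hv.tb m'))) hK.le)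
      have b1 := ss_nonneg n fun j => if P j then p j else 0
      have b2 := ss_nonneg n fun j => if P j then r j else 0
      constructor <;> linarith

theorem lemb_ss (n : ℕ) (c : ℝ) (u : ℕ → ℝ) : √(ss n (c • u)) = |c| * √(ss n u) := by
  have : ss n (c • u) = c ^ 2 * ss n u := by
    simp only [ss, Pi.smul_apply, smul_eq_mul, mul_pow, mul_sum]
  rw [this, Real.sqrt_mul (sq_nonneg c), Real.sqrt_sq_eq_abs]

theorem lemb_op {n i L : ℕ} {y ε : ℝ} {Ω : St n → ℝ} {fa fb : ℕ → ℕ → ℝ}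
    (hv : Vortex n y Ω i L ε fa fb) (w : St n → ℝ) :
    nrm ((gam n (fa 0) (fb 0))ᵀ *ᵥ w) ≤ 2 * nrm w := by
  refine nrm_transpose_le zero_le_two (fun w => (nrm_gam_le _ _ _ w).trans ?_) w
  have h := hv.one
  have a := ss_nonneg n (fa 0)
  have b := ss_nonneg n (fb 0)
  have a' : √(ss n (fa 0)) ≤ 1 := Real.sqrt_le_one.2 (by linarith)
  have b' : √(ss n (fb 0)) ≤ 1 := Real.sqrt_le_one.2 (by linarith)
  exact mul_le_mul_of_nonneg_right (by linarith) (nrm_nonneg w)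

theorem lemb_first {n i L : ℕ} {y ε : ℝ} {Ω : St n → ℝ} {fa fb : ℕ → ℕ → ℝ}
    (hv : Vortex n y Ω i L ε fa fb) (hi : i ≤ n + 1) (hε : 0 ≤ ε) (hΩ : Ω ⬝ᵥ Ω = 1)
    (w : St n → ℝ) : |Ω ⬝ᵥ ((sig n i * gam n (fa 0) (fb 0)) *ᵥ w)| ≤ 4 * ε * nrm w := by
  have ea : (fun j => if j < i then -fa 0 j else fa 0 j) =
      fa 0 + (-2 : ℝ) • fun j => if j < i then fa 0 j else 0 := by
    funext k
    simp only [Pi.add_apply, Pi.smul_apply, smul_eq_mul]
    split_ifs <;> ring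
  have eb : (fun j => if j < i then -fb 0 j else fb 0 j) =
      -fb 0 + (2 : ℝ) • fun j => if i ≤ j then fb 0 j else 0 := by
    funext k
    simp only [Pi.add_apply, Pi.smul_apply, Pi.neg_apply, smul_eq_mul]
    by_cases h : k < i
    · rw [if_pos h, if_neg (not_le.2 h)]
      ring
    · rw [if_neg h, if_pos (not_lt.1 h)]
      ring
  rw [sig_gam hi, ea, eb, gam_add, ← gam_transpose, ← Matrix.mulVec_mulVec, Matrix.add_mulVec,
    dotProduct_add, Matrix.dotProduct_mulVec, Matrix.vecMul_transpose, hv.kill, zero_dotProduct,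
    zero_add]
  refine (abs_dot_le _ _).trans ?_
  rw [nrm_eq_one hΩ, one_mul]
  refine (nrm_gam_le _ _ _ _).trans ?_
  rw [nrm_sig, lemb_ss, lemb_ss, abs_neg, abs_two]
  have a := lemb_sqrt le_rfl hε (hv.la.trans_eq (one_mul _).symm)
  have b := lemb_sqrt le_rfl hε (hv.rb.trans_eq (one_mul _).symm)
  exact mul_le_mul_of_nonneg_right (by linarith) (nrm_nonneg w)

theorem lemB {y : ℝ} (hy : 1 < y) : ∃ K : ℝ, 0 < K ∧
    ∀ (n i j L m l b : ℕ) (Ω : St n → ℝ) (ε lam : ℝ) (fa fb : ℕ → ℕ → ℝ), 1 ≤ n → 0 ≤ ε →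
      0 ≤ lam → (∀ w, w ⬝ᵥ (TT n y *ᵥ w) ≤ lam * (w ⬝ᵥ w)) → Ω ⬝ᵥ Ω = 1 →
      Vortex n y Ω i L ε fa fb → i ≤ n + 1 → j ≤ n + 1 → (j + L ≤ i ∨ i + L + 1 ≤ j) → Even b →
      l ≤ 2 * m →
      |Ω ⬝ᵥ ((sig n i * prodT (Tk n y) (2 * m - l) (b + l) * sig n j * prodT (Tk n y) l b) *ᵥ Ω)|
        ≤ K * ε * lam ^ m := by
  obtain ⟨B, hB, hmid⟩ := lemb_mid hy
  refine ⟨4 + 4 * B, by linarith,
    fun n i j L m l b Ω ε lam fa fb hn hε hlam hle hΩ hv hi hj hij hb hl => ?_⟩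
  obtain ⟨p, r, h1, h2, h3⟩ := hmid n i L m l b Ω ε fa fb hn hv hb hl
  have hT : ∀ k w, nrm (Tk n y k *ᵥ w) ≤ √lam * nrm w := fun k w => by
    unfold Tk
    split_ifs
    · exact (op_of_form (T1 n y) hlam hle w).1
    · exact (op_of_form (T1 n y) hlam hle w).2
  have o2 := prodT_op (Real.sqrt_nonneg lam) hT (2 * m - l) (b + l)
  have o1 := prodT_op (Real.sqrt_nonneg lam) hT l b Ω
  rw [nrm_eq_one hΩ, mul_one] at o1
  have hp : √lam ^ (2 * m - l) * √lam ^ l = lam ^ m := by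
    rw [← pow_add, Nat.sub_add_cancel hl, pow_mul, Real.sq_sqrt hlam]
  have p2 : 0 ≤ √lam ^ (2 * m - l) := by positivity
  have hc : gam n (fa 0) (fb 0) * (gam n (fa 0) (fb 0))ᵀ +
      (gam n (fa 0) (fb 0))ᵀ * gam n (fa 0) (fb 0) = (2 : ℝ) • 1 := by
    have e : ip n (fb 0) (-fb 0) = -ss n (fb 0) := by
      simp only [ip, ss, Pi.neg_apply, mul_neg, sum_neg_distrib, sq]
    rw [gam_transpose, gam_anti, e, ip_self, sub_neg_eq_add, hv.one, mul_one]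
  have t1 := lemb_first hv hi hε hΩ
  have t0 := lemb_op hv
  obtain ⟨P, hP, hQ⟩ : ∃ P : ℕ → Prop, ((∀ k, P k ↔ j ≤ k) ∨ ∀ k, P k ↔ k < j) ∧
      ∀ j k, P j → k ≤ j + 1 → j ≤ k + 1 → k + L ≤ i ∨ i + L ≤ k := by
    rcases hij with h | h
    · exact ⟨fun k => k < j, Or.inr fun _ => Iff.rfl, fun s k a b c => Or.inl (by omega)⟩
    · exact ⟨fun k => j ≤ k, Or.inl fun _ => Iff.rfl, fun s k a b c => Or.inr (by omega)⟩
  have t2 := lemb_tail hj p r _ h2 P hP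
  have s1 := lemb_sqrt hB hε (h3 P hQ).1
  have s2 := lemb_sqrt hB hε (h3 P hQ).2
  generalize prodT (Tk n y) l b = P1 at *
  generalize prodT (Tk n y) (2 * m - l) (b + l) = P2 at *
  generalize gam n (fa 0) (fb 0) = c at *
  have t3 : nrm ((gam n p r * sig n j) *ᵥ (P1 *ᵥ Ω)) ≤ 2 * ((B * ε + B * ε) * √lam ^ l) :=
    t2.trans (mul_le_mul_of_nonneg_left
      (mul_le_mul (add_le_add s1 s2) o1 (nrm_nonneg _) (by positivity)) zero_le_two)
  have hX : nrm (P2 *ᵥ (sig n j *ᵥ (P1 *ᵥ Ω))) ≤ lam ^ m := by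
    refine (o2 _).trans ?_
    rw [nrm_sig, ← hp]
    exact mul_le_mul_of_nonneg_left o1 p2
  have hY : nrm (c *ᵥ (P2 *ᵥ (sig n j *ᵥ (P1 *ᵥ Ω)))) ≤ 4 * B * ε * lam ^ m := by
    rw [Matrix.mulVec_mulVec, h1, ← Matrix.mulVec_mulVec, Matrix.mulVec_mulVec _ (gam n p r)]
    refine (o2 _).trans ((mul_le_mul_of_nonneg_left t3 p2).trans_eq ?_)
    rw [← hp]
    ring
  rw [← Matrix.mulVec_mulVec, ← Matrix.mulVec_mulVec, ← Matrix.mulVec_mulVec]
  generalize P2 *ᵥ (sig n j *ᵥ (P1 *ᵥ Ω)) = w at hX hY ⊢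
  have e : 2 * (Ω ⬝ᵥ (sig n i *ᵥ w)) =
      Ω ⬝ᵥ ((sig n i * c) *ᵥ (cᵀ *ᵥ w)) + Ω ⬝ᵥ (sig n i *ᵥ (cᵀ *ᵥ (c *ᵥ w))) := by
    rw [← Matrix.mulVec_mulVec, ← dotProduct_add, ← Matrix.mulVec_add, Matrix.mulVec_mulVec w c,
      Matrix.mulVec_mulVec w cᵀ, ← Matrix.add_mulVec, hc, Matrix.smul_mulVec, Matrix.one_mulVec,
      Matrix.mulVec_smul, dotProduct_smul, smul_eq_mul]
  have u1 : |Ω ⬝ᵥ ((sig n i * c) *ᵥ (cᵀ *ᵥ w))| ≤ 4 * ε * (2 * lam ^ m) :=
    (t1 _).trans (mul_le_mul_of_nonneg_left ((t0 w).trans (by linarith)) (by positivity))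
  have u2 : |Ω ⬝ᵥ (sig n i *ᵥ (cᵀ *ᵥ (c *ᵥ w)))| ≤ 2 * (4 * B * ε * lam ^ m) := by
    refine (abs_dot_le _ _).trans ?_
    rw [nrm_eq_one hΩ, one_mul, nrm_sig]
    exact (t0 _).trans (by linarith)
  have u3 := abs_add_le (Ω ⬝ᵥ ((sig n i * c) *ᵥ (cᵀ *ᵥ w))) (Ω ⬝ᵥ (sig n i *ᵥ (cᵀ *ᵥ (c *ᵥ w))))
  rw [← e, abs_mul, abs_two] at u3
  linarith

end Pool.Agent.TAF
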