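import Pool.Agent.P.MP_cb4022_pr.Defs

open scoped Classical Matrix
open Finset

noncomputable section

namespace Pool.Agent.TAF

variable {S : Type} [Fintype S] [DecidableEq S] {C : Type}

theorem chain_path (T : ℕ → Matrix S S ℝ) (k b : ℕ) (f : List S → ℝ) (σ'' σ : S) :
    chain T id k b f σ'' σ =
      ∑ h : Fin (k + 1) → S, if h 0 = σ ∧ h (Fin.last k) = σ'' then
        f (List.ofFn fun i : Fin k => h i.castSucc) *
          ∏ i : Fin k, T (b + i.val) (h i.succ) (h i.castSucc) else 0 := by
  induction k generalizing b f σ with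
  | zero =>
    rw [Finset.sum_eq_single (fun _ => σ)]
    · simp [chain, Matrix.one_apply, eq_comm]
    · intro h _ hne
      refine if_neg fun hh => hne (funext fun i => ?_)
      rw [Fin.fin_one_eq_zero i]
      exact hh.1
    · simp
  | succ k ih =>
    rw [← (Fin.consEquiv fun _ : Fin (k + 2) => S).sum_comp, Fintype.sum_prod_type,
      Finset.sum_eq_single σ]
    · simp only [chain, Matrix.of_apply, Matrix.mul_apply, ih, sum_mul]
      rw [sum_comm]
      refine sum_congr rfl fun h _ => ?_
      rw [Finset.sum_eq_single (h 0)]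
      · have e : ∀ i : Fin k, b + 1 + i.val = b + (i.val + 1) := fun i => by omega
        simp [Fin.consEquiv, List.ofFn_succ, Fin.prod_univ_succ, ← Fin.succ_last,
          ← Fin.succ_castSucc, e, mul_assoc, mul_comm (T b (h 0) σ)]
      · intro τ _ hτ
        rw [if_neg fun hh => hτ hh.1.symm, zero_mul]
      · simp
    · intro τ _ hτ
      exact sum_eq_zero fun h _ => if_neg fun hh => hτ hh.1
    · simp

end Pool.Agent.TAF
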