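import Pool.Agent.P.MP_cb4022_pr.Defs
import Pool.Agent.P.MP_cb4022_pr.Cliff

open scoped Classical Matrix
open Finset

noncomputable section

namespace Pool.Agent.TAF

theorem mem_dom {n M : ℕ} {p : ℤ × ℤ} :
    p ∈ dom n M ↔ 0 < p.2 ∧ p.2 < M ∧ 1 ≤ p.1 + (p.2 + 1) / 2 ∧ p.1 + (p.2 + 1) / 2 ≤ n := by
  obtain ⟨a, b⟩ := p
  have h1 : (0 : ℝ) < (a : ℝ) + (b : ℝ) / 2 ↔ 0 < 2 * a + b := by
    rw [← Int.cast_pos (R := ℝ)]
    push_cast
    constructor <;> intro h <;> linarith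
  have h2 : (a : ℝ) + (b : ℝ) / 2 ≤ n ↔ 2 * a + b ≤ 2 * n := by
    rw [← Int.cast_le (R := ℝ)]
    push_cast
    constructor <;> intro h <;> linarith
  rw [dom, mem_filter]
  simp only [pos, mem_product, mem_Icc, mem_Ioo, h1, h2]
  omega

theorem slot_rowOf (n M : ℕ) (S : Finset (ℤ × ℤ)) (b j : ℕ) :
    slot (rowOf n M S b) j = decide (((j : ℤ) - ((b : ℤ) + 1) / 2, (b : ℤ)) ∉ S ∩ dom n M) := by
  unfold slot
  split_ifs with h
  · have e : j - 1 + 1 = j := by omega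
    simp only [rowOf, e]
  · symm
    rw [decide_eq_true_eq, mem_inter, mem_dom]
    simp only
    omega

/-- The indicator of a bichromatic pair. -/
def mod2E (S : Finset (ℤ × ℤ)) (p d : ℤ × ℤ) : ℕ := if (p ∈ S ↔ p + d ∈ S) then 0 else 1

/-- The number of bichromatic pairs of direction `d` which start on row `b`. -/
def mod2R (n M : ℕ) (S : Finset (ℤ × ℤ)) (d : ℤ × ℤ) (b : ℕ) : ℕ :=
  ∑ a ∈ Icc (-(M : ℤ) - 1) (n + 1), mod2E S (a, b) d

theorem mod2_wt (t : ℝ) (S : Finset (ℤ × ℤ)) {p q d : ℤ × ℤ} (h : q = p + d) :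
    wt t (decide (p ∉ S)) (decide (q ∉ S)) = t ^ mod2E S p d := by
  subst h
  unfold wt mod2E
  by_cases h1 : p ∈ S <;> by_cases h2 : p + d ∈ S <;> simp [h1, h2]

theorem mod2_wt_comm (t : ℝ) (a b : Bool) : wt t a b = wt t b a := by
  cases a <;> cases b <;> rfl

theorem mod2_supp {n M : ℕ} {S : Finset (ℤ × ℤ)} (hS : S ⊆ dom n M) {p d : ℤ × ℤ}
    (h : ¬ (p ∈ S ↔ p + d ∈ S)) : p ∈ dom n M ∨ p + d ∈ dom n M := by
  by_cases h1 : p ∈ S
  · exact Or.inl (hS h1)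
  · refine Or.inr (hS ?_)
    tauto

theorem mod2_win (f : ℤ → ℕ) (c : ℤ) (len : ℕ) (I : Finset ℤ)
    (h : ∀ a, f a ≠ 0 → a ∈ I ∧ 0 ≤ a + c ∧ a + c < len) :
    ∑ j ∈ range len, f (j - c) = ∑ a ∈ I, f a := by
  refine sum_bij_ne_zero (fun j _ _ => (j : ℤ) - c) (fun j _ hj => (h _ hj).1) ?_ ?_ ?_
  · intro a _ _ b _ _ e
    omega
  · intro a _ ha
    obtain ⟨-, h1, h2⟩ := h a ha
    have e : (((a + c).toNat : ℕ) : ℤ) - c = a := by omega
    exact ⟨(a + c).toNat, mem_range.2 (by omega), by rwa [e], e⟩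
  · intro _ _ _
    rfl

theorem mod2_prod {n M : ℕ} {S : Finset (ℤ × ℤ)} (hS : S ⊆ dom n M) (t : ℝ) (b : ℕ) (d : ℤ × ℤ)
    (c : ℤ) (len : ℕ) (g : ℕ → ℝ) (hg : ∀ j : ℕ, g j = t ^ mod2E S (j - c, b) d)
    (h : ∀ a : ℤ, (a, (b : ℤ)) ∈ dom n M ∨ (a, (b : ℤ)) + d ∈ dom n M →
      (-(M : ℤ) - 1 ≤ a ∧ a ≤ n + 1) ∧ 0 ≤ a + c ∧ a + c < len) :
    ∏ j ∈ range len, g j = t ^ mod2R n M S d b := by
  rw [prod_congr rfl fun j _ => hg j, prod_pow_eq_pow_sum, mod2R,
    mod2_win (fun a => mod2E S (a, b) d) c len]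
  intro a ha
  rw [mem_Icc]
  refine h a (mod2_supp hS fun e => ha ?_)
  exact if_pos e

theorem mod2_slot {n M : ℕ} {S : Finset (ℤ × ℤ)} (hS : S ⊆ dom n M) (b j : ℕ) :
    slot (rowOf n M S b) j = decide (((j : ℤ) - ((b : ℤ) + 1) / 2, (b : ℤ)) ∉ S) := by
  rw [slot_rowOf, inter_eq_left.2 hS]

theorem mod2_par (n M : ℕ) (S : Finset (ℤ × ℤ)) (b : ℕ) : par (rowOf n M S b) = true := by
  unfold par
  rw [slot_rowOf, decide_eq_true_eq, mem_inter, mem_dom]
  simp only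
  omega

theorem mod2_hrow {n M : ℕ} {S : Finset (ℤ × ℤ)} (hS : S ⊆ dom n M) (y : ℝ) (b : ℕ) :
    hrow y (rowOf n M S b) = y ^ mod2R n M S (1, 0) b := by
  refine mod2_prod hS y b _ (((b : ℤ) + 1) / 2) _ _ (fun j => ?_) fun a ha => ?_
  · rw [mod2_slot hS, mod2_slot hS]
    refine mod2_wt _ _ ?_
    simp only [Prod.mk_add_mk, Prod.mk.injEq]
    omega
  · simp only [mem_dom, Prod.mk_add_mk] at ha
    omega

theorem mod2_Tk {n M : ℕ} {S : Finset (ℤ × ℤ)} (hS : S ⊆ dom n M) (y : ℝ) (b : ℕ) :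
    Tk n y b (rowOf n M S (b + 1)) (rowOf n M S b) =
      y ^ mod2R n M S (1, 0) (b + 1) * y ^ mod2R n M S (1, 0) b *
        (y ^ 2) ^ (mod2R n M S (0, 1) b + mod2R n M S (-1, 1) b) := by
  unfold Tk
  split_ifs with hb
  · obtain ⟨c, rfl⟩ := hb
    have h1 := mod2_prod hS (y ^ 2) (c + c) (-1, 1) ((c : ℤ) - 1) n
      (fun i => wt (y ^ 2) (slot (rowOf n M S (c + c)) (i + 1))
        (slot (rowOf n M S (c + c + 1)) (i + 1))) (fun j => by
        rw [mod2_slot hS, mod2_slot hS]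
        have e : ((j + 1 : ℕ) : ℤ) - (((c + c : ℕ) : ℤ) + 1) / 2 = j - (c - 1) := by omega
        rw [e]
        refine mod2_wt _ _ ?_
        simp only [Prod.mk_add_mk, Prod.mk.injEq]
        omega) (fun a ha => by
        simp only [mem_dom, Prod.mk_add_mk] at ha
        omega)
    have h2 := mod2_prod hS (y ^ 2) (c + c) (0, 1) (c : ℤ) (n + 1)
      (fun j => wt (y ^ 2) (slot (rowOf n M S (c + c)) j)
        (slot (rowOf n M S (c + c + 1)) (j + 1))) (fun j => by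
        rw [mod2_slot hS, mod2_slot hS]
        have e : (j : ℤ) - (((c + c : ℕ) : ℤ) + 1) / 2 = j - c := by omega
        rw [e]
        refine mod2_wt _ _ ?_
        simp only [Prod.mk_add_mk, Prod.mk.injEq]
        omega) (fun a ha => by
        simp only [mem_dom, Prod.mk_add_mk] at ha
        omega)
    simp only [T1, Matrix.of_apply, sweep, mod2_par, if_true]
    rw [h1, h2, mod2_hrow hS, mod2_hrow hS]
    ring
  · obtain ⟨c, rfl⟩ := Nat.not_even_iff_odd.1 hb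
    have h1 := mod2_prod hS (y ^ 2) (2 * c + 1) (0, 1) (c : ℤ) n
      (fun i => wt (y ^ 2) (slot (rowOf n M S (2 * c + 1 + 1)) (i + 1))
        (slot (rowOf n M S (2 * c + 1)) (i + 1))) (fun j => by
        rw [mod2_slot hS, mod2_slot hS, mod2_wt_comm]
        have e : ((j + 1 : ℕ) : ℤ) - (((2 * c + 1 : ℕ) : ℤ) + 1) / 2 = j - c := by omega
        rw [e]
        refine mod2_wt _ _ ?_
        simp only [Prod.mk_add_mk, Prod.mk.injEq]
        omega) (fun a ha => by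
        simp only [mem_dom, Prod.mk_add_mk] at ha
        omega)
    have h2 := mod2_prod hS (y ^ 2) (2 * c + 1) (-1, 1) (c : ℤ) (n + 1)
      (fun j => wt (y ^ 2) (slot (rowOf n M S (2 * c + 1 + 1)) j)
        (slot (rowOf n M S (2 * c + 1)) (j + 1))) (fun j => by
        rw [mod2_slot hS, mod2_slot hS, mod2_wt_comm]
        have e : ((j + 1 : ℕ) : ℤ) - (((2 * c + 1 : ℕ) : ℤ) + 1) / 2 = j - c := by omega
        rw [e]
        refine mod2_wt _ _ ?_
        simp only [Prod.mk_add_mk, Prod.mk.injEq]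
        omega) (fun a ha => by
        simp only [mem_dom, Prod.mk_add_mk] at ha
        omega)
    simp only [T1, Matrix.transpose_apply, Matrix.of_apply, sweep, mod2_par, if_true]
    rw [h1, h2, mod2_hrow hS, mod2_hrow hS]
    ring

theorem mod2_edge {n M : ℕ} {S : Finset (ℤ × ℤ)} (hS : S ⊆ dom n M) {b : ℕ}
    (hb : b = 0 ∨ b = M) : mod2R n M S (1, 0) b = 0 := by
  refine sum_eq_zero fun a _ => if_pos ?_
  by_contra h
  have := mod2_supp hS h
  simp only [mem_dom, Prod.mk_add_mk] at this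
  omega

theorem mod2_count {n M : ℕ} {S : Finset (ℤ × ℤ)} (hS : S ⊆ dom n M) :
    nWalls S = ∑ b ∈ range M,
      (mod2R n M S (1, 0) b + (mod2R n M S (0, 1) b + mod2R n M S (-1, 1) b)) := by
  let D : Finset (ℤ × ℤ) := {(1, 0), (0, 1), (-1, 1)}
  let F : Finset (ℕ × (ℤ × ℤ) × ℤ) := (range M ×ˢ D ×ˢ Icc (-(M : ℤ) - 1) (n + 1)).filter
    fun x => ¬ ((x.2.2, (x.1 : ℤ)) ∈ S ↔ (x.2.2, (x.1 : ℤ)) + x.2.1 ∈ S)
  let φ : ℕ × (ℤ × ℤ) × ℤ → Sym2 (ℤ × ℤ) := fun x =>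
    s((x.2.2, (x.1 : ℤ)), (x.2.2, (x.1 : ℤ)) + x.2.1)
  have key : ∀ p d : ℤ × ℤ, d ∈ D → ¬ (p ∈ S ↔ p + d ∈ S) → s(p, p + d) ∈ F.image φ := by
    rintro ⟨a, b⟩ d hd h
    have h1 := mod2_supp hS h
    have h2 : 0 ≤ b ∧ b < M ∧ -(M : ℤ) - 1 ≤ a ∧ a ≤ n + 1 := by
      simp only [D, mem_insert, mem_singleton] at hd
      rcases hd with rfl | rfl | rfl <;> simp only [mem_dom, Prod.mk_add_mk] at h1 <;> omega
    obtain ⟨b, rfl⟩ := Int.eq_ofNat_of_zero_le h2.1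
    refine mem_image.2 ⟨(b, d, a), mem_filter.2 ⟨?_, h⟩, rfl⟩
    simp only [mem_product, mem_range, mem_Icc]
    exact ⟨by omega, hd, h2.2.2⟩
  have hset : {e | IsWall S e} = ↑(F.image φ) := by
    ext e
    constructor
    · induction e using Sym2.ind with
      | _ u v =>
        rintro ⟨hadj, u', hu', v', hv', h1, h2⟩
        have hne : ¬ (u ∈ S ↔ v ∈ S) := by
          rw [Sym2.mem_iff] at hu' hv'
          rcases hu' with rfl | rfl <;> rcases hv' with rfl | rfl <;> tauto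
        have hd : v - u ∈ D ∨ u - v ∈ D := by
          obtain ⟨a, b⟩ := u
          obtain ⟨c, d⟩ := v
          simp only [SimpleGraph.mem_edgeSet, tri, Prod.mk_sub_mk, mem_insert, mem_singleton,
            Prod.mk.injEq, D] at hadj ⊢
          omega
        rcases hd with hd | hd
        · have := key u (v - u) hd (by rwa [add_sub_cancel])
          rwa [add_sub_cancel] at this
        · have := key v (u - v) hd (by rw [add_sub_cancel]; tauto)
          rwa [add_sub_cancel, Sym2.eq_swap] at this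
    · intro he
      obtain ⟨⟨b, d, a⟩, hx, rfl⟩ := mem_image.1 he
      obtain ⟨h1, h2⟩ := mem_filter.1 hx
      have hd : d ∈ D := (mem_product.1 (mem_product.1 h1).2).1
      refine ⟨?_, ?_⟩
      · simp only [D, mem_insert, mem_singleton] at hd
        simp only [φ, SimpleGraph.mem_edgeSet, tri, add_sub_cancel_left]
        rcases hd with rfl | rfl | rfl <;> simp
      · by_cases h3 : (a, (b : ℤ)) ∈ S
        · exact ⟨_, Sym2.mem_mk_left _ _, _, Sym2.mem_mk_right _ _, h3, by tauto⟩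
        · exact ⟨_, Sym2.mem_mk_right _ _, _, Sym2.mem_mk_left _ _, by tauto, h3⟩
  have hinj : Set.InjOn φ F := by
    rintro ⟨b, ⟨d1, d2⟩, a⟩ hx ⟨b', ⟨d1', d2'⟩, a'⟩ hx' e
    have hd := (mem_product.1 (mem_product.1 (mem_filter.1 hx).1).2).1
    have hd' := (mem_product.1 (mem_product.1 (mem_filter.1 hx').1).2).1
    simp only [D, mem_insert, mem_singleton, Prod.mk.injEq] at hd hd'
    simp only [φ, Sym2.eq_iff, Prod.mk_add_mk, Prod.mk.injEq] at e ⊢
    omega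
  rw [nWalls, hset, Set.ncard_coe_finset, card_image_of_injOn hinj, card_filter, sum_product]
  refine sum_congr rfl fun b _ => ?_
  rw [sum_product, sum_insert (by decide), sum_insert (by decide), sum_singleton]
  simp only [mod2R, mod2E, ite_not]

theorem prod_Tk_rowOf (n M : ℕ) (y : ℝ) {S : Finset (ℤ × ℤ)} (hS : S ⊆ dom n M) :
    ∏ b ∈ range M, Tk n y b (rowOf n M S (b + 1)) (rowOf n M S b) = y ^ (2 * nWalls S) := by
  have h1 : ∑ b ∈ range M, mod2R n M S (1, 0) (b + 1) = ∑ b ∈ range M, mod2R n M S (1, 0) b := by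
    have h2 := sum_range_succ (mod2R n M S (1, 0)) M
    rw [sum_range_succ', mod2_edge hS (Or.inl rfl), mod2_edge hS (Or.inr rfl)] at h2
    exact h2
  rw [prod_congr rfl fun b _ => mod2_Tk hS y b, prod_mul_distrib, prod_mul_distrib,
    prod_pow_eq_pow_sum, prod_pow_eq_pow_sum, prod_pow_eq_pow_sum, h1, mod2_count hS,
    sum_add_distrib (f := fun b => mod2R n M S (1, 0) b)]
  ring

end Pool.Agent.TAF
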