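import Pool.Agent.P.MP_cb4022_pr.Defs
import Pool.Agent.P.MP_cb4022_pr.Mod1
import Pool.Agent.P.MP_cb4022_pr.Mod2
import Pool.Agent.P.MP_cb4022_pr.T1b

open scoped Classical Matrix
open Finset

noncomputable section

namespace Pool.Agent.TAF

theorem mod3_finite (D : Finset (ℤ × ℤ)) :
    {e ∈ tri.edgeSet | ∃ u ∈ e, u ∈ D}.Finite := by
  refine Set.Finite.subset (Finset.finite_toSet
    ((D ×ˢ ({(1, 0), (-1, 0), (0, 1), (0, -1), (1, -1), (-1, 1)} : Finset (ℤ × ℤ))).image
      fun q => s(q.1, q.1 + q.2))) ?_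
  rintro e ⟨he, u, hu, huD⟩
  obtain ⟨v, rfl⟩ := Sym2.mem_iff_exists.1 hu
  have hadj : tri.Adj u v := he
  refine Finset.mem_coe.2 (Finset.mem_image.2 ⟨(u, v - u), Finset.mem_product.2 ⟨huD, hadj⟩, ?_⟩)
  simp

theorem energy_add (D : Finset (ℤ × ℤ)) : ∃ N₀ : ℕ, ∀ S ⊆ D, energy D S + nWalls S = N₀ := by
  refine ⟨{e ∈ tri.edgeSet | ∃ u ∈ e, u ∈ D}.ncard, fun S hS => ?_⟩
  have hfin := mod3_finite D
  have hU : {e ∈ tri.edgeSet | ∃ u ∈ e, u ∈ D} =
      {e ∈ tri.edgeSet | (∃ u ∈ e, u ∈ D) ∧ ∀ u ∈ e, ∀ v ∈ e, (u ∈ S ↔ v ∈ S)} ∪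
        {e | IsWall S e} := by
    ext e
    constructor
    · rintro ⟨he, hD⟩
      by_cases h : ∀ u ∈ e, ∀ v ∈ e, (u ∈ S ↔ v ∈ S)
      · exact Or.inl ⟨he, hD, h⟩
      · right
        refine ⟨he, ?_⟩
        by_contra hc
        apply h
        intro u hu v hv
        constructor
        · intro h1
          by_contra h2
          exact hc ⟨u, hu, v, hv, h1, h2⟩
        · intro h1
          by_contra h2
          exact hc ⟨v, hv, u, hu, h1, h2⟩
    · rintro (⟨he, hD, -⟩ | ⟨he, u, hu, v, -, h1, -⟩)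
      · exact ⟨he, hD⟩
      · exact ⟨he, u, hu, hS h1⟩
  have hdis : Disjoint
      {e ∈ tri.edgeSet | (∃ u ∈ e, u ∈ D) ∧ ∀ u ∈ e, ∀ v ∈ e, (u ∈ S ↔ v ∈ S)}
        {e | IsWall S e} := by
    rw [Set.disjoint_left]
    rintro e ⟨-, -, h⟩ ⟨-, u, hu, v, hv, h1, h2⟩
    exact h2 ((h u hu v hv).1 h1)
  rw [hU] at hfin ⊢
  rw [Set.ncard_union_eq hdis (hfin.subset Set.subset_union_left)
    (hfin.subset Set.subset_union_right)]
  rfl

theorem mod3_getD {n M : ℕ} (g : Fin M → St n) {b : ℕ} (hb : b < M) :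
    (List.ofFn g).getD b (eAll n) = g ⟨b, hb⟩ := by
  rw [List.getD_eq_getElem _ _ (by simpa using hb)]
  simp

theorem mod3_toSet_rowOf {n M : ℕ} {S : Finset (ℤ × ℤ)} (hS : S ⊆ dom n M) :
    toSet n M (List.ofFn fun i : Fin M => rowOf n M S i.val) = S := by
  ext p
  unfold toSet
  rw [Finset.mem_filter]
  by_cases hp : p ∈ dom n M
  · have hp' := mem_dom.1 hp
    have hb : p.2.toNat < M := by omega
    rw [mod3_getD _ hb, slot_rowOf]
    have h1 : ((p.2.toNat : ℕ) : ℤ) = p.2 := by omega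
    have h2 : (((p.1 + (p.2 + 1) / 2).toNat : ℕ) : ℤ) = p.1 + (p.2 + 1) / 2 := by omega
    simp only [h1, h2, add_sub_cancel_right, Prod.mk.eta, Finset.mem_inter, hp, and_true,
      true_and, decide_eq_false_iff_not, not_not]
  · constructor
    · intro h
      exact absurd h.1 hp
    · intro h
      exact absurd (hS h) hp

theorem mod3_rowOf_out {n M : ℕ} (S : Finset (ℤ × ℤ)) {b : ℕ} (hb : b = 0 ∨ M ≤ b) :
    rowOf n M S b = eAll n := by
  apply St.ext_slot
  intro j _ _
  rw [slot_rowOf, slot_eAll, decide_eq_true_iff, Finset.mem_inter]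
  rintro ⟨-, h⟩
  have := mem_dom.1 h
  simp only at this
  omega

theorem mod3_par {n M : ℕ} (y : ℝ) (h : Fin (M + 1) → St n) (h0 : h 0 = eAll n)
    (hne : ∏ i : Fin M, Tk n y (0 + i.val) (h i.succ) (h i.castSucc) ≠ 0) (i : Fin (M + 1)) :
    par (h i) = true := by
  induction i using Fin.induction with
  | zero => rw [h0]; exact slot_eAll _ _
  | succ i ih =>
    have h1 := Finset.prod_ne_zero_iff.1 hne i (Finset.mem_univ _)
    by_contra hc
    apply h1
    apply Tk_par
    rw [ih]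
    exact hc

theorem mod3_rowOf_toSet {n M : ℕ} (h : Fin (M + 1) → St n) (h0 : h 0 = eAll n)
    (hl : h (Fin.last M) = eAll n) (hp : ∀ i, par (h i) = true) (i : Fin (M + 1)) :
    rowOf n M (toSet n M (List.ofFn fun i : Fin M => h i.castSucc)) i.val = h i := by
  by_cases hi0 : i.val = 0
  · rw [mod3_rowOf_out _ (Or.inl hi0), ← h0]
    congr 1
    exact Fin.ext hi0.symm
  by_cases hiM : M ≤ i.val
  · rw [mod3_rowOf_out _ (Or.inr hiM), ← hl]
    congr 1
    apply Fin.ext
    have := i.isLt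
    simp only [Fin.val_last]
    omega
  have hiM' : i.val < M := by omega
  apply St.ext_slot
  intro j hj1 hj2
  rw [slot_rowOf]
  by_cases hj : j = n + 1
  · have h1 : slot (h i) j = true := by rw [hj]; exact hp i
    rw [h1, decide_eq_true_iff, Finset.mem_inter]
    rintro ⟨-, h2⟩
    have := mem_dom.1 h2
    simp only at this
    omega
  · have hd : ((j : ℤ) - (((i.val : ℕ) : ℤ) + 1) / 2, ((i.val : ℕ) : ℤ)) ∈ dom n M := by
      rw [mem_dom]
      simp only
      omega
    have h3 : ((j : ℤ) - (((i.val : ℕ) : ℤ) + 1) / 2 + (((i.val : ℕ) : ℤ) + 1) / 2).toNat = j := by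
      omega
    have h4 : (⟨i.val, hiM'⟩ : Fin M).castSucc = i := Fin.ext rfl
    have hmem : ((j : ℤ) - (((i.val : ℕ) : ℤ) + 1) / 2, ((i.val : ℕ) : ℤ)) ∈
        toSet n M (List.ofFn fun i : Fin M => h i.castSucc) ∩ dom n M ↔
          slot (h i) j = false := by
      unfold toSet
      rw [Finset.mem_inter, Finset.mem_filter]
      simp only [hd, true_and, and_true, Int.toNat_natCast, h3]
      rw [mod3_getD _ hiM', h4]
    cases hs : slot (h i) j
    · rw [decide_eq_false_iff_not, not_not]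
      exact hmem.2 hs
    · rw [decide_eq_true_iff]
      intro hc
      have := hmem.1 hc
      rw [hs] at this
      exact absurd this (by simp)

theorem chain_model {n M : ℕ} (hM : 1 ≤ M) (y : ℝ) (F : Finset (ℤ × ℤ) → ℝ) :
    chain (Tk n y) id M 0 (fun l => F (toSet n M l)) (eAll n) (eAll n) =
      ∑ S ∈ (dom n M).powerset, y ^ (2 * nWalls S) * F S := by
  have _ := hM
  rw [chain_path]
  symm
  refine Finset.sum_of_injOn (fun S (i : Fin (M + 1)) => rowOf n M S i.val) ?_ ?_ ?_ ?_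
  · intro S hS S' hS' hSS
    have hS1 : S ⊆ dom n M := Finset.mem_powerset.1 (Finset.mem_coe.1 hS)
    have hS2 : S' ⊆ dom n M := Finset.mem_powerset.1 (Finset.mem_coe.1 hS')
    rw [← mod3_toSet_rowOf hS1, ← mod3_toSet_rowOf hS2]
    congr 2
    funext i
    exact congrFun hSS i.castSucc
  · intro S _
    exact Finset.mem_coe.2 (Finset.mem_univ _)
  · intro h _ hnot
    by_contra hne
    apply hnot
    split_ifs at hne with hc
    · have hp := mod3_par y h hc.1 (right_ne_zero_of_mul hne)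
      refine ⟨toSet n M (List.ofFn fun i : Fin M => h i.castSucc), ?_, ?_⟩
      · exact Finset.mem_coe.2 (Finset.mem_powerset.2 (Finset.filter_subset _ _))
      · funext i
        exact mod3_rowOf_toSet h hc.1 hc.2 hp i
    · exact absurd rfl hne
  · intro S hS
    have hS1 : S ⊆ dom n M := Finset.mem_powerset.1 hS
    rw [if_pos ⟨mod3_rowOf_out S (Or.inl rfl), mod3_rowOf_out S (Or.inr le_rfl)⟩]
    simp only [Fin.val_castSucc, Fin.val_succ, zero_add]
    rw [mod3_toSet_rowOf hS1, ← prod_Tk_rowOf n M y hS1, mul_comm, Finset.prod_range]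

theorem expect_eq {n M : ℕ} (hM : 1 ≤ M) (β : ℝ) (F : Finset (ℤ × ℤ) → ℝ) :
    expect β (dom n M) F =
      chain (Tk n (Real.exp (β / 2))) id M 0 (fun l => F (toSet n M l)) (eAll n) (eAll n) /
        prodT (Tk n (Real.exp (β / 2))) M 0 (eAll n) (eAll n) := by
  obtain ⟨N₀, hN⟩ := energy_add (dom n M)
  have hw : ∀ S ∈ (dom n M).powerset, Real.exp (-β * energy (dom n M) S) =
      Real.exp (-β * N₀) * Real.exp (β / 2) ^ (2 * nWalls S) := by
    intro S hS
    rw [← Real.exp_nat_mul, ← Real.exp_add, ← hN S (Finset.mem_powerset.1 hS)]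
    congr 1
    push_cast
    ring
  have h1 := chain_model (n := n) hM (Real.exp (β / 2)) (fun _ => (1 : ℝ))
  rw [chain_const, one_smul] at h1
  rw [chain_model hM, h1]
  unfold expect
  have e1 : ∑ S ∈ (dom n M).powerset, Real.exp (-β * energy (dom n M) S) * F S =
      Real.exp (-β * N₀) *
        ∑ S ∈ (dom n M).powerset, Real.exp (β / 2) ^ (2 * nWalls S) * F S := by
    rw [Finset.mul_sum]
    refine Finset.sum_congr rfl fun S hS => ?_
    rw [hw S hS, mul_assoc]
  have e2 : ∑ S ∈ (dom n M).powerset, Real.exp (-β * energy (dom n M) S) =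
      Real.exp (-β * N₀) *
        ∑ S ∈ (dom n M).powerset, Real.exp (β / 2) ^ (2 * nWalls S) * 1 := by
    rw [Finset.mul_sum]
    refine Finset.sum_congr rfl fun S hS => ?_
    rw [hw S hS, mul_one]
  rw [e1, e2, mul_div_mul_left _ _ (Real.exp_ne_zero _)]

end Pool.Agent.TAF
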