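import Pool.Agent.P.MP_cb4022_pr.Defs

open scoped Classical Matrix
open Finset

noncomputable section

namespace Pool.Agent.TAF

theorem top1_prim (a₀ : ℤ) (g : ℤ → ZMod 2) :
    ∃ G : ℤ → ZMod 2, G a₀ = 0 ∧ ∀ a, a₀ ≤ a → G (a + 1) = G a + g a := by
  refine ⟨fun a => ∑ i ∈ range (a - a₀).toNat, g (a₀ + i), by simp, fun a ha => ?_⟩
  have e : (a + 1 - a₀).toNat = (a - a₀).toNat + 1 := by omega
  have e' : a₀ + ((a - a₀).toNat : ℤ) = a := by omega
  simp only [e, sum_range_succ, e']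

theorem top1_adj {a b c d : ℤ} : tri.Adj (a, b) (c, d) ↔
    (c = a + 1 ∧ d = b) ∨ (a = c + 1 ∧ d = b) ∨ (c = a ∧ d = b + 1) ∨ (c = a ∧ b = d + 1) ∨
      (c = a + 1 ∧ b = d + 1) ∨ (a = c + 1 ∧ d = b + 1) := by
  simp only [tri, Prod.mk_sub_mk, Finset.mem_insert, Finset.mem_singleton, Prod.mk.injEq]
  omega

theorem top1_z1 : ∀ x y z : ZMod 2, x + y + (x + (y + z)) = z := by decide

theorem top1_z2 : ∀ x y z : ZMod 2, x + y + (x + z + y) = z := by decide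

theorem top1_z3 : ∀ A B C ab bc ac : ZMod 2, A + B = ab → A + C = ac → ab + bc + ac = 0 →
    B + C = bc := by decide

theorem top1_z4 : ∀ B C D bc bd cd : ZMod 2, B + C = bc → B + D = bd → bd + cd + bc = 0 →
    C + D = cd := by decide

theorem potential (a₀ a₁ b₀ b₁ : ℤ) (ω : ℤ × ℤ → ℤ × ℤ → ZMod 2) (hs : ∀ p q, ω p q = ω q p)
    (ht : ∀ p q r, InBox a₀ a₁ b₀ b₁ p → InBox a₀ a₁ b₀ b₁ q → InBox a₀ a₁ b₀ b₁ r →
      tri.Adj p q → tri.Adj q r → tri.Adj r p → ω p q + ω q r + ω r p = 0) :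
    ∃ φ : ℤ × ℤ → ZMod 2, ∀ p q, InBox a₀ a₁ b₀ b₁ p → InBox a₀ a₁ b₀ b₁ q → tri.Adj p q →
      φ p + φ q = ω p q := by
  obtain ⟨H, -, hH⟩ := top1_prim a₀ fun a => ω (a, b₀) (a + 1, b₀)
  choose V hV0 hV using fun a : ℤ => top1_prim b₀ fun b => ω (a, b) (a, b + 1)
  let φ : ℤ × ℤ → ZMod 2 := fun p => H p.1 + V p.1 p.2
  have ver : ∀ a b, b₀ ≤ b → φ (a, b) + φ (a, b + 1) = ω (a, b) (a, b + 1) := by
    intro a b hb
    simp only [φ, hV a b hb]
    exact top1_z1 _ _ _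
  have dia' : ∀ a b, a₀ ≤ a → a + 1 ≤ a₁ → b₀ ≤ b → b + 1 ≤ b₁ →
      φ (a, b) + φ (a + 1, b) = ω (a, b) (a + 1, b) →
      φ (a + 1, b) + φ (a, b + 1) = ω (a + 1, b) (a, b + 1) := by
    intro a b h1 h2 h3 h4 h5
    have h6 := ht (a, b) (a + 1, b) (a, b + 1) (by simp only [InBox]; omega)
      (by simp only [InBox]; omega) (by simp only [InBox]; omega) (by rw [top1_adj]; omega)
      (by rw [top1_adj]; omega) (by rw [top1_adj]; omega)
    rw [hs (a, b + 1) (a, b)] at h6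
    exact top1_z3 _ _ _ _ _ _ h5 (ver a b h3) h6
  have hor : ∀ a, a₀ ≤ a → a + 1 ≤ a₁ → ∀ b, b₀ ≤ b → b ≤ b₁ →
      φ (a, b) + φ (a + 1, b) = ω (a, b) (a + 1, b) := by
    intro a h1 h2 b h3
    induction b, h3 using Int.le_induction with
    | base =>
      intro _
      simp only [φ, hH a h1, hV0]
      exact top1_z2 _ _ _
    | succ b h3 ih =>
      intro h4
      have h5 := dia' a b h1 h2 h3 h4 (ih (by omega))
      have h6 := ht (a + 1, b) (a + 1, b + 1) (a, b + 1) (by simp only [InBox]; omega)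
        (by simp only [InBox]; omega) (by simp only [InBox]; omega) (by rw [top1_adj]; omega)
        (by rw [top1_adj]; omega) (by rw [top1_adj]; omega)
      rw [hs (a + 1, b + 1) (a, b + 1), hs (a, b + 1) (a + 1, b)] at h6
      exact top1_z4 _ _ _ _ _ _ h5 (ver (a + 1) b h3) h6
  refine ⟨φ, ?_⟩
  rintro ⟨a, b⟩ ⟨c, d⟩ hp hq h
  simp only [InBox] at hp hq
  rcases top1_adj.1 h with ⟨rfl, rfl⟩ | ⟨rfl, rfl⟩ | ⟨rfl, rfl⟩ | ⟨rfl, rfl⟩ | ⟨rfl, rfl⟩ |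
    ⟨rfl, rfl⟩
  · exact hor _ (by omega) (by omega) _ (by omega) (by omega)
  · rw [add_comm (φ _), hs]
    exact hor _ (by omega) (by omega) _ (by omega) (by omega)
  · exact ver _ _ (by omega)
  · rw [add_comm (φ _), hs]
    exact ver _ _ (by omega)
  · rw [add_comm (φ _), hs]
    exact dia' _ _ (by omega) (by omega) (by omega) (by omega)
      (hor _ (by omega) (by omega) _ (by omega) (by omega))
  · exact dia' _ _ (by omega) (by omega) (by omega) (by omega)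
      (hor _ (by omega) (by omega) _ (by omega) (by omega))

theorem box_ivt {a₀ a₁ b₀ b₁ : ℤ} {α : Type} (φ : ℤ × ℤ → α) {u v : ℤ × ℤ}
    (hu : InBox a₀ a₁ b₀ b₁ u) (hv : InBox a₀ a₁ b₀ b₁ v) (h : φ u ≠ φ v) :
    ∃ p q, InBox a₀ a₁ b₀ b₁ p ∧ InBox a₀ a₁ b₀ b₁ q ∧ tri.Adj p q ∧ φ p ≠ φ q := by
  by_contra hne
  have hc : ∀ p q, InBox a₀ a₁ b₀ b₁ p → InBox a₀ a₁ b₀ b₁ q → tri.Adj p q → φ p = φ q :=
    fun p q hp hq hpq => by_contra fun h' => hne ⟨p, q, hp, hq, hpq, h'⟩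
  have h1 : ∀ b, b₀ ≤ b → b ≤ b₁ → ∀ a, a₀ ≤ a → a ≤ a₁ → φ (a, b) = φ (a₀, b) := by
    intro b h1 h2 a h3
    induction a, h3 using Int.le_induction with
    | base => exact fun _ => rfl
    | succ a h3 ih =>
      intro h4
      rw [← ih (by omega)]
      exact hc _ _ (by simp only [InBox]; omega) (by simp only [InBox]; omega)
        (by rw [top1_adj]; omega)
  have h2 : a₀ ≤ a₁ → ∀ b, b₀ ≤ b → b ≤ b₁ → φ (a₀, b) = φ (a₀, b₀) := by
    intro h0 b h3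
    induction b, h3 using Int.le_induction with
    | base => exact fun _ => rfl
    | succ b h3 ih =>
      intro h4
      rw [← ih (by omega)]
      exact hc _ _ (by simp only [InBox]; omega) (by simp only [InBox]; omega)
        (by rw [top1_adj]; omega)
  have h3 : ∀ p, InBox a₀ a₁ b₀ b₁ p → φ p = φ (a₀, b₀) := fun p hp =>
    (h1 p.2 hp.2.2.1 hp.2.2.2 p.1 hp.1 hp.2.1).trans
      (h2 (hp.1.trans hp.2.1) p.2 hp.2.2.1 hp.2.2.2)
  exact h ((h3 u hu).trans (h3 v hv).symm)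

end Pool.Agent.TAF
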