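import Pool.Agent.P.MP_cb4022_pr.Defs
import Pool.Agent.P.MP_cb4022_pr.Top1

open scoped Classical Matrix
open Finset

noncomputable section

namespace Pool.Agent.TAF

/-- The class of an edge. -/
def top2Cl (Q : ℤ × ℤ → Prop) (X : ℤ × ℤ → Bool) (e : Sym2 (ℤ × ℤ)) : Set (Sym2 (ℤ × ℤ)) :=
  {e' | Relation.ReflTransGen (Step Q X) e e'}

/-- The indicator of the bichromatic edges of one class. -/
def top2Om (Q : ℤ × ℤ → Prop) (X : ℤ × ℤ → Bool) (k : Set (Sym2 (ℤ × ℤ))) (p q : ℤ × ℤ) :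
    ZMod 2 :=
  if X p ≠ X q ∧ top2Cl Q X s(p, q) = k then 1 else 0

theorem top2_symm (Q : ℤ × ℤ → Prop) (X : ℤ × ℤ → Bool) (k : Set (Sym2 (ℤ × ℤ))) (p q : ℤ × ℤ) :
    top2Om Q X k p q = top2Om Q X k q p := by
  simp only [top2Om, Sym2.eq_swap (a := p), ne_comm (a := X p)]

theorem top2_zero {Q : ℤ × ℤ → Prop} {X : ℤ × ℤ → Bool} (k : Set (Sym2 (ℤ × ℤ))) {p q : ℤ × ℤ}
    (h : X p = X q) : top2Om Q X k p q = 0 := if_neg fun h' => h'.1 h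

theorem top2_two {Q : ℤ × ℤ → Prop} {X : ℤ × ℤ → Bool} (k : Set (Sym2 (ℤ × ℤ))) {a b c : ℤ × ℤ}
    (ha : Q a) (hb : Q b) (hc : Q c) (h1 : tri.Adj a b) (h2 : tri.Adj b c) (h3 : tri.Adj c a)
    (h4 : X a ≠ X b) (h5 : X b = X c) :
    top2Om Q X k a b + top2Om Q X k b c + top2Om Q X k c a = 0 := by
  have h6 : X a ≠ X c := h5 ▸ h4
  have s1 : Step Q X s(a, b) s(a, c) := ⟨a, b, c, ha, hb, hc, h1, h3.symm, h2, h4, h6, rfl, rfl⟩
  have s2 : Step Q X s(a, c) s(a, b) :=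
    ⟨a, c, b, ha, hc, hb, h3.symm, h1, h2.symm, h6, h4, rfl, rfl⟩
  have e : top2Cl Q X s(a, b) = top2Cl Q X s(a, c) :=
    Set.ext fun _ => ⟨fun h => .head s2 h, fun h => .head s1 h⟩
  have e' : top2Om Q X k a b = top2Om Q X k a c := by
    simp only [top2Om, e, ne_eq, h4, h6, not_false_eq_true]
  rw [top2_zero k h5, add_zero, top2_symm Q X k c a, e', CharTwo.add_self_eq_zero]

theorem top2_tri {Q : ℤ × ℤ → Prop} {X : ℤ × ℤ → Bool} (k : Set (Sym2 (ℤ × ℤ))) {a b c : ℤ × ℤ}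
    (ha : Q a) (hb : Q b) (hc : Q c) (h1 : tri.Adj a b) (h2 : tri.Adj b c) (h3 : tri.Adj c a) :
    top2Om Q X k a b + top2Om Q X k b c + top2Om Q X k c a = 0 := by
  by_cases e1 : X a = X b
  · by_cases e2 : X b = X c
    · rw [top2_zero k e1, top2_zero k e2, top2_zero k (e1.trans e2).symm, add_zero, add_zero]
    · rw [← top2_two k hc ha hb h3 h1 h2 (fun h => e2 (h.trans e1).symm) e1]
      ring
  · by_cases e2 : X b = X c
    · exact top2_two k ha hb hc h1 h2 h3 e1 e2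
    · have e3 : X c = X a := by
        revert e1 e2
        cases X a <;> cases X b <;> cases X c <;> simp
      rw [← top2_two k hb hc ha h2 h3 h1 e2 e3]
      ring

theorem interface {a₀ a₁ b₀ b₁ : ℤ} (X : ℤ × ℤ → Bool) {u v : ℤ × ℤ}
    (hu : InBox a₀ a₁ b₀ b₁ u) (hv : InBox a₀ a₁ b₀ b₁ v) (h : X u ≠ X v) :
    ∃ (φ : ℤ × ℤ → ZMod 2) (e : Sym2 (ℤ × ℤ)), φ u ≠ φ v ∧
      ∀ p q, InBox a₀ a₁ b₀ b₁ p → InBox a₀ a₁ b₀ b₁ q → tri.Adj p q → φ p ≠ φ q →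
        X p ≠ X q ∧ Relation.ReflTransGen (Step (InBox a₀ a₁ b₀ b₁) X) e s(p, q) := by
  choose φ hφ using fun k => potential a₀ a₁ b₀ b₁ (top2Om (InBox a₀ a₁ b₀ b₁) X k)
    (top2_symm _ X k) fun _ _ _ => top2_tri k
  let B : Finset (ℤ × ℤ) := Icc a₀ a₁ ×ˢ Icc b₀ b₁
  have hB : ∀ p, InBox a₀ a₁ b₀ b₁ p → p ∈ B := fun p hp =>
    mem_product.2 ⟨mem_Icc.2 ⟨hp.1, hp.2.1⟩, mem_Icc.2 hp.2.2⟩
  let K := (B ×ˢ B).image fun p => top2Cl (InBox a₀ a₁ b₀ b₁) X s(p.1, p.2)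
  have key : ∑ k ∈ K, φ k u + (if X u = true then 1 else 0) =
      ∑ k ∈ K, φ k v + (if X v = true then 1 else 0) := by
    by_contra hc
    obtain ⟨p, q, hp, hq, ha, hne⟩ :=
      box_ivt (fun p => ∑ k ∈ K, φ k p + (if X p = true then 1 else 0)) hu hv hc
    refine hne (CharTwo.add_eq_zero.1 ?_)
    have h1 : top2Cl (InBox a₀ a₁ b₀ b₁) X s(p, q) ∈ K :=
      mem_image.2 ⟨(p, q), mem_product.2 ⟨hB p hp, hB q hq⟩, rfl⟩
    rw [add_add_add_comm, ← sum_add_distrib, sum_congr rfl fun k _ => hφ k p q hp hq ha]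
    by_cases e : X p = X q
    · rw [sum_eq_zero fun k _ => top2_zero k e, e, zero_add, CharTwo.add_self_eq_zero]
    · have h2 : ∀ k ∈ K, k ≠ top2Cl (InBox a₀ a₁ b₀ b₁) X s(p, q) →
          top2Om (InBox a₀ a₁ b₀ b₁) X k p q = 0 := fun k _ hk => if_neg fun h' => hk h'.2.symm
      rw [sum_eq_single_of_mem _ h1 h2, top2Om, if_pos ⟨e, rfl⟩]
      revert e
      cases X p <;> cases X q <;> simp [CharTwo.add_self_eq_zero]
  obtain ⟨k, hk, hne⟩ : ∃ k ∈ K, φ k u ≠ φ k v := by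
    by_contra hc
    push Not at hc
    rw [sum_congr rfl hc, add_right_inj] at key
    revert h key
    cases X u <;> cases X v <;> simp
  obtain ⟨e, -, rfl⟩ := mem_image.1 hk
  refine ⟨_, s(e.1, e.2), hne, fun p q hp hq ha hn => ?_⟩
  have h1 : top2Om (InBox a₀ a₁ b₀ b₁) X (top2Cl (InBox a₀ a₁ b₀ b₁) X s(e.1, e.2)) p q ≠ 0 :=
    fun h0 => hn (CharTwo.add_eq_zero.1 ((hφ _ p q hp hq ha).trans h0))
  have h2 := (ite_ne_right_iff.1 h1).1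
  exact ⟨h2.1, h2.2.subset Relation.ReflTransGen.refl⟩

end Pool.Agent.TAF
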