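import Pool.Agent.P.MP_cb4022_pr.Defs
import Pool.Agent.P.MP_cb4022_pr.Top2

open scoped Classical Matrix
open Finset

noncomputable section

namespace Pool.Agent.TAF

theorem top3_adj {p q : ℤ × ℤ} (h : tri.Adj p q) : q.1 ≤ p.1 + 1 := by
  obtain ⟨a, b⟩ := p
  obtain ⟨c, d⟩ := q
  simp only [tri, Prod.mk_sub_mk, Finset.mem_insert, Finset.mem_singleton, Prod.mk.injEq] at h ⊢
  omega

theorem top3_end {X : ℤ × ℤ → Bool} {a b p : ℤ × ℤ} (hp : p ∈ s(a, b)) (h : X p = false) :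
    (X a = true → p = b) ∧ (X b = true → p = a) := by
  rcases Sym2.mem_iff.1 hp with rfl | rfl
  · exact ⟨fun e => absurd (h.symm.trans e) Bool.false_ne_true, fun _ => rfl⟩
  · exact ⟨fun _ => rfl, fun e => absurd (h.symm.trans e) Bool.false_ne_true⟩

theorem top3_cases {x y : Bool} (h : x ≠ y) : (x = true ∧ y = false) ∨ (x = false ∧ y = true) := by
  revert x y
  decide

theorem top3_conn {Q G : ℤ × ℤ → Prop} {X : ℤ × ℤ → Bool}
    (hG : ∀ p q, Q p → Q q → tri.Adj p q → X p = true → X q = false → G q) {e : Sym2 (ℤ × ℤ)}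
    {a b x : ℤ × ℤ} (hab : X a ≠ X b) (hx : x ∈ s(a, b)) (hx' : X x = false)
    (h : Relation.ReflTransGen (Step Q X) e s(a, b)) :
    (∃ p ∈ e, X p = false) ∧ ∀ p ∈ e, X p = false →
      Relation.ReflTransGen (fun p q => tri.Adj p q ∧ G p ∧ G q) p x := by
  induction h using Relation.ReflTransGen.head_induction_on with
  | refl =>
    refine ⟨⟨x, hx, hx'⟩, fun p hp hp' => ?_⟩
    rcases top3_cases hab with h1 | h1
    · rw [(top3_end hp hp').1 h1.1, (top3_end hx hx').1 h1.1]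
    · rw [(top3_end hp hp').2 h1.2, (top3_end hx hx').2 h1.2]
  | head hs _ ih =>
    obtain ⟨u, v, w, qu, qv, qw, a1, a2, a3, n1, n2, rfl, rfl⟩ := hs
    rcases top3_cases n1 with h1 | h1
    · have h2 : X w = false := by
        rcases top3_cases n2 with h2 | h2
        · exact h2.2
        · exact absurd (h2.1.symm.trans h1.1) Bool.false_ne_true
      refine ⟨⟨v, Sym2.mem_mk_right _ _, h1.2⟩, fun p hp hp' => ?_⟩
      rw [(top3_end hp hp').1 h1.1]
      exact (ih.2 w (Sym2.mem_mk_right _ _) h2).head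
        ⟨a3, hG u v qu qv a1 h1.1 h1.2, hG u w qu qw a2 h1.1 h2⟩
    · refine ⟨⟨u, Sym2.mem_mk_left _ _, h1.1⟩, fun p hp hp' => ?_⟩
      rw [(top3_end hp hp').2 h1.2]
      exact ih.2 u (Sym2.mem_mk_left _ _) h1.1

theorem top3_symm {α : Type} {r : α → α → Prop} (hr : ∀ a b, r a b → r b a) {a b : α}
    (h : Relation.ReflTransGen r a b) : Relation.ReflTransGen r b a := by
  induction h with
  | refl => exact .refl
  | tail _ h1 ih => exact ih.head (hr _ _ h1)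

theorem top3_mono {α : Type} {r r' : α → α → Prop} {a b : α} (h : Relation.ReflTransGen r a b)
    (hr : ∀ a b, r a b → r' a b) : Relation.ReflTransGen r' a b := by
  induction h with
  | refl => exact .refl
  | tail _ h1 ih => exact ih.tail (hr _ _ h1)

theorem top3_main {z : ℤ × ℤ} {s : ℕ} {G : ℤ × ℤ → Prop} {X : ℤ × ℤ → Bool}
    (hG : ∀ p q, InBox (z.1 - 1) (z.1 + s) z.2 (z.2 + s) p →
      InBox (z.1 - 1) (z.1 + s) z.2 (z.2 + s) q → tri.Adj p q → X p = true → X q = false → G q)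
    (hl : ∀ p, p.1 = z.1 - 1 → X p = true) (hr : ∀ p, p.1 = z.1 + s → X p = false) :
    ∃ u v, G u ∧ u.2 = z.2 ∧ v.2 = z.2 + s ∧
      Relation.ReflTransGen (fun p q => tri.Adj p q ∧ G p ∧ G q) u v := by
  obtain ⟨φ, e, h1, h2⟩ := interface (a₀ := z.1 - 1) (a₁ := z.1 + s) (b₀ := z.2) (b₁ := z.2 + s) X
    (u := (z.1 - 1, z.2)) (v := (z.1 + s, z.2)) (by simp only [InBox]; omega)
    (by simp only [InBox]; omega) (by rw [hl _ rfl, hr _ rfl]; decide)
  have col : ∀ a : ℤ, z.1 - 1 ≤ a → a ≤ z.1 + s → (∀ p q : ℤ × ℤ, p.1 = a → q.1 = a → X p = X q) →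
      φ (a, z.2 + s) = φ (a, z.2) := by
    intro a b1 b2 hX
    by_contra hne
    obtain ⟨p, q, hp, hq, hpq, h3⟩ := box_ivt (a₀ := a) (a₁ := a) (b₀ := z.2) (b₁ := z.2 + s) φ
      (by simp only [InBox]; omega) (by simp only [InBox]; omega) hne
    simp only [InBox] at hp hq
    exact (h2 p q (by simp only [InBox]; omega) (by simp only [InBox]; omega) hpq h3).1
      (hX p q (by omega) (by omega))
  have row : ∀ b : ℤ, z.2 ≤ b → b ≤ z.2 + s → φ (z.1 - 1, b) ≠ φ (z.1 + s, b) →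
      ∃ x : ℤ × ℤ, G x ∧ x.2 = b ∧ (∃ p ∈ e, X p = false) ∧ ∀ p ∈ e, X p = false →
        Relation.ReflTransGen (fun p q => tri.Adj p q ∧ G p ∧ G q) p x := by
    intro b b1 b2 hne
    obtain ⟨p, q, hp, hq, hpq, h3⟩ := box_ivt (a₀ := z.1 - 1) (a₁ := z.1 + s) (b₀ := b) (b₁ := b) φ
      (by simp only [InBox]; omega) (by simp only [InBox]; omega) hne
    have hp' : InBox (z.1 - 1) (z.1 + s) z.2 (z.2 + s) p := by
      simp only [InBox] at hp ⊢
      omega
    have hq' : InBox (z.1 - 1) (z.1 + s) z.2 (z.2 + s) q := by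
      simp only [InBox] at hq ⊢
      omega
    obtain ⟨h4, h5⟩ := h2 p q hp' hq' hpq h3
    rcases top3_cases h4 with h6 | h6
    · exact ⟨q, hG p q hp' hq' hpq h6.1 h6.2, le_antisymm hq.2.2.2 hq.2.2.1,
        top3_conn hG h4 (Sym2.mem_mk_right _ _) h6.2 h5⟩
    · exact ⟨p, hG q p hq' hp' hpq.symm h6.2 h6.1, le_antisymm hp.2.2.2 hp.2.2.1,
        top3_conn hG h4 (Sym2.mem_mk_left _ _) h6.1 h5⟩
  obtain ⟨u, u1, u2, ⟨p, p1, p2⟩, u3⟩ := row z.2 le_rfl (by omega) h1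
  obtain ⟨v, -, v2, -, v3⟩ := row (z.2 + s) (by omega) le_rfl (by
    rwa [col _ le_rfl (by omega) fun p q a b => (hl p a).trans (hl q b).symm,
      col _ (by omega) le_rfl fun p q a b => (hr p a).trans (hr q b).symm])
  exact ⟨u, v, u1, u2, v2,
    (top3_symm (fun a b h => ⟨h.1.symm, h.2.2, h.2.1⟩) (u3 p p1 p2)).trans (v3 p p1 p2)⟩

theorem hex (col : ℤ × ℤ → Bool) (z : ℤ × ℤ) (s : ℕ) : Cross col true z s ∨ Cross col false z s := by
  let Re : ℤ × ℤ → Prop := fun p => ∃ u, InRh z s u ∧ col u = true ∧ u.1 = z.1 ∧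
    Relation.ReflTransGen (fun p q => tri.Adj p q ∧ InRh z s q ∧ col q = true) u p
  by_cases h : ∃ p, Re p ∧ p.1 = z.1 + s
  · obtain ⟨p, ⟨u, u1, u2, u3, u4⟩, hp⟩ := h
    exact Or.inl ⟨u, p, u1, u2, u4, Or.inl ⟨u3, hp⟩⟩
  · obtain ⟨u, v, u1, u2, v2, h1⟩ := top3_main (z := z) (s := s)
      (G := fun p => InRh z s p ∧ col p = false) (X := fun p => decide (p.1 = z.1 - 1 ∨ Re p))
      (by
        intro p q hp hq hpq h1 h2
        rw [decide_eq_true_eq] at h1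
        rw [decide_eq_false_iff_not, not_or] at h2
        have h3 : InRh z s q := by
          have := h2.1
          simp only [InRh, InBox] at hq ⊢
          omega
        refine ⟨h3, Bool.eq_false_iff.2 fun h4 => h2.2 ?_⟩
        rcases h1 with h1 | ⟨u, u1, u2, u3, u4⟩
        · exact ⟨q, h3, h4, le_antisymm (by have := top3_adj hpq; omega) h3.1, .refl⟩
        · exact ⟨u, u1, u2, u3, u4.tail ⟨hpq, h3, h4⟩⟩)
      (fun p hp => decide_eq_true (Or.inl hp))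
      (fun p hp => decide_eq_false (not_or.2 ⟨by omega, fun h1 => h ⟨p, h1, hp⟩⟩))
    exact Or.inr ⟨u, v, u1.1, u1.2, top3_mono h1 fun a b h => ⟨h.1, h.2.2⟩, Or.inr ⟨u2, v2⟩⟩

theorem cross_congr {col col' : ℤ × ℤ → Bool} {c c' : Bool} {z : ℤ × ℤ} {s : ℕ}
    (h : ∀ p, InRh z s p → (col p = c ↔ col' p = c')) : Cross col c z s ↔ Cross col' c' z s := by
  constructor
  · rintro ⟨u, v, h1, h2, h3, h4⟩
    exact ⟨u, v, h1, (h u h1).1 h2,
      top3_mono h3 fun a b e => ⟨e.1, e.2.1, (h b e.2.1).1 e.2.2⟩, h4⟩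
  · rintro ⟨u, v, h1, h2, h3, h4⟩
    exact ⟨u, v, h1, (h u h1).2 h2,
      top3_mono h3 fun a b e => ⟨e.1, e.2.1, (h b e.2.1).2 e.2.2⟩, h4⟩

end Pool.Agent.TAF
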