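import Pool.Agent.P.MP_cb4022_pr.Defs
import Pool.Agent.P.MP_cb4022_pr.Top2

open scoped Classical Matrix
open Finset

noncomputable section

namespace Pool.Agent.TAF

theorem top4_wall {S : Finset (ℤ × ℤ)} {p q : ℤ × ℤ} (ha : tri.Adj p q)
    (h : decide (p ∉ S) ≠ decide (q ∉ S)) : IsWall S s(p, q) := by
  refine ⟨ha, ?_⟩
  by_cases hp : p ∈ S
  · refine ⟨p, Sym2.mem_mk_left _ _, q, Sym2.mem_mk_right _ _, hp, fun hq => h ?_⟩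
    simp [hp, hq]
  · refine ⟨q, Sym2.mem_mk_right _ _, p, Sym2.mem_mk_left _ _, ?_, hp⟩
    by_contra hq
    exact h (by simp [hp, hq])

theorem top4_reach {S : Finset (ℤ × ℤ)} {Q : ℤ × ℤ → Prop} {e e' : Sym2 (ℤ × ℤ)}
    (h : Relation.ReflTransGen (Step Q fun p => decide (p ∉ S)) e e') :
    (wallGraph S).Reachable e e' := by
  induction h with
  | refl => exact SimpleGraph.Reachable.refl _
  | tail _ h ih =>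
    obtain ⟨a, b, c, -, -, -, h1, h2, h3, h4, h5, rfl, rfl⟩ := h
    refine ih.trans (SimpleGraph.Adj.reachable ?_)
    exact ⟨fun e => h3.ne (Sym2.congr_right.mp e), top4_wall h1 h4, top4_wall h2 h5,
      a, b, c, h3, rfl, rfl⟩

theorem top4_far {S : Finset (ℤ × ℤ)} {N : ℤ} {φ : ℤ × ℤ → ZMod 2}
    (hS : ∀ p ∈ S, -N < p.1 ∧ p.1 < N ∧ -N < p.2 ∧ p.2 < N)
    (hX : ∀ p q, InBox (-N) N (-N) N p → InBox (-N) N (-N) N q → tri.Adj p q → φ p ≠ φ q →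
      decide (p ∉ S) ≠ decide (q ∉ S))
    {z u v : ℤ × ℤ} {s : ℕ} {c : Bool} (hb : ∀ p, InRh z s p → InBox (-N) N (-N) N p)
    (hu : InRh z s u) (hc : decide (u ∉ S) = c)
    (hr : Relation.ReflTransGen (fun p q => tri.Adj p q ∧ InRh z s q ∧ decide (q ∉ S) = c) u v)
    (hd : (u.1 = z.1 ∧ v.1 = z.1 + s) ∨ (u.2 = z.2 ∧ v.2 = z.2 + s)) (hn : φ u ≠ φ (-N, -N)) :
    ∃ p₁ q₁ p₂ q₂, (InBox (-N) N (-N) N p₁ ∧ InBox (-N) N (-N) N q₁ ∧ tri.Adj p₁ q₁ ∧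
      φ p₁ ≠ φ q₁) ∧ (InBox (-N) N (-N) N p₂ ∧ InBox (-N) N (-N) N q₂ ∧ tri.Adj p₂ q₂ ∧
      φ p₂ ≠ φ q₂) ∧
      ((p₁.1 + s ≤ p₂.1 ∧ p₁.1 + s ≤ q₂.1 ∧ q₁.1 + s ≤ p₂.1 ∧ q₁.1 + s ≤ q₂.1) ∨
        (p₁.2 + s ≤ p₂.2 ∧ p₁.2 + s ≤ q₂.2 ∧ q₁.2 + s ≤ p₂.2 ∧ q₁.2 + s ≤ q₂.2)) := by
  have hv : InRh z s v ∧ decide (v ∉ S) = c ∧ φ v = φ u := by
    clear hd
    induction hr with
    | refl => exact ⟨hu, hc, rfl⟩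
    | tail _ h ih =>
      refine ⟨h.2.1, h.2.2, Eq.trans ?_ ih.2.2⟩
      by_contra hne
      exact hX _ _ (hb _ ih.1) (hb _ h.2.1) h.1 (Ne.symm hne) (ih.2.1.trans h.2.2.symm)
  have side : ∀ a₀ a₁ b₀ b₁ : ℤ, -N ≤ a₀ → a₁ ≤ N → -N ≤ b₀ → b₁ ≤ N →
      (a₁ = -N ∨ a₀ = N ∨ b₁ = -N ∨ b₀ = N) → ∀ p q, InBox a₀ a₁ b₀ b₁ p → InBox a₀ a₁ b₀ b₁ q →
      φ p = φ q := by
    intro a₀ a₁ b₀ b₁ h1 h2 h3 h4 h5 p q hp hq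
    by_contra hne
    obtain ⟨p', q', hp', hq', ha, hne'⟩ := box_ivt φ hp hq hne
    unfold InBox at hp' hq'
    have e1 : p' ∉ S := fun h => by
      have := hS _ h
      omega
    have e2 : q' ∉ S := fun h => by
      have := hS _ h
      omega
    refine hX p' q' ?_ ?_ ha hne' (by simp [e1, e2]) <;> unfold InBox <;> omega
  have bu := hb _ hu
  have bv := hb _ hv.1
  unfold InBox at bu bv
  have hN : -N ≤ N := by omega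
  have eL : ∀ y, -N ≤ y → y ≤ N → φ (-N, y) = φ (-N, -N) := fun y h1 h2 =>
    side (-N) (-N) (-N) N le_rfl hN le_rfl le_rfl (Or.inl rfl) _ _ ⟨le_rfl, le_rfl, h1, h2⟩
      ⟨le_rfl, le_rfl, le_rfl, hN⟩
  have eB : ∀ x, -N ≤ x → x ≤ N → φ (x, -N) = φ (-N, -N) := fun x h1 h2 =>
    side (-N) N (-N) (-N) le_rfl le_rfl le_rfl hN (Or.inr (Or.inr (Or.inl rfl))) _ _
      ⟨h1, h2, le_rfl, le_rfl⟩ ⟨le_rfl, hN, le_rfl, le_rfl⟩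
  have eR : ∀ y, -N ≤ y → y ≤ N → φ (N, y) = φ (-N, -N) := fun y h1 h2 =>
    (side N N (-N) N hN le_rfl le_rfl le_rfl (Or.inr (Or.inl rfl)) (N, y) (N, -N)
      ⟨le_rfl, le_rfl, h1, h2⟩ ⟨le_rfl, le_rfl, le_rfl, hN⟩).trans (eB N hN le_rfl)
  have eT : ∀ x, -N ≤ x → x ≤ N → φ (x, N) = φ (-N, -N) := fun x h1 h2 =>
    (side (-N) N N N le_rfl le_rfl hN le_rfl (Or.inr (Or.inr (Or.inr rfl))) (x, N) (-N, N)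
      ⟨h1, h2, le_rfl, le_rfl⟩ ⟨le_rfl, hN, le_rfl, le_rfl⟩).trans (eL N hN le_rfl)
  rcases hd with hd | hd
  · obtain ⟨p₁, q₁, i1, i2, i3, i4⟩ := box_ivt (a₀ := -N) (a₁ := u.1) (b₀ := u.2) (b₁ := u.2) φ
      (u := u) (v := (-N, u.2)) ⟨bu.1, le_rfl, le_rfl, le_rfl⟩ ⟨le_rfl, bu.1, le_rfl, le_rfl⟩
      (by rw [eL _ bu.2.2.1 bu.2.2.2]; exact hn)
    obtain ⟨p₂, q₂, j1, j2, j3, j4⟩ := box_ivt (a₀ := v.1) (a₁ := N) (b₀ := v.2) (b₁ := v.2) φ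
      (u := v) (v := (N, v.2)) ⟨le_rfl, bv.2.1, le_rfl, le_rfl⟩ ⟨bv.2.1, le_rfl, le_rfl, le_rfl⟩
      (by rw [eR _ bv.2.2.1 bv.2.2.2, hv.2.2]; exact hn)
    unfold InBox at i1 i2 j1 j2
    refine ⟨p₁, q₁, p₂, q₂, ⟨?_, ?_, i3, i4⟩, ⟨?_, ?_, j3, j4⟩, Or.inl (by omega)⟩ <;>
      unfold InBox <;> omega
  · obtain ⟨p₁, q₁, i1, i2, i3, i4⟩ := box_ivt (a₀ := u.1) (a₁ := u.1) (b₀ := -N) (b₁ := u.2) φ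
      (u := u) (v := (u.1, -N)) ⟨le_rfl, le_rfl, bu.2.2.1, le_rfl⟩
      ⟨le_rfl, le_rfl, le_rfl, bu.2.2.1⟩ (by rw [eB _ bu.1 bu.2.1]; exact hn)
    obtain ⟨p₂, q₂, j1, j2, j3, j4⟩ := box_ivt (a₀ := v.1) (a₁ := v.1) (b₀ := v.2) (b₁ := N) φ
      (u := v) (v := (v.1, N)) ⟨le_rfl, le_rfl, le_rfl, bv.2.2.2⟩
      ⟨le_rfl, le_rfl, bv.2.2.2, le_rfl⟩ (by rw [eT _ bv.1 bv.2.1, hv.2.2]; exact hn)
    unfold InBox at i1 i2 j1 j2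
    refine ⟨p₁, q₁, p₂, q₂, ⟨?_, ?_, i3, i4⟩, ⟨?_, ?_, j3, j4⟩, Or.inr (by omega)⟩ <;>
      unfold InBox <;> omega

theorem loops_of_cross (S : Finset (ℤ × ℤ)) {a₀ a₁ b₀ b₁ : ℤ} {z₁ z₂ : ℤ × ℤ} {s : ℕ}
    (h₁ : Cross (fun p => decide (p ∉ S)) true z₁ s)
    (h₂ : Cross (fun p => decide (p ∉ S)) false z₂ s)
    (hb₁ : ∀ p, InRh z₁ s p → InBox a₀ a₁ b₀ b₁ p) (hb₂ : ∀ p, InRh z₂ s p → InBox a₀ a₁ b₀ b₁ p) :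
    ∃ p₀ q₀ p₁ q₁ p₂ q₂, tri.Adj p₀ q₀ ∧ tri.Adj p₁ q₁ ∧ tri.Adj p₂ q₂ ∧
      InBox a₀ a₁ b₀ b₁ p₀ ∧ InBox a₀ a₁ b₀ b₁ q₀ ∧ IsWall S s(p₀, q₀) ∧
      (wallGraph S).Reachable s(p₀, q₀) s(p₁, q₁) ∧ (wallGraph S).Reachable s(p₀, q₀) s(p₂, q₂) ∧
      ((p₁.1 + s ≤ p₂.1 ∧ p₁.1 + s ≤ q₂.1 ∧ q₁.1 + s ≤ p₂.1 ∧ q₁.1 + s ≤ q₂.1) ∨
        (p₁.2 + s ≤ p₂.2 ∧ p₁.2 + s ≤ q₂.2 ∧ q₁.2 + s ≤ p₂.2 ∧ q₁.2 + s ≤ q₂.2)) := by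
  obtain ⟨N, hS, h1, h2, h3, h4⟩ : ∃ N : ℤ, (∀ p ∈ S, -N < p.1 ∧ p.1 < N ∧ -N < p.2 ∧ p.2 < N) ∧
      -N ≤ a₀ ∧ a₁ ≤ N ∧ -N ≤ b₀ ∧ b₁ ≤ N := by
    obtain ⟨M, hM⟩ := (S.image fun p => |p.1| + |p.2|).bddAbove
    refine ⟨|M| + 1 + |a₀| + |a₁| + |b₀| + |b₁|, fun p hp => ?_, ?_⟩
    · have := hM (Finset.mem_coe.mpr (Finset.mem_image_of_mem _ hp))
      have := le_abs_self M
      have := abs_nonneg a₀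
      have := abs_nonneg a₁
      have := abs_nonneg b₀
      have := abs_nonneg b₁
      have := abs_nonneg p.1
      have := abs_nonneg p.2
      have := le_abs_self p.1
      have := le_abs_self p.2
      have := neg_abs_le p.1
      have := neg_abs_le p.2
      omega
    · have := abs_nonneg M
      have := abs_nonneg a₀
      have := abs_nonneg a₁
      have := abs_nonneg b₀
      have := abs_nonneg b₁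
      have := le_abs_self a₁
      have := le_abs_self b₁
      have := neg_abs_le a₀
      have := neg_abs_le b₀
      omega
  have sub : ∀ p, InBox a₀ a₁ b₀ b₁ p → InBox (-N) N (-N) N p := fun p hp => by
    unfold InBox at hp ⊢
    omega
  obtain ⟨u₁, v₁, m₁, c₁, r₁, d₁⟩ := h₁
  obtain ⟨u₂, v₂, m₂, c₂, r₂, d₂⟩ := h₂
  obtain ⟨φ, e, hne, hφ⟩ := interface (fun p => decide (p ∉ S)) (sub _ (hb₁ _ m₁))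
    (sub _ (hb₂ _ m₂)) (fun h => absurd (c₁.symm.trans (h.trans c₂)) (by decide))
  have hw : ∀ p q, InBox (-N) N (-N) N p → InBox (-N) N (-N) N q → tri.Adj p q → φ p ≠ φ q →
      IsWall S s(p, q) ∧ (wallGraph S).Reachable e s(p, q) := fun p q hp hq ha hn =>
    ⟨top4_wall ha (hφ p q hp hq ha hn).1, top4_reach (hφ p q hp hq ha hn).2⟩
  have hX : ∀ p q, InBox (-N) N (-N) N p → InBox (-N) N (-N) N q → tri.Adj p q → φ p ≠ φ q →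
      decide (p ∉ S) ≠ decide (q ∉ S) := fun p q hp hq ha hn => (hφ p q hp hq ha hn).1
  obtain ⟨p₀, q₀, hp₀, hq₀, a0, n0⟩ := box_ivt φ (hb₁ _ m₁) (hb₂ _ m₂) hne
  obtain ⟨w0, g0⟩ := hw p₀ q₀ (sub _ hp₀) (sub _ hq₀) a0 n0
  have key : ∃ p₁ q₁ p₂ q₂, (InBox (-N) N (-N) N p₁ ∧ InBox (-N) N (-N) N q₁ ∧ tri.Adj p₁ q₁ ∧
      φ p₁ ≠ φ q₁) ∧ (InBox (-N) N (-N) N p₂ ∧ InBox (-N) N (-N) N q₂ ∧ tri.Adj p₂ q₂ ∧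
      φ p₂ ≠ φ q₂) ∧
      ((p₁.1 + s ≤ p₂.1 ∧ p₁.1 + s ≤ q₂.1 ∧ q₁.1 + s ≤ p₂.1 ∧ q₁.1 + s ≤ q₂.1) ∨
        (p₁.2 + s ≤ p₂.2 ∧ p₁.2 + s ≤ q₂.2 ∧ q₁.2 + s ≤ p₂.2 ∧ q₁.2 + s ≤ q₂.2)) := by
    by_cases hc : φ u₁ = φ (-N, -N)
    · exact top4_far hS hX (fun p hp => sub _ (hb₂ p hp)) m₂ c₂ r₂ d₂ fun h => hne (hc.trans h.symm)
    · exact top4_far hS hX (fun p hp => sub _ (hb₁ p hp)) m₁ c₁ r₁ d₁ hc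
  obtain ⟨p₁, q₁, p₂, q₂, ⟨i1, i2, i3, i4⟩, ⟨j1, j2, j3, j4⟩, hd⟩ := key
  exact ⟨p₀, q₀, p₁, q₁, p₂, q₂, a0, i3, j3, hp₀, hq₀, w0,
    g0.symm.trans (hw p₁ q₁ i1 i2 i3 i4).2, g0.symm.trans (hw p₂ q₂ j1 j2 j3 j4).2, hd⟩

end Pool.Agent.TAF
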