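import Pool.Agent.P.MP_cb4022_pr.Bulk
import Pool.Agent.P.MP_cb4022_pr.Top3
import Pool.Agent.P.MP_cb4022_pr.Top4
import Pool.Agent.P.MP_cb4022_pr.Mod3

open scoped Classical Matrix
open Finset

noncomputable section

namespace Pool.Agent.TAF

/-- The colouring read off a list of labelled rows starting at row `b`. -/
def colL (b : ℕ) (lw : List (ℕ → Bool)) (p : ℤ × ℤ) : Bool :=
  lw.getD (p.2.toNat - b) (fun _ => true) (p.1 + (p.2 + 1) / 2).toNat

theorem colL_neg {b i₀ i₁ : ℕ} {lw : List (ℕ → Bool)} {p : ℤ × ℤ} (h1 : (b : ℤ) ≤ p.2)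
    (h2 : p.2 < b + lw.length) (h3 : (i₀ : ℤ) ≤ p.1 + (p.2 + 1) / 2)
    (h4 : p.1 + (p.2 + 1) / 2 ≤ i₁) : colL b (lw.map (negW i₀ i₁)) p = !colL b lw p := by
  have ht : p.2.toNat - b < lw.length := by omega
  unfold colL
  rw [List.getD_eq_getElem _ _ (by simpa using ht), List.getD_eq_getElem _ _ ht, List.getElem_map]
  unfold negW
  rw [if_pos (by omega)]

theorem colL_eq {n M : ℕ} (l : List (St n)) {i₀ i₁ b w : ℕ} {lw : List (ℕ → Bool)}
    (hlw : ∀ t < w, lw[t]? = (l.map (labW i₀ i₁))[b + t]?) {p : ℤ × ℤ} (h1 : (b : ℤ) ≤ p.2)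
    (h2 : p.2 < b + w) (hb : 0 < b) (hM : b + w ≤ M) (h3 : (i₀ : ℤ) ≤ p.1 + (p.2 + 1) / 2)
    (h4 : p.1 + (p.2 + 1) / 2 ≤ i₁) (hi₀ : 1 ≤ i₀) (hi₁ : i₁ ≤ n) :
    colL b lw p = decide (p ∉ toSet n M l) := by
  have hd : p ∈ dom n M := mem_dom.2 (by omega)
  have he : (fun _ => true) = labW i₀ i₁ (eAll n) := by
    funext j; simp [labW, slot_eAll]
  have e1 : lw.getD (p.2.toNat - b) (fun _ => true) = labW i₀ i₁ (l.getD p.2.toNat (eAll n)) := by
    rw [List.getD_eq_getElem?_getD, hlw _ (by omega), show b + (p.2.toNat - b) = p.2.toNat by omega,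
      ← List.getD_eq_getElem?_getD, he, List.getD_map]
  unfold colL
  rw [e1]
  unfold labW toSet
  rw [if_pos (by omega)]
  simp [hd]

theorem dist_sq_aux (a b : ℝ) : ‖(⟨a + b / 2, √3 / 2 * b⟩ : ℂ)‖ ^ 2 = a ^ 2 + a * b + b ^ 2 := by
  rw [Complex.sq_norm, Complex.normSq_mk]
  have : √3 * √3 = 3 := Real.mul_self_sqrt (by norm_num)
  linear_combination b ^ 2 / 4 * this

theorem bigLoop_of_box (S : Finset (ℤ × ℤ)) {a₀ a₁ b₀ b₁ : ℤ} {z₁ z₂ : ℤ × ℤ} {r : ℕ} {c : ℂ}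
    {R : ℝ} (h₁ : Cross (fun p => decide (p ∉ S)) true z₁ (2 * r))
    (h₂ : Cross (fun p => decide (p ∉ S)) false z₂ (2 * r))
    (hb₁ : ∀ p, InRh z₁ (2 * r) p → InBox a₀ a₁ b₀ b₁ p)
    (hb₂ : ∀ p, InRh z₂ (2 * r) p → InBox a₀ a₁ b₀ b₁ p)
    (hR : ∀ p, InBox a₀ a₁ b₀ b₁ p → dist (pos p) c ≤ R) : BigLoop c R r S := by
  obtain ⟨p₀, q₀, p₁, q₁, p₂, q₂, -, -, -, hp₀, hq₀, hw, hr₁, hr₂, hs⟩ :=
    loops_of_cross S h₁ h₂ hb₁ hb₂
  refine ⟨_, _, _, hw, hr₁, hr₂, ?_, ?_⟩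
  · have e1 := hR _ hp₀
    have e2 := hR _ hq₀
    rw [dist_eq_norm] at e1 e2 ⊢
    have e : mid s(p₀, q₀) - c = ((pos p₀ - c) + (pos q₀ - c)) / 2 := by
      simp only [mid, Sym2.lift_mk]; ring
    rw [e, norm_div, Complex.norm_two]
    linarith [norm_add_le (pos p₀ - c) (pos q₀ - c)]
  · set a : ℝ := ((p₂.1 : ℝ) + q₂.1 - p₁.1 - q₁.1) / 2 with ha
    set b : ℝ := ((p₂.2 : ℝ) + q₂.2 - p₁.2 - q₁.2) / 2 with hb
    have e : mid s(p₂, q₂) - mid s(p₁, q₁) = ⟨a + b / 2, √3 / 2 * b⟩ := by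
      simp only [mid, Sym2.lift_mk, pos]
      apply Complex.ext <;> simp [ha, hb] <;> ring
    rw [dist_comm, dist_eq_norm, e]
    refine (le_abs_self _).trans (abs_le_of_sq_le_sq ?_ (norm_nonneg _))
    rw [dist_sq_aux]
    have hr : (0 : ℝ) ≤ r := Nat.cast_nonneg r
    rcases hs with ⟨h1, -, -, h4⟩ | ⟨h1, -, -, h4⟩
    · have : (2 * r : ℝ) ≤ a := by
        have h1' : ((p₁.1 : ℝ) + (2 * r : ℕ)) ≤ p₂.1 := by exact_mod_cast h1
        have h4' : ((q₁.1 : ℝ) + (2 * r : ℕ)) ≤ q₂.1 := by exact_mod_cast h4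
        push_cast at h1' h4'
        linarith
      nlinarith [sq_nonneg (a / 2 + b)]
    · have : (2 * r : ℝ) ≤ b := by
        have h1' : ((p₁.2 : ℝ) + (2 * r : ℕ)) ≤ p₂.2 := by exact_mod_cast h1
        have h4' : ((q₁.2 : ℝ) + (2 * r : ℕ)) ≤ q₂.2 := by exact_mod_cast h4
        push_cast at h1' h4'
        linarith
      nlinarith [sq_nonneg (b / 2 + a)]

theorem dist_box {z p : ℤ × ℤ} {A B : ℤ} (hA : 0 ≤ A) (hB : 0 ≤ B)
    (h : InBox (z.1 - A) (z.1 + B) z.2 (z.2 + 2 * A + B) p) :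
    dist (pos p) (pos z) ≤ (2 * A + 2 * B : ℤ) := by
  obtain ⟨h1, h2, h3, h4⟩ := h
  have e : pos p - pos z = ⟨((p.1 - z.1 : ℤ) : ℝ) + ((p.2 - z.2 : ℤ) : ℝ) / 2,
      √3 / 2 * ((p.2 - z.2 : ℤ) : ℝ)⟩ := by
    apply Complex.ext <;> simp [pos] <;> ring
  rw [dist_eq_norm, e]
  refine (le_abs_self _).trans (abs_le_of_sq_le_sq ?_ (by positivity))
  rw [dist_sq_aux]
  have : (p.1 - z.1) ^ 2 + (p.1 - z.1) * (p.2 - z.2) + (p.2 - z.2) ^ 2 ≤ (2 * A + 2 * B) ^ 2 := by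
    rcases le_total 0 (p.1 - z.1) with h5 | h5
    · nlinarith
    · rcases le_total (-(p.1 - z.1)) (p.2 - z.2) with h6 | h6 <;> nlinarith
  exact_mod_cast this

/-- Product of functions of stacked windows of height `2 * (r + 1)` separated by gaps `2 * r`. -/
def stack {C : Type} (r : ℕ) (f : ℕ → List C → ℝ) (N : ℕ) (l : List C) : ℝ :=
  ∏ k ∈ range N, f k ((l.drop (2 * (k * (2 * r + 1)) + 2 * r)).take (2 * (r + 1)))

theorem stack_mem {C : Type} (r : ℕ) {f : ℕ → List C → ℝ} (h0 : ∀ k l, 0 ≤ f k l)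
    (h1 : ∀ k l, f k l ≤ 1) (N : ℕ) (l : List C) : 0 ≤ stack r f N l ∧ stack r f N l ≤ 1 :=
  ⟨prod_nonneg fun _ _ => h0 _ _, prod_le_one (fun _ _ => h0 _ _) fun _ _ => h1 _ _⟩

section
variable {n : ℕ} {y θ K q : ℝ} {L₀ : ℕ} {lam : ℝ} {Ωp Ωm : St n → ℝ} {lp lm : ℝ}

theorem State.upper (hy : 1 < y) (h : State n y θ K q L₀ lam Ωp Ωm lp lm) (hθ0 : 0 < θ)
    {i₀ i₁ d m b : ℕ} (h₀ : d ≤ i₀) (h₁ : i₁ + d ≤ n) (hb : Even b) (E : List (ℕ → Bool) → Prop)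
    (hE : ∀ l, l.length = 2 * m → E l ∨ E (l.map (negW i₀ i₁))) :
    Ωp ⬝ᵥ (chain (Tk n y) (labW i₀ i₁) (2 * m) b (fun l => if E l then 0 else 1) *ᵥ Ωp) ≤
      (1 + m * (K * q ^ n) + K * (m + 1) * q ^ d) / 2 * lam ^ m := by
  obtain ⟨E', hE'⟩ : ∃ E' : List (ℕ → Bool) → Prop, ∀ l, E' l ↔ (l.length = 2 * m → E l) :=
    ⟨_, fun _ => Iff.rfl⟩
  have s1 := h.half hy hθ0 (m := m) h₀ h₁ hb E'
    (fun l => by
      rw [hE', hE']
      by_cases hl : l.length = 2 * m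
      · exact (hE l hl).imp (fun h _ => h) fun h _ => h
      · exact Or.inl fun h => absurd h hl)
  have s2 := chain_add (Tk n y) (labW i₀ i₁) (2 * m) b
    (fun l => if E' l then 1 else 0) (fun l => if E l then 0 else 1)
  rw [chain_congr (g := fun _ => 1) _ _ _ _ (fun l hl => by
    by_cases hE : E (l.map (labW i₀ i₁)) <;> simp [hE', hl, hE]), chain_const, one_smul,
    prodT_even n y m hb] at s2
  have s3 := congrArg (fun X => Ωp ⬝ᵥ (X *ᵥ Ωp)) s2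
  simp only [Matrix.add_mulVec, dotProduct_add] at s3
  rw [h.pow_vec, dotProduct_smul, h.pack.np, smul_eq_mul, mul_one] at s3
  have hlam : 0 < lam := by linarith [h.one]
  have s4 : lp ^ m ≤ lam ^ m :=
    pow_le_pow_left₀ (le_trans (by positivity) h.lp_pos) h.pack.lp2 m
  linarith

theorem State.stack_le (hy : 1 < y) (h : State n y θ K q L₀ lam Ωp Ωm lp lm) (hθ0 : 0 < θ)
    {C : Type} (lab : St n → C) {r b : ℕ} (hb : Even b) {f : ℕ → List C → ℝ}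
    (h0 : ∀ k l, 0 ≤ f k l) (h1 : ∀ k l, f k l ≤ 1) (N : ℕ)
    (hf : ∀ k < N, Ωp ⬝ᵥ (chain (Tk n y) lab (2 * (r + 1)) (b + 2 * (k * (2 * r + 1)) + 2 * r)
      (f k) *ᵥ Ωp) ≤ 3 / 5 * lam ^ (r + 1)) :
    Ωp ⬝ᵥ (chain (Tk n y) lab (2 * (N * (2 * r + 1))) b (stack r f N) *ᵥ Ωp) ≤
      ((3 / 5) ^ N + 3 * θ ^ r) * lam ^ (N * (2 * r + 1)) := by
  have hlam : 0 < lam := by linarith [h.one]
  have hθr : 0 < θ ^ r := by positivity
  induction N with
  | zero =>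
    simp only [zero_mul, mul_zero, chain, stack, range_zero, prod_empty, one_smul,
      Matrix.one_mulVec, h.pack.np, pow_zero]
    linarith
  | succ N ih =>
    have ih := ih fun k hk => hf k (by omega)
    have hN := hf N (by omega)
    have e1 : 2 * ((N + 1) * (2 * r + 1)) = 2 * (N * (2 * r + 1)) + 2 * r + 2 * (r + 1) := by ring
    have e2 : stack r f (N + 1) = fun l => stack r f N (l.take (2 * (N * (2 * r + 1)))) *
        f N ((l.drop (2 * (N * (2 * r + 1)) + 2 * r)).take (2 * (r + 1))) := by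
      funext l
      unfold stack
      rw [prod_range_succ]
      congr 1
      refine prod_congr rfl fun k hk => ?_
      have hk' : (k + 1) * (2 * r + 1) ≤ N * (2 * r + 1) :=
        Nat.mul_le_mul_right _ (mem_range.1 hk)
      rw [List.drop_take, List.take_take, min_eq_left]
      rw [add_mul] at hk'
      omega
    have e3 := chain_two (Tk n y) lab (2 * (N * (2 * r + 1))) (2 * r) (2 * (r + 1)) b
      (stack r f N) (fun l => f N (l.take (2 * (r + 1))))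
    rw [chain_congr (f := fun l => f N (l.take (2 * (r + 1)))) (g := f N) _ _ _ _
      (fun l hl => by rw [List.take_of_length_le (by simp [hl])]),
      prodT_even n y r (hb.add (even_two_mul _))] at e3
    rw [e1, e2, e3]
    have habs : ∀ l, |stack r f N l| ≤ 1 := fun l => by
      rw [abs_of_nonneg (stack_mem r h0 h1 N l).1]; exact (stack_mem r h0 h1 N l).2
    have habs' : ∀ l, |f N l| ≤ 1 := fun l => by rw [abs_of_nonneg (h0 N l)]; exact h1 N l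
    have m1 := h.mix hθ0 (by positivity) (h.chain_op hy lab (N * (2 * r + 1)) b habs)
      (h.chain_op hy lab (r + 1) (b + 2 * (N * (2 * r + 1)) + 2 * r) habs')
      (chain_par (Tk_par n y) lab _ _ _) r
    have p1 := h.mono hy lab (2 * (N * (2 * r + 1))) b (f := fun _ => 0) (g := stack r f N)
      fun l => (stack_mem r h0 h1 N l).1
    have p2 := h.mono hy lab (2 * (r + 1)) (b + 2 * (N * (2 * r + 1)) + 2 * r) (f := fun _ => 0)
      (g := f N) (h0 N)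
    rw [chain_const, zero_smul, Matrix.zero_mulVec, dotProduct_zero] at p1 p2
    have hlp0 : 0 ≤ lp := le_trans (by positivity) h.lp_pos
    have s4 : lp ^ r ≤ lam ^ r := pow_le_pow_left₀ hlp0 h.pack.lp2 r
    have m2 := mul_le_mul (mul_le_mul s4 ih p1 (by positivity)) hN p2 (by positivity)
    have e4 : lam ^ ((N + 1) * (2 * r + 1)) = lam ^ r * lam ^ (N * (2 * r + 1)) * lam ^ (r + 1) := by
      rw [← pow_add, ← pow_add]; congr 1; ring
    have hP : 0 < θ ^ r * (lam ^ r * lam ^ (N * (2 * r + 1)) * lam ^ (r + 1)) := by positivity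
    rw [e4, pow_succ (3 / 5 : ℝ)]
    rw [mul_pow] at m1
    linarith [(abs_le.1 m1).2]

end

theorem exists_small {K q η : ℝ} (hq0 : 0 < q) (hq : q < 1) (hK : 0 < K) (hη : 0 < η) :
    ∃ r₀ : ℕ, ∀ r, r₀ ≤ r → K * (r + 2) * q ^ r ≤ η := by
  obtain ⟨K', q', hK', hqq, hq', hg⟩ := edge_geom hq0 hq
  obtain ⟨r₀, hr₀⟩ := exists_pow_lt_of_lt_one (x := η / (2 * K * K')) (by positivity) hq'
  refine ⟨r₀, fun r hr => ?_⟩
  have h1 := hg r
  have h2 : q' ^ r ≤ q' ^ r₀ := pow_le_pow_of_le_one (by linarith) hq'.le hr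
  rw [lt_div_iff₀ (by positivity)] at hr₀
  have h3 : 0 < q ^ r := by positivity
  have h4 : (0 : ℝ) ≤ r := Nat.cast_nonneg r
  calc K * (r + 2) * q ^ r ≤ K * (2 * ((r + 1) * q ^ r)) := by nlinarith [mul_nonneg h4 h3.le]
    _ ≤ K * (2 * (K' * q' ^ r₀)) := by
        have : (r + 1) * q ^ r ≤ K' * q' ^ r₀ := h1.trans (by gcongr)
        gcongr
    _ ≤ η := by linarith

end Pool.Agent.TAF
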