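import Pool.Agent.P.MP_cb4022_pr.Loops

open scoped Classical Matrix
open Finset

noncomputable section

namespace Pool.Agent.TAF

theorem cross_or_neg {b i₀ r : ℕ} {w : ℤ × ℤ} (c : Bool) (h1 : (b : ℤ) ≤ w.2)
    (h2 : w.2 ≤ b + 1) (h3 : (i₀ : ℤ) = w.1 + (w.2 + 1) / 2) (l : List (ℕ → Bool))
    (hl : l.length = 2 * (r + 1)) :
    Cross (colL b l) c w (2 * r) ∨ Cross (colL b (l.map (negW i₀ (i₀ + 3 * r)))) c w (2 * r) := by
  have key : Cross (colL b l) (!c) w (2 * r) ↔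
      Cross (colL b (l.map (negW i₀ (i₀ + 3 * r)))) c w (2 * r) := by
    refine cross_congr fun p hp => ?_
    obtain ⟨p1, p2, p3, p4⟩ := hp
    push_cast at p2 p4
    rw [colL_neg (by omega) (by rw [hl]; push_cast; omega) (by omega) (by push_cast; omega)]
    cases c <;> simp
  rw [← key]
  cases c
  · exact (hex _ w _).symm
  · exact hex _ w _

theorem large_loops {β : ℝ} (hβ : 0 < β) : ∃ ρ : ℕ, ∀ N : ℕ, 1 ≤ N → ∃ r₀ : ℕ,
    ∀ (n M r : ℕ) (z : ℤ × ℤ), r₀ ≤ r → 5 * N * r ≤ (pos z).re → (pos z).re ≤ n - 5 * N * r →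
      (ρ * n : ℤ) ≤ z.2 → z.2 + ρ * n ≤ M →
      1 - 3 * (3 / 5 : ℝ) ^ N ≤ prob β (dom n M) (BigLoop (pos z) (5 * N * r) r) := by
  set y := Real.exp (β / 2) with hy'
  have hy : 1 < y := Real.one_lt_exp_iff.2 (by linarith)
  obtain ⟨θ, K, q, L₀, n₀, hθ0, hθ, hK, hq0, hq, hst⟩ := exists_state hy
  obtain ⟨ρ, hρ⟩ := exists_rho hy hθ0 hθ
  refine ⟨4 * ρ + 2, fun N hN => ?_⟩
  set η : ℝ := (3 / 5) ^ N / 46 with hη
  have hη0 : 0 < η := by positivity
  have hη1 : η ≤ 1 / 46 := by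
    have : (3 / 5 : ℝ) ^ N ≤ 1 := pow_le_one₀ (by norm_num) (by norm_num)
    rw [hη]; linarith
  obtain ⟨r₁, hr₁⟩ := exists_small hq0 hq hK hη0
  obtain ⟨r₂, hr₂⟩ := exists_pow_lt_of_lt_one hη0 hθ
  obtain ⟨r₃, hr₃⟩ := exists_pow_lt_of_lt_one hη0 (y := 1 / 2) (by norm_num)
  refine ⟨r₁ + r₂ + r₃ + n₀ + 2, fun n M r z hr h1 h2 h3 h4 => ?_⟩
  have g1 : (10 * (N * r : ℕ) : ℤ) ≤ 2 * z.1 + z.2 := by
    have : ((10 * (N * r : ℕ) : ℤ) : ℝ) ≤ (2 * z.1 + z.2 : ℤ) := by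
      simp only [pos] at h1; push_cast; linarith
    exact_mod_cast this
  have g2 : 2 * z.1 + z.2 + (10 * (N * r : ℕ) : ℤ) ≤ 2 * n := by
    have : ((2 * z.1 + z.2 + (10 * (N * r : ℕ) : ℤ) : ℤ) : ℝ) ≤ (2 * n : ℤ) := by
      simp only [pos] at h2; push_cast; linarith
    exact_mod_cast this
  have g3 : r ≤ N * r := Nat.le_mul_of_pos_left r hN
  have g4 : N * 2 ≤ N * r := Nat.mul_le_mul_left N (by omega)
  have g5 : N * (2 * r + 1) = 2 * (N * r) + N := by ring
  have g6 : ρ * (n + 1) ≤ 2 * (ρ * n) := by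
    have : ρ * 1 ≤ ρ * n := Nat.mul_le_mul_left ρ (by omega)
    rw [mul_add]; omega
  have h3' : (4 * (ρ * n : ℕ) + 2 * n : ℤ) ≤ z.2 := by push_cast at h3 ⊢; linarith
  have h4' : z.2 + (4 * (ρ * n : ℕ) + 2 * n : ℤ) ≤ M := by push_cast at h4 ⊢; linarith
  obtain ⟨c, hc1, hc2⟩ : ∃ c : ℕ, (2 * c + 2 * r : ℤ) ≤ z.2 ∧ z.2 ≤ 2 * c + 2 * r + 1 :=
    ⟨(z.2 / 2 - r).toNat, by omega, by omega⟩
  obtain ⟨i₀, hi₀⟩ : ∃ i₀ : ℕ, (i₀ : ℤ) = z.1 + (z.2 + 1) / 2 :=
    ⟨(z.1 + (z.2 + 1) / 2).toNat, by omega⟩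
  obtain ⟨k₃, hk₃⟩ : ∃ k₃ : ℕ, M = 2 * c + 2 * (N * (2 * r + 1)) + k₃ :=
    ⟨M - (2 * c + 2 * (N * (2 * r + 1))), by omega⟩
  obtain ⟨lam, Ωp, Ωm, lp, lm, h⟩ := hst n (by omega)
  have hlam : 0 < lam := by linarith [h.one]
  have hKn : ∀ m : ℕ, m ≤ n → m * (K * q ^ n) ≤ η := fun m hm => by
    have e1 := hr₁ n (by omega)
    have e2 : (m : ℝ) ≤ n + 2 := by exact_mod_cast (by omega : m ≤ n + 2)
    have e3 : m * (K * q ^ n) ≤ (n + 2) * (K * q ^ n) := by gcongr
    linarith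
  obtain ⟨hZ, hbulk⟩ := h.bulk hy hθ0 hθ hρ (s := 0) (k₁ := 2 * c) (m := N * (2 * r + 1))
    (k₃ := k₃) (by simp) (by omega) (by omega) (ε := η)
    ((pow_le_pow_of_le_one (by norm_num) (by norm_num) (by omega)).trans hr₃.le)
    (hKn _ (by omega)) (by linarith)
  set w : ℕ → ℤ × ℤ := fun k => (z.1 - (k * (2 * r + 1) : ℕ), z.2 + 2 * (k * (2 * r + 1) : ℕ))
    with hw
  set f : Bool → ℕ → List (ℕ → Bool) → ℝ := fun s k l =>
    if Cross (colL (0 + 2 * c + 2 * (k * (2 * r + 1)) + 2 * r) l) s (w k) (2 * r) then 0 else 1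
    with hf
  have f0 : ∀ s k l, 0 ≤ f s k l := fun s k l => by simp only [hf]; split_ifs <;> norm_num
  have f1 : ∀ s k l, f s k l ≤ 1 := fun s k l => by simp only [hf]; split_ifs <;> norm_num
  set lab : St n → ℕ → Bool := labW i₀ (i₀ + 3 * r) with hlab
  set F : Bool → List (St n) → ℝ := fun s l =>
    stack r (f s) N (((l.map lab).drop (2 * c)).take (2 * (N * (2 * r + 1)))) with hF
  have hsmall : ∀ s, chain (Tk n y) id M 0 (F s) (eAll n) (eAll n) /
      prodT (Tk n y) M 0 (eAll n) (eAll n) ≤ (3 / 5) ^ N + 23 * η := by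
    intro s
    have a1 := h.stack_le hy hθ0 lab (r := r) (b := 0 + 2 * c) (by simp) (f0 s) (f1 s) N
      (fun k hk => by
        refine (h.upper hy hθ0 (d := r) (by omega) (by omega) ?_ _ (cross_or_neg s ?_ ?_ ?_)).trans
          ?_
        · exact ⟨c + k * (2 * r + 1) + r, by ring⟩
        · simp only [hw]; omega
        · simp only [hw]; omega
        · simp only [hw]; omega
        · have e1 := hKn (r + 1) (by omega)
          have e2 := hr₁ r (by omega)
          push_cast at e1 ⊢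
          refine mul_le_mul_of_nonneg_right ?_ (by positivity)
          linarith)
    have a2 := hbulk _ (h.chain_op hy lab (N * (2 * r + 1)) (0 + 2 * c) (f := stack r (f s) N)
      fun l => by
        rw [abs_of_nonneg (stack_mem r (f0 s) (f1 s) N l).1]
        exact (stack_mem r (f0 s) (f1 s) N l).2)
    rw [← chain_window, ← hk₃, chain_map] at a2
    have a3 : θ ^ r ≤ η := (pow_le_pow_of_le_one hθ0.le hθ.le (by omega)).trans hr₂.le
    rw [← div_le_iff₀ (by positivity)] at a1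
    linarith [(abs_le.1 a2).2]
  have hgeo : ∀ l : List (St n), (1 : ℝ) ≤
      ((if BigLoop (pos z) (5 * N * r) r (toSet n M l) then 1 else 0) + F true l) + F false l := by
    intro l
    have F0 : ∀ s, 0 ≤ F s l := fun s => (stack_mem r (f0 s) (f1 s) N _).1
    have F1 : ∀ s, (∀ k < N, ¬Cross (fun p => decide (p ∉ toSet n M l)) s (w k) (2 * r)) →
        F s l = 1 := by
      intro s hs
      refine prod_eq_one fun k hk => ?_
      have hk' : (k + 1) * (2 * r + 1) ≤ N * (2 * r + 1) :=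
        Nat.mul_le_mul_right _ (mem_range.1 hk)
      rw [add_mul] at hk'
      simp only [hf]
      rw [if_neg]
      rw [cross_congr (col' := fun p => decide (p ∉ toSet n M l)) (c' := s)]
      · exact hs k (mem_range.1 hk)
      intro p hp
      obtain ⟨p1, p2, p3, p4⟩ := hp
      simp only [hw] at p1 p2 p3 p4
      rw [colL_eq (M := M) l (i₀ := i₀) (i₁ := i₀ + 3 * r) (w := 2 * (r + 1)) ?_ (by omega)
        (by omega) (by omega) (by omega) (by omega) (by omega) (by omega) (by omega)]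
      intro t ht
      rw [List.getElem?_take, if_pos ht, List.getElem?_drop, List.getElem?_take, if_pos (by omega),
        List.getElem?_drop]
      congr 1
      omega
    have I0 : (0 : ℝ) ≤ if BigLoop (pos z) (5 * N * r) r (toSet n M l) then 1 else 0 := by
      split_ifs <;> norm_num
    by_cases ht : ∀ k < N, ¬Cross (fun p => decide (p ∉ toSet n M l)) true (w k) (2 * r)
    · linarith [F1 true ht, F0 false]
    by_cases hf' : ∀ k < N, ¬Cross (fun p => decide (p ∉ toSet n M l)) false (w k) (2 * r)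
    · linarith [F1 false hf', F0 true]
    push Not at ht hf'
    obtain ⟨k, hk, ck⟩ := ht
    obtain ⟨k', hk', ck'⟩ := hf'
    have hin : ∀ k < N, ∀ p, InRh (w k) (2 * r) p →
        InBox (z.1 - ((N * (2 * r + 1) : ℕ) - (2 * r + 1))) (z.1 + 2 * r) z.2
          (z.2 + 2 * ((N * (2 * r + 1) : ℕ) - (2 * r + 1)) + 2 * r) p := by
      intro k hk p hp
      have hk' : (k + 1) * (2 * r + 1) ≤ N * (2 * r + 1) := Nat.mul_le_mul_right _ hk
      rw [add_mul] at hk'
      obtain ⟨p1, p2, p3, p4⟩ := hp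
      simp only [hw] at p1 p2 p3 p4
      refine ⟨by omega, by omega, by omega, by omega⟩
    rw [if_pos (bigLoop_of_box _ ck ck' (hin k hk) (hin k' hk') fun p hp => ?_)]
    · linarith [F0 true, F0 false]
    refine (dist_box (by omega) (by omega) hp).trans ?_
    have : (2 * (((N * (2 * r + 1) : ℕ) : ℤ) - (2 * r + 1)) + 2 * (2 * r) : ℤ) ≤
        (5 * (N * r : ℕ) : ℤ) := by omega
    have e : (5 * N * r : ℝ) = ((5 * (N * r : ℕ) : ℤ) : ℝ) := by push_cast; ring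
    rw [e]
    exact_mod_cast this
  have hm := chain_mono (Tk_nonneg n hy) id M 0 hgeo (eAll n) (eAll n)
  rw [chain_add, chain_add, chain_const, one_smul, Matrix.add_apply, Matrix.add_apply] at hm
  rw [← hk₃] at hZ
  unfold prob
  rw [expect_eq (by omega)]
  have s1 := hsmall true
  have s2 := hsmall false
  rw [div_le_iff₀ hZ] at s1 s2
  rw [le_div_iff₀ hZ]
  have e : (3 / 5 : ℝ) ^ N = 46 * η := by rw [hη]; ring
  rw [e] at s1 s2 ⊢
  linarith

end Pool.Agent.TAF
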