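import Mathlib

/-! The antiferromagnetic Ising model on the triangular lattice and its domain walls. -/

open scoped Classical

noncomputable section

namespace Pool.Agent.TAF

/-- The triangular lattice in axial coordinates. -/
def tri : SimpleGraph (ℤ × ℤ) where
  Adj u v := v - u ∈ ({(1, 0), (-1, 0), (0, 1), (0, -1), (1, -1), (-1, 1)} : Finset (ℤ × ℤ))
  symm := ⟨by
    rintro ⟨a, b⟩ ⟨c, d⟩ h
    simp only [Prod.mk_sub_mk, Finset.mem_insert, Finset.mem_singleton, Prod.mk.injEq] at h ⊢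
    omega⟩
  loopless := ⟨by
    rintro ⟨a, b⟩ h
    simp only [Prod.mk_sub_mk, Finset.mem_insert, Finset.mem_singleton, Prod.mk.injEq] at h
    omega⟩

/-- The position `a + b * exp (i * pi / 3)` in the plane of the site `(a, b)`. -/
def pos (u : ℤ × ℤ) : ℂ := ⟨u.1 + u.2 / 2, √3 / 2 * u.2⟩

/-- The midpoint of an edge; it is also the midpoint of the dual hexagonal edge. -/
def mid : Sym2 (ℤ × ℤ) → ℂ :=
  Sym2.lift ⟨fun u v => (pos u + pos v) / 2, fun u v => by simp only [add_comm]⟩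

/-- The sites with abscissa in `(0, n]` on the rows `1, …, M - 1`: a rectangle with `n` sites in
each row. -/
def dom (n M : ℕ) : Finset (ℤ × ℤ) :=
  (Finset.Icc (-(M : ℤ)) n ×ˢ Finset.Ioo (0 : ℤ) M).filter
    fun u => 0 < (pos u).re ∧ (pos u).re ≤ n

/-- A colouring is given by the set `S` of the sites of colour `2`. The energy is the number of
monochromatic edges with an endpoint in `D`. -/
def energy (D S : Finset (ℤ × ℤ)) : ℕ :=
  {e ∈ tri.edgeSet | (∃ u ∈ e, u ∈ D) ∧ ∀ u ∈ e, ∀ v ∈ e, (u ∈ S ↔ v ∈ S)}.ncard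

/-- Expectation of `F` in the antiferromagnetic Ising model in `D` at inverse temperature `β`,
all sites outside `D` having colour `1`. -/
def expect (β : ℝ) (D : Finset (ℤ × ℤ)) (F : Finset (ℤ × ℤ) → ℝ) : ℝ :=
  (∑ S ∈ D.powerset, Real.exp (-β * energy D S) * F S) /
    ∑ S ∈ D.powerset, Real.exp (-β * energy D S)

/-- Probability of the event `E` in the same model. -/
def prob (β : ℝ) (D : Finset (ℤ × ℤ)) (E : Finset (ℤ × ℤ) → Prop) : ℝ :=
  expect β D fun S => if E S then 1 else 0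

/-- The edge `e` of the lattice has endpoints of different colours: its dual edge is a piece of
domain wall. -/
def IsWall (S : Finset (ℤ × ℤ)) (e : Sym2 (ℤ × ℤ)) : Prop :=
  e ∈ tri.edgeSet ∧ ∃ u ∈ e, ∃ v ∈ e, u ∈ S ∧ v ∉ S

/-- Two pieces of domain wall are consecutive when they are dual to two sides of one triangle,
that is, when the two hexagonal edges share a vertex. The loops are the components. -/
def wallGraph (S : Finset (ℤ × ℤ)) : SimpleGraph (Sym2 (ℤ × ℤ)) where
  Adj e e' := e ≠ e' ∧ IsWall S e ∧ IsWall S e' ∧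
    ∃ u v w, tri.Adj v w ∧ e = s(u, v) ∧ e' = s(u, w)
  symm := ⟨by
    rintro e e' ⟨h, h1, h2, u, v, w, h3, h4, h5⟩
    exact ⟨h.symm, h2, h1, u, w, v, h3.symm, h5, h4⟩⟩
  loopless := ⟨fun _ h => h.1 rfl⟩

/-- Some domain-wall loop of diameter at least `r` meets the closed disc of centre `c` and
radius `R`. -/
def BigLoop (c : ℂ) (R r : ℝ) (S : Finset (ℤ × ℤ)) : Prop :=
  ∃ e₀ e₁ e₂, IsWall S e₀ ∧ (wallGraph S).Reachable e₀ e₁ ∧ (wallGraph S).Reachable e₀ e₂ ∧
    dist (mid e₀) c ≤ R ∧ r ≤ dist (mid e₁) (mid e₂)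

/-- The spin `+1` (colour `1`) or `-1` (colour `2`) of the site `u`. -/
def spinAt (S : Finset (ℤ × ℤ)) (u : ℤ × ℤ) : ℝ := if u ∈ S then -1 else 1

end Pool.Agent.TAF
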