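import Pool.Agent.P.MP_cb4022_pr.Defs
import Pool.Agent.P.MP_cb4022_pr.Itw

open scoped Classical Matrix
open Finset

noncomputable section

namespace Pool.Agent.TAF

theorem modes1_ipa {n : ℕ} (ξ η : OI n → ℝ) :
    ip n (ea ξ) (ea η) = ∑ j : Fin (n + 1), ξ (Sum.inl j) * η (Sum.inl j) := by
  rw [ip, Finset.sum_range]
  exact Finset.sum_congr rfl fun j _ => by simp only [ea, j.2, dif_pos, Fin.eta]

theorem modes1_ipb {n : ℕ} (ξ η : OI n → ℝ) :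
    ip n (eb ξ) (eb η) = ∑ j : Fin (n + 1), ξ (Sum.inr j) * η (Sum.inr j) := by
  rw [ip, Finset.sum_range]
  exact Finset.sum_congr rfl fun j _ => by simp only [eb, j.2, dif_pos, Fin.eta]

theorem modes1_JJ {n : ℕ} (η : OI n → ℝ) (j : Fin (n + 1)) :
    (JJ n *ᵥ η) (Sum.inl j) = η (Sum.inl j) ∧ (JJ n *ᵥ η) (Sum.inr j) = -η (Sum.inr j) := by
  simp [JJ, Matrix.mulVec_diagonal]

theorem modes1_ea_JJ {n : ℕ} (η : OI n → ℝ) : ea (JJ n *ᵥ η) = ea η := by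
  funext j
  simp only [ea, (modes1_JJ η _).1]

theorem modes1_eb_JJ {n : ℕ} (η : OI n → ℝ) : eb (JJ n *ᵥ η) = -eb η := by
  funext j
  simp only [eb, (modes1_JJ η _).2, Pi.neg_apply]
  split_ifs <;> simp

theorem modes1_JJ_mul (n : ℕ) : JJ n * JJ n = 1 := by
  rw [JJ, Matrix.diagonal_mul_diagonal, ← Matrix.diagonal_one]
  congr 1
  funext i
  rcases i with i | i <;> simp

theorem modes1_ea_sum {n : ℕ} (c : OI n → ℝ) (ξ : OI n → OI n → ℝ) :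
    ea (∑ k, c k • ξ k) = ∑ k, c k • ea (ξ k) := by
  funext j
  simp only [ea, Finset.sum_apply, Pi.smul_apply]
  split_ifs <;> simp

theorem modes1_eb_sum {n : ℕ} (c : OI n → ℝ) (ξ : OI n → OI n → ℝ) :
    eb (∑ k, c k • ξ k) = ∑ k, c k • eb (ξ k) := by
  funext j
  simp only [eb, Finset.sum_apply, Pi.smul_apply]
  split_ifs <;> simp

theorem ip_ea {n : ℕ} (ξ η : OI n → ℝ) :
    ip n (ea ξ) (ea η) + ip n (eb ξ) (eb η) = ξ ⬝ᵥ η := by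
  rw [modes1_ipa, modes1_ipb, dotProduct, Fintype.sum_sum_type]

theorem ip_JJ {n : ℕ} (ξ η : OI n → ℝ) :
    ip n (ea ξ) (ea η) - ip n (eb ξ) (eb η) = ξ ⬝ᵥ (JJ n *ᵥ η) := by
  rw [modes1_ipa, modes1_ipb, dotProduct, Fintype.sum_sum_type]
  simp only [(modes1_JJ η _).1, (modes1_JJ η _).2, mul_neg, Finset.sum_neg_distrib]
  ring

theorem modes1_R (n : ℕ) {y : ℝ} (hy : 1 < y) : ∃ R : Matrix (OI n) (OI n) ℝ,
    ∀ ξ, Itw n y (ea ξ) (eb ξ) (ea (R *ᵥ ξ)) (eb (R *ᵥ ξ)) := by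
  choose u' v' h using fun k : OI n =>
    exists_itw (n := n) hy (ea (Pi.single k (1 : ℝ))) (eb (Pi.single k (1 : ℝ)))
  let g : OI n → OI n → ℝ := fun k => Sum.elim (fun j => u' k j) fun j => v' k j
  have hg : ∀ k, Itw n y (ea (Pi.single k (1 : ℝ))) (eb (Pi.single k (1 : ℝ))) (ea (g k))
      (eb (g k)) := fun k =>
    (h k).1.congr (fun _ _ => rfl) (fun _ _ => rfl)
      (fun j hj => by simp [ea, g, Nat.lt_succ_of_le hj])
      (fun j hj => by simp [eb, g, Nat.lt_succ_of_le hj])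
  refine ⟨Matrix.of fun i k => g k i, fun ξ => ?_⟩
  have e1 : (Matrix.of fun i k => g k i) *ᵥ ξ = ∑ k, ξ k • g k := by
    funext i
    simp [Matrix.mulVec, dotProduct, Finset.sum_apply, mul_comm]
  have e2 : ξ = ∑ k, ξ k • (Pi.single k (1 : ℝ) : OI n → ℝ) := by
    funext i
    simp [Finset.sum_apply, Pi.single_apply]
  rw [e1]
  unfold Itw
  conv_lhs => rw [e2]
  rw [modes1_ea_sum, modes1_eb_sum, modes1_ea_sum, modes1_eb_sum, gam_sum, gam_sum, Finset.mul_sum,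
    Finset.sum_mul]
  exact Finset.sum_congr rfl fun k _ => by
    rw [Matrix.mul_smul, Matrix.smul_mul, hg k]

theorem exists_R1 (n : ℕ) {y : ℝ} (hy : 1 < y) : ∃ R : Matrix (OI n) (OI n) ℝ,
    (∀ ξ, Itw n y (ea ξ) (eb ξ) (ea (R *ᵥ ξ)) (eb (R *ᵥ ξ))) ∧ Rᵀ * JJ n * R = JJ n ∧
    ∀ ξ, TT n y * gam n (ea ξ) (eb ξ) =
      gam n (ea ((Rᵀ * R) *ᵥ ξ)) (eb ((Rᵀ * R) *ᵥ ξ)) * TT n y := by
  obtain ⟨R, hR⟩ := modes1_R n hy
  have h1 : Rᵀ * JJ n * R = JJ n := by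
    have key : ∀ ξ η : OI n → ℝ, ξ ⬝ᵥ ((Rᵀ * JJ n * R) *ᵥ η) = ξ ⬝ᵥ (JJ n *ᵥ η) := by
      intro ξ η
      have := (hR ξ).form hy (hR η)
      rw [ip_JJ, ip_JJ] at this
      rw [this, ← Matrix.mulVec_mulVec, ← Matrix.mulVec_mulVec, Matrix.dotProduct_mulVec,
        Matrix.vecMul_transpose]
    ext i k
    simpa using key (Pi.single i 1) (Pi.single k 1)
  have h2 : R * (JJ n * Rᵀ * JJ n) = 1 := by
    rw [mul_eq_one_comm, Matrix.mul_assoc, Matrix.mul_assoc, ← Matrix.mul_assoc Rᵀ, h1,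
      modes1_JJ_mul]
  have h3 : ∀ η, (T1 n y)ᵀ * gam n (ea η) (eb η) =
      gam n (ea (Rᵀ *ᵥ η)) (eb (Rᵀ *ᵥ η)) * (T1 n y)ᵀ := by
    intro η
    have e : R *ᵥ (JJ n *ᵥ (Rᵀ *ᵥ η)) = JJ n *ᵥ η := by
      have : R * (JJ n * Rᵀ) = JJ n := by
        calc R * (JJ n * Rᵀ) = R * (JJ n * Rᵀ) * (JJ n * JJ n) := by rw [modes1_JJ_mul, mul_one]
          _ = R * (JJ n * Rᵀ * JJ n) * JJ n := by simp only [Matrix.mul_assoc]
          _ = JJ n := by rw [h2, one_mul]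
      rw [Matrix.mulVec_mulVec, Matrix.mulVec_mulVec, Matrix.mul_assoc, this]
    have := (hR (JJ n *ᵥ (Rᵀ *ᵥ η))).tr
    rwa [e, modes1_ea_JJ, modes1_eb_JJ, modes1_ea_JJ, modes1_eb_JJ, neg_neg, neg_neg] at this
  refine ⟨R, hR, h1, fun ξ => ?_⟩
  rw [TT, Matrix.mul_assoc, hR ξ, ← Matrix.mul_assoc, h3, Matrix.mulVec_mulVec, Matrix.mul_assoc]

end Pool.Agent.TAF
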