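import Pool.Agent.P.MP_cb4022_pr.Defs

open scoped Classical Matrix
open Finset

noncomputable section

namespace Pool.Agent.TAF

theorem modes2_spec {S : Type} [Fintype S] [DecidableEq S] (Q : Matrix S S ℝ) (hQ : Qᵀ = Q) :
    ∃ (e : S → S → ℝ) (z : S → ℝ), (∀ k l, e k ⬝ᵥ e l = if k = l then 1 else 0) ∧
      (∀ k, Q *ᵥ e k = z k • e k) ∧ ∀ ξ : S → ℝ, ξ = ∑ k, (e k ⬝ᵥ ξ) • e k := by
  have hH : Q.IsHermitian := by
    unfold Matrix.IsHermitian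
    rw [Matrix.conjTranspose_eq_transpose_of_trivial, hQ]
  have ho : ∀ k l, (hH.eigenvectorBasis k).ofLp ⬝ᵥ (hH.eigenvectorBasis l).ofLp =
      if k = l then 1 else 0 := by
    intro k l
    have h1 := orthonormal_iff_ite.1 hH.eigenvectorBasis.orthonormal k l
    rw [EuclideanSpace.inner_eq_star_dotProduct, star_trivial, dotProduct_comm] at h1
    exact h1
  refine ⟨fun k => (hH.eigenvectorBasis k).ofLp, hH.eigenvalues, ho,
    fun k => hH.mulVec_eigenvectorBasis k, fun ξ => ?_⟩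
  set E : Matrix S S ℝ := Matrix.of fun k i => (hH.eigenvectorBasis k).ofLp i with hE
  have h1 : E * Eᵀ = 1 := by
    ext k l
    rw [Matrix.mul_apply, Matrix.one_apply, ← ho k l]
    rfl
  have h2 : Eᵀ * E = 1 := mul_eq_one_comm.1 h1
  have h3 : ξ = Eᵀ *ᵥ (E *ᵥ ξ) := by rw [Matrix.mulVec_mulVec, h2, Matrix.one_mulVec]
  funext i
  rw [Finset.sum_apply]
  conv_lhs => rw [h3]
  refine Finset.sum_congr rfl fun k _ => ?_
  rw [Pi.smul_apply, smul_eq_mul, mul_comm]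
  rfl

theorem modes2_JJ (n : ℕ) : JJ n * JJ n = 1 := by
  unfold JJ
  rw [Matrix.diagonal_mul_diagonal, ← Matrix.diagonal_one]
  congr 1
  funext i
  cases i <;> simp

theorem modes2_form {n : ℕ} (ξ : OI n → ℝ) :
    ξ ⬝ᵥ (JJ n *ᵥ ξ) = ∑ k, ξ (Sum.inl k) ^ 2 - ∑ k, ξ (Sum.inr k) ^ 2 := by
  unfold JJ dotProduct
  simp only [Matrix.mulVec_diagonal, Fintype.sum_sum_type, Sum.elim_inl, Sum.elim_inr]
  rw [sub_eq_add_neg, ← Finset.sum_neg_distrib]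
  congr 1
  · exact Finset.sum_congr rfl fun k _ => by ring
  · exact Finset.sum_congr rfl fun k _ => by ring

theorem modes2_sq {n : ℕ} (ξ : OI n → ℝ) :
    ξ ⬝ᵥ ξ = ∑ k, ξ (Sum.inl k) ^ 2 + ∑ k, ξ (Sum.inr k) ^ 2 := by
  unfold dotProduct
  simp only [Fintype.sum_sum_type, sq]

theorem modes2_dot {S : Type} [Fintype S] (A B : Matrix S S ℝ) (x y : S → ℝ) :
    x ⬝ᵥ ((Aᵀ * B) *ᵥ y) = (A *ᵥ x) ⬝ᵥ (B *ᵥ y) := by
  rw [← Matrix.mulVec_mulVec, Matrix.dotProduct_mulVec, Matrix.vecMul_transpose]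

theorem modes_lin {n : ℕ} (R : Matrix (OI n) (OI n) ℝ) (hR : Rᵀ * JJ n * R = JJ n) {c : ℝ}
    (hc : 0 < c)
    (hlow : ∀ ξ : OI n → ℝ, (∀ k, ξ (Sum.inl k) = 0) → ξ (Sum.inr (Fin.last n)) = 0 →
      c * (ξ ⬝ᵥ ξ) ≤ ∑ k, (R *ᵥ ξ) (Sum.inl k) ^ 2) :
    ∃ (m : Fin n → OI n → ℝ) (z : Fin n → ℝ), (∀ k, 1 + 2 * c ≤ z k) ∧
      (∀ k l, m k ⬝ᵥ m l = if k = l then 1 else 0) ∧ (∀ k l, m k ⬝ᵥ (JJ n *ᵥ m l) = 0) ∧
      ∀ k, (Rᵀ * R) *ᵥ m k = z k • m k := by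
  have hJ := modes2_JJ n
  have hQ : (Rᵀ * R)ᵀ = Rᵀ * R := by rw [Matrix.transpose_mul, Matrix.transpose_transpose]
  have h1 : (JJ n * Rᵀ * JJ n) * R = 1 := by
    have h0 : (JJ n * Rᵀ * JJ n) * R = JJ n * (Rᵀ * JJ n * R) := by
      simp only [Matrix.mul_assoc]
    rw [h0, hR, hJ]
  have h2 : R * (JJ n * Rᵀ * JJ n) = 1 := mul_eq_one_comm.1 h1
  have h3 : R * JJ n * Rᵀ = JJ n := by
    have h4 : R * (JJ n * Rᵀ * JJ n) * JJ n = JJ n := by rw [h2, Matrix.one_mul]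
    rw [Matrix.mul_assoc, Matrix.mul_assoc, hJ, Matrix.mul_one, ← Matrix.mul_assoc] at h4
    exact h4
  have h5 : (Rᵀ * R)ᵀ * (JJ n * (Rᵀ * R)) = JJ n := by
    rw [hQ]
    have h6 : Rᵀ * R * (JJ n * (Rᵀ * R)) = Rᵀ * (R * JJ n * Rᵀ) * R := by
      simp only [Matrix.mul_assoc]
    rw [h6, h3, hR]
  obtain ⟨e, z, ho, he, hx⟩ := modes2_spec (Rᵀ * R) hQ
  have hcard : n ≤ Fintype.card {k : OI n // 1 + 2 * c ≤ z k} := by
    by_contra hlt
    push Not at hlt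
    set M : Matrix (Fin (n + 1) ⊕ Unit ⊕ {k : OI n // 1 + 2 * c ≤ z k}) (OI n) ℝ :=
      Matrix.of (Sum.elim (fun k => Pi.single (Sum.inl k) 1)
        (Sum.elim (fun _ => Pi.single (Sum.inr (Fin.last n)) 1) fun k => e k.1)) with hM
    have hk : LinearMap.ker M.mulVecLin ≠ ⊥ := by
      apply LinearMap.ker_ne_bot_of_finrank_lt
      simp only [Module.finrank_fintype_fun_eq_card, Fintype.card_sum, Fintype.card_fin,
        Fintype.card_unit]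
      omega
    obtain ⟨ξ, hξ, hne⟩ := Submodule.exists_mem_ne_zero_of_ne_bot hk
    rw [LinearMap.mem_ker, Matrix.mulVecLin_apply] at hξ
    have ha : ∀ k, ξ (Sum.inl k) = 0 := by
      intro k
      have h7 : (Pi.single (Sum.inl k) 1 : OI n → ℝ) ⬝ᵥ ξ = 0 := congrFun hξ (Sum.inl k)
      rwa [single_dotProduct, one_mul] at h7
    have hb : ξ (Sum.inr (Fin.last n)) = 0 := by
      have h7 : (Pi.single (Sum.inr (Fin.last n)) 1 : OI n → ℝ) ⬝ᵥ ξ = 0 :=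
        congrFun hξ (Sum.inr (Sum.inl ()))
      rwa [single_dotProduct, one_mul] at h7
    have hp : ∀ k, 1 + 2 * c ≤ z k → e k ⬝ᵥ ξ = 0 := fun k hk' =>
      congrFun hξ (Sum.inr (Sum.inr ⟨k, hk'⟩))
    have h8 : ξ ⬝ᵥ ξ = ∑ k, (e k ⬝ᵥ ξ) ^ 2 := by
      conv_lhs => rw [hx ξ, sum_dotProduct, ← hx ξ]
      exact Finset.sum_congr rfl fun k _ => by rw [smul_dotProduct, smul_eq_mul, sq]
    have h9 : ξ ⬝ᵥ ((Rᵀ * R) *ᵥ ξ) = ∑ k, z k * (e k ⬝ᵥ ξ) ^ 2 := by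
      have h10 : (Rᵀ * R) *ᵥ ξ = ∑ k, (z k * (e k ⬝ᵥ ξ)) • e k := by
        conv_lhs => rw [hx ξ, Matrix.mulVec_sum]
        exact Finset.sum_congr rfl fun k _ => by
          rw [Matrix.mulVec_smul, he, smul_smul, mul_comm]
      rw [h10, dotProduct_sum]
      exact Finset.sum_congr rfl fun k _ => by
        rw [dotProduct_smul, smul_eq_mul, dotProduct_comm ξ, sq, mul_assoc]
    have h11 : ∃ k, e k ⬝ᵥ ξ ≠ 0 := by
      by_contra h12
      push Not at h12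
      apply hne
      rw [hx ξ]
      exact Finset.sum_eq_zero fun k _ => by rw [h12 k, zero_smul]
    have h13 : ξ ⬝ᵥ ((Rᵀ * R) *ᵥ ξ) < (1 + 2 * c) * (ξ ⬝ᵥ ξ) := by
      rw [h8, h9, Finset.mul_sum]
      refine Finset.sum_lt_sum (fun k _ => ?_) ?_
      · by_cases h14 : 1 + 2 * c ≤ z k
        · rw [hp k h14]
          simp
        · exact mul_le_mul_of_nonneg_right (not_le.1 h14).le (sq_nonneg _)
      · obtain ⟨k, hk'⟩ := h11
        refine ⟨k, Finset.mem_univ _, mul_lt_mul_of_pos_right ?_ (by positivity)⟩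
        by_contra h14
        exact hk' (hp k (not_lt.1 h14))
    have h15 : (R *ᵥ ξ) ⬝ᵥ (JJ n *ᵥ (R *ᵥ ξ)) = ξ ⬝ᵥ (JJ n *ᵥ ξ) := by
      rw [Matrix.mulVec_mulVec, ← modes2_dot, ← Matrix.mul_assoc, hR]
    have h16 := hlow ξ ha hb
    rw [modes2_form, modes2_form] at h15
    rw [modes2_dot, modes2_sq (R *ᵥ ξ)] at h13
    have h17 := modes2_sq ξ
    have h18 : ∑ k, ξ (Sum.inl k) ^ 2 = 0 := Finset.sum_eq_zero fun k _ => by
      rw [ha k]
      simp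
    rw [h18] at h15 h17
    linarith
  obtain ⟨f⟩ : Nonempty (Fin n ↪ {k : OI n // 1 + 2 * c ≤ z k}) :=
    Function.Embedding.nonempty_of_card_le (by rwa [Fintype.card_fin])
  refine ⟨fun k => e (f k).1, fun k => z (f k).1, fun k => (f k).2, fun k l => ?_, fun k l => ?_,
    fun k => he _⟩
  · rw [ho]
    by_cases hkl : k = l
    · rw [if_pos hkl, if_pos (by rw [hkl])]
    · rw [if_neg hkl, if_neg fun h => hkl (f.injective (Subtype.ext h))]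
  · have h7 := modes2_dot (Rᵀ * R) (JJ n * (Rᵀ * R)) (e (f k).1) (e (f l).1)
    rw [h5, ← Matrix.mulVec_mulVec (e (f l).1) (JJ n), he, he, Matrix.mulVec_smul, smul_dotProduct,
      dotProduct_smul, smul_eq_mul, smul_eq_mul] at h7
    have h8 : 1 < z (f k).1 * z (f l).1 := by
      have h9 := (f k).2
      have h10 := (f l).2
      nlinarith
    have h11 : (z (f k).1 * z (f l).1 - 1) * (e (f k).1 ⬝ᵥ (JJ n *ᵥ e (f l).1)) = 0 := by
      linarith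
    exact (mul_eq_zero.1 h11).resolve_left (sub_pos.2 h8).ne'

end Pool.Agent.TAF
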