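import Pool.Agent.P.MP_cb4022_pr.Defs

open scoped Classical Matrix
open Finset

noncomputable section

namespace Pool.Agent.TAF

section aux

variable {ι : Type} [Fintype ι] [DecidableEq ι]

omit [DecidableEq ι] in
theorem modes3_adj (A : Matrix ι ι ℝ) (x y : ι → ℝ) : (A *ᵥ x) ⬝ᵥ y = x ⬝ᵥ (Aᵀ *ᵥ y) := by
  rw [Matrix.dotProduct_mulVec, Matrix.vecMul_transpose]

theorem modes3_inv {R J : Matrix ι ι ℝ} (hJ : J * J = 1) (hR : Rᵀ * J * R = J) :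
    R * J * Rᵀ = J := by
  have h1 : J * Rᵀ * J * R = 1 := by rw [Matrix.mul_assoc J, Matrix.mul_assoc J, hR, hJ]
  have h2 := mul_eq_one_comm.1 h1
  calc R * J * Rᵀ = R * (J * Rᵀ * J) * J := by
        simp only [Matrix.mul_assoc, hJ, Matrix.mul_one]
    _ = J := by rw [h2, Matrix.one_mul]

theorem modes3_eig {R J : Matrix ι ι ℝ} (hJ : J * J = 1) (hR : Rᵀ * J * R = J) {m : ι → ℝ} {z : ℝ}
    (he : (Rᵀ * R) *ᵥ m = z • m) : z • ((Rᵀ * R) *ᵥ (J *ᵥ m)) = J *ᵥ m := by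
  have h1 : Rᵀ * R * J * (Rᵀ * R) = J := by
    calc Rᵀ * R * J * (Rᵀ * R) = Rᵀ * (R * J * Rᵀ) * R := by simp only [Matrix.mul_assoc]
      _ = J := by rw [modes3_inv hJ hR, hR]
  rw [← Matrix.mulVec_smul, ← Matrix.mulVec_smul, ← he, Matrix.mulVec_mulVec, Matrix.mulVec_mulVec,
    h1]

theorem modes3_form {J : Matrix ι ι ℝ} (hJ : J * J = 1) (hT : Jᵀ = J) {e : ℝ} (he : e * e = 1)
    (y : ι → ℝ) : e * (y ⬝ᵥ (J *ᵥ y)) ≤ y ⬝ᵥ y := by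
  have h1 : (J *ᵥ y) ⬝ᵥ (J *ᵥ y) = y ⬝ᵥ y := by
    rw [modes3_adj, hT, Matrix.mulVec_mulVec, hJ, Matrix.one_mulVec]
  have h2 : 0 ≤ (y - e • (J *ᵥ y)) ⬝ᵥ (y - e • (J *ᵥ y)) :=
    sum_nonneg fun i _ => mul_self_nonneg _
  rw [sub_dotProduct, dotProduct_sub, dotProduct_sub, dotProduct_smul, dotProduct_smul,
    smul_dotProduct, smul_dotProduct, h1, dotProduct_comm (J *ᵥ y) y] at h2
  simp only [smul_eq_mul] at h2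
  rw [← mul_assoc, he] at h2
  linarith

theorem modes3_near {K : Type} [Fintype K] [DecidableEq K] {R J : Matrix ι ι ℝ} (hJ : J * J = 1)
    (hT : Jᵀ = J) (hR : Rᵀ * J * R = J) (m : K → ι → ℝ) (z : K → ℝ) (hz : ∀ k, z k ≠ 0)
    (ho : ∀ k l, m k ⬝ᵥ m l = if k = l then 1 else 0) (hm : ∀ k l, m k ⬝ᵥ (J *ᵥ m l) = 0)
    (hq : ∀ k, (Rᵀ * R) *ᵥ m k = z k • m k) {e : ℝ} (he : e * e = 1) (ξ : ι → ℝ)
    (hξ : J *ᵥ ξ = e • ξ) :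
    ∑ k, (z k + (z k)⁻¹ - 2) * (m k ⬝ᵥ ξ) ^ 2 ≤ (R *ᵥ ξ) ⬝ᵥ (R *ᵥ ξ) - ξ ⬝ᵥ ξ := by
  obtain ⟨η, hη⟩ : ∃ η, η = ∑ k, (m k ⬝ᵥ ξ) • (m k + e • (J *ᵥ m k)) := ⟨_, rfl⟩
  have h0 : ∀ x, J *ᵥ x = e • x → ∀ k, e * (x ⬝ᵥ (J *ᵥ m k)) = m k ⬝ᵥ x := fun x hx k => by
    rw [← hT, ← modes3_adj, hx, smul_dotProduct, smul_eq_mul, ← mul_assoc, he, one_mul,
      dotProduct_comm]
  have h1 : ∀ x, J *ᵥ x = e • x → x ⬝ᵥ η = ∑ k, 2 * ((m k ⬝ᵥ ξ) * (m k ⬝ᵥ x)) := fun x hx => by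
    rw [hη, dotProduct_sum]
    refine sum_congr rfl fun k _ => ?_
    rw [dotProduct_smul, dotProduct_add, dotProduct_smul, smul_eq_mul, smul_eq_mul, h0 x hx,
      dotProduct_comm x]
    ring
  have h2 : ∀ x, J *ᵥ x = e • x → (R *ᵥ x) ⬝ᵥ (R *ᵥ η) =
      ∑ k, (z k + (z k)⁻¹) * ((m k ⬝ᵥ ξ) * (m k ⬝ᵥ x)) := fun x hx => by
    rw [modes3_adj, Matrix.mulVec_mulVec, hη, Matrix.mulVec_sum, dotProduct_sum]
    refine sum_congr rfl fun k _ => ?_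
    have h3 : (Rᵀ * R) *ᵥ (J *ᵥ m k) = (z k)⁻¹ • (J *ᵥ m k) :=
      (eq_inv_smul_iff₀ (hz k)).2 (modes3_eig hJ hR (hq k))
    rw [Matrix.mulVec_smul, Matrix.mulVec_add, Matrix.mulVec_smul, hq, h3, dotProduct_smul,
      dotProduct_add, dotProduct_smul, dotProduct_smul, dotProduct_smul, dotProduct_comm x (m k)]
    simp only [smul_eq_mul]
    linear_combination (m k ⬝ᵥ ξ) * (z k)⁻¹ * h0 x hx k
  have h3 : J *ᵥ (ξ - η) = e • (ξ - η) := by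
    rw [Matrix.mulVec_sub, hξ, smul_sub, hη, Matrix.mulVec_sum, smul_sum]
    refine congrArg _ (sum_congr rfl fun k _ => ?_)
    rw [Matrix.mulVec_smul, Matrix.mulVec_add, Matrix.mulVec_smul, Matrix.mulVec_mulVec, hJ,
      Matrix.one_mulVec, smul_comm e, smul_add e, smul_smul e e, he, one_smul, add_comm]
  have h4 : ∀ k, m k ⬝ᵥ (ξ - η) = 0 := fun k => by
    rw [dotProduct_sub, hη, dotProduct_sum]
    simp [ho, hm]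
  have a1 := h1 ξ hξ
  have a2 := h2 ξ hξ
  have b1 := h1 _ h3
  have b2 := h2 _ h3
  simp only [h4, mul_zero, sum_const_zero] at b1 b2
  have c := modes3_form hJ hT he (R *ᵥ (ξ - η))
  rw [modes3_adj R (ξ - η) (J *ᵥ _), Matrix.mulVec_mulVec, Matrix.mulVec_mulVec, hR, h3,
    dotProduct_smul, smul_eq_mul, ← mul_assoc, he, one_mul] at c
  have d1 : (ξ - η) ⬝ᵥ (ξ - η) = ξ ⬝ᵥ ξ - ξ ⬝ᵥ η := by
    rw [dotProduct_sub, b1, sub_zero, sub_dotProduct, dotProduct_comm η]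
  have d2 : (R *ᵥ (ξ - η)) ⬝ᵥ (R *ᵥ (ξ - η)) = (R *ᵥ ξ) ⬝ᵥ (R *ᵥ ξ) - (R *ᵥ ξ) ⬝ᵥ (R *ᵥ η) := by
    nth_rewrite 2 [Matrix.mulVec_sub]
    rw [dotProduct_sub, b2, sub_zero, Matrix.mulVec_sub, sub_dotProduct, dotProduct_comm (R *ᵥ η)]
  have d3 : ∑ k, (z k + (z k)⁻¹ - 2) * (m k ⬝ᵥ ξ) ^ 2 = (R *ᵥ ξ) ⬝ᵥ (R *ᵥ η) - ξ ⬝ᵥ η := by
    rw [a1, a2, ← sum_sub_distrib]
    exact sum_congr rfl fun k _ => by ring
  linarith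

theorem modes3_kb {R J : Matrix ι ι ℝ} (hJ : J * J = 1) (hR : Rᵀ * J * R = J) {m : ι → ℝ} {z : ℝ}
    (he : (Rᵀ * R) *ᵥ m = z • m) {e : ℝ} (h : e * e = 1) :
    J *ᵥ (R *ᵥ (m + (e * z) • (J *ᵥ m))) = e • (R *ᵥ (m + (e * z) • (J *ᵥ m))) := by
  obtain ⟨ξ, hξ⟩ : ∃ ξ, ξ = m + (e * z) • (J *ᵥ m) := ⟨_, rfl⟩
  have h1 : (Rᵀ * R) *ᵥ ξ = e • (J *ᵥ ξ) := by
    rw [hξ, Matrix.mulVec_add, Matrix.mulVec_add, Matrix.mulVec_smul, Matrix.mulVec_smul, he,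
      mul_smul, modes3_eig hJ hR he, Matrix.mulVec_mulVec, hJ, Matrix.one_mulVec, smul_add,
      smul_smul, ← mul_assoc, h, one_mul, add_comm]
  have h2 := congrArg (fun v => (R * J) *ᵥ v) h1
  simp only [Matrix.mulVec_smul, Matrix.mulVec_mulVec] at h2
  rw [← Matrix.mul_assoc, modes3_inv hJ hR, Matrix.mul_assoc R, hJ, Matrix.mul_one] at h2
  rw [← hξ, Matrix.mulVec_mulVec, h2]

end aux

theorem modes3_JJ (n : ℕ) : JJ n * JJ n = 1 := by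
  rw [JJ, Matrix.diagonal_mul_diagonal, ← Matrix.diagonal_one]
  congr 1
  funext i
  cases i <;> simp

theorem modes_near {n : ℕ} (R : Matrix (OI n) (OI n) ℝ) (hR : Rᵀ * JJ n * R = JJ n) {κ : ℝ}
    (hκ : 1 < κ) (m : Fin n → OI n → ℝ) (z : Fin n → ℝ) (hz : ∀ k, κ ≤ z k)
    (ho : ∀ k l, m k ⬝ᵥ m l = if k = l then 1 else 0) (hJ : ∀ k l, m k ⬝ᵥ (JJ n *ᵥ m l) = 0)
    (he : ∀ k, (Rᵀ * R) *ᵥ m k = z k • m k) (ξ : OI n → ℝ)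
    (hξ : JJ n *ᵥ ξ = ξ ∨ JJ n *ᵥ ξ = -ξ) :
    (κ + κ⁻¹ - 2) * ∑ k, (m k ⬝ᵥ ξ) ^ 2 ≤ (R *ᵥ ξ) ⬝ᵥ (R *ᵥ ξ) - ξ ⬝ᵥ ξ := by
  obtain ⟨e, h, hξ'⟩ : ∃ e : ℝ, e * e = 1 ∧ JJ n *ᵥ ξ = e • ξ :=
    hξ.elim (fun h => ⟨1, one_mul _, h.trans (one_smul _ _).symm⟩)
      fun h => ⟨-1, by norm_num, h.trans (neg_one_smul _ _).symm⟩
  refine le_trans ?_ (modes3_near (modes3_JJ n) (Matrix.diagonal_transpose _) hR m z
    (fun k => by linarith [hz k]) ho hJ he h ξ hξ')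
  rw [mul_sum]
  refine sum_le_sum fun k _ => mul_le_mul_of_nonneg_right ?_ (sq_nonneg _)
  have h1 := hz k
  have h2 : 0 < κ := by linarith
  have h3 : 0 < z k := by linarith
  have h4 : z k + (z k)⁻¹ - (κ + κ⁻¹) = (z k - κ) * (κ * z k - 1) / (κ * z k) := by
    field_simp
    ring
  have h5 : 0 ≤ (z k - κ) * (κ * z k - 1) / (κ * z k) :=
    div_nonneg (mul_nonneg (by linarith) (by nlinarith)) (by positivity)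
  linarith

theorem modes_kb {n : ℕ} (R : Matrix (OI n) (OI n) ℝ) (hR : Rᵀ * JJ n * R = JJ n)
    (m : OI n → ℝ) (z : ℝ) (he : (Rᵀ * R) *ᵥ m = z • m) (k : Fin (n + 1)) :
    (R *ᵥ (m - z • (JJ n *ᵥ m))) (Sum.inl k) = 0 ∧
      (R *ᵥ (m + z • (JJ n *ᵥ m))) (Sum.inr k) = 0 := by
  have h1 := congrFun (modes3_kb (modes3_JJ n) hR he (e := -1) (by norm_num)) (Sum.inl k)
  have h2 := congrFun (modes3_kb (modes3_JJ n) hR he (e := 1) (by norm_num)) (Sum.inr k)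
  rw [neg_one_mul, neg_smul z, ← sub_eq_add_neg] at h1
  rw [one_mul] at h2
  generalize R *ᵥ (m - z • (JJ n *ᵥ m)) = x at h1
  generalize R *ᵥ (m + z • (JJ n *ᵥ m)) = y at h2
  rw [JJ, Matrix.mulVec_diagonal] at h1 h2
  simp only [Sum.elim_inl, Sum.elim_inr, Pi.smul_apply, smul_eq_mul] at h1 h2
  constructor <;> linarith

end Pool.Agent.TAF
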