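import Pool.Agent.P.MP_cb4022_pr.Defs
import Pool.Agent.P.MP_cb4022_pr.RelD
import Pool.Agent.P.MP_cb4022_pr.Toep

open scoped Classical Matrix
open Finset

noncomputable section

namespace Pool.Agent.TAF

theorem reclow_cs (a b c d e x y z u v : ℝ) : (a * x + b * y + c * z + d * u + e * v) ^ 2 ≤
    (a ^ 2 + b ^ 2 + c ^ 2 + d ^ 2 + e ^ 2) * (x ^ 2 + y ^ 2 + z ^ 2 + u ^ 2 + v ^ 2) := by
  nlinarith only [sq_nonneg (a * y - b * x), sq_nonneg (a * z - c * x), sq_nonneg (a * u - d * x),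
    sq_nonneg (a * v - e * x), sq_nonneg (b * z - c * y), sq_nonneg (b * u - d * y),
    sq_nonneg (b * v - e * y), sq_nonneg (c * u - d * z), sq_nonneg (c * v - e * z),
    sq_nonneg (d * v - e * u)]

theorem reclow_row {a b c d e x y z u v K G : ℝ} (hK : a ^ 2 + b ^ 2 + c ^ 2 + d ^ 2 + e ^ 2 ≤ K)
    (hG : x ^ 2 + y ^ 2 + z ^ 2 + u ^ 2 + v ^ 2 ≤ G) :
    (a * x + b * y + c * z + d * u + e * v) ^ 2 ≤ K * G :=
  (reclow_cs a b c d e x y z u v).trans
    (mul_le_mul hK hG (by positivity) (le_trans (by positivity) hK))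

theorem reclow_sum {G : ℕ → ℝ} (hG : ∀ j, 0 ≤ G j) (m : ℕ) :
    ∑ i ∈ range m, (G i + G (i + 1) + G (i + 2)) + (G m + 2 * G (m + 1)) ≤
      3 * ∑ j ∈ range (m + 2), G j := by
  induction m with
  | zero =>
    simp only [range_zero, sum_empty, zero_add, sum_range_succ]
    linarith [hG 0, hG 1]
  | succ m ih =>
    rw [sum_range_succ, sum_range_succ _ (m + 2)]
    linarith

theorem reclow_core {α p K : ℝ} (h0 : 0 ≤ α) (h1 : α < 1 + p) (hp0 : 0 ≤ p) (hp : p < 1)
    (hK : 0 < K) : ∃ t > 0, ∀ (m : ℕ) (w G : ℕ → ℝ), (∀ j, 0 ≤ G j) → w (m + 1) = 0 →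
      (∀ i < m, (w i + α * w (i + 1) + p * w (i + 2)) ^ 2 ≤ K * (G i + G (i + 1) + G (i + 2))) →
      w m ^ 2 ≤ K * (G m + G (m + 1)) →
      t * ∑ j ∈ range (m + 2), w j ^ 2 ≤ ∑ j ∈ range (m + 2), G j := by
  obtain ⟨c, hc, H⟩ := toep_low h0 h1 hp0 hp
  refine ⟨c / (3 * K), by positivity, fun m w G hG hw hb hl => ?_⟩
  have h2 := H (m + 1) (fun j => if j ≤ m + 1 then w j else 0) (by simp [hw]) (by simp)
  have e1 : ∑ i ∈ range (m + 1), (if i ≤ m + 1 then w i else 0) ^ 2 =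
      ∑ j ∈ range (m + 2), w j ^ 2 := by
    rw [sum_range_succ _ (m + 1), hw, sq, mul_zero, add_zero]
    exact sum_congr rfl fun i hi => by rw [if_pos (by have := mem_range.1 hi; omega)]
  have e2 : ∑ i ∈ range (m + 1), ((if i ≤ m + 1 then w i else 0) +
      α * (if i + 1 ≤ m + 1 then w (i + 1) else 0) +
      p * (if i + 2 ≤ m + 1 then w (i + 2) else 0)) ^ 2 ≤
      K * (3 * ∑ j ∈ range (m + 2), G j) := by
    rw [sum_range_succ, if_pos (Nat.le_succ m), if_pos le_rfl, if_neg (by omega), hw]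
    refine le_trans ?_ (mul_le_mul_of_nonneg_left (reclow_sum hG m) hK.le)
    rw [mul_add, mul_sum]
    refine add_le_add (sum_le_sum fun i hi => ?_) ?_
    · have hi' := mem_range.1 hi
      rw [if_pos (by omega), if_pos (by omega), if_pos (by omega)]
      exact hb i hi'
    · have := mul_nonneg hK.le (hG (m + 1))
      simp only [mul_zero, add_zero]
      linarith
  rw [e1] at h2
  rw [div_mul_eq_mul_div, div_le_iff₀ (by positivity)]
  linarith

theorem rec_lowB {y : ℝ} (hy : 1 < y) : ∃ t > 0, ∀ (n : ℕ) (u v u' v' : ℕ → ℝ),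
    Rel y n u v u' v' → v n = 0 → t * ss n v ≤ ss n u + ss n u' := by
  obtain ⟨αR, κR, -, hR⟩ := exists_rightB hy
  have hτ := tau_pos hy
  have hτ1 := tau_lt_one hy
  obtain ⟨t, ht, H⟩ := reclow_core (K := 10 * tau y ^ 2 + (tau y * kap y) ^ 2 + κR ^ 2)
    (alp_pos hy).le (alp_lt hy) (sq_nonneg _) (pow_lt_one₀ hτ.le hτ1 two_ne_zero) (by positivity)
  refine ⟨t, ht, fun n u v u' v' h hv => ?_⟩
  rcases n with _ | m
  · simp only [ss, zero_add, range_one, sum_singleton, hv]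
    nlinarith [sq_nonneg (u 0), sq_nonneg (u' 0)]
  unfold ss
  rw [← sum_add_distrib]
  refine H m v (fun j => u j ^ 2 + u' j ^ 2) (fun j => by positivity) hv (fun i hi => ?_) ?_
  · have e : v i + alp y * v (i + 1) + tau y ^ 2 * v (i + 2) = 2 * tau y * u' (i + 1) +
        2 * tau y * u' (i + 2) + tau y * u i + tau y * kap y * u (i + 1) + tau y * u (i + 2) := by
      rw [h.bulkB hy (by omega)]; ring
    rw [e]
    exact reclow_row (by nlinarith [sq_nonneg κR]) (by nlinarith [sq_nonneg (u' i)])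
  · have e : v m = 2 * tau y * u' (m + 1) + tau y * u m + κR * u (m + 1) + 0 * 0 + 0 * 0 := by
      have := hR m u v u' v' h
      rw [hv] at this
      linarith
    rw [e]
    exact reclow_row (by nlinarith [sq_nonneg (tau y), sq_nonneg (tau y * kap y)])
      (by nlinarith [sq_nonneg (u' m)])

theorem rec_lowA {y : ℝ} (hy : 1 < y) : ∃ t > 0, ∀ (n : ℕ) (u v u' v' : ℕ → ℝ),
    Rel y n u v u' v' → u 0 = 0 → t * ss n u ≤ ss n v + ss n v' := by
  obtain ⟨αL, lam0, κ2, -, hL⟩ := exists_leftA hy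
  have hτ := tau_pos hy
  have hτ1 := tau_lt_one hy
  obtain ⟨t, ht, H⟩ := reclow_core
    (K := 10 * tau y ^ 2 + (tau y * kap y) ^ 2 + lam0 ^ 2 + κ2 ^ 2)
    (alp_pos hy).le (alp_lt hy) (sq_nonneg _) (pow_lt_one₀ hτ.le hτ1 two_ne_zero) (by positivity)
  refine ⟨t, ht, fun n u v u' v' h hu => ?_⟩
  rcases n with _ | m
  · simp only [ss, zero_add, range_one, sum_singleton, hu]
    nlinarith [sq_nonneg (v 0), sq_nonneg (v' 0)]
  unfold ss
  rw [← sum_add_distrib, ← sum_range_reflect (fun j => u j ^ 2),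
    ← sum_range_reflect (fun j => v j ^ 2 + v' j ^ 2)]
  refine H m (fun k => u (m + 1 - k)) (fun k => v (m + 1 - k) ^ 2 + v' (m + 1 - k) ^ 2)
    (fun j => by positivity) (by simpa using hu) (fun k hk => ?_) ?_
  · obtain ⟨i, rfl⟩ : ∃ i, m = i + k + 1 := ⟨m - k - 1, by omega⟩
    have e0 : i + k + 1 + 1 - k = i + 2 := by omega
    have e1 : i + k + 1 + 1 - (k + 1) = i + 1 := by omega
    have e2 : i + k + 1 + 1 - (k + 2) = i := by omega
    simp only [e0, e1, e2]
    have e : u (i + 2) + alp y * u (i + 1) + tau y ^ 2 * u i = 2 * tau y * v' (i + 1) +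
        2 * tau y * v' (i + 2) + tau y * v i + tau y * kap y * v (i + 1) + tau y * v (i + 2) := by
      have := h.bulkA hy (i := i) (by omega)
      linarith
    rw [e]
    exact reclow_row (by nlinarith [sq_nonneg κ2, sq_nonneg lam0])
      (by nlinarith [sq_nonneg (v' i)])
  · have e0 : m + 1 - m = 1 := by omega
    simp only [e0, Nat.sub_self]
    have e : u 1 = lam0 * v' 0 + 2 * tau y * v' 1 + tau y * v 1 + κ2 * v 0 + 0 * 0 := by
      have := hL m u v u' v' h
      rw [hu] at this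
      linarith
    rw [e]
    exact reclow_row (by nlinarith [sq_nonneg (tau y), sq_nonneg (tau y * kap y)])
      (by nlinarith)

end Pool.Agent.TAF
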