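import Pool.Agent.P.MP_cb4022_pr.Defs
import Pool.Agent.P.MP_cb4022_pr.Modes1
import Pool.Agent.P.MP_cb4022_pr.Modes2
import Pool.Agent.P.MP_cb4022_pr.Modes3
import Pool.Agent.P.MP_cb4022_pr.RecLow
import Pool.Agent.P.MP_cb4022_pr.Car

open scoped Classical Matrix
open Finset

noncomputable section

namespace Pool.Agent.TAF

theorem modes_ea_le {n : ℕ} (ξ : OI n → ℝ) {j : ℕ} (hj : j ≤ n) :
    ea ξ j = ξ (Sum.inl ⟨j, Nat.lt_succ_of_le hj⟩) := by
  unfold ea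
  rw [dif_pos (Nat.lt_succ_of_le hj)]

theorem modes_eb_le {n : ℕ} (ξ : OI n → ℝ) {j : ℕ} (hj : j ≤ n) :
    eb ξ j = ξ (Sum.inr ⟨j, Nat.lt_succ_of_le hj⟩) := by
  unfold eb
  rw [dif_pos (Nat.lt_succ_of_le hj)]

theorem modes_ss_ea {n : ℕ} (ξ : OI n → ℝ) : ss n (ea ξ) = ∑ k, ξ (Sum.inl k) ^ 2 := by
  unfold ss
  rw [← Fin.sum_univ_eq_sum_range (fun j => ea ξ j ^ 2) (n + 1)]
  refine Finset.sum_congr rfl fun k _ => ?_
  rw [modes_ea_le ξ (Nat.lt_succ_iff.mp k.2)]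

theorem modes_ea_smul {n : ℕ} (c : ℝ) (ξ : OI n → ℝ) : ea (c • ξ) = c • ea ξ := by
  funext j
  simp only [ea, Pi.smul_apply, smul_eq_mul]
  split_ifs <;> simp

theorem modes_eb_smul {n : ℕ} (c : ℝ) (ξ : OI n → ℝ) : eb (c • ξ) = c • eb ξ := by
  funext j
  simp only [eb, Pi.smul_apply, smul_eq_mul]
  split_ifs <;> simp

theorem modes_J_inl {n : ℕ} (ξ : OI n → ℝ) (k : Fin (n + 1)) :
    (JJ n *ᵥ ξ) (Sum.inl k) = ξ (Sum.inl k) := by
  simp [JJ, Matrix.mulVec_diagonal]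

theorem modes_J_inr {n : ℕ} (ξ : OI n → ℝ) (k : Fin (n + 1)) :
    (JJ n *ᵥ ξ) (Sum.inr k) = -ξ (Sum.inr k) := by
  simp [JJ, Matrix.mulVec_diagonal]

theorem modes_ip_congr {n : ℕ} {u v u' v' : ℕ → ℝ} (hu : ∀ j ≤ n, u j = u' j)
    (hv : ∀ j ≤ n, v j = v' j) : ip n u v = ip n u' v' := by
  unfold ip
  refine Finset.sum_congr rfl fun j hj => ?_
  have : j ≤ n := Nat.lt_succ_iff.mp (Finset.mem_range.mp hj)
  rw [hu j this, hv j this]

theorem modes_ip_zero (n : ℕ) (u : ℕ → ℝ) : ip n u 0 = 0 := by simp [ip]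

theorem modes_ip_neg (n : ℕ) (u v : ℕ → ℝ) : ip n u (-v) = -ip n u v := by
  simp [ip, Finset.sum_neg_distrib]

theorem exists_modes {y : ℝ} (hy : 1 < y) : ∃ κ > 1, ∀ n, ∃ a b z, Modes n y κ a b z := by
  obtain ⟨t, ht, hlowB⟩ := rec_lowB hy
  refine ⟨1 + 2 * t, by linarith, fun n => ?_⟩
  obtain ⟨R, hR1, hR2, hR3⟩ := exists_R1 n hy
  have hlow : ∀ ξ : OI n → ℝ, (∀ k, ξ (Sum.inl k) = 0) → ξ (Sum.inr (Fin.last n)) = 0 →
      t * (ξ ⬝ᵥ ξ) ≤ ∑ k, (R *ᵥ ξ) (Sum.inl k) ^ 2 := by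
    intro ξ h0 hl
    have h1 := hlowB n _ _ _ _ ((hR1 ξ).rel hy) (by rw [modes_eb_le ξ le_rfl]; exact hl)
    have h2 : ss n (ea ξ) = 0 := by simp [modes_ss_ea, h0]
    rw [← ip_ea, ip_self, ip_self, h2, zero_add, ← modes_ss_ea]
    linarith
  obtain ⟨m, z, hz, ho, hJ, he⟩ := modes_lin R hR2 ht hlow
  have hκ : (1 : ℝ) < 1 + 2 * t := by linarith
  refine ⟨fun k => ea (m k), fun k => eb (m k), z, ⟨hz, ?_, ?_, ?_, ?_, ?_, ?_, ?_⟩⟩
  · intro k l
    have h1 := ip_ea (m k) (m l)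
    have h2 := ip_JJ (m k) (m l)
    rw [ho] at h1
    rw [hJ] at h2
    split_ifs at h1 ⊢ <;> linarith
  · intro k l
    have h1 := ip_ea (m k) (m l)
    have h2 := ip_JJ (m k) (m l)
    rw [ho] at h1
    rw [hJ] at h2
    split_ifs at h1 ⊢ <;> linarith
  · intro k
    rw [hR3, he, modes_ea_smul, modes_eb_smul, gam_smul, Matrix.smul_mul]
  · intro v u' v' h
    set ξ : OI n → ℝ := Sum.elim 0 fun k => v k.val with hξ
    have ha : ∀ j ≤ n, ea ξ j = (0 : ℕ → ℝ) j := fun j hj => by rw [modes_ea_le ξ hj]; rfl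
    have hb : ∀ j ≤ n, eb ξ j = v j := fun j hj => by rw [modes_eb_le ξ hj]; rfl
    have h' : Itw n y 0 v (ea (R *ᵥ ξ)) (eb (R *ᵥ ξ)) :=
      (hR1 ξ).congr ha hb (fun _ _ => rfl) fun _ _ => rfl
    have hu := h'.unique hy h
    have hn := modes_near R hR2 hκ m z hz ho hJ he ξ (Or.inr (by
      funext i
      rcases i with k | k
      · rw [modes_J_inl]; simp [hξ]
      · rw [modes_J_inr]; rfl))
    have e1 : ∀ k, m k ⬝ᵥ ξ = ip n (eb (m k)) v := fun k => by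
      rw [← ip_ea, modes_ip_congr (fun _ _ => rfl) ha, modes_ip_zero, zero_add,
        modes_ip_congr (fun _ _ => rfl) hb]
    have e2 : (R *ᵥ ξ) ⬝ᵥ (R *ᵥ ξ) = ss n u' + ss n v' := by
      rw [← ip_ea, modes_ip_congr (fun j hj => (hu j hj).1) (fun j hj => (hu j hj).1),
        modes_ip_congr (fun j hj => (hu j hj).2) (fun j hj => (hu j hj).2), ip_self, ip_self]
    have e3 : ξ ⬝ᵥ ξ = ss n v := by
      rw [← ip_ea, modes_ip_congr ha ha, modes_ip_zero, zero_add, modes_ip_congr hb hb, ip_self]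
    have e4 := h.form hy h
    rw [modes_ip_zero, ip_self, ip_self, ip_self] at e4
    simp only [e1, e2, e3] at hn
    linarith
  · intro u u' v' h
    set ξ : OI n → ℝ := Sum.elim (fun k => u k.val) 0 with hξ
    have ha : ∀ j ≤ n, ea ξ j = u j := fun j hj => by rw [modes_ea_le ξ hj]; rfl
    have hb : ∀ j ≤ n, eb ξ j = (0 : ℕ → ℝ) j := fun j hj => by rw [modes_eb_le ξ hj]; rfl
    have h' : Itw n y u 0 (ea (R *ᵥ ξ)) (eb (R *ᵥ ξ)) :=
      (hR1 ξ).congr ha hb (fun _ _ => rfl) fun _ _ => rfl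
    have hu := h'.unique hy h
    have hn := modes_near R hR2 hκ m z hz ho hJ he ξ (Or.inl (by
      funext i
      rcases i with k | k
      · rw [modes_J_inl]
      · rw [modes_J_inr]; simp [hξ]))
    have e1 : ∀ k, m k ⬝ᵥ ξ = ip n (ea (m k)) u := fun k => by
      rw [← ip_ea, modes_ip_congr (fun _ _ => rfl) hb, modes_ip_zero, add_zero,
        modes_ip_congr (fun _ _ => rfl) ha]
    have e2 : (R *ᵥ ξ) ⬝ᵥ (R *ᵥ ξ) = ss n u' + ss n v' := by
      rw [← ip_ea, modes_ip_congr (fun j hj => (hu j hj).1) (fun j hj => (hu j hj).1),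
        modes_ip_congr (fun j hj => (hu j hj).2) (fun j hj => (hu j hj).2), ip_self, ip_self]
    have e3 : ξ ⬝ᵥ ξ = ss n u := by
      rw [← ip_ea, modes_ip_congr hb hb, modes_ip_zero, add_zero, modes_ip_congr ha ha, ip_self]
    have e4 := h.form hy h
    rw [modes_ip_zero, ip_self, ip_self, ip_self] at e4
    simp only [e1, e2, e3] at hn
    linarith
  · intro k
    have hzk : z k + 1 ≠ 0 := by have := hz k; linarith
    refine ⟨_, ((hR1 (m k - z k • (JJ n *ᵥ m k))).smul (z k + 1)⁻¹).congr ?_ ?_ ?_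
      fun _ _ => rfl⟩
    · intro j hj
      simp only [Pi.smul_apply, smul_eq_mul, modes_ea_le _ hj, Pi.sub_apply, modes_J_inl]
      field_simp
      ring
    · intro j hj
      simp only [Pi.smul_apply, smul_eq_mul, modes_eb_le _ hj, Pi.sub_apply, modes_J_inr]
      field_simp
      ring
    · intro j hj
      rw [Pi.smul_apply, modes_ea_le _ hj, (modes_kb R hR2 (m k) (z k) (he k) _).1]
      simp
  · intro k
    have hzk : z k + 1 ≠ 0 := by have := hz k; linarith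
    refine ⟨_, ((hR1 (m k + z k • (JJ n *ᵥ m k))).smul (z k + 1)⁻¹).congr ?_ ?_
      (fun _ _ => rfl) ?_⟩
    · intro j hj
      simp only [Pi.smul_apply, smul_eq_mul, modes_ea_le _ hj, Pi.add_apply, modes_J_inl]
      field_simp
      ring
    · intro j hj
      simp only [Pi.smul_apply, smul_eq_mul, modes_eb_le _ hj, Pi.add_apply, modes_J_inr]
      field_simp
      ring
    · intro j hj
      rw [Pi.smul_apply, modes_eb_le _ hj, (modes_kb R hR2 (m k) (z k) (he k) _).2]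
      simp

theorem Modes.kill {n : ℕ} {y κ : ℝ} (hκ : 1 < κ) {a b : Fin n → ℕ → ℝ} {z : Fin n → ℝ}
    (h : Modes n y κ a b z) {lam : ℝ} (hlam : 0 ≤ lam)
    (hle : ∀ w, w ⬝ᵥ (TT n y *ᵥ w) ≤ lam * (w ⬝ᵥ w)) {μ : ℝ} {w : St n → ℝ} (hμ : lam / κ < μ)
    (hw : TT n y *ᵥ w = μ • w) (k : Fin n) : gam n (a k) (b k) *ᵥ w = 0 := by
  have hκ0 : 0 < κ := by linarith
  have e : TT n y *ᵥ (gam n (a k) (b k) *ᵥ w) = (z k * μ) • (gam n (a k) (b k) *ᵥ w) := by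
    rw [Matrix.mulVec_mulVec, h.eig, Matrix.smul_mulVec, ← Matrix.mulVec_mulVec, hw,
      Matrix.mulVec_smul, smul_smul]
  have h1 := hle (gam n (a k) (b k) *ᵥ w)
  rw [e, dotProduct_smul, smul_eq_mul] at h1
  have hμ0 : 0 < μ := lt_of_le_of_lt (div_nonneg hlam hκ0.le) hμ
  have h2 : lam < z k * μ := by
    have h3 : lam < μ * κ := (div_lt_iff₀ hκ0).mp hμ
    have h4 := mul_le_mul_of_nonneg_right (h.ge k) hμ0.le
    linarith
  have h5 : 0 ≤ (gam n (a k) (b k) *ᵥ w) ⬝ᵥ (gam n (a k) (b k) *ᵥ w) :=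
    Finset.sum_nonneg fun i _ => mul_self_nonneg _
  refine dotProduct_self_eq_zero.mp (le_antisymm ?_ h5)
  by_contra h6
  have h7 := mul_lt_mul_of_pos_right h2 (not_le.mp h6)
  linarith

theorem Modes.top {n : ℕ} {y κ : ℝ} (hκ : 1 < κ) {a b : Fin n → ℕ → ℝ} {z : Fin n → ℝ}
    (h : Modes n y κ a b z) {lam : ℝ} (hlam : 0 ≤ lam)
    (hle : ∀ w, w ⬝ᵥ (TT n y *ᵥ w) ≤ lam * (w ⬝ᵥ w)) :
    ∃ K : Submodule ℝ (St n → ℝ), Module.finrank ℝ K ≤ 2 ∧
      ∀ μ w, lam / κ < μ → TT n y *ᵥ w = μ • w → w ∈ K := by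
  refine ⟨⨅ k, LinearMap.ker (Matrix.mulVecLin (gam n (a k) (b k))), ?_, ?_⟩
  · have h1 := car_dim (fun k => gam n (a k) (b k))
      (fun k l => by rw [gam_anti, h.oa, h.ob, sub_self, mul_zero, zero_smul])
      (fun k l => by
        rw [gam_transpose, gam_anti, modes_ip_neg, h.oa, h.ob]
        congr 1
        split_ifs <;> norm_num)
    have h2 : Fintype.card (St n) = 2 ^ n * 2 := by
      simp [pow_succ]
    rw [h2] at h1
    exact Nat.le_of_mul_le_mul_left h1 (by positivity)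
  · intro μ w hμ hw
    rw [Submodule.mem_iInf]
    intro k
    rw [LinearMap.mem_ker, Matrix.mulVecLin_apply]
    exact h.kill hκ hlam hle hμ hw k

end Pool.Agent.TAF
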