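import Pool.Agent.P.MP_cb4022_pr.Defs
import Pool.Agent.P.MP_cb4022_pr.Nrm

open scoped Classical Matrix
open Finset

noncomputable section

namespace Pool.Agent.TAF

variable {S : Type} [Fintype S] [DecidableEq S] {C : Type}

theorem pkg_dot_nonneg (w : S → ℝ) : 0 ≤ w ⬝ᵥ w :=
  sum_nonneg fun _ _ => mul_self_nonneg _

theorem pkg_symm {A : Matrix S S ℝ} (hA : Aᵀ = A) (u w : S → ℝ) :
    u ⬝ᵥ (A *ᵥ w) = (A *ᵥ u) ⬝ᵥ w := by
  rw [Matrix.dotProduct_mulVec, ← Matrix.mulVec_transpose, hA]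

theorem pkg_spec {A : Matrix S S ℝ} (hA : Aᵀ = A) : ∃ (v : S → S → ℝ) (μ : S → ℝ),
    (∀ k, A *ᵥ v k = μ k • v k) ∧ (∀ k, v k ⬝ᵥ v k = 1) ∧
      ∀ w w', w ⬝ᵥ w' = ∑ k, (v k ⬝ᵥ w) * (v k ⬝ᵥ w') := by
  have h : A.IsHermitian := hA
  have e : ∀ x y : EuclideanSpace ℝ S, inner ℝ x y = x.ofLp ⬝ᵥ y.ofLp := fun x y => by
    rw [EuclideanSpace.inner_eq_star_dotProduct, star_trivial, dotProduct_comm]
  refine ⟨fun k => (h.eigenvectorBasis k).ofLp, h.eigenvalues, h.mulVec_eigenvectorBasis,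
    fun k => ?_, fun w w' => ?_⟩
  · rw [← e, real_inner_self_eq_norm_sq, h.eigenvectorBasis.orthonormal.1 k, one_pow]
  · have h1 := h.eigenvectorBasis.sum_inner_mul_inner (WithLp.toLp 2 w) (WithLp.toLp 2 w')
    simp only [e] at h1
    rw [← h1]
    exact sum_congr rfl fun k _ => by rw [dotProduct_comm w]

theorem pkg_eig {A : Matrix S S ℝ} (hA : Aᵀ = A) {l : ℝ} (hl : ∀ w, w ⬝ᵥ (A *ᵥ w) ≤ l * (w ⬝ᵥ w))
    {u : S → ℝ} (hu : l * (u ⬝ᵥ u) ≤ u ⬝ᵥ (A *ᵥ u)) : A *ᵥ u = l • u := by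
  obtain ⟨v, μ, h1, h2, h3⟩ := pkg_spec hA
  have h4 : ∀ k, μ k ≤ l := fun k => by
    have := hl (v k)
    rwa [h1, dotProduct_smul, h2, smul_eq_mul, mul_one, mul_one] at this
  have h5 : ∀ k w, v k ⬝ᵥ (A *ᵥ w) = μ k * (v k ⬝ᵥ w) := fun k w => by
    rw [pkg_symm hA, h1, smul_dotProduct, smul_eq_mul]
  have h6 : ∀ k ∈ univ, 0 ≤ (l - μ k) * (v k ⬝ᵥ u) ^ 2 := fun k _ =>
    mul_nonneg (sub_nonneg.2 (h4 k)) (sq_nonneg _)
  have h7 : ∑ k, (l - μ k) * (v k ⬝ᵥ u) ^ 2 = l * (u ⬝ᵥ u) - u ⬝ᵥ (A *ᵥ u) := by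
    rw [h3 u u, h3 u (A *ᵥ u), mul_sum, ← sum_sub_distrib]
    exact sum_congr rfl fun k _ => by rw [h5]; ring
  have h8 := (sum_eq_zero_iff_of_nonneg h6).1
    (le_antisymm (by rw [h7]; exact sub_nonpos.2 hu) (sum_nonneg h6))
  rw [← sub_eq_zero, ← dotProduct_self_eq_zero, h3]
  refine sum_eq_zero fun k hk => ?_
  rw [dotProduct_sub, h5, dotProduct_smul, smul_eq_mul]
  linear_combination (l - μ k) * h8 k hk

theorem pkg_top {A : Matrix S S ℝ} (hA : Aᵀ = A) [Nonempty S] : ∃ (v : S → ℝ) (l : ℝ),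
    v ⬝ᵥ v = 1 ∧ A *ᵥ v = l • v ∧ ∀ w, w ⬝ᵥ (A *ᵥ w) ≤ l * (w ⬝ᵥ w) := by
  obtain ⟨v, μ, h1, h2, h3⟩ := pkg_spec hA
  obtain ⟨k, hk⟩ := Finite.exists_max μ
  refine ⟨v k, μ k, h2 k, h1 k, fun w => ?_⟩
  rw [h3 w w, h3 w (A *ᵥ w), mul_sum]
  refine sum_le_sum fun i _ => ?_
  rw [pkg_symm hA, h1, smul_dotProduct, smul_eq_mul, mul_left_comm]
  exact mul_le_mul_of_nonneg_right (hk i) (mul_self_nonneg _)

theorem pkg_sector {T : Matrix S S ℝ} {pr : S → Bool} (hT : Tᵀ = T) (hpos : ∀ i j, 0 ≤ T i j)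
    (hpar : ∀ i j, pr i ≠ pr j → T i j = 0) (s : Bool) {l₀ : ℝ} (hl : 0 < l₀) {w : S → ℝ}
    (hw : w ≠ 0) (hs : ∀ i, pr i ≠ s → w i = 0) (hq : l₀ * (w ⬝ᵥ w) ≤ w ⬝ᵥ (T *ᵥ w)) :
    ∃ (Ω : S → ℝ) (l : ℝ), Ω ⬝ᵥ Ω = 1 ∧ (∀ i, pr i ≠ s → Ω i = 0) ∧ T *ᵥ Ω = l • Ω ∧ l₀ ≤ l ∧
      ∀ i, 0 ≤ Ω i := by
  have : Nonempty S := by
    obtain ⟨i, -⟩ := Function.ne_iff.1 hw
    exact ⟨i⟩
  let A : Matrix S S ℝ := Matrix.of fun i j => if pr i = s then T i j else 0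
  have hA0 : ∀ i j, A i j = if pr i = s then T i j else 0 := fun _ _ => rfl
  have hA : Aᵀ = A := by
    ext i j
    rw [Matrix.transpose_apply, hA0, hA0]
    have e : T j i = T i j := congrFun (congrFun hT i) j
    by_cases h : pr i = pr j
    · rw [h, e]
    · rw [e, hpar i j h, ite_self, ite_self]
  have hAp : ∀ i j, 0 ≤ A i j := fun i j => by
    rw [hA0]
    split_ifs
    · exact hpos i j
    · exact le_rfl
  have hAT : ∀ u : S → ℝ, (∀ i, pr i ≠ s → u i = 0) → T *ᵥ u = A *ᵥ u := fun u hu => by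
    funext i
    refine sum_congr rfl fun j _ => ?_
    change T i j * u j = A i j * u j
    rw [hA0]
    split_ifs with h
    · rfl
    · by_cases h' : pr j = s
      · rw [hpar i j fun e => h (e.trans h')]
      · rw [hu j h', mul_zero, mul_zero]
  obtain ⟨v, l, h1, h2, h3⟩ := pkg_top hA
  have hw0 : 0 < w ⬝ᵥ w :=
    (pkg_dot_nonneg w).lt_of_ne fun e => hw (dotProduct_self_eq_zero.1 e.symm)
  have h4 : l₀ ≤ l := le_of_mul_le_mul_right (hq.trans (hAT w hs ▸ h3 w)) hw0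
  have h5 : (fun i => |v i|) ⬝ᵥ (fun i => |v i|) = 1 := by
    rw [← h1]
    exact sum_congr rfl fun i _ => abs_mul_abs_self _
  have h6 : A *ᵥ (fun i => |v i|) = l • fun i => |v i| := by
    refine pkg_eig hA h3 ?_
    have e : v ⬝ᵥ (A *ᵥ v) = l * 1 := by rw [h2, dotProduct_smul, h1, smul_eq_mul]
    rw [h5, ← e]
    refine sum_le_sum fun i _ => (le_abs_self _).trans ?_
    rw [abs_mul]
    refine mul_le_mul_of_nonneg_left ((abs_sum_le_sum_abs _ _).trans_eq ?_) (abs_nonneg _)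
    exact sum_congr rfl fun j _ => by rw [abs_mul, abs_of_nonneg (hAp i j)]
  have h7 : ∀ i, pr i ≠ s → |v i| = 0 := fun i hi => by
    have e : (A *ᵥ fun i => |v i|) i = 0 := sum_eq_zero fun j _ => by
      change A i j * _ = 0
      rw [hA0, if_neg hi, zero_mul]
    rw [h6] at e
    exact (mul_eq_zero.1 e).resolve_left (hl.trans_le h4).ne'
  exact ⟨fun i => |v i|, l, h5, h7, (hAT _ h7).trans h6, h4, fun i => abs_nonneg _⟩

theorem pkg_span {K : Submodule ℝ (S → ℝ)} (hK : Module.finrank ℝ K ≤ 2) {a b : S → ℝ}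
    (ha : a ∈ K) (hb : b ∈ K) (haa : a ⬝ᵥ a = 1) (hbb : b ⬝ᵥ b = 1) (hab : a ⬝ᵥ b = 0)
    {u w : S → ℝ} (hu : u ∈ K) (h1 : w ⬝ᵥ a = 0) (h2 : w ⬝ᵥ b = 0) : u ⬝ᵥ w = 0 := by
  have hli : LinearIndependent ℝ ![a, b] := by
    refine LinearIndependent.pair_iff.2 fun x y h => ?_
    have e1 := congrArg (fun z => a ⬝ᵥ z) h
    have e2 := congrArg (fun z => z ⬝ᵥ b) h
    simp only [dotProduct_add, add_dotProduct, dotProduct_smul, smul_dotProduct, haa, hbb, hab,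
      smul_eq_mul, dotProduct_zero, zero_dotProduct] at e1 e2
    constructor <;> linarith
  have hle : Submodule.span ℝ (Set.range ![a, b]) ≤ K := by
    rw [Submodule.span_le]
    rintro _ ⟨i, rfl⟩
    fin_cases i
    · exact ha
    · exact hb
  have he := Submodule.eq_of_le_of_finrank_le hle
    (by rw [finrank_span_eq_card hli, Fintype.card_fin]; exact hK)
  rw [← he, Submodule.mem_span_range_iff_exists_fun] at hu
  obtain ⟨c, rfl⟩ := hu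
  rw [dotProduct_comm, Fin.sum_univ_two, dotProduct_add, dotProduct_smul, dotProduct_smul]
  change c 0 * (w ⬝ᵥ a) + c 1 * (w ⬝ᵥ b) = 0
  rw [h1, h2, mul_zero, mul_zero, add_zero]

theorem pkg (T : Matrix S S ℝ) (pr : S → Bool) (hT : Tᵀ = T) (hpos : ∀ i j, 0 ≤ T i j)
    (hpsd : ∀ w, 0 ≤ w ⬝ᵥ (T *ᵥ w)) (hpar : ∀ i j, pr i ≠ pr j → T i j = 0) {lam θ δ : ℝ}
    (hlam : 0 < lam) (hle : ∀ w, w ⬝ᵥ (T *ᵥ w) ≤ lam * (w ⬝ᵥ w))
    (hat : ∃ w, w ≠ 0 ∧ T *ᵥ w = lam • w) (hθ : 0 ≤ θ) (hδ : 0 ≤ δ) (hδθ : δ < 1 - θ)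
    (K : Submodule ℝ (S → ℝ)) (hK : Module.finrank ℝ K ≤ 2)
    (hKm : ∀ μ w, θ * lam < μ → T *ᵥ w = μ • w → w ∈ K) (χ : Matrix S S ℝ) (hχ : χᵀ * χ = 1)
    (hχp : ∀ i j, pr i = pr j → χ i j = 0)
    (hc : ∀ w, nrm ((T * χ - χ * T) *ᵥ w) ≤ δ * lam * nrm w) :
    ∃ Ωp Ωm lp lm, Pack T pr lam θ δ Ωp Ωm lp lm := by
  obtain ⟨w, hw, hTw⟩ := hat
  obtain ⟨i₀, hi₀⟩ := Function.ne_iff.1 hw
  let u : S → ℝ := fun i => if pr i = pr i₀ then w i else 0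
  have hu0 : u ≠ 0 := Function.ne_iff.2 ⟨i₀, by simpa [u] using hi₀⟩
  have hus : ∀ i, pr i ≠ pr i₀ → u i = 0 := fun i hi => if_neg hi
  have hTu : T *ᵥ u = lam • u := by
    funext i
    by_cases h : pr i = pr i₀
    · have e : (lam • u) i = (lam • w) i := congrArg (lam * ·) (if_pos h)
      rw [e, ← hTw]
      refine sum_congr rfl fun j _ => ?_
      change T i j * u j = T i j * w j
      by_cases h' : pr j = pr i₀
      · exact congrArg (T i j * ·) (if_pos h')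
      · rw [hpar i j fun e => h' (e.symm.trans h), zero_mul, zero_mul]
    · rw [Pi.smul_apply, hus i h, smul_zero]
      refine sum_eq_zero fun j _ => ?_
      change T i j * u j = 0
      by_cases h' : pr j = pr i₀
      · rw [hpar i j fun e => h (e.trans h'), zero_mul]
      · rw [hus j h', mul_zero]
  have hχu : (χ *ᵥ u) ⬝ᵥ (χ *ᵥ u) = u ⬝ᵥ u := by
    rw [Matrix.dotProduct_mulVec, ← Matrix.mulVec_transpose, Matrix.mulVec_mulVec, hχ,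
      Matrix.one_mulVec]
  have hl0 : θ * lam < (1 - δ) * lam := mul_lt_mul_of_pos_right (by linarith) hlam
  have hl1 : 0 < (1 - δ) * lam := lt_of_le_of_lt (by positivity) hl0
  have key : ∀ s : Bool, ∃ (Ω : S → ℝ) (l : ℝ), Ω ⬝ᵥ Ω = 1 ∧ (∀ i, pr i ≠ s → Ω i = 0) ∧
      T *ᵥ Ω = l • Ω ∧ (1 - δ) * lam ≤ l ∧ ∀ i, 0 ≤ Ω i := fun s => by
    by_cases hs : pr i₀ = s
    · refine pkg_sector hT hpos hpar s hl1 hu0 (hs ▸ hus) ?_
      rw [hTu, dotProduct_smul, smul_eq_mul]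
      refine mul_le_mul_of_nonneg_right ?_ (pkg_dot_nonneg u)
      nlinarith
    · refine pkg_sector hT hpos hpar s hl1 (w := χ *ᵥ u) (fun e => hu0 ?_) (fun i hi => ?_) ?_
      · rw [← dotProduct_self_eq_zero, ← hχu, e, dotProduct_zero]
      · refine sum_eq_zero fun j _ => ?_
        change χ i j * u j = 0
        by_cases h' : pr j = pr i₀
        · rw [hχp i j (by rw [h']; revert hi hs; cases pr i <;> cases pr i₀ <;> cases s <;> simp),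
            zero_mul]
        · rw [hus j h', mul_zero]
      · have e : T *ᵥ (χ *ᵥ u) = (T * χ - χ * T) *ᵥ u + lam • (χ *ᵥ u) := by
          rw [Matrix.sub_mulVec, ← Matrix.mulVec_mulVec, ← Matrix.mulVec_mulVec, hTu,
            Matrix.mulVec_smul, sub_add_cancel]
        have e1 : nrm (χ *ᵥ u) = nrm u := congrArg Real.sqrt hχu
        have e2 := (abs_le.1 ((abs_dot_le (χ *ᵥ u) ((T * χ - χ * T) *ᵥ u)).trans
          (mul_le_mul_of_nonneg_left (hc u) (nrm_nonneg _)))).1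
        rw [e1] at e2
        rw [e, dotProduct_add, dotProduct_smul, hχu, smul_eq_mul, ← nrm_sq]
        linarith
  obtain ⟨Ωp, lp, p1, p2, p3, p4, p5⟩ := key true
  obtain ⟨Ωm, lm, m1, m2, m3, m4, -⟩ := key false
  have hup : ∀ (Ω : S → ℝ) (l : ℝ), Ω ⬝ᵥ Ω = 1 → T *ᵥ Ω = l • Ω → l ≤ lam := fun Ω l h1 h2 => by
    have := hle Ω
    rwa [h2, dotProduct_smul, h1, smul_eq_mul, mul_one, mul_one] at this
  refine ⟨Ωp, Ωm, lp, lm, p1, m1, fun i hi => p2 i (by simp [hi]), fun i hi => m2 i (by simp [hi]),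
    p3, m3, p4, hup _ _ p1 p3, m4, hup _ _ m1 m3, p5, fun x hx hx' => ?_⟩
  have hpm : Ωp ⬝ᵥ Ωm = 0 := sum_eq_zero fun i _ => by
    by_cases h : pr i = true
    · rw [m2 i (by simp [h]), mul_zero]
    · rw [p2 i h, zero_mul]
  obtain ⟨v, μ, h1, h2, h3⟩ := pkg_spec hT
  refine (abs_le_of_sq_le_sq' ?_ (mul_nonneg (by positivity) (nrm_nonneg x))).2
  rw [mul_pow, nrm_sq, nrm_sq, h3 x x, h3 (T *ᵥ x), mul_sum]
  refine sum_le_sum fun k _ => ?_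
  rw [pkg_symm hT, h1, smul_dotProduct, smul_eq_mul]
  rcases le_or_gt (μ k) (θ * lam) with h | h
  · have h4 : 0 ≤ μ k := by
      have := hpsd (v k)
      rwa [h1, dotProduct_smul, h2, smul_eq_mul, mul_one] at this
    rw [mul_mul_mul_comm, ← sq]
    exact mul_le_mul_of_nonneg_right (pow_le_pow_left₀ h4 h 2) (mul_self_nonneg _)
  · rw [pkg_span hK (hKm _ _ (hl0.trans_le p4) p3) (hKm _ _ (hl0.trans_le m4) m3) p1 m1 hpm
      (hKm _ _ h (h1 k)) hx hx']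
    simp

end Pool.Agent.TAF
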