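import Pool.Agent.P.MP_cb4022_pr.Defs
import Pool.Agent.P.MP_cb4022_pr.Gam

open scoped Classical Matrix
open Finset

noncomputable section

namespace Pool.Agent.TAF

theorem vortex_coef {n i : ℕ} (hi : 1 ≤ i) (hin : i ≤ n) (a b : Fin n → ℕ → ℝ) :
    ∃ c : Fin n → ℝ, ∑ k, c k ^ 2 = 1 ∧ (∀ j, 1 ≤ j → j < i → ∑ k, c k * a k j = 0) ∧
      ∀ j, i ≤ j → j < n → ∑ k, c k * b k j = 0 := by
  obtain ⟨m, rfl⟩ : ∃ m, n = m + 1 := ⟨n - 1, by omega⟩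
  let A : Matrix (Fin m) (Fin (m + 1)) ℝ :=
    Matrix.of fun j k => if j.val + 1 < i then a k (j.val + 1) else b k (j.val + 1)
  have hk : LinearMap.ker A.mulVecLin ≠ ⊥ := LinearMap.ker_ne_bot_of_finrank_lt (by simp)
  obtain ⟨c, hc, h0⟩ := Submodule.exists_mem_ne_zero_of_ne_bot hk
  have hc' : ∀ j : Fin m, ∑ k, A j k * c k = 0 := fun j => congrFun hc j
  have hpos : 0 < ∑ k, c k ^ 2 := by
    obtain ⟨k, hk⟩ := Function.ne_iff.1 h0
    exact sum_pos' (fun _ _ => sq_nonneg _) ⟨k, mem_univ _, sq_pos_of_ne_zero hk⟩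
  have key : ∀ (g : Fin (m + 1) → ℝ) (j : Fin m), (∀ k, A j k = g k) →
      ∑ k, (√(∑ k, c k ^ 2))⁻¹ * c k * g k = 0 := fun g j hg => by
    have := hc' j
    simp only [hg] at this
    simp only [mul_assoc, mul_comm (c _) (g _)]
    rw [← mul_sum, this, mul_zero]
  refine ⟨fun k => (√(∑ k, c k ^ 2))⁻¹ * c k, ?_, fun j h1 h2 => ?_, fun j h1 h2 => ?_⟩
  · simp only [mul_pow]
    rw [← mul_sum, inv_pow, Real.sq_sqrt hpos.le, inv_mul_cancel₀ hpos.ne']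
  · obtain ⟨j, rfl⟩ : ∃ j', j = j' + 1 := ⟨j - 1, by omega⟩
    exact key _ ⟨j, by omega⟩ fun k => if_pos h2
  · obtain ⟨j, rfl⟩ : ∃ j', j = j' + 1 := ⟨j - 1, by omega⟩
    exact key _ ⟨j, by omega⟩ fun k => if_neg (not_lt.2 h1)

theorem low_of_mode {n i₀ : ℕ} (hi₀ : i₀ ≤ n) (Z : (ℕ → ℝ) →ₗ[ℝ] (ℕ → ℝ)) {t₀ : ℝ}
    (ht₀ : 0 < t₀) (h : ∀ v, v i₀ = 0 → t₀ * ss n v ≤ ss n (Z v)) (vR : ℕ → ℝ)
    (h1 : vR i₀ = 1) (h3 : ss n (Z vR) ≤ min t₀ 1 / 100) (v : ℕ → ℝ) :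
    min t₀ 1 / 100 * ss n v ≤ ss n (Z v) + ip n v vR ^ 2 := by
  obtain ⟨μ, hμ⟩ : ∃ μ, μ = v i₀ := ⟨_, rfl⟩
  obtain ⟨w, hw⟩ : ∃ w, w = v - μ • vR := ⟨_, rfl⟩
  have e : v = w + μ • vR := by rw [hw, sub_add_cancel]
  have a1 := h w (by simp [hw, hμ, h1])
  have a2 : ss n (Z w) ≤ 2 * ss n (Z v) + 2 * μ ^ 2 * ss n (Z vR) := by
    rw [hw, map_sub, map_smul]
    simp only [ss, mul_sum, ← sum_add_distrib, Pi.sub_apply, Pi.smul_apply, smul_eq_mul]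
    exact sum_le_sum fun j _ => by nlinarith [sq_nonneg (Z v j + μ * Z vR j)]
  have a3 : ss n v = ss n w + 2 * μ * ip n w vR + μ ^ 2 * ss n vR := by
    rw [e]
    simp only [ss, ip, mul_sum, ← sum_add_distrib, Pi.add_apply, Pi.smul_apply, smul_eq_mul]
    exact sum_congr rfl fun j _ => by ring
  have a4 : ip n v vR = ip n w vR + μ * ss n vR := by
    rw [e]
    simp only [ss, ip, mul_sum, ← sum_add_distrib, Pi.add_apply, Pi.smul_apply, smul_eq_mul]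
    exact sum_congr rfl fun j _ => by ring
  have a5 : 1 ≤ ss n vR := by
    have := single_le_sum (f := fun j => vR j ^ 2) (fun _ _ => sq_nonneg _)
      (mem_range.2 (Nat.lt_succ_of_le hi₀))
    rwa [h1, one_pow] at this
  have a6 := ip_sq_le n w vR
  have a7 := ss_nonneg n w
  have a8 := ss_nonneg n (Z v)
  have t1 : min t₀ 1 ≤ t₀ := min_le_left _ _
  have t2 : min t₀ 1 ≤ 1 := min_le_right _ _
  have t3 : 0 < min t₀ 1 := lt_min ht₀ one_pos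
  generalize min t₀ 1 = t at *
  generalize ss n w = A at *
  generalize ss n vR = S at *
  generalize ip n w vR = Q at *
  generalize ip n v vR = P at *
  generalize ss n (Z v) = B at *
  have b0 : 0 ≤ P ^ 2 * (S - 1) := mul_nonneg (sq_nonneg _) (by linarith)
  have b1 : ss n v ≤ A + P ^ 2 := by
    refine le_of_mul_le_mul_right ?_ (by linarith : 0 < S)
    have : ss n v * S = A * S + P ^ 2 - Q ^ 2 := by
      rw [a3, a4]
      ring
    nlinarith [sq_nonneg Q]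
  have b2 : μ ^ 2 * S ≤ 2 * P ^ 2 + 2 * A := by
    refine le_of_mul_le_mul_right ?_ (by linarith : 0 < S)
    have : μ ^ 2 * S * S = (P - Q) ^ 2 := by
      rw [a4]
      ring
    nlinarith [sq_nonneg (P + Q)]
  have b3 : μ ^ 2 ≤ 2 * P ^ 2 + 2 * A := le_trans (le_mul_of_one_le_right (sq_nonneg _) a5) b2
  have b4 : μ ^ 2 * ss n (Z vR) ≤ (2 * P ^ 2 + 2 * A) * (t / 100) :=
    mul_le_mul b3 h3 (ss_nonneg _ _) (by positivity)
  have b5 : t * A ≤ t₀ * A := mul_le_mul_of_nonneg_right t1 a7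
  have b6 : t * P ^ 2 ≤ 1 * P ^ 2 := mul_le_mul_of_nonneg_right t2 (sq_nonneg _)
  have b7 : t / 100 * ss n v ≤ t / 100 * (A + P ^ 2) :=
    mul_le_mul_of_nonneg_left b1 (by positivity)
  nlinarith [sq_nonneg P]

theorem comm_dual {n : ℕ} (Z Z' : (ℕ → ℝ) →ₗ[ℝ] (ℕ → ℝ))
    (hadj : ∀ u v, ip n u (Z v) = ip n (Z' u) v) (W : ℕ → ℝ) (hW : ∀ j, 0 < W j) {η : ℝ}
    (hη : 0 ≤ η) (h : ∀ v, ss n (W⁻¹ * Z v - Z (W⁻¹ * v)) ≤ η * ss n (W⁻¹ * v)) (u : ℕ → ℝ) :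
    ss n (W * Z' u - Z' (W * u)) ≤ η * ss n (W * u) := by
  obtain ⟨e, he⟩ : ∃ e, e = W * Z' u - Z' (W * u) := ⟨_, rfl⟩
  have e1 : W⁻¹ * (W * e) = e := funext fun j => inv_mul_cancel_left₀ (hW j).ne' (e j)
  have a1 := h (W * e)
  rw [e1] at a1
  have a2 : ss n e = ip n (Z' u) (W * e) - ip n (Z' (W * u)) e := by
    simp only [ss, ip, ← sum_sub_distrib, Pi.mul_apply]
    refine sum_congr rfl fun j _ => ?_
    have : e j = W j * Z' u j - Z' (W * u) j := congrFun he j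
    linear_combination (e j) * this
  have a3 : ss n e = ip n (W * u) (W⁻¹ * Z (W * e) - Z e) := by
    rw [a2, ← hadj, ← hadj]
    simp only [ip, ← sum_sub_distrib, Pi.mul_apply, Pi.sub_apply, Pi.inv_apply]
    refine sum_congr rfl fun j _ => ?_
    have := (hW j).ne'
    field_simp
  have a4 := ip_sq_le n (W * u) (W⁻¹ * Z (W * e) - Z e)
  rw [← a3] at a4
  have a5 := a4.trans (mul_le_mul_of_nonneg_left a1 (ss_nonneg _ _))
  rw [← he]
  rcases (ss_nonneg n e).eq_or_lt with h0 | h0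
  · rw [← h0]
    exact mul_nonneg hη (ss_nonneg _ _)
  · refine le_of_mul_le_mul_right ?_ h0
    nlinarith

end Pool.Agent.TAF
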