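import Pool.Agent.P.MP_cb4022_pr.Defs
import Pool.Agent.P.MP_cb4022_pr.RelD

open scoped Classical Matrix
open Finset

noncomputable section

namespace Pool.Agent.TAF

theorem weight_split (m : ℕ) (G : ℕ → ℝ) :
    ∑ j ∈ range (m + 1 + 1), G j = G 0 + ∑ i ∈ range m, G (i + 1) + G (m + 1) := by
  rw [sum_range_succ, sum_range_succ']
  ring

theorem weight_band {m : ℕ} {B : ℝ} (hB : 0 ≤ B) {F G : ℕ → ℝ} (hF : ∀ j, 0 ≤ F j)
    (h0 : G 0 ≤ B * (F 0 + F 1)) (h1 : ∀ i, i + 2 ≤ m + 1 →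
      G (i + 1) ≤ B * (F i + F (i + 1) + F (i + 2))) (h2 : G (m + 1) ≤ B * (F m + F (m + 1))) :
    ∑ j ∈ range (m + 1 + 1), G j ≤ 3 * B * ∑ j ∈ range (m + 1 + 1), F j := by
  have e1 := weight_split m F
  have e2 : ∑ j ∈ range (m + 1 + 1), F j = ∑ i ∈ range m, F i + F m + F (m + 1) := by
    rw [sum_range_succ, sum_range_succ]
  have e3 : ∑ j ∈ range (m + 1 + 1), F j = ∑ i ∈ range m, F (i + 2) + F 1 + F 0 := by
    rw [sum_range_succ', sum_range_succ']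
  have h3 : ∑ i ∈ range m, G (i + 1) ≤ ∑ i ∈ range m, B * (F i + F (i + 1) + F (i + 2)) :=
    sum_le_sum fun i hi => h1 i (by have := mem_range.1 hi; omega)
  rw [← mul_sum, sum_add_distrib, sum_add_distrib] at h3
  have h4 : F 0 + F 1 + (∑ i ∈ range m, F i + ∑ i ∈ range m, F (i + 1) +
      ∑ i ∈ range m, F (i + 2)) + (F m + F (m + 1)) ≤ 3 * ∑ j ∈ range (m + 1 + 1), F j := by
    linarith [hF 0, hF (m + 1)]
  have h5 := mul_le_mul_of_nonneg_left h4 hB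
  rw [weight_split m G]
  linarith

theorem tri_pd {τ κ κL κR : ℝ} (hτ : 0 < τ) (hκ : 2 < κ) (hL : τ < κL) (hR : τ < κR) :
    ∃ c > 0, ∀ (m : ℕ) (d g : ℕ → ℝ), g 0 = τ * d 1 + κL * d 0 →
      (∀ i, i + 2 ≤ m + 1 → g (i + 1) = τ * (d i + κ * d (i + 1) + d (i + 2))) →
      g (m + 1) = τ * d m + κR * d (m + 1) → c * ss (m + 1) d ≤ ss (m + 1) g := by
  obtain ⟨c, hc, c1, c2, c3⟩ : ∃ c : ℝ, 0 < c ∧ c ≤ τ * (κ - 2) ∧ c ≤ κL - τ ∧ c ≤ κR - τ :=
    ⟨min (τ * (κ - 2)) (min (κL - τ) (κR - τ)), lt_min (mul_pos hτ (by linarith))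
      (lt_min (by linarith) (by linarith)), min_le_left _ _,
      (min_le_right _ _).trans (min_le_left _ _), (min_le_right _ _).trans (min_le_right _ _)⟩
  refine ⟨c ^ 2, by positivity, fun m d g h0 h1 h2 => ?_⟩
  have a0 : c * d 0 ^ 2 + τ / 2 * (d 0 ^ 2 - d 1 ^ 2) ≤ d 0 * g 0 := by
    rw [h0]
    nlinarith [mul_nonneg hτ.le (sq_nonneg (d 0 + d 1)),
      mul_le_mul_of_nonneg_right c2 (sq_nonneg (d 0))]
  have a2 : c * d (m + 1) ^ 2 + τ / 2 * (d (m + 1) ^ 2 - d m ^ 2) ≤ d (m + 1) * g (m + 1) := by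
    rw [h2]
    nlinarith [mul_nonneg hτ.le (sq_nonneg (d m + d (m + 1))),
      mul_le_mul_of_nonneg_right c3 (sq_nonneg (d (m + 1)))]
  have a1 : ∑ i ∈ range m, (c * d (i + 1) ^ 2 + τ / 2 * (d (i + 1) ^ 2 - d i ^ 2) +
      τ / 2 * (d (i + 1) ^ 2 - d (i + 1 + 1) ^ 2)) ≤ ∑ i ∈ range m, d (i + 1) * g (i + 1) := by
    refine sum_le_sum fun i hi => ?_
    rw [h1 i (by have := mem_range.1 hi; omega)]
    nlinarith [mul_nonneg hτ.le (sq_nonneg (d i + d (i + 1))),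
      mul_nonneg hτ.le (sq_nonneg (d (i + 2) + d (i + 1))),
      mul_le_mul_of_nonneg_right c1 (sq_nonneg (d (i + 1)))]
  rw [sum_add_distrib, sum_add_distrib, ← mul_sum, ← mul_sum, ← mul_sum,
    sum_range_sub (fun i => d i ^ 2), sum_range_sub' (fun i => d (i + 1) ^ 2)] at a1
  have a3 : c * ss (m + 1) d ≤ ∑ j ∈ range (m + 1 + 1), d j * g j := by
    rw [ss, weight_split, weight_split]
    linarith
  have a4 : ∑ j ∈ range (m + 1 + 1), 2 * c * (d j * g j) ≤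
      ∑ j ∈ range (m + 1 + 1), (c ^ 2 * d j ^ 2 + g j ^ 2) :=
    sum_le_sum fun j _ => by nlinarith [sq_nonneg (c * d j - g j)]
  rw [sum_add_distrib, ← mul_sum, ← mul_sum] at a4
  have a5 := mul_le_mul_of_nonneg_left a3 (by positivity : 0 ≤ 2 * c)
  unfold ss at a5 ⊢
  linarith

theorem weight_sq {α a b t : ℝ} (hα : 0 ≤ α) (h1 : a ≤ (1 + α) * b) (h2 : b ≤ (1 + α) * a)
    (ht : t ^ 2 ≤ 1) (x : ℝ) : (t * ((a - b) * x)) ^ 2 ≤ α ^ 2 * (a * x) ^ 2 := by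
  have h3 : |a - b| ≤ α * a := by
    refine abs_le.2 ⟨by linarith, ?_⟩
    by_contra h
    nlinarith
  have h4 : (a - b) ^ 2 ≤ (α * a) ^ 2 := by
    rw [← sq_abs]
    exact pow_le_pow_left₀ (abs_nonneg _) h3 2
  calc (t * ((a - b) * x)) ^ 2 = t ^ 2 * ((a - b) ^ 2 * x ^ 2) := by ring
    _ ≤ 1 * ((α * a) ^ 2 * x ^ 2) := mul_le_mul ht (mul_le_mul_of_nonneg_right h4 (sq_nonneg _))
        (by positivity) zero_le_one
    _ = _ := by ring

theorem weight_four (a b c d : ℝ) : (a + b - c - d) ^ 2 ≤ 4 * (a ^ 2 + b ^ 2 + c ^ 2 + d ^ 2) := by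
  nlinarith [sq_nonneg (a - b), sq_nonneg (a + c), sq_nonneg (a + d), sq_nonneg (b + c),
    sq_nonneg (b + d), sq_nonneg (c - d)]

theorem weight_three {p q r B : ℝ} (h : p ^ 2 + q ^ 2 + r ^ 2 ≤ B) (a b c : ℝ) :
    (p * a + q * b + r * c) ^ 2 ≤ B * (a ^ 2 + b ^ 2 + c ^ 2) := by
  refine le_trans ?_ (mul_le_mul_of_nonneg_right h (by positivity))
  nlinarith [sq_nonneg (p * b - q * a), sq_nonneg (p * c - r * a), sq_nonneg (q * c - r * b)]

/-- The image of `d` under the tridiagonal operator. -/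
def weightP (τ κ κL κR : ℝ) (m : ℕ) (d : ℕ → ℝ) : ℕ → ℝ
  | 0 => τ * d 1 + κL * d 0
  | i + 1 => if i = m then τ * d m + κR * d (m + 1) else τ * (d i + κ * d (i + 1) + d (i + 2))

theorem weight_k1 {τ κ κL κR ν al αR : ℝ} {m : ℕ} {u x : ℕ → ℝ} (ht : (τ ^ 2) ^ 2 ≤ 1)
    (l : ν * x 0 + τ ^ 2 * x 1 = τ * u 1 + κL * u 0)
    (b : ∀ i, i + 2 ≤ m + 1 →
      x i + al * x (i + 1) + τ ^ 2 * x (i + 2) = τ * (u i + κ * u (i + 1) + u (i + 2)))
    (r : x m + αR * x (m + 1) = τ * u m + κR * u (m + 1)) :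
    ss (m + 1) (weightP τ κ κL κR m u) ≤ 3 * (2 + ν ^ 2 + al ^ 2 + αR ^ 2) * ss (m + 1) x := by
  have h1 := sq_nonneg ν
  have h2 := sq_nonneg al
  have h3 := sq_nonneg αR
  refine weight_band (by positivity) (fun j => sq_nonneg _) ?_ (fun i hi => ?_) ?_
  · have := weight_three (p := ν) (q := τ ^ 2) (r := 0) (B := 2 + ν ^ 2 + al ^ 2 + αR ^ 2)
      (by linarith) (x 0) (x 1) 0
    simp only [weightP, ← l]
    simpa using this
  · have := weight_three (p := 1) (q := al) (r := τ ^ 2) (B := 2 + ν ^ 2 + al ^ 2 + αR ^ 2)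
      (by linarith) (x i) (x (i + 1)) (x (i + 2))
    simp only [weightP, if_neg (show i ≠ m by omega), ← b i hi]
    simpa using this
  · have := weight_three (p := 1) (q := αR) (r := 0) (B := 2 + ν ^ 2 + al ^ 2 + αR ^ 2)
      (by linarith) (x m) (x (m + 1)) 0
    simp only [weightP, if_true, ← r]
    simpa using this

theorem weight_k2 {τ κ κL κR ν al αR α : ℝ} {m : ℕ} {W u v u₂ : ℕ → ℝ} (ht : τ ^ 2 ≤ 1)
    (hα : 0 ≤ α) (hW1 : ∀ j, W (j + 1) ≤ (1 + α) * W j) (hW2 : ∀ j, W j ≤ (1 + α) * W (j + 1))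
    (l1 : ν * v 0 + τ ^ 2 * v 1 = τ * u 1 + κL * u 0)
    (b1 : ∀ i, i + 2 ≤ m + 1 →
      v i + al * v (i + 1) + τ ^ 2 * v (i + 2) = τ * (u i + κ * u (i + 1) + u (i + 2)))
    (r1 : v m + αR * v (m + 1) = τ * u m + κR * u (m + 1))
    (l2 : ν * (W * v) 0 + τ ^ 2 * (W * v) 1 = τ * u₂ 1 + κL * u₂ 0)
    (b2 : ∀ i, i + 2 ≤ m + 1 → (W * v) i + al * (W * v) (i + 1) + τ ^ 2 * (W * v) (i + 2) =
      τ * (u₂ i + κ * u₂ (i + 1) + u₂ (i + 2)))
    (r2 : (W * v) m + αR * (W * v) (m + 1) = τ * u₂ m + κR * u₂ (m + 1)) :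
    ss (m + 1) (weightP τ κ κL κR m (W * u - u₂)) ≤
      3 * (4 * α ^ 2) * ∑ j ∈ range (m + 1 + 1), ((W j * u j) ^ 2 + (W j * v j) ^ 2) := by
  simp only [Pi.mul_apply] at l2 b2 r2
  have ht2 : (τ ^ 2) ^ 2 ≤ 1 := pow_le_one₀ (sq_nonneg _) ht
  have up := fun j t ht x => weight_sq (t := t) hα (hW1 j) (hW2 j) ht x
  have dn := fun j t ht x => weight_sq (t := t) hα (hW2 j) (hW1 j) ht x
  have hα2 := sq_nonneg α
  refine weight_band (by positivity) (fun j => by positivity) ?_ (fun i hi => ?_) ?_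
  · have e : weightP τ κ κL κR m (W * u - u₂) 0 =
        τ * ((W 1 - W 0) * u 1) + 0 - τ ^ 2 * ((W 1 - W 0) * v 1) - 0 := by
      simp only [weightP, Pi.sub_apply, Pi.mul_apply]
      linear_combination l2 - W 0 * l1
    rw [e]
    refine (weight_four _ _ _ _).trans ?_
    have a1 := up 0 _ ht (u 1)
    have a2 := up 0 _ ht2 (v 1)
    have a3 := mul_nonneg hα2 (sq_nonneg (W 0 * u 0))
    have a4 := mul_nonneg hα2 (sq_nonneg (W 0 * v 0))
    simp only [zero_add] at a1 a2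
    linarith only [a1, a2, a3, a4]
  · have e : weightP τ κ κL κR m (W * u - u₂) (i + 1) =
        τ * ((W i - W (i + 1)) * u i) + τ * ((W (i + 2) - W (i + 1)) * u (i + 2)) -
          1 * ((W i - W (i + 1)) * v i) - τ ^ 2 * ((W (i + 2) - W (i + 1)) * v (i + 2)) := by
      simp only [weightP, Pi.sub_apply, Pi.mul_apply, if_neg (show i ≠ m by omega)]
      linear_combination b2 i hi - W (i + 1) * b1 i hi
    rw [e]
    refine (weight_four _ _ _ _).trans ?_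
    have a1 := dn i _ ht (u i)
    have a2 := up (i + 1) _ ht (u (i + 2))
    have a3 := dn i 1 (by norm_num) (v i)
    have a4 := up (i + 1) _ ht2 (v (i + 2))
    have a5 := mul_nonneg hα2 (sq_nonneg (W (i + 1) * u (i + 1)))
    have a6 := mul_nonneg hα2 (sq_nonneg (W (i + 1) * v (i + 1)))
    linarith only [a1, a2, a3, a4, a5, a6]
  · have e : weightP τ κ κL κR m (W * u - u₂) (m + 1) =
        τ * ((W m - W (m + 1)) * u m) + 0 - 1 * ((W m - W (m + 1)) * v m) - 0 := by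
      simp only [weightP, Pi.sub_apply, Pi.mul_apply, if_true]
      linear_combination r2 - W (m + 1) * r1
    rw [e]
    refine (weight_four _ _ _ _).trans ?_
    have a1 := dn m _ ht (u m)
    have a3 := dn m 1 (by norm_num) (v m)
    have a5 := mul_nonneg hα2 (sq_nonneg (W (m + 1) * u (m + 1)))
    have a6 := mul_nonneg hα2 (sq_nonneg (W (m + 1) * v (m + 1)))
    linarith only [a1, a3, a5, a6]

theorem weight_absorb {c B α D U X : ℝ} (hc : 0 < c) (hB : 0 ≤ B) (hα : 0 ≤ α)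
    (hα' : α ≤ min 1 (c / 48)) (hD : 0 ≤ D) (hX : 0 ≤ X) (k4 : c * U ≤ 3 * B * X)
    (k5 : c * D ≤ 3 * (4 * α ^ 2) * (2 * D + 2 * U + X)) :
    D ≤ ((24 / c * (6 * B / c + 1) + 1) * α) ^ 2 * X := by
  have hα2 := sq_nonneg α
  have k6 : α ^ 2 ≤ c / 48 :=
    (pow_le_of_le_one hα (hα'.trans (min_le_left _ _)) two_ne_zero).trans
      (hα'.trans (min_le_right _ _))
  have k7 : U ≤ 3 * B / c * X := by
    rw [div_mul_eq_mul_div, le_div_iff₀' hc]
    exact k4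
  have k8 := mul_le_mul_of_nonneg_right k6 hD
  have k9 := mul_le_mul_of_nonneg_left k7 hα2
  have k10 : c * D ≤ c * (24 / c * (6 * B / c + 1) * α ^ 2 * X) := by
    have e : c * (24 / c * (6 * B / c + 1) * α ^ 2 * X) =
        24 * (2 * (α ^ 2 * (3 * B / c * X)) + α ^ 2 * X) := by
      field_simp
      ring
    rw [e]
    linarith
  refine (le_of_mul_le_mul_left k10 hc).trans (mul_le_mul_of_nonneg_right ?_ hX)
  have hA : 0 ≤ 24 / c * (6 * B / c + 1) := by positivity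
  generalize 24 / c * (6 * B / c + 1) = A at hA
  rw [mul_pow]
  exact mul_le_mul_of_nonneg_right (by nlinarith only [hA]) hα2

theorem weight_comm {y : ℝ} (hy : 1 < y) : ∃ K α₀ : ℝ, 0 < K ∧ 0 < α₀ ∧
    ∀ (n : ℕ) (α : ℝ) (W u v v' u₂ v₂' : ℕ → ℝ), 1 ≤ n → 0 ≤ α → α ≤ α₀ → (∀ j, 0 < W j) →
      (∀ j, W (j + 1) ≤ (1 + α) * W j) → (∀ j, W j ≤ (1 + α) * W (j + 1)) →
      Rel y n u v 0 v' → Rel y n u₂ (W * v) 0 v₂' →
      ss n (W * u - u₂) ≤ (K * α) ^ 2 * ss n (W * v) := by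
  obtain ⟨αR, κR, hR, hR'⟩ := exists_rightB hy
  obtain ⟨ν, lamL, κL, hL, hL'⟩ := exists_leftB hy
  obtain ⟨c, hc, hpd⟩ := tri_pd (tau_pos hy) (kap_gt hy) hL hR
  have hpd' : ∀ (m : ℕ) (d : ℕ → ℝ),
      c * ss (m + 1) d ≤ ss (m + 1) (weightP (tau y) (kap y) κL κR m d) := fun m d =>
    hpd m d _ rfl (fun i hi => if_neg (by omega)) (if_pos rfl)
  have ht : tau y ^ 2 ≤ 1 := pow_le_one₀ (tau_pos hy).le (tau_lt_one hy).le
  refine ⟨24 / c * (6 * (2 + ν ^ 2 + alp y ^ 2 + αR ^ 2) / c + 1) + 1, min 1 (c / 48),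
    by positivity, by positivity, ?_⟩
  intro n α W u v v' u₂ v₂' hn hα hα' _ hW1 hW2 h1 h2
  obtain ⟨m, rfl⟩ := Nat.exists_eq_add_of_le' hn
  have l1 := hL' m _ _ _ _ h1
  have l2 := hL' m _ _ _ _ h2
  have r1 := hR' m _ _ _ _ h1
  have r2 := hR' m _ _ _ _ h2
  have b1 := fun i hi => h1.bulkB hy (i := i) hi
  have b2 := fun i hi => h2.bulkB hy (i := i) hi
  simp only [Pi.zero_apply, mul_zero, add_zero, zero_add, sub_zero] at l1 l2 r1 r2 b1 b2
  have k3 : ∑ j ∈ range (m + 1 + 1), ((W j * u j) ^ 2 + (W j * v j) ^ 2) ≤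
      2 * ss (m + 1) (W * u - u₂) + 2 * ss (m + 1) u₂ + ss (m + 1) (W * v) := by
    simp only [ss, mul_sum, ← sum_add_distrib, Pi.sub_apply, Pi.mul_apply]
    exact sum_le_sum fun j _ => by nlinarith only [sq_nonneg (W j * u j - 2 * u₂ j)]
  exact weight_absorb hc (by positivity) hα hα' (sum_nonneg fun _ _ => sq_nonneg _)
    (sum_nonneg fun _ _ => sq_nonneg _)
    ((hpd' m _).trans (weight_k1 (pow_le_one₀ (sq_nonneg _) ht) l2 b2 r2))
    ((hpd' m _).trans ((weight_k2 ht hα hW1 hW2 l1 b1 r1 l2 b2 r2).trans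
      (mul_le_mul_of_nonneg_left k3 (by positivity))))

end Pool.Agent.TAF
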