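import Pool.Agent.P.MP_cb4022_pr.Defs
import Pool.Agent.P.MP_cb4022_pr.Itw

open scoped Classical Matrix
open Finset

noncomputable section

namespace Pool.Agent.TAF

theorem zmap_sec {A B : Type} [AddCommGroup A] [Module ℝ A] [AddCommGroup B] [Module ℝ B]
    (Q : A → B → Prop) (hex : ∀ a, ∃ b, Q a b)
    (hadd : ∀ a b a' b', Q a b → Q a' b' → Q (a + a') (b + b'))
    (hsmul : ∀ (c : ℝ) a b, Q a b → Q (c • a) (c • b)) : ∃ σ : A →ₗ[ℝ] B, ∀ a, Q a (σ a) := by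
  let G : Submodule ℝ (A × B) :=
    { carrier := {z | Q z.1 z.2}
      add_mem' := fun {z w} hz hw => hadd _ _ _ _ hz hw
      zero_mem' := by
        obtain ⟨b, hb⟩ := hex 0
        have h := hsmul 0 _ _ hb
        rw [zero_smul, zero_smul] at h
        exact h
      smul_mem' := fun c z hz => hsmul c _ _ hz }
  obtain ⟨g, hg⟩ := LinearMap.exists_rightInverse_of_surjective
    ((LinearMap.fst ℝ A B).comp G.subtype) (LinearMap.range_eq_top.2 fun a => by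
      obtain ⟨b, hb⟩ := hex a
      exact ⟨⟨(a, b), hb⟩, rfl⟩)
  refine ⟨((LinearMap.snd ℝ A B).comp G.subtype).comp g, fun a => ?_⟩
  have h1 : (g a).1.1 = a := LinearMap.congr_fun hg a
  have h2 : Q (g a).1.1 (g a).1.2 := (g a).2
  rw [h1] at h2
  exact h2

theorem zmap_ip_comm (n : ℕ) (u v : ℕ → ℝ) : ip n u v = ip n v u :=
  Finset.sum_congr rfl fun _ _ => mul_comm _ _

theorem zmap_ip_zero (n : ℕ) (u : ℕ → ℝ) : ip n 0 u = 0 := by simp [ip]

theorem zmap_ip_neg (n : ℕ) (u v : ℕ → ℝ) : ip n (-u) v = -ip n u v := by simp [ip]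

theorem zmap_ss_neg (n : ℕ) (u : ℕ → ℝ) : ss n (-u) = ss n u := by simp [ss]

theorem zmap_ss_zero (n : ℕ) : ss n 0 = 0 := by simp [ss]

theorem zmap_half (n : ℕ) (R : (ℕ → ℝ) → (ℕ → ℝ) → (ℕ → ℝ) → (ℕ → ℝ) → Prop)
    (hex : ∀ u v, ∃ u' v', R u v u' v')
    (hadd : ∀ u v u' v' a b a' b', R u v u' v' → R a b a' b' →
      R (u + a) (v + b) (u' + a') (v' + b'))
    (hsmul : ∀ (c : ℝ) u v u' v', R u v u' v' → R (c • u) (c • v) (c • u') (c • v'))
    (hcongr : ∀ u v u' v' a', R u v u' v' → (∀ j ≤ n, u' j = a' j) → R u v a' v')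
    (hform : ∀ u v u' v', R u v u' v' → ss n u - ss n v = ss n u' - ss n v') :
    ∃ Z : (ℕ → ℝ) →ₗ[ℝ] (ℕ → ℝ), (∀ v, ∃ v', R (-Z v) v 0 v') ∧ (∀ v, ss n (Z v) ≤ ss n v) ∧
      ∀ u v u' v', R u v u' v' → ss n (u + Z v) ≤ ss n u' := by
  let ex : (Fin (n + 1) → ℝ) →ₗ[ℝ] (ℕ → ℝ) :=
    { toFun := fun a j => if h : j < n + 1 then a ⟨j, h⟩ else 0
      map_add' := fun a b => by
        funext j
        simp only [Pi.add_apply]
        split_ifs <;> simp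
      map_smul' := fun c a => by
        funext j
        simp only [Pi.smul_apply, RingHom.id_apply]
        split_ifs <;> simp }
  obtain ⟨σ, hσ⟩ := zmap_sec (fun (a : Fin (n + 1) → ℝ) (w : ℕ → ℝ) => ∃ v', R (ex a) 0 w v')
    (fun a => hex _ _)
    (fun a b a' b' ⟨v, hv⟩ ⟨v', hv'⟩ => ⟨v + v', by
      have h := hadd _ _ _ _ _ _ _ _ hv hv'
      rwa [add_zero, ← map_add] at h⟩)
    (fun c a b ⟨v, hv⟩ => ⟨c • v, by
      have h := hsmul c _ _ _ _ hv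
      rwa [smul_zero, ← map_smul] at h⟩)
  let p : (Fin (n + 1) → ℝ) →ₗ[ℝ] (Fin (n + 1) → ℝ) :=
    (LinearMap.funLeft ℝ ℝ (Fin.val : Fin (n + 1) → ℕ)).comp σ
  have hpi : Function.Injective p := (injective_iff_map_eq_zero p).2 fun a ha => by
    obtain ⟨v', hv'⟩ := hσ a
    have h1 := hform _ _ _ _ (hcongr _ _ _ _ 0 hv' fun j hj =>
      congrFun ha ⟨j, Nat.lt_succ_of_le hj⟩)
    rw [zmap_ss_zero] at h1
    have h2 : ss n (ex a) = 0 := by linarith [ss_nonneg n (ex a), ss_nonneg n v']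
    rw [ss, Finset.sum_eq_zero_iff_of_nonneg fun _ _ => sq_nonneg _] at h2
    funext j
    have h3 := h2 j (Finset.mem_range.2 j.2)
    have h4 : ex a j = a j := dif_pos j.2
    rw [h4] at h3
    exact pow_eq_zero_iff two_ne_zero |>.1 h3
  have hps : Function.Surjective p := LinearMap.injective_iff_surjective.1 hpi
  obtain ⟨Z, hZ⟩ := zmap_sec (fun (v w : ℕ → ℝ) => ∃ v', R (-w) v 0 v')
    (fun v => by
      obtain ⟨u', v', h⟩ := hex 0 v
      obtain ⟨a, ha⟩ := hps fun j => -u' j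
      obtain ⟨v'', h'⟩ := hσ a
      have h1 := hadd _ _ _ _ _ _ _ _ h h'
      rw [zero_add, add_zero] at h1
      refine ⟨-ex a, v' + v'', ?_⟩
      rw [neg_neg]
      refine hcongr _ _ _ _ 0 h1 fun j hj => ?_
      have h2 : σ a j = -u' j := congrFun ha ⟨j, Nat.lt_succ_of_le hj⟩
      rw [Pi.add_apply, h2, add_neg_cancel, Pi.zero_apply])
    (fun a b a' b' ⟨v, hv⟩ ⟨v', hv'⟩ => ⟨v + v', by
      have h := hadd _ _ _ _ _ _ _ _ hv hv'
      rwa [add_zero, ← neg_add] at h⟩)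
    (fun c a b ⟨v, hv⟩ => ⟨c • v, by
      have h := hsmul c _ _ _ _ hv
      rwa [smul_zero, smul_neg] at h⟩)
  refine ⟨Z, hZ, fun v => ?_, fun u v u' v' h => ?_⟩
  · obtain ⟨v', hv'⟩ := hZ v
    have h1 := hform _ _ _ _ hv'
    rw [zmap_ss_neg, zmap_ss_zero] at h1
    linarith [ss_nonneg n v']
  · obtain ⟨w, hw⟩ := hZ v
    have h1 := hform _ _ _ _ (hadd _ _ _ _ _ _ _ _ h (hsmul (-1) _ _ _ _ hw))
    rw [neg_one_smul, neg_one_smul, neg_neg, add_neg_cancel, smul_zero, add_zero,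
      zmap_ss_zero] at h1
    linarith [ss_nonneg n (v' + (-1 : ℝ) • w)]

theorem exists_Z (n : ℕ) {y : ℝ} (hy : 1 < y) : ∃ Z Z' : (ℕ → ℝ) →ₗ[ℝ] (ℕ → ℝ),
    (∀ v, ∃ v', Itw n y (-Z v) v 0 v') ∧ (∀ u, ∃ u', Itw n y u (-Z' u) u' 0) ∧
    (∀ u v, ip n u (Z v) = ip n (Z' u) v) ∧ (∀ v, ss n (Z v) ≤ ss n v) ∧
    (∀ u, ss n (Z' u) ≤ ss n u) ∧
    (∀ u v u' v', Itw n y u v u' v' → ss n (u + Z v) ≤ ss n u') ∧
    (∀ u v u' v', Itw n y u v u' v' → ss n (v + Z' u) ≤ ss n v') := by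
  have hf : ∀ u v u' v', Itw n y u v u' v' → ss n u - ss n v = ss n u' - ss n v' :=
    fun u v u' v' h => by simpa only [ip_self] using h.form hy h
  obtain ⟨Z, h1, h2, h3⟩ := zmap_half n (Itw n y)
    (fun u v => (exists_itw hy u v).imp fun _ h => h.imp fun _ h => h.1)
    (fun _ _ _ _ _ _ _ _ h h' => h.add h') (fun c _ _ _ _ h => h.smul c)
    (fun _ _ _ _ _ h h' => h.congr (fun _ _ => rfl) (fun _ _ => rfl) h' fun _ _ => rfl) hf
  obtain ⟨Z', h1', h2', h3'⟩ := zmap_half n (fun v u v' u' => Itw n y u v u' v')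
    (fun v u => by
      obtain ⟨u', v', h, -⟩ := exists_itw (n := n) hy u v
      exact ⟨v', u', h⟩)
    (fun _ _ _ _ _ _ _ _ h h' => h.add h') (fun c _ _ _ _ h => h.smul c)
    (fun _ _ _ _ _ h h' => h.congr (fun _ _ => rfl) (fun _ _ => rfl) (fun _ _ => rfl) h')
    (fun _ _ _ _ h => by linarith [hf _ _ _ _ h])
  refine ⟨Z, Z', h1, h1', fun u v => ?_, h2, h2', h3, fun u v u' v' h => h3' _ _ _ _ h⟩
  obtain ⟨v', hv⟩ := h1 v
  obtain ⟨u', hu⟩ := h1' u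
  have h4 := hv.form hy hu
  rw [zmap_ip_neg, zmap_ip_comm n v, zmap_ip_neg, zmap_ip_zero, zmap_ip_comm n v',
    zmap_ip_zero] at h4
  rw [zmap_ip_comm n u]
  linarith

end Pool.Agent.TAF
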