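import Pool.Agent.P.MP_cb4022_pr.Defs
import Pool.Agent.P.MP_cb4022_pr.Modes
import Pool.Agent.P.MP_cb4022_pr.ModeR
import Pool.Agent.P.MP_cb4022_pr.ModeL
import Pool.Agent.P.MP_cb4022_pr.Zmap
import Pool.Agent.P.MP_cb4022_pr.Weight
import Pool.Agent.P.MP_cb4022_pr.Agmon
import Pool.Agent.P.MP_cb4022_pr.Vort1

open scoped Classical Matrix
open Finset

noncomputable section

namespace Pool.Agent.TAF

private theorem vx_ip_sum {ι : Type} (n : ℕ) (s : Finset ι) (d : ι → ℝ) (b : ι → ℕ → ℝ)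
    (v : ℕ → ℝ) : ip n (∑ k ∈ s, d k • b k) v = ∑ k ∈ s, d k * ip n (b k) v := by
  simp only [ip, Finset.sum_apply, Pi.smul_apply, smul_eq_mul, sum_mul, mul_sum, mul_assoc]
  exact sum_comm

private theorem vx_ip_comm (n : ℕ) (u v : ℕ → ℝ) : ip n u v = ip n v u :=
  sum_congr rfl fun _ _ => mul_comm _ _

private theorem vx_ss_comb {n : ℕ} {a : Fin n → ℕ → ℝ}
    (h : ∀ k l, ip n (a k) (a l) = if k = l then 1 / 2 else 0) (d : Fin n → ℝ) :
    ss n (∑ k, d k • a k) = (∑ k, d k ^ 2) / 2 := by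
  rw [← ip_self, vx_ip_sum, sum_div]
  refine sum_congr rfl fun k _ => ?_
  rw [vx_ip_comm, vx_ip_sum]
  simp only [h, mul_ite, mul_zero, sum_ite_eq', mem_univ, if_true]
  ring

private theorem vx_ip_comb {n : ℕ} (b : Fin n → ℕ → ℝ) (d : Fin n → ℝ) (v : ℕ → ℝ) {E : ℝ}
    (h : ∑ k, ip n (b k) v ^ 2 ≤ E) : ip n (∑ k, d k • b k) v ^ 2 ≤ (∑ k, d k ^ 2) * E := by
  rw [vx_ip_sum]
  exact (sum_mul_sq_le_sq_mul_sq _ _ _).trans
    (mul_le_mul_of_nonneg_left h (sum_nonneg fun _ _ => sq_nonneg _))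

private theorem vx_ss_neg (n : ℕ) (u : ℕ → ℝ) : ss n (-u) = ss n u := by
  simp [ss]

private theorem vx_ss_zero (n : ℕ) : ss n 0 = 0 := by
  simp [ss]

private theorem vx_zero {n : ℕ} {u : ℕ → ℝ} (h : ss n u ≤ ss n 0) {j : ℕ} (hj : j ≤ n) :
    u j = 0 := by
  rw [vx_ss_zero] at h
  have := single_le_sum (f := fun j => u j ^ 2) (fun _ _ => sq_nonneg _)
    (mem_range.2 (Nat.lt_succ_of_le hj))
  exact pow_eq_zero_iff two_ne_zero |>.1 (le_antisymm (this.trans h) (sq_nonneg _))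

private theorem vx_wt {n : ℕ} {w : ℕ → ℝ} {M : ℝ} (P : ℕ → Prop) [DecidablePred P]
    (hw : ∀ j, |w j| ≤ M) (hP : ∀ j, ¬ P j → w j = 0) (v : ℕ → ℝ) :
    ss n (w * v) ≤ M ^ 2 * ss n fun j => if P j then v j else 0 := by
  rw [ss, ss, mul_sum]
  refine sum_le_sum fun j _ => ?_
  rw [Pi.mul_apply, mul_pow]
  split_ifs with h
  · exact mul_le_mul_of_nonneg_right (sq_le_sq' (abs_le.1 (hw j)).1 (abs_le.1 (hw j)).2)
      (sq_nonneg _)
  · simp [hP j h]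

private theorem vx_wt' {n : ℕ} {w : ℕ → ℝ} {M : ℝ} (P : ℕ → Prop) [DecidablePred P]
    (hP : ∀ j, P j → w j = M) (v : ℕ → ℝ) :
    M ^ 2 * (ss n fun j => if P j then v j else 0) ≤ ss n (w * v) := by
  rw [ss, ss, mul_sum]
  refine sum_le_sum fun j _ => ?_
  rw [Pi.mul_apply, mul_pow]
  split_ifs with h
  · rw [hP j h]
  · rw [zero_pow two_ne_zero, mul_zero]
    positivity

private theorem vx_low {n : ℕ} {w g v : ℕ → ℝ} {c M E F : ℝ} (P : ℕ → Prop) [DecidablePred P]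
    (hw : ∀ j, |w j - c| ≤ M) (hc : |c| ≤ M) (hP : ∀ j, ¬ P j → w j = c)
    (hv : (ss n fun j => if P j then v j else 0) ≤ E) (hg : ss n g ≤ F)
    (hi : ip n g v ^ 2 ≤ F * E) : ip n (w * g) v ^ 2 ≤ 4 * M ^ 2 * E * F := by
  have e : ip n (w * g) v = ip n g ((fun j => w j - c) * v) + c * ip n g v := by
    simp only [ip, mul_sum, ← sum_add_distrib, Pi.mul_apply]
    exact sum_congr rfl fun j _ => by ring
  have h1 := vx_wt (n := n) P hw (fun j hj => sub_eq_zero.2 (hP j hj)) v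
  have h2 := ip_sq_le n g ((fun j => w j - c) * v)
  have h3 : ss n g * ss n ((fun j => w j - c) * v) ≤ F * (M ^ 2 * E) :=
    mul_le_mul hg (h1.trans (mul_le_mul_of_nonneg_left hv (sq_nonneg _))) (ss_nonneg _ _)
      ((ss_nonneg _ _).trans hg)
  have h4 : c ^ 2 * ip n g v ^ 2 ≤ M ^ 2 * (F * E) :=
    mul_le_mul (sq_le_sq' (abs_le.1 hc).1 (abs_le.1 hc).2) hi (sq_nonneg _) (sq_nonneg _)
  rw [e]
  nlinarith [sq_nonneg (ip n g ((fun j => w j - c) * v) - c * ip n g v)]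

private theorem vx_geo {n : ℕ} {q A : ℝ} (h0 : 0 < q) (h1 : q < 1) (hA : 0 ≤ A) {x : ℕ → ℝ}
    (h : (∀ j ≤ n, x j ^ 2 ≤ A * q ^ j) ∨ ∀ j ≤ n, x j ^ 2 ≤ A * q ^ (n - j)) :
    ss n x ≤ A / (1 - q) := by
  have e : ∑ j ∈ range (n + 1), A * q ^ j ≤ A / (1 - q) := by
    rw [← mul_sum, div_eq_mul_inv]
    refine mul_le_mul_of_nonneg_left ?_ hA
    rw [← tsum_geometric_of_lt_one h0.le h1]
    exact (summable_geometric_of_lt_one h0.le h1).sum_le_tsum _ fun _ _ => by positivity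
  rcases h with h | h
  · exact (sum_le_sum fun j hj => h j (Nat.le_of_lt_succ (mem_range.1 hj))).trans e
  · rw [← sum_range_reflect] at e
    exact (sum_le_sum fun j hj => h j (Nat.le_of_lt_succ (mem_range.1 hj))).trans e

private theorem vx_sq {x K K' q q' : ℝ} {e L j : ℕ} (hK : 0 < K) (hK' : K ≤ K') (h0 : 0 < q)
    (hq : q ≤ q') (h1 : q' < 1) (h : |x| ≤ K * q ^ e) (hL : L ≤ e) (hj : j ≤ e) :
    x ^ 2 ≤ K' ^ 2 * q' ^ L * q' ^ j := by
  have h2 : |x| ≤ K' * q' ^ e :=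
    h.trans (mul_le_mul hK' (pow_le_pow_left₀ h0.le hq e) (by positivity) (hK.le.trans hK'))
  have h3 : 0 < q' := h0.trans_le hq
  calc x ^ 2 ≤ (K' * q' ^ e) ^ 2 := sq_le_sq' (abs_le.1 h2).1 (abs_le.1 h2).2
    _ = K' ^ 2 * q' ^ e * q' ^ e := by ring
    _ ≤ _ := by
      gcongr ?_ * ?_
      · exact mul_le_mul_of_nonneg_left (pow_le_pow_of_le_one h3.le h1.le hL) (sq_nonneg _)
      · exact pow_le_pow_of_le_one h3.le h1.le hj

private theorem vx_one {n : ℕ} {u : ℕ → ℝ} {k : ℕ} (hk : k ≤ n) (h : ∀ j ≤ n, j ≠ k → u j = 0)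
    {v : ℕ → ℝ} (hv : v k = 1) : ss n u = ip n u v ^ 2 := by
  have hk' := mem_range.2 (Nat.lt_succ_of_le hk)
  rw [ss, ip, sum_eq_single_of_mem k hk', sum_eq_single_of_mem k hk', hv, mul_one]
  · intro j hj e
    rw [h j (Nat.le_of_lt_succ (mem_range.1 hj)) e, zero_mul]
  · intro j hj e
    rw [h j (Nat.le_of_lt_succ (mem_range.1 hj)) e, zero_pow two_ne_zero]

private theorem vx_main {n i L : ℕ} {ρ E A : ℝ} {uL vR : ℕ → ℝ} {fa fb : ℕ → ℕ → ℝ}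
    (hL : 1 ≤ L) (hi : 2 * L ≤ i) (hn : i + 2 * L ≤ n) (hρ : 1 ≤ ρ) (h2 : 2 ≤ ρ ^ L)
    (hE : 4 * (ρ ^ L) ^ 2 * E ≤ 1) (hu : uL 0 = 1) (hv : vR n = 1)
    (tu : ∀ (P : ℕ → Prop) [DecidablePred P], (∀ j, P j → L ≤ j) →
      (ss n fun j => if P j then uL j else 0) ≤ E)
    (tv : ∀ (P : ℕ → Prop) [DecidablePred P], (∀ j, P j → j + L ≤ n) →
      (ss n fun j => if P j then vR j else 0) ≤ E)
    (h1 : ss n (fa 0) + ss n (fb 0) = 1) (za : ∀ j, 1 ≤ j → j < i → fa 0 j = 0)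
    (zb : ∀ j, i ≤ j → j < n → fb 0 j = 0) (ia : ip n (fa 0) uL ^ 2 ≤ 1 * E)
    (ib : ip n (fb 0) vR ^ 2 ≤ 1 * E)
    (ja : ∀ m, ip n (fa m + fa (m + 1)) uL ^ 2 ≤
      (ss n (fa m + fa (m + 1)) + ss n (fb m + fb (m + 1))) * E)
    (jb : ∀ m, ip n (fb m + fb (m + 1)) vR ^ 2 ≤
      (ss n (fa m + fa (m + 1)) + ss n (fb m + fb (m + 1))) * E)
    (hA : ∀ W : ℕ → ℝ, (∀ j, 1 ≤ W j) → (∀ j, W (j + 1) ≤ ρ * W j) → (∀ j, W j ≤ ρ * W (j + 1)) →
      (∀ m, ip n ((W - 1) * (fb m + fb (m + 1))) vR ^ 2 ≤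
        ss n (fa m + fa (m + 1)) + ss n (fb m + fb (m + 1))) →
      (∀ m, ip n ((W - 1) * (fa m + fa (m + 1))) uL ^ 2 ≤
        ss n (fa m + fa (m + 1)) + ss n (fb m + fb (m + 1))) →
      (ss n ((W - 1) * fa 0) ≤ 1 ∨ ss n ((W - 1) * fb 0) ≤ 1) →
      ∀ m, ss n ((W - 1) * fa m) + ss n ((W - 1) * fb m) ≤ A) :
    (ss n fun j => if j < i then fa 0 j else 0) ≤ 4 * E ∧
    (ss n fun j => if i ≤ j then fb 0 j else 0) ≤ 4 * E ∧
    ∀ m, (ρ ^ L) ^ 2 * (ss n fun j => if j + L ≤ i ∨ i + L ≤ j then fa m j else 0) ≤ 8 * A ∧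
      (ρ ^ L) ^ 2 * (ss n fun j => if j + L ≤ i ∨ i + L ≤ j then fb m j else 0) ≤ 8 * A := by
  have s1 := ss_nonneg n (fa 0)
  have s2 := ss_nonneg n (fb 0)
  have la : (ss n fun j => if j < i then fa 0 j else 0) ≤ 4 * E := by
    have e : (fun j => if j < i then fa 0 j else 0) = (fun j => if j < i then 1 else 0) * fa 0 :=
      funext fun j => by simp
    rw [vx_one (Nat.zero_le n) (fun j _ hj => by
      split_ifs with h
      exacts [za j (by omega) h, rfl]) hu, e]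
    refine (vx_low (c := 1) (M := 1) (F := 1) (fun j => i ≤ j) (fun j => ?_) (by simp)
      (fun j hj => if_pos (not_le.1 hj)) (tu _ fun j hj => by omega) (by linarith) ia).trans_eq
      (by ring)
    split_ifs <;> simp
  have rb : (ss n fun j => if i ≤ j then fb 0 j else 0) ≤ 4 * E := by
    have e : (fun j => if i ≤ j then fb 0 j else 0) = (fun j => if i ≤ j then 1 else 0) * fb 0 :=
      funext fun j => by simp
    rw [vx_one (le_refl n) (fun j h' hj => by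
      split_ifs with h
      exacts [zb j h (by omega), rfl]) hv, e]
    refine (vx_low (c := 1) (M := 1) (F := 1) (fun j => j < i) (fun j => ?_) (by simp)
      (fun j hj => if_pos (not_lt.1 hj)) (tv _ fun j hj => by omega) (by linarith) ib).trans_eq
      (by ring)
    split_ifs <;> simp
  have hρ0 : 0 < ρ := by linarith
  have g1 : ∀ k, 1 ≤ ρ ^ min k L := fun k => one_le_pow₀ hρ
  have g2 : ∀ k, ρ ^ min k L ≤ ρ ^ L := fun k => pow_le_pow_right₀ hρ (min_le_right _ _)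
  have g3 : ∀ k l, k ≤ l + 1 → ρ ^ min k L ≤ ρ * ρ ^ min l L := fun k l h => by
    rw [← pow_succ']
    exact pow_le_pow_right₀ hρ (by omega)
  have g4 : ∀ k, |ρ ^ min k L - 1 - 0| ≤ ρ ^ L := fun k =>
    abs_le.2 ⟨by linarith [g1 k], by linarith [g2 k]⟩
  have g5 : ∀ k, |ρ ^ min k L - 1 - (ρ ^ L - 1)| ≤ ρ ^ L := fun k =>
    abs_le.2 ⟨by linarith [g1 k], by linarith [g2 k]⟩
  have g6 : |(0 : ℝ)| ≤ ρ ^ L := by rw [abs_zero]; positivity
  have g7 : |ρ ^ L - 1| ≤ ρ ^ L := abs_le.2 ⟨by linarith, by linarith⟩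
  have g8 : ∀ {x F : ℝ}, 0 ≤ F → x ≤ 4 * (ρ ^ L) ^ 2 * E * F → x ≤ F := fun h h' =>
    h'.trans (mul_le_of_le_one_left h hE)
  have g9 : ∀ m, 0 ≤ ss n (fa m + fa (m + 1)) + ss n (fb m + fb (m + 1)) := fun m =>
    add_nonneg (ss_nonneg _ _) (ss_nonneg _ _)
  have ga : ∀ m, ss n (fa m + fa (m + 1)) ≤ ss n (fa m + fa (m + 1)) + ss n (fb m + fb (m + 1)) :=
    fun m => le_add_of_nonneg_right (ss_nonneg _ _)
  have gb : ∀ m, ss n (fb m + fb (m + 1)) ≤ ss n (fa m + fa (m + 1)) + ss n (fb m + fb (m + 1)) :=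
    fun m => le_add_of_nonneg_left (ss_nonneg _ _)
  have a1 := hA (fun j => ρ ^ min (j - i) L) (fun j => g1 _) (fun j => g3 _ _ (by omega))
    (fun j => g3 _ _ (by omega))
    (fun m => g8 (g9 m) (vx_low (c := ρ ^ L - 1) (fun j => j < i + L) (fun j => g5 _) g7
      (fun j hj => by
        change ρ ^ min (j - i) L - 1 = _
        rw [min_eq_right (by omega)]) (tv _ fun j hj => by omega) (gb m) (jb m)))
    (fun m => g8 (g9 m) (vx_low (c := 0) (fun j => i < j) (fun j => g4 _) g6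
      (fun j hj => by
        change ρ ^ min (j - i) L - 1 = _
        rw [show j - i = 0 by omega, Nat.zero_min, pow_zero, sub_self])
      (tu _ fun j hj => by omega) (ga m) (ja m)))
    (.inr ((vx_wt (M := ρ ^ L) (fun j => i ≤ j) (fun j => by simpa using g4 (j - i))
      (fun j hj => by
        change ρ ^ min (j - i) L - 1 = _
        rw [show j - i = 0 by omega, Nat.zero_min, pow_zero, sub_self]) _).trans
      (by nlinarith [sq_nonneg (ρ ^ L)])))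
  have a2 := hA (fun j => ρ ^ min (i - j) L) (fun j => g1 _) (fun j => g3 _ _ (by omega))
    (fun j => g3 _ _ (by omega))
    (fun m => g8 (g9 m) (vx_low (c := 0) (fun j => j < i) (fun j => g4 _) g6
      (fun j hj => by
        change ρ ^ min (i - j) L - 1 = _
        rw [show i - j = 0 by omega, Nat.zero_min, pow_zero, sub_self])
      (tv _ fun j hj => by omega) (gb m) (jb m)))
    (fun m => g8 (g9 m) (vx_low (c := ρ ^ L - 1) (fun j => i < j + L) (fun j => g5 _) g7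
      (fun j hj => by
        change ρ ^ min (i - j) L - 1 = _
        rw [min_eq_right (by omega)]) (tu _ fun j hj => by omega) (ga m) (ja m)))
    (.inl ((vx_wt (M := ρ ^ L) (fun j => j < i) (fun j => by simpa using g4 (i - j))
      (fun j hj => by
        change ρ ^ min (i - j) L - 1 = _
        rw [show i - j = 0 by omega, Nat.zero_min, pow_zero, sub_self]) _).trans
      (by nlinarith [sq_nonneg (ρ ^ L)])))
  have key : ∀ f : ℕ → ℝ, ss n (((fun j => ρ ^ min (j - i) L) - 1) * f) ≤ A →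
      ss n (((fun j => ρ ^ min (i - j) L) - 1) * f) ≤ A →
      (ρ ^ L) ^ 2 * (ss n fun j => if j + L ≤ i ∨ i + L ≤ j then f j else 0) ≤ 8 * A := by
    intro f b1 b2
    have c1 := vx_wt' (n := n) (w := (fun j => ρ ^ min (j - i) L) - 1) (M := ρ ^ L - 1)
      (fun j => i + L ≤ j) (fun j hj => by
        change ρ ^ min (j - i) L - 1 = _
        rw [min_eq_right (by omega)]) f
    have c2 := vx_wt' (n := n) (w := (fun j => ρ ^ min (i - j) L) - 1) (M := ρ ^ L - 1)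
      (fun j => j + L ≤ i) (fun j hj => by
        change ρ ^ min (i - j) L - 1 = _
        rw [min_eq_right (by omega)]) f
    have c3 : (ss n fun j => if j + L ≤ i ∨ i + L ≤ j then f j else 0) =
        (ss n fun j => if i + L ≤ j then f j else 0) + ss n fun j => if j + L ≤ i then f j else 0 := by
      rw [ss, ss, ss, ← sum_add_distrib]
      refine sum_congr rfl fun j _ => ?_
      by_cases p1 : j + L ≤ i
      · have p2 : ¬ i + L ≤ j := by omega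
        simp [p1, p2]
      · simp [p1]
    have c4 : (ρ ^ L) ^ 2 ≤ 4 * (ρ ^ L - 1) ^ 2 := by nlinarith
    have c5 := ss_nonneg n fun j => if j + L ≤ i ∨ i + L ≤ j then f j else 0
    refine (mul_le_mul_of_nonneg_right c4 c5).trans ?_
    rw [c3]
    linarith
  refine ⟨la, rb, fun m => ⟨key _ ?_ ?_, key _ ?_ ?_⟩⟩
  · exact (le_add_of_nonneg_right (ss_nonneg _ _)).trans (a1 m)
  · exact (le_add_of_nonneg_right (ss_nonneg _ _)).trans (a2 m)
  · exact (le_add_of_nonneg_left (ss_nonneg _ _)).trans (a1 m)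
  · exact (le_add_of_nonneg_left (ss_nonneg _ _)).trans (a2 m)

private theorem vx_field {n : ℕ} {a b : Fin n → ℕ → ℝ} {z : Fin n → ℝ} (hz : ∀ k, 0 < z k)
    (Z : (ℕ → ℝ) →ₗ[ℝ] (ℕ → ℝ)) {j : ℕ} (h : ∀ k, Z (b k) j = (z k - 1) / (z k + 1) * a k j)
    (c : Fin n → ℝ) (m : ℕ) :
    (∑ k, (c k / z k ^ m) • a k) j - (∑ k, (c k / z k ^ (m + 1)) • a k) j =
      Z (∑ k, (c k / z k ^ m) • b k + ∑ k, (c k / z k ^ (m + 1)) • b k) j := by
  simp only [map_add, map_sum, map_smul, Pi.add_apply, Finset.sum_apply, Pi.smul_apply,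
    smul_eq_mul, h, ← sum_add_distrib, ← sum_sub_distrib]
  refine sum_congr rfl fun k _ => ?_
  have := hz k
  field_simp
  ring

theorem exists_vortex {y κ : ℝ} (hy : 1 < y) (hκ : 1 < κ) : ∃ K q : ℝ, ∃ L₀ : ℕ,
    0 < K ∧ 0 < q ∧ q < 1 ∧ ∀ (n i L : ℕ) (a b : Fin n → ℕ → ℝ) (z : Fin n → ℝ) (Ω : St n → ℝ),
      L₀ ≤ L → 2 * L ≤ i → i + 2 * L ≤ n → Modes n y κ a b z →
      (∀ k, gam n (a k) (b k) *ᵥ Ω = 0) → ∃ fa fb, Vortex n y Ω i L (K * q ^ L) fa fb := by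
  obtain ⟨K₁, q₁, hK₁, hq₁, hq₁', mR⟩ := modeR hy
  obtain ⟨K₂, q₂, hK₂, hq₂, hq₂', mL⟩ := modeL hy
  obtain ⟨tB, htB, lB⟩ := rec_lowB hy
  obtain ⟨tA, htA, lA⟩ := rec_lowA hy
  obtain ⟨Kw, α₀, -, hα₀, wc⟩ := weight_comm hy
  obtain ⟨q₀, hq₀⟩ : ∃ q₀, q₀ = max q₁ q₂ := ⟨_, rfl⟩
  obtain ⟨K₀, hK₀⟩ : ∃ K₀, K₀ = max K₁ K₂ := ⟨_, rfl⟩
  obtain ⟨t₀, ht₀⟩ : ∃ t₀, t₀ = min tA tB := ⟨_, rfl⟩
  have q1 : q₁ ≤ q₀ := hq₀ ▸ le_max_left _ _
  have q2 : q₂ ≤ q₀ := hq₀ ▸ le_max_right _ _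
  have q3 : q₀ < 1 := hq₀ ▸ max_lt hq₁' hq₂'
  have q4 : 0 < q₀ := hq₁.trans_le q1
  have k1 : K₁ ≤ K₀ := hK₀ ▸ le_max_left _ _
  have k2 : K₂ ≤ K₀ := hK₀ ▸ le_max_right _ _
  have t1 : t₀ ≤ tA := ht₀ ▸ min_le_left _ _
  have t2 : t₀ ≤ tB := ht₀ ▸ min_le_right _ _
  have t3 : 0 < t₀ := ht₀ ▸ lt_min htA htB
  have t4 : 0 < min t₀ 1 / 100 := div_pos (lt_min t3 one_pos) (by norm_num)
  have t5 : min t₀ 1 / 100 ≤ 1 := by linarith [min_le_right t₀ 1]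
  have hκ0 : 0 < κ := by linarith
  have hκ1 : κ⁻¹ ^ 2 < 1 := pow_lt_one₀ (by positivity) (inv_lt_one_of_one_lt₀ hκ) two_ne_zero
  obtain ⟨A, hA, ag⟩ := agmon t4 t5 (sq_nonneg κ⁻¹) hκ1
  have hD : 0 < κ + κ⁻¹ - 2 := by
    have : κ + κ⁻¹ - 2 = (κ - 1) ^ 2 / κ := by field_simp; ring
    rw [this]
    exact div_pos (pow_pos (by linarith) 2) hκ0
  obtain ⟨α, hα, ha1, ha2, ha3⟩ : ∃ α : ℝ, 0 < α ∧ (Kw * α) ^ 2 < min t₀ 1 / 100 / 100 ∧ α < α₀ ∧
      (1 + α) ^ 4 * q₀ < 1 := by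
    have e1 : ∀ᶠ α : ℝ in nhds 0, (Kw * α) ^ 2 < min t₀ 1 / 100 / 100 :=
      ContinuousAt.eventually_lt (by fun_prop) (by fun_prop) (by simpa using t3)
    have e2 : ∀ᶠ α : ℝ in nhds 0, α < α₀ := eventually_lt_nhds hα₀
    have e3 : ∀ᶠ α : ℝ in nhds 0, (1 + α) ^ 4 * q₀ < 1 :=
      ContinuousAt.eventually_lt (by fun_prop) (by fun_prop) (by simpa using q3)
    exact (e1.and (e2.and e3)).exists_gt
  obtain ⟨B, hB⟩ : ∃ B, B = K₀ ^ 2 / (1 - q₀) * (1 + 2 / (κ + κ⁻¹ - 2)) := ⟨_, rfl⟩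
  have q5 : 0 < 1 - q₀ := by linarith
  have hB0 : 0 ≤ B := by rw [hB]; positivity
  have hρ : 1 < 1 + α := by linarith
  have hq : (1 + α)⁻¹ < 1 := inv_lt_one_of_one_lt₀ hρ
  have hq' : 0 < (1 + α)⁻¹ := by positivity
  obtain ⟨L₀, hL₀⟩ : ∃ L₀ : ℕ, ∀ L, L₀ ≤ L → 1 ≤ L ∧ (1 + α)⁻¹ ^ L < 1 / 2 ∧
      4 * B * (1 + α)⁻¹ ^ L < min t₀ 1 / 100 := by
    have e0 := tendsto_pow_atTop_nhds_zero_of_lt_one hq'.le hq
    have e1 := e0.eventually (eventually_lt_nhds (show (0 : ℝ) < 1 / 2 by norm_num))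
    have e2 := (e0.const_mul (4 * B)).eventually
      (eventually_lt_nhds (show 4 * B * 0 < min t₀ 1 / 100 by rwa [mul_zero]))
    exact Filter.eventually_atTop.1 ((Filter.eventually_ge_atTop 1).and (e1.and e2))
  refine ⟨√(8 * A + 4 * B), (1 + α)⁻¹, L₀, Real.sqrt_pos.2 (by positivity), hq', hq, ?_⟩
  intro n i L a b z Ω hL hi hn hM hΩ
  obtain ⟨l1, l2, l3⟩ := hL₀ L hL
  obtain ⟨vR, v1, v2, v3⟩ := mR n (by omega)
  obtain ⟨uL, u1, u2, u3⟩ := mL n (by omega)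
  obtain ⟨Z, Z', z1, z2, z3, z4, -, z6, z7⟩ := exists_Z n hy
  obtain ⟨c, c1, c2, c3⟩ := vortex_coef (i := i) (by omega) (by omega) a b
  obtain ⟨ur, vr, ir, rr⟩ := exists_itw (n := n) hy 0 vR
  obtain ⟨ul, vl, il, rl⟩ := exists_itw (n := n) hy uL 0
  have hz : ∀ k, 0 < z k := fun k => hκ0.trans_le (hM.ge k)
  obtain ⟨r, hr⟩ : ∃ r, r = (1 + α)⁻¹ ^ L := ⟨_, rfl⟩
  rw [← hr] at l2 l3 ⊢
  have r0 : 0 < r := by rw [hr]; positivity
  have r1 : (1 + α) ^ L * r = 1 := by rw [hr, ← mul_pow, mul_inv_cancel₀ (by linarith), one_pow]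
  have r2 : q₀ ^ L ≤ r ^ 4 := by
    rw [hr, ← pow_mul, mul_comm, pow_mul]
    refine pow_le_pow_left₀ q4.le ?_ L
    rw [inv_pow, ← one_div, le_div_iff₀' (by positivity)]
    exact ha3.le
  have r3 : r ^ 4 ≤ r ^ 2 := pow_le_pow_of_le_one r0.le (by linarith) (by norm_num)
  have r4 : r ^ 2 ≤ r := by nlinarith
  have hE0 : 0 ≤ K₀ ^ 2 * q₀ ^ L := by positivity
  have hE1 : K₀ ^ 2 * q₀ ^ L / (1 - q₀) * (1 + 2 / (κ + κ⁻¹ - 2)) ≤ B * r ^ 4 := by
    refine le_trans (le_of_eq ?_) (mul_le_mul_of_nonneg_left r2 hB0)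
    rw [hB]
    ring
  have hE2 : 0 ≤ K₀ ^ 2 * q₀ ^ L / (1 - q₀) := by positivity
  have hE3 : K₀ ^ 2 * q₀ ^ L / (1 - q₀) ≤ B * r ^ 4 :=
    (le_mul_of_one_le_right hE2 (le_add_of_nonneg_right (by positivity))).trans hE1
  have hE4 : ∀ {x s : ℝ}, (κ + κ⁻¹ - 2) * x ≤ 2 * s → s ≤ K₀ ^ 2 * q₀ ^ L / (1 - q₀) →
      x ≤ B * r ^ 4 := fun {x s} h h' => by
    refine le_trans ?_ hE1
    have : x ≤ K₀ ^ 2 * q₀ ^ L / (1 - q₀) * (2 / (κ + κ⁻¹ - 2)) := by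
      rw [← mul_div_assoc, le_div_iff₀' hD]
      linarith
    rw [mul_add]
    linarith
  have hE5 : B * r ^ 4 ≤ min t₀ 1 / 100 := by
    nlinarith [mul_le_mul_of_nonneg_left (r3.trans r4) hB0, mul_nonneg hB0 r0.le]
  have sr : ss n ur ≤ K₀ ^ 2 * q₀ ^ L / (1 - q₀) := vx_geo q4 q3 hE0 (.inl fun j hj =>
    vx_sq hK₁ k1 hq₁ q1 q3 (v3 _ _ rr j hj).2 (by omega) hj)
  have sl : ss n vl ≤ K₀ ^ 2 * q₀ ^ L / (1 - q₀) := vx_geo q4 q3 hE0 (.inl fun j hj =>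
    vx_sq hK₂ k2 hq₂ q2 q3 (u3 _ _ rl j hj).2 (by omega) hj)
  have nb := hE4 (hM.nb _ _ _ ir) sr
  have na := hE4 (hM.na _ _ _ il) sl
  have sc : ∀ d : Fin n → ℝ, ss n (∑ k, d k • a k) + ss n (∑ k, d k • b k) = ∑ k, d k ^ 2 :=
    fun d => by rw [vx_ss_comb hM.oa, vx_ss_comb hM.ob, add_halves]
  have s0 : ∑ k, (c k / z k ^ 0) ^ 2 = 1 := by simpa using c1
  have lowB := low_of_mode (le_refl n) Z t3 (fun v hv => by
    obtain ⟨v', h⟩ := z1 v
    have := lB n _ _ _ _ (h.rel hy) hv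
    rw [vx_ss_neg, vx_ss_zero, add_zero] at this
    exact (mul_le_mul_of_nonneg_right t2 (ss_nonneg _ _)).trans this) vR v1
    (by simpa only [zero_add] using (z6 _ _ _ _ ir).trans (sr.trans (hE3.trans hE5)))
  have lowA := low_of_mode (Nat.zero_le n) Z' t3 (fun u hu => by
    obtain ⟨u', h⟩ := z2 u
    have := lA n _ _ _ _ (h.rel hy) hu
    rw [vx_ss_neg, vx_ss_zero, add_zero] at this
    exact (mul_le_mul_of_nonneg_right t1 (ss_nonneg _ _)).trans this) uL u1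
    (by simpa only [zero_add] using (z7 _ _ _ _ il).trans (sl.trans (hE3.trans hE5)))
  have cm : ∀ W : ℕ → ℝ, (∀ j, 0 < W j) → (∀ j, W (j + 1) ≤ (1 + α) * W j) →
      (∀ j, W j ≤ (1 + α) * W (j + 1)) →
      ∀ v, ss n (W * Z v - Z (W * v)) ≤ min t₀ 1 / 100 / 100 * ss n (W * v) := by
    intro W w0 w1 w2 v
    obtain ⟨v', h⟩ := z1 v
    obtain ⟨v'', h'⟩ := z1 (W * v)
    have := wc n α W _ _ _ _ _ (by omega) hα.le ha2.le w0 w1 w2 (h.rel hy) (h'.rel hy)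
    rw [show W * -Z v - -Z (W * v) = -(W * Z v - Z (W * v)) by ring, vx_ss_neg] at this
    exact this.trans (mul_le_mul_of_nonneg_right ha1.le (ss_nonneg _ _))
  have kb : ∀ j ≤ n, ∀ k, Z (b k) j = (z k - 1) / (z k + 1) * a k j := fun j hj k => by
    obtain ⟨v', h⟩ := hM.kb k
    have := vx_zero (z6 _ _ _ _ h) hj
    simp only [Pi.add_apply, Pi.smul_apply, smul_eq_mul] at this
    linarith
  have ka : ∀ j ≤ n, ∀ k, Z' (a k) j = (z k - 1) / (z k + 1) * b k j := fun j hj k => by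
    obtain ⟨v', h⟩ := hM.ka k
    have := vx_zero (z7 _ _ _ _ h) hj
    simp only [Pi.add_apply, Pi.smul_apply, smul_eq_mul] at this
    linarith
  have ad : ∀ (a : Fin n → ℕ → ℝ) (m : ℕ),
      ∑ k, (c k / z k ^ m) • a k + ∑ k, (c k / z k ^ (m + 1)) • a k
        = ∑ k, (c k / z k ^ m + c k / z k ^ (m + 1)) • a k := fun a m => by
    simp only [add_smul, sum_add_distrib]
  have r5 : 2 ≤ (1 + α) ^ L := by
    by_contra h
    nlinarith
  obtain ⟨m1, m2, m3⟩ := vx_main (fa := fun m => ∑ k, (c k / z k ^ m) • a k)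
    (fb := fun m => ∑ k, (c k / z k ^ m) • b k) (E := B * r ^ 4) (A := A) l1 hi hn hρ.le r5
    (by
      have : 4 * ((1 + α) ^ L) ^ 2 * (B * r ^ 4) = 4 * B * r ^ 2 * ((1 + α) ^ L * r) ^ 2 := by ring
      rw [this, r1]
      nlinarith [mul_le_mul_of_nonneg_left r4 hB0]) u1 v1
    (fun P _ hP => (vx_geo q4 q3 hE0 (.inl fun j hj => by
      split_ifs with h
      · exact vx_sq hK₂ k2 hq₂ q2 q3 (u2 j hj) (hP j h) le_rfl
      · rw [zero_pow two_ne_zero]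
        positivity)).trans hE3)
    (fun P _ hP => (vx_geo q4 q3 hE0 (.inr fun j hj => by
      split_ifs with h
      · exact vx_sq hK₁ k1 hq₁ q1 q3 (v2 j hj) (by have := hP j h; omega) le_rfl
      · rw [zero_pow two_ne_zero]
        positivity)).trans hE3)
    ((sc _).trans s0) (fun j h h' => by simpa using c2 j h h')
    (fun j h h' => by simpa using c3 j h h') (s0 ▸ vx_ip_comb a _ uL na)
    (s0 ▸ vx_ip_comb b _ vR nb)
    (fun m => by
      simp only [ad, sc]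
      exact vx_ip_comb a _ uL na)
    (fun m => by
      simp only [ad, sc]
      exact vx_ip_comb b _ vR nb)
    (fun W w0 w1 w2 => by
      have w3 : ∀ j, 0 < W j := fun j => one_pos.trans_le (w0 j)
      refine ag n Z Z' uL vR W _ _ z3 z4 lowB lowA w0 (cm W w3 w1 w2)
        (comm_dual Z Z' z3 W w3 (by positivity) (cm W⁻¹ (fun j => inv_pos.2 (w3 j))
          (fun j => ?_) fun j => ?_)) (fun m j hj => vx_field hz Z (kb j hj) c m)
        (fun m j hj => vx_field hz Z' (ka j hj) c m) fun m => ?_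
      · rw [Pi.inv_apply, Pi.inv_apply, ← div_eq_mul_inv, le_div_iff₀ (w3 _),
          inv_mul_le_iff₀ (w3 _), mul_comm]
        exact w2 j
      · rw [Pi.inv_apply, Pi.inv_apply, ← div_eq_mul_inv, le_div_iff₀ (w3 _),
          inv_mul_le_iff₀ (w3 _), mul_comm]
        exact w1 j
      · rw [sc, ← one_mul (_ ^ m), ← c1, sum_mul]
        refine sum_le_sum fun k _ => ?_
        rw [div_pow, div_eq_mul_inv, ← pow_mul, ← pow_mul, mul_comm 2 m, inv_pow]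
        exact mul_le_mul_of_nonneg_left (inv_anti₀ (by positivity)
          (pow_le_pow_left₀ hκ0.le (hM.ge k) _)) (sq_nonneg _))
  have e1 : (√(8 * A + 4 * B) * r) ^ 2 = (8 * A + 4 * B) * r ^ 2 := by
    rw [mul_pow, Real.sq_sqrt (by positivity)]
  have e2 : 4 * (B * r ^ 4) ≤ (√(8 * A + 4 * B) * r) ^ 2 := by
    rw [e1]
    nlinarith [mul_le_mul_of_nonneg_left r3 hB0, mul_pos hA (pow_pos r0 2)]
  have e3 : ∀ {x : ℝ}, ((1 + α) ^ L) ^ 2 * x ≤ 8 * A → x ≤ (√(8 * A + 4 * B) * r) ^ 2 :=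
    fun {x} h => by
      have h1 := mul_le_mul_of_nonneg_right h (sq_nonneg r)
      rw [mul_right_comm, ← mul_pow, r1, one_pow, one_mul] at h1
      rw [e1]
      nlinarith [mul_nonneg hB0 (sq_nonneg r)]
  refine ⟨fun m => ∑ k, (c k / z k ^ m) • a k, fun m => ∑ k, (c k / z k ^ m) • b k,
    (sc _).trans s0, fun m => ?_, fun m => ?_, m1.trans e2, m2.trans e2, fun m => e3 (m3 m).1,
    fun m => e3 (m3 m).2⟩
  · rw [gam_sum, gam_sum, mul_sum, sum_mul]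
    refine sum_congr rfl fun k _ => ?_
    rw [Matrix.mul_smul, hM.eig, smul_smul, Matrix.smul_mul, pow_succ, ← div_div,
      div_mul_cancel₀ _ (hz k).ne']
  · rw [gam_sum, Matrix.sum_mulVec]
    exact sum_eq_zero fun k _ => by rw [Matrix.smul_mulVec, hΩ, smul_zero]

end Pool.Agent.TAF
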