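import Pool.Agent.P.MP_cb4022_pr.Edge
import Pool.Agent.P.MP_cb4022_pr.Pkg
import Pool.Agent.P.MP_cb4022_pr.Modes
import Pool.Agent.P.MP_cb4022_pr.Vortex
import Pool.Agent.P.MP_cb4022_pr.LemB

open scoped Classical Matrix
open Finset

noncomputable section

namespace Pool.Agent.TAF

/-- The spins in the slots `i₀, …, i₁`. -/
def labW {n : ℕ} (i₀ i₁ : ℕ) (σ : St n) : ℕ → Bool :=
  fun j => if i₀ ≤ j ∧ j ≤ i₁ then slot σ j else true

/-- Colour exchange in the slots `i₀, …, i₁`. -/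
def negW (i₀ i₁ : ℕ) (c : ℕ → Bool) : ℕ → Bool :=
  fun j => if i₀ ≤ j ∧ j ≤ i₁ then !c j else c j

/-- Everything that is used later about the top of the spectrum of the transfer matrix. -/
structure State (n : ℕ) (y θ K q : ℝ) (L₀ : ℕ) (lam : ℝ) (Ωp Ωm : St n → ℝ) (lp lm : ℝ) :
    Prop where
  one : 1 ≤ lam
  le : lam ≤ (4 * y ^ 12) ^ (n + 1)
  form : ∀ w, w ⬝ᵥ (TT n y *ᵥ w) ≤ lam * (w ⬝ᵥ w)
  pack : Pack (TT n y) par lam θ (K * q ^ n) Ωp Ωm lp lm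
  small : K * q ^ n ≤ (1 - θ) / 2
  sym : ∀ (i₀ i₁ d m b : ℕ) (f : List (ℕ → Bool) → ℝ), d ≤ i₀ → i₁ + d ≤ n → Even b →
    (∀ l, |f l| ≤ 1) →
    |Ωp ⬝ᵥ (chain (Tk n y) (labW i₀ i₁) (2 * m) b f *ᵥ Ωp) -
      Ωp ⬝ᵥ (chain (Tk n y) (labW i₀ i₁) (2 * m) b (fun l => f (l.map (negW i₀ i₁))) *ᵥ Ωp)| ≤
      K * (m + 1) * q ^ d * lam ^ m
  row : ∀ i j L m l b : ℕ, L₀ ≤ L → 2 * L ≤ i → i + 2 * L ≤ n → j ≤ n + 1 →
    (j + L ≤ i ∨ i + L + 1 ≤ j) → Even b → l ≤ 2 * m →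
    |Ωp ⬝ᵥ ((sig n i * prodT (Tk n y) (2 * m - l) (b + l) * sig n j * prodT (Tk n y) l b) *ᵥ Ωp)|
      ≤ K * q ^ L * lam ^ m

theorem labW_flip_right {n i₀ i₁ j : ℕ} (σ : St n) (h : i₁ ≤ j) :
    labW i₀ i₁ (flipFrom j σ) = labW i₀ i₁ σ := by
  funext k
  unfold labW
  split_ifs with hk
  · rw [slot_flip, if_neg (by omega)]
  · rfl

theorem labW_flip_left {n i₀ i₁ j : ℕ} (σ : St n) (h : j < i₀) (h₁ : i₁ ≤ n + 1) :
    labW i₀ i₁ (flipFrom j σ) = negW i₀ i₁ (labW i₀ i₁ σ) := by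
  funext k
  unfold negW labW
  split_ifs with hk
  · rw [slot_flip, if_pos (by omega)]
  · rfl

theorem pow_le_of {q q' : ℝ} (hq : 0 < q) (h : q ≤ q') (h1 : q' < 1) {a d : ℕ} (hd : d ≤ a) :
    q ^ a ≤ q' ^ d :=
  (pow_le_pow_left₀ hq.le h a).trans (pow_le_pow_of_le_one (by linarith) h1.le hd)

theorem sym_aux {θ m k s t D : ℝ} (hθ : θ < 1) (hm : 0 ≤ m) (hk : 0 < k) (hD : 0 < D) (hs : s ≤ D)
    (ht : t ≤ D) : 2 * m * (k * s + 2 * (k * t)) + 16 * (k * s) / (1 - θ) ≤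
      k * (6 + 16 / (1 - θ)) * (m + 1) * D := by
  set A := 16 / (1 - θ) with hA
  have hA0 : 0 < A := by rw [hA]; apply div_pos <;> linarith
  have e : 16 * (k * s) / (1 - θ) = A * (k * s) := by rw [hA]; ring
  rw [e]
  have h1 : k * s ≤ k * D := by gcongr
  have h2 : k * t ≤ k * D := by gcongr
  have h3 : 0 < k * D := by positivity
  have h4 : A * (k * s) ≤ A * (k * D) := by gcongr
  have h5 : 2 * m * (k * s + 2 * (k * t)) ≤ 2 * m * (k * D + 2 * (k * D)) := by gcongr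
  have h6 : 0 ≤ A * m * (k * D) := by positivity
  nlinarith

theorem exists_state {y : ℝ} (hy : 1 < y) : ∃ (θ K q : ℝ) (L₀ n₀ : ℕ), 0 < θ ∧ θ < 1 ∧ 0 < K ∧
    0 < q ∧ q < 1 ∧ ∀ n, n₀ ≤ n → ∃ lam Ωp Ωm lp lm, State n y θ K q L₀ lam Ωp Ωm lp lm := by
  obtain ⟨κ, hκ, hmodes⟩ := exists_modes hy
  obtain ⟨KR, qR, hKR, hqR0, hqR, hR⟩ := exists_edgeR hy
  obtain ⟨KL, qL, hKL, hqL0, hqL, hL⟩ := exists_edgeL hy
  obtain ⟨KV, qV, L₀, hKV, hqV0, hqV, hV⟩ := exists_vortex hy hκ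
  obtain ⟨KB, hKB, hB⟩ := lemB hy
  set θ := κ⁻¹ with hθ
  have hθ0 : 0 < θ := inv_pos.2 (by linarith)
  have hθ1 : θ < 1 := inv_lt_one_of_one_lt₀ hκ
  set q := max qR (max qL qV) with hq
  have hq1 : q < 1 := max_lt hqR (max_lt hqL hqV)
  have hRq : qR ≤ q := le_max_left _ _
  have hLq : qL ≤ q := (le_max_left _ _).trans (le_max_right _ _)
  have hVq : qV ≤ q := (le_max_right _ _).trans (le_max_right _ _)
  have hq0 : 0 < q := by linarith
  set A := 16 / (1 - θ) with hA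
  have hA0 : 0 < A := by rw [hA]; apply div_pos <;> linarith
  set K := (KR + KL) * (6 + A) + KB * KV with hK
  have hK0 : 0 < K := by positivity
  have hKR2 : 2 * KR ≤ K := by
    have : 0 < KB * KV := by positivity
    nlinarith
  obtain ⟨n₀, hn₀⟩ : ∃ n₀ : ℕ, q ^ n₀ < (1 - θ) / 2 / K :=
    exists_pow_lt_of_lt_one (by apply div_pos _ hK0; linarith) hq1
  refine ⟨θ, K, q, L₀, n₀ + 1, hθ0, hθ1, hK0, hq0, hq1, fun n hn => ?_⟩
  have hn1 : 1 ≤ n := by omega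
  have hsmall : K * q ^ n ≤ (1 - θ) / 2 := by
    have h1 : q ^ n ≤ q ^ n₀ := pow_le_pow_of_le_one hq0.le hq1.le (by omega)
    rw [lt_div_iff₀ hK0] at hn₀
    nlinarith
  obtain ⟨a, b, z, hM⟩ := hmodes n
  obtain ⟨lam, ⟨w₀, hw₀, hw₀e⟩, hle⟩ := exists_lam (TT n y) (TT_transpose n y)
  have hone : 1 ≤ lam := by
    have h1 := hle (Pi.single (eAll n) 1)
    have h2 := TT_ge n hy (σ' := eAll n) (σ := eAll n) rfl
    simp only [Matrix.mulVec_single_one, single_dotProduct, one_mul, Matrix.col_apply,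
      Pi.single_eq_same, mul_one] at h1
    linarith
  have hlam : 0 < lam := by linarith
  have hup : lam ≤ (4 * y ^ 12) ^ (n + 1) := by
    have h1 := TT_le n hy w₀
    rw [hw₀e, dotProduct_smul, smul_eq_mul] at h1
    have h2 : 0 < w₀ ⬝ᵥ w₀ :=
      lt_of_le_of_ne (by rw [← nrm_sq]; positivity) fun h => hw₀ (dotProduct_self_eq_zero.1 h.symm)
    exact le_of_mul_le_mul_right h1 h2
  obtain ⟨p₀, r₀, p₁, r₁, pe, re, hE, hδ, hcut⟩ := hR n hn1
  obtain ⟨p₀', r₀', p₁', r₁', pe', re', hE', hδ', hcut'⟩ := hL n hn1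
  obtain ⟨Ks, hKs, hKm⟩ := hM.top hκ hlam.le hle
  have hθl : θ * lam = lam / κ := by rw [hθ]; ring
  have hqn : 0 < q ^ n := by positivity
  obtain ⟨Ωp, Ωm, lp, lm, hP⟩ := pkg (TT n y) par (TT_transpose n y) (TT_nonneg n hy) (TT_psd n y)
    (TT_par n y) (θ := θ) (δ := K * q ^ n) hlam hle ⟨w₀, hw₀, hw₀e⟩ hθ0.le (by positivity)
    (by linarith) Ks hKs (fun μ w h => hKm μ w (hθl ▸ h)) (gam n p₀ r₀) hE.orth
    (fun i j hij => gam_par n _ _ i j hij) (fun w => by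
      refine (hE.comm hy hlam.le hle hδ w).trans ?_
      have h1 : qR ^ n ≤ q ^ n := pow_le_pow_left₀ hqR0.le hRq n
      have h2 : 2 * (KR * qR ^ n) ≤ K * q ^ n := by nlinarith
      have h3 := nrm_nonneg w
      gcongr)
  refine ⟨lam, Ωp, Ωm, lp, lm, hone, hup, hle, hP, hsmall, ?_, ?_⟩
  · intro i₀ i₁ d m b f hd₀ hd₁ hb hf
    have s1 := hE.swap hy hlam hle hδ hP hθ1 hsmall (labW i₀ i₁) id (cutLt i₁) (fun j => i₁ ≤ j)
      (fun u j h => by
        by_contra hc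
        exact h (by simp [cutLt, not_le.1 hc]))
      (fun j σ h => labW_flip_right σ h) (hcut i₁ (by omega)).1 (hcut i₁ (by omega)).2 m b hb f hf
    have s2 := hE'.swap hy hlam hle hδ' hP hθ1 hsmall (labW i₀ i₁) (negW i₀ i₁) (cutGe i₀)
      (fun j => j < i₀)
      (fun u j h => by
        by_contra hc
        exact h (by simp [cutGe, not_lt.1 hc]))
      (fun j σ h => labW_flip_left σ h (by omega)) (hcut' i₀).1 (hcut' i₀).2 m b hb f hf
    simp only [List.map_id] at s1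
    have e1 : qR ^ n ≤ q ^ d := pow_le_of hqR0 hRq hq1 (by omega)
    have e2 : qR ^ (n - i₁) ≤ q ^ d := pow_le_of hqR0 hRq hq1 (by omega)
    have e3 : qL ^ n ≤ q ^ d := pow_le_of hqL0 hLq hq1 (by omega)
    have e4 : qL ^ i₀ ≤ q ^ d := pow_le_of hqL0 hLq hq1 hd₀
    have hm : (0 : ℝ) ≤ m := Nat.cast_nonneg m
    have hqd : 0 < q ^ d := by positivity
    have t1 := sym_aux hθ1 hm hKR hqd e1 e2
    have t2 := sym_aux hθ1 hm hKL hqd e3 e4
    rw [← hA] at t1 t2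
    have hL : 0 < lam ^ m := by positivity
    have t3 : KR * (6 + A) * (m + 1) * q ^ d + KL * (6 + A) * (m + 1) * q ^ d ≤
        K * (m + 1) * q ^ d := by
      have : 0 ≤ KB * KV * (m + 1) * q ^ d := by positivity
      rw [hK]; linarith
    have u1 := s1.trans (mul_le_mul_of_nonneg_right t1 hL.le)
    have u2 := s2.trans (mul_le_mul_of_nonneg_right t2 hL.le)
    have u3 := mul_le_mul_of_nonneg_right t3 hL.le
    rw [abs_le] at u1 u2 ⊢
    constructor <;> linarith [u1.1, u1.2, u2.1, u2.2]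
  · intro i j L m l b' h0 h1 h2 hj hij hb hl
    have hkill : ∀ k, gam n (a k) (b k) *ᵥ Ωp = 0 := fun k =>
      hM.kill hκ hlam.le hle (μ := lp) (by
        have := hP.lp1
        have h3 : (1 - θ) / 2 * lam ≤ (1 - θ - K * q ^ n) * lam := by gcongr; linarith
        have h4 : 0 < (1 - θ) / 2 * lam := mul_pos (by linarith) hlam
        rw [← hθl]
        linarith) hP.ep k
    obtain ⟨fa, fb, hv⟩ := hV n i L a b z Ωp h0 h1 h2 hM hkill
    refine (hB n i j L m l b' Ωp _ lam fa fb hn1 (by positivity) hlam.le hle hP.np hv (by omega) hj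
      hij hb hl).trans ?_
    have e1 : qV ^ L ≤ q ^ L := pow_le_pow_left₀ hqV0.le hVq L
    have e2 : KB * (KV * qV ^ L) ≤ K * q ^ L := by
      have h3 : KB * KV * qV ^ L ≤ KB * KV * q ^ L := by gcongr
      have h4 : 0 < (KR + KL) * (6 + A) * q ^ L := by positivity
      rw [hK]; linarith
    have hL : 0 < lam ^ m := by positivity
    gcongr

end Pool.Agent.TAF
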