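import Pool.Agent.P.MP_cb4022_pr.Defs
import Pool.Agent.P.MP_cb4022_pr.Top4

open scoped Classical Matrix
open Finset

noncomputable section

namespace Pool.Agent.TAF

theorem top5_dist_sq (x y : ℂ) (A B : ℝ) (h1 : x.re - y.re = A + B / 2)
    (h2 : x.im - y.im = √3 / 2 * B) : dist x y ^ 2 = A ^ 2 + A * B + B ^ 2 := by
  have h3 : √3 ^ 2 = (3 : ℝ) := Real.sq_sqrt (by norm_num)
  rw [Complex.dist_eq, Complex.sq_norm, Complex.normSq_apply, Complex.sub_re, Complex.sub_im,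
    h1, h2]
  linear_combination (B ^ 2 / 4) * h3

theorem dist_pos_sq (p q : ℤ × ℤ) : dist (pos p) (pos q) ^ 2 =
    ((p.1 - q.1 : ℤ) : ℝ) ^ 2 + ((p.1 - q.1 : ℤ) : ℝ) * ((p.2 - q.2 : ℤ) : ℝ) +
      ((p.2 - q.2 : ℤ) : ℝ) ^ 2 := by
  refine top5_dist_sq _ _ _ _ ?_ ?_
  · simp only [pos]
    push_cast
    ring
  · simp only [pos]
    push_cast
    ring

theorem top5_mid (p q : ℤ × ℤ) : mid s(p, q) = (pos p + pos q) / 2 := rfl

theorem top5_mid_sq (p q p' q' : ℤ × ℤ) : dist (mid s(p, q)) (mid s(p', q')) ^ 2 =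
    (((p.1 + q.1 - p'.1 - q'.1 : ℤ) : ℝ) / 2) ^ 2 +
      (((p.1 + q.1 - p'.1 - q'.1 : ℤ) : ℝ) / 2) * (((p.2 + q.2 - p'.2 - q'.2 : ℤ) : ℝ) / 2) +
      (((p.2 + q.2 - p'.2 - q'.2 : ℤ) : ℝ) / 2) ^ 2 := by
  refine top5_dist_sq _ _ _ _ ?_ ?_
  · simp only [top5_mid, pos, Complex.div_ofNat_re, Complex.add_re]
    push_cast
    ring
  · simp only [top5_mid, pos, Complex.div_ofNat_im, Complex.add_im]
    push_cast
    ring

theorem top5_near (z p : ℤ × ℤ) {r : ℕ} (hr : 3 ≤ r)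
    (hp : InBox (z.1 - (2 * r + 1)) (z.1 + 2 * r) z.2 (z.2 + (6 * r + 2)) p) :
    dist (pos p) (pos z) ≤ 9 * r := by
  obtain ⟨h1, h2, h3, h4⟩ := hp
  have hr' : (3 : ℤ) ≤ r := by exact_mod_cast hr
  have key : (p.1 - z.1) ^ 2 + (p.1 - z.1) * (p.2 - z.2) + (p.2 - z.2) ^ 2 ≤ (9 * (r : ℤ)) ^ 2 := by
    have a1 : (p.1 - z.1) ^ 2 ≤ (2 * (r : ℤ) + 1) ^ 2 := by
      apply sq_le_sq'
      · linarith
      · linarith
    have a2 : (p.2 - z.2) ^ 2 ≤ (6 * (r : ℤ) + 2) ^ 2 := by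
      apply sq_le_sq'
      · linarith
      · linarith
    have a3 : (p.1 - z.1) * (p.2 - z.2) ≤ (2 * (r : ℤ)) * (6 * r + 2) := by
      calc (p.1 - z.1) * (p.2 - z.2) ≤ (2 * (r : ℤ)) * (p.2 - z.2) :=
            mul_le_mul_of_nonneg_right (by linarith) (by linarith)
        _ ≤ (2 * (r : ℤ)) * (6 * r + 2) :=
            mul_le_mul_of_nonneg_left (by linarith) (by linarith)
    nlinarith
  refine le_of_sq_le_sq ?_ (by positivity)
  rw [dist_pos_sq]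
  exact_mod_cast key

theorem bigLoop_of_cross (S : Finset (ℤ × ℤ)) (z : ℤ × ℤ) {r : ℕ} (hr : 3 ≤ r)
    (h₁ : Cross (fun p => decide (p ∉ S)) true z (2 * r))
    (h₂ : Cross (fun p => decide (p ∉ S)) false (z.1 - (2 * r + 1), z.2 + (4 * r + 2)) (2 * r)) :
    BigLoop (pos z) (9 * r) r S := by
  obtain ⟨p₀, q₀, p₁, q₁, p₂, q₂, -, -, -, hp₀, hq₀, hw, hr1, hr2, hd⟩ :=
    loops_of_cross S (a₀ := z.1 - (2 * r + 1)) (a₁ := z.1 + 2 * r) (b₀ := z.2)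
      (b₁ := z.2 + (6 * r + 2)) h₁ h₂
      (by
        rintro p ⟨a1, a2, a3, a4⟩
        push_cast at a2 a4
        refine ⟨?_, ?_, ?_, ?_⟩ <;> omega)
      (by
        rintro p ⟨a1, a2, a3, a4⟩
        push_cast at a1 a2 a3 a4
        refine ⟨?_, ?_, ?_, ?_⟩ <;> omega)
  refine ⟨s(p₀, q₀), s(p₂, q₂), s(p₁, q₁), hw, hr2, hr1, ?_, ?_⟩
  · have e1 := top5_near z p₀ hr hp₀
    have e2 := top5_near z q₀ hr hq₀
    rw [top5_mid, Complex.dist_eq] at *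
    have e : (pos p₀ + pos q₀) / 2 - pos z = ((pos p₀ - pos z) + (pos q₀ - pos z)) / 2 := by ring
    rw [e, norm_div]
    have := norm_add_le (pos p₀ - pos z) (pos q₀ - pos z)
    have h2 : ‖(2 : ℂ)‖ = 2 := by simp
    rw [h2]
    linarith
  · refine le_of_sq_le_sq ?_ dist_nonneg
    rw [top5_mid_sq]
    have hr0 : (0 : ℝ) ≤ r := Nat.cast_nonneg r
    set A : ℝ := ((p₂.1 + q₂.1 - p₁.1 - q₁.1 : ℤ) : ℝ) / 2 with hA
    set B : ℝ := ((p₂.2 + q₂.2 - p₁.2 - q₁.2 : ℤ) : ℝ) / 2 with hB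
    rcases hd with ⟨d1, -, -, d4⟩ | ⟨d1, -, -, d4⟩
    · have : (4 * r : ℤ) ≤ p₂.1 + q₂.1 - p₁.1 - q₁.1 := by
        push_cast at d1 d4
        omega
      have h' : (4 * r : ℝ) ≤ ((p₂.1 + q₂.1 - p₁.1 - q₁.1 : ℤ) : ℝ) := by exact_mod_cast this
      have hA' : 2 * (r : ℝ) ≤ A := by rw [hA]; linarith
      nlinarith [sq_nonneg (A / 2 + B), mul_self_le_mul_self (by positivity) hA']
    · have : (4 * r : ℤ) ≤ p₂.2 + q₂.2 - p₁.2 - q₁.2 := by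
        push_cast at d1 d4
        omega
      have h' : (4 * r : ℝ) ≤ ((p₂.2 + q₂.2 - p₁.2 - q₁.2 : ℤ) : ℝ) := by exact_mod_cast this
      have hB' : 2 * (r : ℝ) ≤ B := by rw [hB]; linarith
      nlinarith [sq_nonneg (A + B / 2), mul_self_le_mul_self (by positivity) hB']

end Pool.Agent.TAF
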